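import Mathlib

/-!
Weyl differencing for exponential sums over boxes of Gaussian integers whose phase is the
imaginary part of a holomorphic function.
-/

namespace Pool.Agent.Lib.MP_a17b09_nt.LP

open Finset

/-- The point of the complex plane belonging to a pair of integers. -/
noncomputable def zc (w : ℤ × ℤ) : ℂ := (w.1 : ℂ) + (w.2 : ℂ) * Complex.I

lemma zc_add (v w : ℤ × ℤ) : zc (v + w) = zc v + zc w := by
  simp only [zc, Prod.fst_add, Prod.snd_add]
  push_cast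
  ring

lemma zc_re (w : ℤ × ℤ) : (zc w).re = w.1 := by
  simp [zc]

lemma zc_im (w : ℤ × ℤ) : (zc w).im = w.2 := by
  simp [zc]

/-- The unit vector of angle `x`. -/
noncomputable def ph (x : ℝ) : ℂ := Complex.exp ((x : ℂ) * Complex.I)

lemma norm_ph (x : ℝ) : ‖ph x‖ = 1 := Complex.norm_exp_ofReal_mul_I x

lemma ph_add (x y : ℝ) : ph (x + y) = ph x * ph y := by
  simp only [ph, ← Complex.exp_add]
  congr 1
  push_cast
  ring

lemma ph_zero : ph 0 = 1 := by simp [ph]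

lemma ph_nat_mul (n : ℕ) (x : ℝ) : ph (n * x) = ph x ^ n := by
  simp only [ph, ← Complex.exp_nat_mul]
  congr 1
  push_cast
  ring

lemma conj_ph (x : ℝ) : (starRingEnd ℂ) (ph x) = ph (-x) := by
  simp only [ph, ← Complex.exp_conj]
  congr 1
  simp

lemma ph_mul_conj (x y : ℝ) : ph x * (starRingEnd ℂ) (ph y) = ph (x - y) := by
  rw [conj_ph, ← ph_add, sub_eq_add_neg]

lemma norm_ph_sub_le (x y : ℝ) : ‖ph x - ph y‖ ≤ |x - y| := by
  have h : ph x - ph y = ph y * (ph (x - y) - 1) := by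
    rw [mul_sub, ← ph_add, mul_one]
    congr 2
    ring
  rw [h, norm_mul, norm_ph, one_mul]
  have := Real.norm_exp_I_mul_ofReal_sub_one_le (x := x - y)
  rw [Real.norm_eq_abs] at this
  simpa [ph, mul_comm] using this

lemma half_le_norm_ph_sub_one (a : ℝ) (ha : |a| ≤ 1) : |a| / 2 ≤ ‖ph a - 1‖ := by
  have him : (ph a - 1).im = Real.sin a := by
    simp [ph, Complex.exp_ofReal_mul_I_im]
  have h1 : |Real.sin a| ≤ ‖ph a - 1‖ := by
    rw [← him]
    exact Complex.abs_im_le_norm _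
  refine le_trans ?_ h1
  have h2 : |Real.sin a| = Real.sin |a| := by
    rcases le_total 0 a with h | h
    · rw [abs_of_nonneg h, abs_of_nonneg]
      apply Real.sin_nonneg_of_nonneg_of_le_pi h
      have := Real.pi_gt_three
      rw [abs_of_nonneg h] at ha
      linarith
    · rw [abs_of_nonpos h, Real.sin_neg, abs_of_nonpos]
      have := Real.pi_gt_three
      rw [abs_of_nonpos h] at ha
      have h3 := Real.sin_nonneg_of_nonneg_of_le_pi (x := -a) (by linarith) (by linarith)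
      rw [Real.sin_neg] at h3
      linarith
  rw [h2]
  have hpi := Real.pi_gt_three
  have hpi' := Real.pi_le_four
  have h3 := Real.mul_le_sin (x := |a|) (abs_nonneg a) (by linarith)
  refine le_trans ?_ h3
  have h4 : (1 : ℝ) / 2 ≤ 2 / Real.pi := by
    rw [div_le_div_iff₀ (by norm_num) (by linarith)]
    linarith
  have := mul_le_mul_of_nonneg_right h4 (abs_nonneg a)
  linarith

lemma geom_ph_le (l : ℕ) (a : ℝ) (ha0 : a ≠ 0) (ha : |a| ≤ 1) :
    ‖∑ s ∈ range l, ph (s * a)‖ ≤ 4 / |a| := by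
  have hpos : 0 < |a| := abs_pos.mpr ha0
  have h1 : (∑ s ∈ range l, ph (s * a)) * (ph a - 1) = ph a ^ l - 1 := by
    rw [← geom_sum_mul]
    congr 1
    apply Finset.sum_congr rfl
    intro s _
    exact ph_nat_mul s a
  have h2 : ‖∑ s ∈ range l, ph (s * a)‖ * ‖ph a - 1‖ ≤ 2 := by
    rw [← norm_mul, h1]
    calc ‖ph a ^ l - 1‖ ≤ ‖ph a ^ l‖ + ‖(1 : ℂ)‖ := norm_sub_le _ _
      _ = 2 := by rw [norm_pow, norm_ph]; norm_num
  have h3 := half_le_norm_ph_sub_one a ha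
  have h4 : ‖∑ s ∈ range l, ph (s * a)‖ * (|a| / 2) ≤ 2 :=
    le_trans (mul_le_mul_of_nonneg_left h3 (norm_nonneg _)) h2
  rw [le_div_iff₀ hpos]
  linarith

lemma norm_sum_ph_le {ι : Type*} (s : Finset ι) (g : ι → ℝ) : ‖∑ i ∈ s, ph (g i)‖ ≤ s.card := by
  refine le_trans (norm_sum_le _ _) ?_
  simp [norm_ph]

/-- Taylor expansion of order two on a convex set. -/
lemma taylor_two (Om : Set ℂ) (hOm : Convex ℝ Om) (G0 G1 G2 : ℂ → ℂ) (mu : ℝ)
    (h0 : ∀ z ∈ Om, HasDerivAt G0 (G1 z) z) (h1 : ∀ z ∈ Om, HasDerivAt G1 (G2 z) z)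
    (h2 : ∀ z ∈ Om, ‖G2 z‖ ≤ mu) (z t : ℂ) (hz : z ∈ Om) (hzt : z + t ∈ Om) :
    ‖G0 (z + t) - G0 z - G1 z * t‖ ≤ mu * ‖t‖ ^ 2 := by
  have hmu : 0 ≤ mu := le_trans (norm_nonneg _) (h2 z hz)
  have hseg : segment ℝ z (z + t) ⊆ Om := hOm.segment_subset hz hzt
  have hdist : ∀ y ∈ segment ℝ z (z + t), ‖y - z‖ ≤ ‖t‖ := by
    intro y hy
    rw [segment_eq_image'] at hy
    obtain ⟨c, hc, rfl⟩ := hy
    simp only [add_sub_cancel_left]
    rw [norm_smul, Real.norm_eq_abs, abs_of_nonneg hc.1]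
    exact mul_le_of_le_one_left (norm_nonneg _) hc.2
  have hG1 : ∀ y ∈ segment ℝ z (z + t), ‖G1 y - G1 z‖ ≤ mu * ‖t‖ := by
    intro y hy
    have := hOm.norm_image_sub_le_of_norm_hasDerivWithin_le (f := G1) (f' := G2) (C := mu)
      (fun x hx => (h1 x hx).hasDerivWithinAt) h2 hz (hseg hy)
    exact le_trans this (mul_le_mul_of_nonneg_left (hdist y hy) hmu)
  have hd : ∀ y ∈ segment ℝ z (z + t),
      HasDerivWithinAt (fun y => G0 y - G1 z * y) (G1 y - G1 z) (segment ℝ z (z + t)) y := by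
    intro y hy
    have h3 := (h0 y (hseg hy)).hasDerivWithinAt (s := segment ℝ z (z + t))
    have h4 : HasDerivWithinAt (fun y : ℂ => G1 z * y) (G1 z * 1) (segment ℝ z (z + t)) y :=
      (hasDerivWithinAt_id y _).const_mul (G1 z)
    rw [mul_one] at h4
    exact h3.sub h4
  have key := (convex_segment z (z + t)).norm_image_sub_le_of_norm_hasDerivWithin_le
    (f := fun y => G0 y - G1 z * y) (f' := fun y => G1 y - G1 z) (C := mu * ‖t‖)
    hd hG1 (left_mem_segment ℝ z (z + t)) (right_mem_segment ℝ z (z + t))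
  have e1 : (fun y => G0 y - G1 z * y) (z + t) - (fun y => G0 y - G1 z * y) z
      = G0 (z + t) - G0 z - G1 z * t := by
    simp only []
    ring
  rw [e1] at key
  have e2 : z + t - z = t := by ring
  rw [e2] at key
  calc ‖G0 (z + t) - G0 z - G1 z * t‖ ≤ mu * ‖t‖ * ‖t‖ := key
    _ = mu * ‖t‖ ^ 2 := by ring

/-- The sum over a square block. -/
lemma block_le (Om : Set ℂ) (hOm : Convex ℝ Om) (G0 G1 G2 : ℂ → ℂ) (lam mu : ℝ)
    (hlam : 0 < lam) (h0 : ∀ z ∈ Om, HasDerivAt G0 (G1 z) z)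
    (h1 : ∀ z ∈ Om, HasDerivAt G1 (G2 z) z)
    (h2 : ∀ z ∈ Om, ‖G2 z‖ ≤ mu) (z : ℂ) (hz : z ∈ Om) (l : ℕ)
    (hl : ∀ s ∈ range l ×ˢ range l, z + zc ((s.1 : ℤ), (s.2 : ℤ)) ∈ Om)
    (hlow : lam ≤ ‖G1 z‖) (hup : ‖G1 z‖ ≤ 1) :
    ‖∑ s ∈ range l ×ˢ range l, ph (G0 (z + zc ((s.1 : ℤ), (s.2 : ℤ)))).im‖
      ≤ 8 * l / lam + 2 * mu * (l : ℝ) ^ 4 := by
  have hmu : 0 ≤ mu := le_trans (norm_nonneg _) (h2 z hz)
  set al : ℝ := (G1 z).im with hal
  set be : ℝ := (G1 z).re with hbe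
  have hmain : ‖∑ s ∈ range l ×ˢ range l, ph ((G0 z).im + ((s.1 : ℝ) * al + (s.2 : ℝ) * be))‖
      ≤ 8 * l / lam := by
    have e : ∑ s ∈ range l ×ˢ range l, ph ((G0 z).im + ((s.1 : ℝ) * al + (s.2 : ℝ) * be))
        = ph (G0 z).im * ((∑ s ∈ range l, ph (s * al)) * (∑ s ∈ range l, ph (s * be))) := by
      rw [Finset.sum_mul_sum, ← Finset.sum_product', Finset.mul_sum]
      apply Finset.sum_congr rfl
      intro s _
      rw [ph_add, ph_add]
    rw [e, norm_mul, norm_ph, one_mul, norm_mul]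
    have hA : ‖∑ s ∈ range l, ph (s * al)‖ ≤ l := by
      have := norm_sum_ph_le (range l) (fun s => (s : ℝ) * al)
      simpa using this
    have hB : ‖∑ s ∈ range l, ph (s * be)‖ ≤ l := by
      have := norm_sum_ph_le (range l) (fun s => (s : ℝ) * be)
      simpa using this
    have hal1 : |al| ≤ 1 := le_trans (Complex.abs_im_le_norm _) hup
    have hbe1 : |be| ≤ 1 := le_trans (Complex.abs_re_le_norm _) hup
    have hsum : lam ≤ |be| + |al| := le_trans hlow (Complex.norm_le_abs_re_add_abs_im _)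
    have hlnn : (0 : ℝ) ≤ l := Nat.cast_nonneg l
    rcases le_total |al| |be| with h | h
    · have hb : lam / 2 ≤ |be| := by linarith
      have hb0 : be ≠ 0 := by
        intro h3
        rw [h3, abs_zero] at hb
        linarith
      have hB' := geom_ph_le l be hb0 hbe1
      have h4 : 4 / |be| ≤ 8 / lam := by
        rw [div_le_div_iff₀ (by linarith) hlam]
        linarith
      calc _ ≤ (l : ℝ) * (8 / lam) :=
            mul_le_mul hA (le_trans hB' h4) (norm_nonneg _) hlnn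
        _ = 8 * l / lam := by ring
    · have hb : lam / 2 ≤ |al| := by linarith
      have hb0 : al ≠ 0 := by
        intro h3
        rw [h3, abs_zero] at hb
        linarith
      have hA' := geom_ph_le l al hb0 hal1
      have h4 : 4 / |al| ≤ 8 / lam := by
        rw [div_le_div_iff₀ (by linarith) hlam]
        linarith
      calc _ ≤ (8 / lam) * (l : ℝ) :=
            mul_le_mul (le_trans hA' h4) hB (norm_nonneg _) (by positivity)
        _ = 8 * l / lam := by ring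
  have hdiff : ‖∑ s ∈ range l ×ˢ range l, ph (G0 (z + zc ((s.1 : ℤ), (s.2 : ℤ)))).im
      - ∑ s ∈ range l ×ˢ range l, ph ((G0 z).im + ((s.1 : ℝ) * al + (s.2 : ℝ) * be))‖
      ≤ 2 * mu * (l : ℝ) ^ 4 := by
    rw [← Finset.sum_sub_distrib]
    refine le_trans (norm_sum_le _ _) ?_
    have hterm : ∀ s ∈ range l ×ˢ range l,
        ‖ph (G0 (z + zc ((s.1 : ℤ), (s.2 : ℤ)))).im
          - ph ((G0 z).im + ((s.1 : ℝ) * al + (s.2 : ℝ) * be))‖ ≤ 2 * mu * (l : ℝ) ^ 2 := by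
      intro s hs
      refine le_trans (norm_ph_sub_le _ _) ?_
      have ht := taylor_two Om hOm G0 G1 G2 mu h0 h1 h2 z (zc ((s.1 : ℤ), (s.2 : ℤ))) hz
        (hl s hs)
      have e : (G0 (z + zc ((s.1 : ℤ), (s.2 : ℤ)))).im
          - ((G0 z).im + ((s.1 : ℝ) * al + (s.2 : ℝ) * be))
          = (G0 (z + zc ((s.1 : ℤ), (s.2 : ℤ))) - G0 z
            - G1 z * zc ((s.1 : ℤ), (s.2 : ℤ))).im := by
        rw [Complex.sub_im, Complex.sub_im, Complex.mul_im, zc_re, zc_im, ← hal, ← hbe]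
        push_cast
        ring
      rw [e]
      refine le_trans (Complex.abs_im_le_norm _) (le_trans ht ?_)
      have hs' := Finset.mem_product.mp hs
      have h3 : (s.1 : ℝ) ≤ l := by exact_mod_cast (Finset.mem_range.mp hs'.1).le
      have h4 : (s.2 : ℝ) ≤ l := by exact_mod_cast (Finset.mem_range.mp hs'.2).le
      have h5 : ‖zc ((s.1 : ℤ), (s.2 : ℤ))‖ ^ 2 ≤ 2 * (l : ℝ) ^ 2 := by
        rw [← Complex.normSq_eq_norm_sq, Complex.normSq_apply, zc_re, zc_im]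
        push_cast
        nlinarith [Nat.cast_nonneg (α := ℝ) s.1, Nat.cast_nonneg (α := ℝ) s.2]
      calc mu * ‖zc ((s.1 : ℤ), (s.2 : ℤ))‖ ^ 2 ≤ mu * (2 * (l : ℝ) ^ 2) :=
            mul_le_mul_of_nonneg_left h5 hmu
        _ = 2 * mu * (l : ℝ) ^ 2 := by ring
    refine le_trans (Finset.sum_le_sum hterm) ?_
    rw [Finset.sum_const, Finset.card_product, Finset.card_range, nsmul_eq_mul]
    push_cast
    apply le_of_eq
    ring
  have := norm_add_le (∑ s ∈ range l ×ˢ range l, ph (G0 (z + zc ((s.1 : ℤ), (s.2 : ℤ)))).im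
      - ∑ s ∈ range l ×ˢ range l, ph ((G0 z).im + ((s.1 : ℝ) * al + (s.2 : ℝ) * be)))
      (∑ s ∈ range l ×ˢ range l, ph ((G0 z).im + ((s.1 : ℝ) * al + (s.2 : ℝ) * be)))
  rw [sub_add_cancel] at this
  linarith

/-- The box of integer points. -/
noncomputable def rect (x0 x1 y0 y1 : ℤ) : Finset (ℤ × ℤ) := Ico x0 x1 ×ˢ Ico y0 y1

lemma mem_rect {x0 x1 y0 y1 : ℤ} {w : ℤ × ℤ} :
    w ∈ rect x0 x1 y0 y1 ↔ (x0 ≤ w.1 ∧ w.1 < x1) ∧ (y0 ≤ w.2 ∧ w.2 < y1) := by
  simp [rect]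

lemma card_rect_le {x0 x1 y0 y1 : ℤ} {l0 : ℕ} (hx : x1 ≤ x0 + l0) (hy : y1 ≤ y0 + l0) :
    (rect x0 x1 y0 y1).card ≤ l0 ^ 2 := by
  rw [rect, Finset.card_product, Int.card_Ico, Int.card_Ico, sq]
  apply Nat.mul_le_mul
  · omega
  · omega

lemma base_bound (Om : Set ℂ) (hOm : Convex ℝ Om) (G0 G1 G2 : ℂ → ℂ) (lam mu : ℝ)
    (hlam : 0 < lam) (hmu : 0 ≤ mu) (h0 : ∀ z ∈ Om, HasDerivAt G0 (G1 z) z)
    (h1 : ∀ z ∈ Om, HasDerivAt G1 (G2 z) z)
    (h2 : ∀ z ∈ Om, ‖G2 z‖ ≤ mu) (hlow : ∀ z ∈ Om, lam ≤ ‖G1 z‖)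
    (hup : ∀ z ∈ Om, ‖G1 z‖ ≤ 1) (x0 x1 y0 y1 : ℤ) (l0 l : ℕ) (hl : 1 ≤ l)
    (hx : x1 ≤ x0 + l0) (hy : y1 ≤ y0 + l0)
    (hR : ∀ w ∈ rect x0 x1 y0 y1, zc w ∈ Om) :
    (l : ℝ) ^ 2 * ‖∑ w ∈ rect x0 x1 y0 y1, ph (G0 (zc w)).im‖
      ≤ (l0 : ℝ) ^ 2 * (8 * l / lam + 2 * mu * (l : ℝ) ^ 4) + 2 * (l : ℝ) ^ 3 * l0 := by
  classical
  set f : ℤ × ℤ → ℂ := fun w => ph (G0 (zc w)).im with hf
  set R := rect x0 x1 y0 y1 with hRdef
  set R' := rect x0 (x1 - l + 1) y0 (y1 - l + 1) with hR'def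
  set T : Finset (ℕ × ℕ) := range l ×ˢ range l with hT
  have hTcard : T.card = l ^ 2 := by
    rw [hT, Finset.card_product, Finset.card_range, sq]
  have hinj : ∀ t : ℕ × ℕ, Function.Injective
      (fun w : ℤ × ℤ => w + ((t.1 : ℤ), (t.2 : ℤ))) := fun t => add_left_injective _
  have hsub : ∀ t ∈ T, R'.image (fun w => w + ((t.1 : ℤ), (t.2 : ℤ))) ⊆ R := by
    intro t ht v hv
    obtain ⟨w, hw, rfl⟩ := Finset.mem_image.mp hv
    have ht' := Finset.mem_product.mp ht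
    have ht1 := Finset.mem_range.mp ht'.1
    have ht2 := Finset.mem_range.mp ht'.2
    rw [hR'def, mem_rect] at hw
    rw [hRdef, mem_rect]
    simp only [Prod.fst_add, Prod.snd_add]
    omega
  have hcard : (R.card : ℝ) ≤ R'.card + 2 * l * l0 := by
    have h3 : R.card ≤ R'.card + 2 * l * l0 := by
      rw [hRdef, hR'def, rect, rect, Finset.card_product, Finset.card_product, Int.card_Ico,
        Int.card_Ico, Int.card_Ico, Int.card_Ico]
      have ha1 : (x1 - x0).toNat ≤ l0 := by omega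
      have hb1 : (y1 - y0).toNat ≤ l0 := by omega
      have ha2 : (x1 - x0).toNat ≤ (x1 - l + 1 - x0).toNat + l := by omega
      have hb2 : (y1 - y0).toNat ≤ (y1 - l + 1 - y0).toNat + l := by omega
      have ha3 : (x1 - l + 1 - x0).toNat ≤ (x1 - x0).toNat := by omega
      generalize (x1 - x0).toNat = a at *
      generalize (y1 - y0).toNat = b at *
      generalize (x1 - l + 1 - x0).toNat = a' at *
      generalize (y1 - l + 1 - y0).toNat = b' at *
      calc a * b ≤ (a' + l) * b := Nat.mul_le_mul_right _ ha2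
        _ = a' * b + l * b := by ring
        _ ≤ a' * (b' + l) + l * l0 :=
            Nat.add_le_add (Nat.mul_le_mul_left _ hb2) (Nat.mul_le_mul_left _ hb1)
        _ = a' * b' + (l * a' + l * l0) := by ring
        _ ≤ a' * b' + (l * l0 + l * l0) := by
            apply Nat.add_le_add_left
            apply Nat.add_le_add_right
            exact Nat.mul_le_mul_left _ (le_trans ha3 ha1)
        _ = a' * b' + 2 * l * l0 := by ring
    exact_mod_cast h3
  have hone : ∀ t ∈ T, ‖∑ w ∈ R, f w - ∑ w ∈ R', f (w + ((t.1 : ℤ), (t.2 : ℤ)))‖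
      ≤ 2 * l * l0 := by
    intro t ht
    have e1 : ∑ w ∈ R', f (w + ((t.1 : ℤ), (t.2 : ℤ)))
        = ∑ v ∈ R'.image (fun w => w + ((t.1 : ℤ), (t.2 : ℤ))), f v := by
      rw [Finset.sum_image (fun x _ y _ h => hinj t h)]
    rw [e1, ← Finset.sum_sdiff (hsub t ht), add_sub_cancel_right]
    refine le_trans (norm_sum_ph_le _ _) ?_
    have h4 := Finset.card_sdiff_add_card_eq_card (hsub t ht)
    rw [Finset.card_image_of_injective _ (hinj t)] at h4
    have h5 : ((R \ R'.image (fun w => w + ((t.1 : ℤ), (t.2 : ℤ)))).card : ℝ) + R'.card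
        = R.card := by exact_mod_cast h4
    linarith
  have hswap : ∑ t ∈ T, (∑ w ∈ R, f w - ∑ w ∈ R', f (w + ((t.1 : ℤ), (t.2 : ℤ))))
      = (l : ℂ) ^ 2 * ∑ w ∈ R, f w
        - ∑ w ∈ R', ∑ t ∈ T, f (w + ((t.1 : ℤ), (t.2 : ℤ))) := by
    rw [Finset.sum_sub_distrib, Finset.sum_const, hTcard, nsmul_eq_mul,
      Finset.sum_comm (s := T) (t := R')]
    push_cast
    rfl
  have hA : ‖(l : ℂ) ^ 2 * ∑ w ∈ R, f w
      - ∑ w ∈ R', ∑ t ∈ T, f (w + ((t.1 : ℤ), (t.2 : ℤ)))‖ ≤ (l : ℝ) ^ 2 * (2 * l * l0) := by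
    rw [← hswap]
    refine le_trans (norm_sum_le _ _) ?_
    refine le_trans (Finset.sum_le_sum hone) ?_
    rw [Finset.sum_const, hTcard, nsmul_eq_mul]
    push_cast
    exact le_refl _
  have hB : ‖∑ w ∈ R', ∑ t ∈ T, f (w + ((t.1 : ℤ), (t.2 : ℤ)))‖
      ≤ (l0 : ℝ) ^ 2 * (8 * l / lam + 2 * mu * (l : ℝ) ^ 4) := by
    refine le_trans (norm_sum_le _ _) ?_
    have hblock : ∀ w ∈ R', ‖∑ t ∈ T, f (w + ((t.1 : ℤ), (t.2 : ℤ)))‖
        ≤ 8 * l / lam + 2 * mu * (l : ℝ) ^ 4 := by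
      intro w hw
      have hwO : zc w ∈ Om := by
        have h3 : ((0 : ℕ), (0 : ℕ)) ∈ T := by
          rw [hT, Finset.mem_product]
          simp only [Finset.mem_range]
          omega
        have h4 := hsub _ h3 (Finset.mem_image_of_mem _ hw)
        have h5 := hR _ h4
        have h6 : w + ((((0 : ℕ), (0 : ℕ)).1 : ℤ), (((0 : ℕ), (0 : ℕ)).2 : ℤ)) = w := by
          ext <;> simp
        simp only [h6] at h5
        exact h5
      have h6 := block_le Om hOm G0 G1 G2 lam mu hlam h0 h1 h2 (zc w) hwO l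
        (fun s hs => by
          rw [← zc_add]
          exact hR _ (hsub s hs (Finset.mem_image_of_mem _ hw)))
        (hlow _ hwO) (hup _ hwO)
      simpa only [hf, zc_add] using h6
    refine le_trans (Finset.sum_le_sum hblock) ?_
    rw [Finset.sum_const, nsmul_eq_mul]
    apply mul_le_mul_of_nonneg_right _ (by positivity)
    have h7 : R'.card ≤ l0 ^ 2 := card_rect_le (by omega) (by omega)
    exact_mod_cast h7
  have hfin := norm_add_le ((l : ℂ) ^ 2 * ∑ w ∈ R, f w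
      - ∑ w ∈ R', ∑ t ∈ T, f (w + ((t.1 : ℤ), (t.2 : ℤ))))
      (∑ w ∈ R', ∑ t ∈ T, f (w + ((t.1 : ℤ), (t.2 : ℤ))))
  rw [sub_add_cancel, norm_mul, norm_pow, Complex.norm_natCast] at hfin
  have e9 : (l : ℝ) ^ 2 * (2 * l * l0) = 2 * (l : ℝ) ^ 3 * l0 := by ring
  rw [e9] at hA
  linarith

end Pool.Agent.Lib.MP_a17b09_nt.LP
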