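import Mathlib

/-!
Module G: moments of the divisor function, the number of Gaussian divisors of a rational integer,
and the number of quadruples of Gaussian integers whose product is real.
-/

set_option autoImplicit false

namespace Pool.Agent.Lib.MP_a17b09_nt.LP

open Finset
open scoped Pointwise

/-- submultiplicativity of the divisor function -/
theorem card_divisors_mul_le (m n : ℕ) :
    (m * n).divisors.card ≤ m.divisors.card * n.divisors.card := by
  rw [Nat.divisors_mul]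
  exact Finset.card_mul_le

theorem sum_divisors_pow_div (k X : ℕ) :
    ∑ n ∈ Finset.Icc 1 X, (n.divisors.card : ℝ) ^ k / n ≤ (1 + Real.log X) ^ (2 ^ k) := by
  classical
  induction k with
  | zero =>
    have h := harmonic_le_one_add_log X
    simp only [pow_zero, pow_one]
    refine le_trans (le_of_eq ?_) h
    rw [harmonic_eq_sum_Icc]
    push_cast
    apply Finset.sum_congr rfl
    intro n _
    rw [one_div]
  | succ k ih =>
    set F : ℕ × ℕ → ℝ := fun p => ((p.1.divisors.card : ℝ) ^ k / p.1) *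
      ((p.2.divisors.card : ℝ) ^ k / p.2) with hF
    have hF0 : ∀ p, 0 ≤ F p := fun p => by simp only [hF]; positivity
    have h1 : ∑ n ∈ Finset.Icc 1 X, (n.divisors.card : ℝ) ^ (k + 1) / n ≤
        ∑ n ∈ Finset.Icc 1 X, ∑ p ∈ n.divisorsAntidiagonal, F p := by
      apply Finset.sum_le_sum
      intro n hn
      have hn1 := (Finset.mem_Icc.1 hn).1
      have e : (n.divisors.card : ℝ) ^ (k + 1) / n =
          ∑ p ∈ n.divisorsAntidiagonal, (n.divisors.card : ℝ) ^ k / n := by
        have hc : n.divisorsAntidiagonal.card = n.divisors.card := by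
          rw [← Nat.map_div_right_divisors, Finset.card_map]
        rw [Finset.sum_const, nsmul_eq_mul, hc, pow_succ]
        ring
      rw [e]
      apply Finset.sum_le_sum
      intro p hp
      rw [Nat.mem_divisorsAntidiagonal] at hp
      obtain ⟨hp1, hp2⟩ := hp
      simp only [hF]
      rw [← hp1]
      push_cast
      rw [div_mul_div_comm, ← mul_pow]
      apply div_le_div_of_nonneg_right _ (by positivity)
      apply pow_le_pow_left₀ (by positivity)
      exact_mod_cast card_divisors_mul_le p.1 p.2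
    have h2 : ∑ n ∈ Finset.Icc 1 X, ∑ p ∈ n.divisorsAntidiagonal, F p ≤
        ∑ p ∈ Finset.Icc 1 X ×ˢ Finset.Icc 1 X, F p := by
      set Q := (Finset.Icc 1 X ×ˢ Finset.Icc 1 X).filter (fun p : ℕ × ℕ => p.1 * p.2 ≤ X) with hQ
      have h3 : ∑ p ∈ Q, F p ≤ ∑ p ∈ Finset.Icc 1 X ×ˢ Finset.Icc 1 X, F p :=
        Finset.sum_le_sum_of_subset_of_nonneg (Finset.filter_subset _ _) (fun p _ _ => hF0 p)
      refine le_trans ?_ h3
      rw [← Finset.sum_fiberwise_of_maps_to (s := Q) (t := Finset.Icc 1 X)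
        (g := fun p : ℕ × ℕ => p.1 * p.2) (by
          intro p hp
          rw [hQ, Finset.mem_filter, Finset.mem_product, Finset.mem_Icc, Finset.mem_Icc] at hp
          rw [Finset.mem_Icc]
          exact ⟨Nat.mul_pos hp.1.1.1 hp.1.2.1, hp.2⟩)]
      apply Finset.sum_le_sum
      intro n hn
      apply Finset.sum_le_sum_of_subset_of_nonneg
      · intro p hp
        rw [Nat.mem_divisorsAntidiagonal] at hp
        rw [Finset.mem_Icc] at hn
        rw [Finset.mem_filter, hQ, Finset.mem_filter, Finset.mem_product, Finset.mem_Icc,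
          Finset.mem_Icc]
        have hp1 : 0 < p.1 := Nat.pos_of_ne_zero (by
          intro h; rw [h, zero_mul] at hp; omega)
        have hp2 : 0 < p.2 := Nat.pos_of_ne_zero (by
          intro h; rw [h, mul_zero] at hp; omega)
        have h4 : p.1 ≤ p.1 * p.2 := Nat.le_mul_of_pos_right _ hp2
        have h5 : p.2 ≤ p.1 * p.2 := Nat.le_mul_of_pos_left _ hp1
        refine ⟨⟨⟨⟨hp1, by omega⟩, ⟨hp2, by omega⟩⟩, by omega⟩, hp.1⟩
      · intro p _ _; exact hF0 p
    refine (h1.trans h2).trans ?_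
    rw [Finset.sum_product]
    simp only [hF]
    rw [← Finset.sum_mul_sum]
    have h6 : (1 + Real.log X) ^ (2 ^ (k + 1)) =
        (1 + Real.log X) ^ (2 ^ k) * (1 + Real.log X) ^ (2 ^ k) := by
      rw [← pow_add]; congr 1; ring
    rw [h6]
    have h7 : 0 ≤ ∑ n ∈ Finset.Icc 1 X, (n.divisors.card : ℝ) ^ k / n :=
      Finset.sum_nonneg (fun n _ => by positivity)
    exact mul_le_mul ih ih h7 (h7.trans ih)

theorem sum_divisors_pow (k X : ℕ) :
    ∑ n ∈ Finset.Icc 1 X, (n.divisors.card : ℝ) ^ k ≤ X * (1 + Real.log X) ^ (2 ^ k) := by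
  have h1 := sum_divisors_pow_div k X
  have h2 : ∑ n ∈ Finset.Icc 1 X, (n.divisors.card : ℝ) ^ k ≤
      X * ∑ n ∈ Finset.Icc 1 X, (n.divisors.card : ℝ) ^ k / n := by
    rw [Finset.mul_sum]
    apply Finset.sum_le_sum
    intro n hn
    rw [Finset.mem_Icc] at hn
    have hn0 : (0 : ℝ) < n := by exact_mod_cast hn.1
    have hnX : (n : ℝ) ≤ X := by exact_mod_cast hn.2
    rw [mul_div_assoc', le_div_iff₀ hn0, mul_comm]
    exact mul_le_mul_of_nonneg_right hnX (by positivity)
  exact h2.trans (mul_le_mul_of_nonneg_left h1 (Nat.cast_nonneg X))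

/-- `K` representatives cover the divisors of `x` up to units -/
def DivBound (x : GaussianInt) (K : ℕ) : Prop :=
  ∃ T : Finset GaussianInt, T.card ≤ K ∧ ∀ y : GaussianInt, y ∣ x → ∃ t ∈ T, Associated y t

theorem DivBound.mono {x : GaussianInt} {K L : ℕ} (h : DivBound x K) (hKL : K ≤ L) :
    DivBound x L := by
  obtain ⟨T, hT, hT'⟩ := h
  exact ⟨T, hT.trans hKL, hT'⟩

theorem DivBound.mul {x y : GaussianInt} {K L : ℕ} (hx : DivBound x K) (hy : DivBound y L) :
    DivBound (x * y) (K * L) := by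
  classical
  obtain ⟨T, hT, hT'⟩ := hx
  obtain ⟨S, hS, hS'⟩ := hy
  refine ⟨T * S, Finset.card_mul_le.trans (Nat.mul_le_mul hT hS), ?_⟩
  intro z hz
  obtain ⟨a, b, ha, hb, rfl⟩ := exists_dvd_and_dvd_of_dvd_mul hz
  obtain ⟨t, ht, hat⟩ := hT' a ha
  obtain ⟨s, hs, hbs⟩ := hS' b hb
  exact ⟨t * s, Finset.mul_mem_mul ht hs, hat.mul_mul hbs⟩

theorem DivBound.prime_pow {x : GaussianInt} (hx : Prime x) (k : ℕ) :
    DivBound (x ^ k) (k + 1) := by
  classical
  refine ⟨(Finset.range (k + 1)).image (fun i => x ^ i), ?_, ?_⟩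
  · exact Finset.card_image_le.trans (by rw [Finset.card_range])
  · intro y hy
    obtain ⟨i, hi, h⟩ := (dvd_prime_pow hx k).1 hy
    exact ⟨x ^ i, Finset.mem_image.2 ⟨i, Finset.mem_range.2 (by omega), rfl⟩, h⟩

theorem DivBound.one : DivBound 1 1 := by
  refine ⟨{1}, by simp, ?_⟩
  intro y hy
  exact ⟨1, by simp, associated_one_iff_isUnit.2 (isUnit_of_dvd_one hy)⟩

theorem gauss_norm_eq (x : GaussianInt) : x.norm = x.re * x.re + x.im * x.im := by
  rw [Zsqrtd.norm_def]; ring

/-- an element whose norm is a rational prime is prime -/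
theorem prime_of_norm (x : GaussianInt) (p : ℕ) (hp : p.Prime) (hx : x.norm = p) : Prime x := by
  rw [← irreducible_iff_prime]
  constructor
  · intro h
    have h1 := (Zsqrtd.norm_eq_one_iff).2 h
    rw [hx, Int.natAbs_natCast] at h1
    exact hp.one_lt.ne' h1
  · intro a b hab
    have h1 : a.norm.natAbs * b.norm.natAbs = p := by
      rw [← Int.natAbs_mul, ← Zsqrtd.norm_mul, ← hab, hx, Int.natAbs_natCast]
    rcases (Nat.dvd_prime hp).1 (Dvd.intro _ h1) with h2 | h2
    · left; exact (Zsqrtd.norm_eq_one_iff).1 h2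
    · right
      apply (Zsqrtd.norm_eq_one_iff).1
      rw [h2] at h1
      exact Nat.eq_of_mul_eq_mul_left hp.pos (by rw [h1, mul_one])

theorem divBound_prime_pow (p : ℕ) (hp : p.Prime) (k : ℕ) :
    DivBound ((p ^ k : ℕ) : GaussianInt) ((k + 1) ^ 2) := by
  have hF := Fact.mk hp
  push_cast
  by_cases hirr : Irreducible (p : GaussianInt)
  · exact (DivBound.prime_pow hirr.prime k).mono (by nlinarith)
  · obtain ⟨a, b, hab⟩ := GaussianInt.sq_add_sq_of_nat_prime_of_not_irreducible p hirr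
    have e : (p : GaussianInt) = ⟨a, b⟩ * ⟨a, -b⟩ := by
      rw [Zsqrtd.ext_iff]
      have h : (p : ℤ) = a ^ 2 + b ^ 2 := by exact_mod_cast hab.symm
      constructor
      · simp only [Zsqrtd.re_natCast, Zsqrtd.re_mul]
        rw [h]; ring
      · simp only [Zsqrtd.im_natCast, Zsqrtd.im_mul]
        ring
    have h1 : Prime (⟨a, b⟩ : GaussianInt) := prime_of_norm _ p hp (by
      rw [gauss_norm_eq]
      have h : (p : ℤ) = a ^ 2 + b ^ 2 := by exact_mod_cast hab.symm
      rw [h]; ring)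
    have h2 : Prime (⟨a, -b⟩ : GaussianInt) := prime_of_norm _ p hp (by
      rw [gauss_norm_eq]
      have h : (p : ℤ) = a ^ 2 + b ^ 2 := by exact_mod_cast hab.symm
      rw [h]; ring)
    rw [e, mul_pow, sq]
    exact (DivBound.prime_pow h1 k).mul (DivBound.prime_pow h2 k)

/-- up to units a positive integer `n` has at most `d(n)^2` Gaussian divisors -/
theorem divBound_nat (n : ℕ) (hn : n ≠ 0) :
    DivBound (n : GaussianInt) (n.divisors.card ^ 2) := by
  induction n using Nat.recOnPosPrimePosCoprime with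
  | prime_pow p k hp hk =>
    refine (divBound_prime_pow p hp k).mono ?_
    rw [Nat.divisors_prime_pow hp, Finset.card_map, Finset.card_range]
  | zero => exact absurd rfl hn
  | one => simpa using DivBound.one
  | coprime a b ha hb hab iha ihb =>
    push_cast
    refine ((iha (by omega)).mul (ihb (by omega))).mono ?_
    rw [hab.card_divisors_mul, mul_pow]

theorem unit_cases (u : GaussianInt) (hu : IsUnit u) :
    u ∈ ({⟨1, 0⟩, ⟨-1, 0⟩, ⟨0, 1⟩, ⟨0, -1⟩} : Finset GaussianInt) := by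
  have h1 := (Zsqrtd.norm_eq_one_iff).2 hu
  have h2 : u.re * u.re + u.im * u.im = 1 := by
    rw [← gauss_norm_eq]
    have := GaussianInt.norm_nonneg u
    omega
  obtain ⟨x, y⟩ := u
  simp only at h2
  have hx1 : x ≤ 1 := by nlinarith
  have hx2 : -1 ≤ x := by nlinarith
  have hy1 : y ≤ 1 := by nlinarith
  have hy2 : -1 ≤ y := by nlinarith
  simp only [Finset.mem_insert, Finset.mem_singleton, Zsqrtd.mk.injEq]
  have hx : x = -1 ∨ x = 0 ∨ x = 1 := by omega
  have hy : y = -1 ∨ y = 0 ∨ y = 1 := by omega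
  rcases hx with rfl | rfl | rfl <;> rcases hy with rfl | rfl | rfl <;> simp_all

theorem card_gauss_divisors_le (S : Finset GaussianInt) (n : ℕ) (hn : n ≠ 0) :
    open Classical in
    (S.filter (fun b => b ∣ (n : GaussianInt))).card ≤ 4 * n.divisors.card ^ 2 := by
  classical
  obtain ⟨T, hT, hT'⟩ := divBound_nat n hn
  have hsub : S.filter (fun b => b ∣ (n : GaussianInt)) ⊆
      ({⟨1, 0⟩, ⟨-1, 0⟩, ⟨0, 1⟩, ⟨0, -1⟩} : Finset GaussianInt) * T := by
    intro b hb
    obtain ⟨t, ht, hbt⟩ := hT' b (Finset.mem_filter.1 hb).2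
    obtain ⟨u, hu⟩ := hbt.symm
    rw [← hu, mul_comm t]
    exact Finset.mul_mem_mul (unit_cases u u.isUnit) ht
  refine (Finset.card_le_card hsub).trans (Finset.card_mul_le.trans ?_)
  exact Nat.mul_le_mul (Finset.card_le_four) hT

/-- quadruples with a given real product -/
theorem card_prod_eq (S : Finset GaussianInt) (hS : ∀ b ∈ S, b ≠ 0) (n : ℕ) (hn : n ≠ 0) :
    open Classical in
    ((S ×ˢ S ×ˢ S ×ˢ S).filter (fun q => (q.1 * q.2.1 * q.2.2.1 * q.2.2.2).im = 0 ∧
      (q.1 * q.2.1 * q.2.2.1 * q.2.2.2).re.natAbs = n)).card ≤ 128 * n.divisors.card ^ 6 := by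
  classical
  set D := S.filter (fun b => b ∣ (n : GaussianInt)) with hD
  have hDc : D.card ≤ 4 * n.divisors.card ^ 2 := card_gauss_divisors_le S n hn
  have hkey : ∀ q : GaussianInt × GaussianInt × GaussianInt × GaussianInt,
      (q.1 * q.2.1 * q.2.2.1 * q.2.2.2).im = 0 →
      (q.1 * q.2.1 * q.2.2.1 * q.2.2.2).re.natAbs = n →
      q.1 * q.2.1 * q.2.2.1 * q.2.2.2 = (n : GaussianInt) ∨
      q.1 * q.2.1 * q.2.2.1 * q.2.2.2 = -(n : GaussianInt) := by
    intro q h1 h2
    generalize q.1 * q.2.1 * q.2.2.1 * q.2.2.2 = w at h1 h2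
    rcases Int.natAbs_eq w.re with h3 | h3
    · left
      rw [Zsqrtd.ext_iff]
      simp only [Zsqrtd.re_natCast, Zsqrtd.im_natCast]
      exact ⟨by rw [h3, h2], h1⟩
    · right
      rw [Zsqrtd.ext_iff]
      simp only [Zsqrtd.re_neg, Zsqrtd.im_neg, Zsqrtd.re_natCast, Zsqrtd.im_natCast]
      exact ⟨by rw [h3, h2], by rw [h1]; simp⟩
  have hcard : ((S ×ˢ S ×ˢ S ×ˢ S).filter (fun q => (q.1 * q.2.1 * q.2.2.1 * q.2.2.2).im = 0 ∧
      (q.1 * q.2.1 * q.2.2.1 * q.2.2.2).re.natAbs = n)).card ≤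
      ((Finset.univ : Finset Bool) ×ˢ D ×ˢ D ×ˢ D).card := by
    apply Finset.card_le_card_of_injOn (fun q =>
      (decide (q.1 * q.2.1 * q.2.2.1 * q.2.2.2 = (n : GaussianInt)), (q.1, (q.2.1, q.2.2.1))))
    · intro q hq
      rw [Finset.mem_coe, Finset.mem_filter, Finset.mem_product, Finset.mem_product,
        Finset.mem_product] at hq
      obtain ⟨⟨s1, s2, s3, s4⟩, h1, h2⟩ := hq
      have hk := hkey q h1 h2
      have hdvd : ∀ y : GaussianInt, y ∣ q.1 * q.2.1 * q.2.2.1 * q.2.2.2 →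
          y ∣ (n : GaussianInt) := by
        intro y hy
        rcases hk with h | h
        · rwa [h] at hy
        · rw [h, dvd_neg] at hy; exact hy
      rw [Finset.mem_coe, Finset.mem_product, Finset.mem_product, Finset.mem_product]
      refine ⟨Finset.mem_univ _, Finset.mem_filter.2 ⟨s1, hdvd _ ?_⟩,
        Finset.mem_filter.2 ⟨s2, hdvd _ ?_⟩, Finset.mem_filter.2 ⟨s3, hdvd _ ?_⟩⟩
      · exact ⟨q.2.1 * q.2.2.1 * q.2.2.2, by ring⟩
      · exact ⟨q.1 * q.2.2.1 * q.2.2.2, by ring⟩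
      · exact ⟨q.1 * q.2.1 * q.2.2.2, by ring⟩
    · intro q hq q' hq' heq
      rw [Finset.mem_coe, Finset.mem_filter, Finset.mem_product, Finset.mem_product,
        Finset.mem_product] at hq hq'
      obtain ⟨⟨s1, s2, s3, s4⟩, h1, h2⟩ := hq
      obtain ⟨⟨s1', s2', s3', s4'⟩, h1', h2'⟩ := hq'
      simp only [Prod.mk.injEq] at heq
      obtain ⟨hb, e1, e2, e3⟩ := heq
      have hk := hkey q h1 h2
      have hk' := hkey q' h1' h2'
      rw [decide_eq_decide] at hb
      have heqn : q.1 * q.2.1 * q.2.2.1 * q.2.2.2 = q'.1 * q'.2.1 * q'.2.2.1 * q'.2.2.2 := by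
        by_cases h : q.1 * q.2.1 * q.2.2.1 * q.2.2.2 = (n : GaussianInt)
        · rw [h, hb.1 h]
        · rw [hk.resolve_left h, hk'.resolve_left (fun h3 => h (hb.2 h3))]
      rw [← e1, ← e2, ← e3] at heqn
      have hne : q.1 * q.2.1 * q.2.2.1 ≠ 0 :=
        mul_ne_zero (mul_ne_zero (hS _ s1) (hS _ s2)) (hS _ s3)
      have e4 := mul_left_cancel₀ hne heqn
      obtain ⟨a, b, c, d⟩ := q
      obtain ⟨a', b', c', d'⟩ := q'
      simp only at e1 e2 e3 e4
      rw [e1, e2, e3, e4]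
  refine hcard.trans ?_
  rw [Finset.card_product, Finset.card_product, Finset.card_product, Finset.card_univ,
    Fintype.card_bool]
  calc 2 * (D.card * (D.card * D.card)) ≤
      2 * ((4 * n.divisors.card ^ 2) * ((4 * n.divisors.card ^ 2) * (4 * n.divisors.card ^ 2))) :=
        Nat.mul_le_mul_left _ (Nat.mul_le_mul hDc (Nat.mul_le_mul hDc hDc))
    _ = 128 * n.divisors.card ^ 6 := by ring

/-- MODULE G: the number of quadruples of nonzero Gaussian integers of norm at most `B` whose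
product is real. -/
theorem gauss_real_count (S : Finset GaussianInt) (B : ℕ)
    (hS : ∀ b ∈ S, b ≠ 0 ∧ b.norm ≤ B) :
    open Classical in
    (((S ×ˢ S ×ˢ S ×ˢ S).filter
      (fun q => (q.1 * q.2.1 * q.2.2.1 * q.2.2.2).im = 0)).card : ℝ) ≤
      128 * (B : ℝ) ^ 2 * (1 + 2 * Real.log B) ^ 64 := by
  classical
  set T := (S ×ˢ S ×ˢ S ×ˢ S).filter
    (fun q => (q.1 * q.2.1 * q.2.2.1 * q.2.2.2).im = 0) with hT
  have hmap : ∀ q ∈ T, (q.1 * q.2.1 * q.2.2.1 * q.2.2.2).re.natAbs ∈ Finset.Icc 1 (B ^ 2) := by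
    intro q hq
    rw [hT, Finset.mem_filter, Finset.mem_product, Finset.mem_product,
        Finset.mem_product] at hq
    obtain ⟨⟨s1, s2, s3, s4⟩, h1⟩ := hq
    have hne : q.1 * q.2.1 * q.2.2.1 * q.2.2.2 ≠ 0 :=
      mul_ne_zero (mul_ne_zero (mul_ne_zero (hS _ s1).1 (hS _ s2).1) (hS _ s3).1) (hS _ s4).1
    have hnorm : (q.1 * q.2.1 * q.2.2.1 * q.2.2.2).norm ≤ (B : ℤ) ^ 4 := by
      rw [Zsqrtd.norm_mul, Zsqrtd.norm_mul, Zsqrtd.norm_mul]
      have n1 := GaussianInt.norm_nonneg q.1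
      have n2 := GaussianInt.norm_nonneg q.2.1
      have n3 := GaussianInt.norm_nonneg q.2.2.1
      have n4 := GaussianInt.norm_nonneg q.2.2.2
      have hB0 : (0 : ℤ) ≤ B := by positivity
      calc _ ≤ (B : ℤ) * B * B * B :=
            mul_le_mul (mul_le_mul (mul_le_mul (hS _ s1).2 (hS _ s2).2 n2 hB0) (hS _ s3).2 n3
              (by positivity)) (hS _ s4).2 n4 (by positivity)
        _ = (B : ℤ) ^ 4 := by ring
    generalize q.1 * q.2.1 * q.2.2.1 * q.2.2.2 = w at h1 hne hnorm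
    rw [gauss_norm_eq, h1] at hnorm
    rw [Finset.mem_Icc]
    constructor
    · have : w.re ≠ 0 := by
        intro h
        apply hne
        rw [Zsqrtd.ext_iff]
        exact ⟨h, h1⟩
      have := Int.natAbs_pos.2 this
      omega
    · have h2 : ((w.re.natAbs : ℤ)) ^ 2 ≤ ((B : ℤ) ^ 2) ^ 2 := by
        rw [Int.natAbs_sq]
        nlinarith
      have h3 : (w.re.natAbs) ^ 2 ≤ (B ^ 2) ^ 2 := by exact_mod_cast h2
      exact (Nat.pow_le_pow_iff_left (by norm_num)).1 h3
  have hcard : T.card ≤ ∑ n ∈ Finset.Icc 1 (B ^ 2), 128 * n.divisors.card ^ 6 := by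
    rw [Finset.card_eq_sum_card_fiberwise hmap]
    apply Finset.sum_le_sum
    intro n hn
    rw [Finset.mem_Icc] at hn
    refine le_trans (le_of_eq ?_) (card_prod_eq S (fun b hb => (hS b hb).1) n (by omega))
    congr 1
    rw [hT, Finset.filter_filter]
  have h1 : (T.card : ℝ) ≤ 128 * ∑ n ∈ Finset.Icc 1 (B ^ 2), (n.divisors.card : ℝ) ^ 6 := by
    rw [Finset.mul_sum]
    exact_mod_cast hcard
  have h2 := sum_divisors_pow 6 (B ^ 2)
  push_cast at h2
  rw [Real.log_pow] at h2
  norm_num at h2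
  linarith

end Pool.Agent.Lib.MP_a17b09_nt.LP
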