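import Pool.Agent.Lib.MP_a17b09_nt.LP.WeylInd

/-!
Cancellation of high angular characters of the Gaussian integers over boxes.
-/

namespace Pool.Agent.Lib.MP_a17b09_nt.LP

open Finset

/-- The logarithm and its derivatives, times `M`. -/
noncomputable def Fch (M : ℕ) : ℕ → ℂ → ℂ
  | 0 => fun z => (M : ℂ) * Complex.log z
  | k + 1 => fun z => ((M : ℂ) * (-1) ^ k * (k.factorial : ℂ)) * (z ^ (k + 1))⁻¹

lemma Fch_deriv (M k : ℕ) (z : ℂ) (hz : 0 < z.re) :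
    HasDerivAt (Fch M k) (Fch M (k + 1) z) z := by
  have hz0 : z ≠ 0 := by
    intro h
    rw [h] at hz
    simp at hz
  cases k with
  | zero =>
    have h := (Complex.hasDerivAt_log (z := z) (Or.inl hz)).const_mul (M : ℂ)
    have e : Fch M (0 + 1) z = (M : ℂ) * z⁻¹ := by
      simp [Fch]
    rw [e]
    exact h
  | succ k =>
    have h1 : HasDerivAt (fun z : ℂ => z ^ (k + 1)) (((k + 1 : ℕ) : ℂ) * z ^ k) z := by
      simpa using hasDerivAt_pow (k + 1) z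
    have h2 := (h1.inv (pow_ne_zero _ hz0)).const_mul
      ((M : ℂ) * (-1) ^ k * (k.factorial : ℂ))
    have e : Fch M (k + 1 + 1) z = (M : ℂ) * (-1) ^ k * (k.factorial : ℂ)
        * (-(((k + 1 : ℕ) : ℂ) * z ^ k) / (z ^ (k + 1)) ^ 2) := by
      simp only [Fch]
      rw [Nat.factorial_succ]
      push_cast
      field_simp
      ring
    rw [e]
    exact h2

lemma Fch_norm (M k : ℕ) (z : ℂ) :
    ‖Fch M (k + 1) z‖ = (M : ℝ) * (k.factorial : ℝ) / ‖z‖ ^ (k + 1) := by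
  simp only [Fch]
  rw [norm_mul, norm_mul, norm_mul, norm_pow, norm_neg, norm_one, one_pow, norm_inv, norm_pow,
    Complex.norm_natCast, Complex.norm_natCast]
  rw [mul_one, div_eq_mul_inv]

lemma Fch_phase (M : ℕ) (z : ℂ) (hz : z ≠ 0) : ph (Fch M 0 z).im = (z / (‖z‖ : ℂ)) ^ M := by
  have hn : (‖z‖ : ℂ) ≠ 0 := by
    exact_mod_cast (norm_ne_zero_iff.mpr hz)
  have h1 : (Fch M 0 z).im = M * z.arg := by
    simp only [Fch]
    rw [Complex.mul_im, Complex.natCast_re, Complex.natCast_im, Complex.log_im]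
    ring
  rw [h1, ph_nat_mul]
  congr 1
  rw [eq_div_iff hn, ph, mul_comm]
  exact Complex.norm_mul_exp_arg_mul_I z

/-- The region. -/
def Om (X : ℝ) : Set ℂ := {z | X / 4 < z.re} ∩ Metric.ball 0 (5 * X)

lemma Om_convex (X : ℝ) : Convex ℝ (Om X) :=
  (convex_halfSpace_re_gt (X / 4)).inter (convex_ball _ _)

lemma Om_norm (X : ℝ) (z : ℂ) (hz : z ∈ Om X) : X / 4 < ‖z‖ ∧ ‖z‖ < 5 * X := by
  obtain ⟨h1, h2⟩ := hz
  refine ⟨lt_of_lt_of_le h1 (Complex.re_le_norm z), ?_⟩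
  simpa using h2

lemma mem_Om_of (X S : ℝ) (a b : ℤ) (hS : 0 < S) (hSX : 1000000 * S ≤ X)
    (ha1 : X ≤ 2 * a) (ha2 : (a : ℝ) ≤ 2 * X) (hb1 : -(2 * X) ≤ b) (hb2 : (b : ℝ) ≤ 2 * X)
    (w : ℤ × ℤ) (w1 : (a : ℝ) ≤ w.1) (w2 : (w.1 : ℝ) ≤ a + S) (w3 : (b : ℝ) ≤ w.2)
    (w4 : (w.2 : ℝ) ≤ b + S) : zc w ∈ Om X := by
  refine ⟨?_, ?_⟩
  · show X / 4 < (zc w).re
    rw [zc_re]
    linarith
  · rw [mem_ball_zero_iff]
    refine lt_of_le_of_lt (Complex.norm_le_abs_re_add_abs_im _) ?_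
    rw [zc_re, zc_im]
    have h5 : |(w.1 : ℝ)| ≤ 2 * X + S := by
      rw [abs_le]
      constructor <;> linarith
    have h6 : |(w.2 : ℝ)| ≤ 2 * X + S := by
      rw [abs_le]
      constructor <;> linarith
    linarith

private theorem sq_64 {Z : ℝ} (h : 1000000 ≤ Z) : (1000000000000 : ℝ) ≤ Z ^ 2 :=
  (by norm_num : (1000000000000 : ℝ) = 1000000 ^ 2).trans_le
    (pow_le_pow_left₀ (by norm_num) h 2)

/-- The bound for one order of differencing. -/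
lemma box_q (q : ℕ) (hq : q ≤ 4) (Z : ℕ) (hZ : 1000000 ≤ Z) (M : ℕ)
    (hM1 : Z ^ (128 * q + 18) ≤ M) (hM2 : M ≤ Z ^ (128 * q + 154)) (a b : ℤ)
    (ha1 : (Z : ℤ) ^ 160 ≤ 2 * a) (ha2 : a ≤ 2 * (Z : ℤ) ^ 160)
    (hb : |b| ≤ 2 * (Z : ℤ) ^ 160) :
    (‖∑ w ∈ rect a (a + (Z : ℤ) ^ 158) b (b + (Z : ℤ) ^ 158), ph (Fch M 0 (zc w)).im‖
      / ((Z : ℝ) ^ 158) ^ 2) ^ (2 ^ q) ≤ Cw q / Z := by
  have hZr : (1000000 : ℝ) ≤ Z := by exact_mod_cast hZ
  have hZ1 : (1 : ℝ) ≤ Z := by linarith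
  have hZ0 : (0 : ℝ) < Z := by linarith
  have hZn1 : 1 ≤ Z := by omega
  set l : ℕ := Z ^ (129 * q + 162) / M + 1 with hl
  have hMpos : 0 < M := lt_of_lt_of_le (by positivity) hM1
  have hMr : (0 : ℝ) < M := by exact_mod_cast hMpos
  have hM1r : (Z : ℝ) ^ (128 * q + 18) ≤ M := by exact_mod_cast hM1
  have hM2r : (M : ℝ) ≤ (Z : ℝ) ^ (128 * q + 154) := by exact_mod_cast hM2
  -- bounds for l
  have hlM : (Z : ℝ) ^ (129 * q + 162) ≤ l * M := by
    have h1 := Nat.lt_div_mul_add (a := Z ^ (129 * q + 162)) hMpos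
    have h2 : Z ^ (129 * q + 162) ≤ l * M := by
      rw [hl, add_mul, one_mul]
      exact h1.le
    exact_mod_cast h2
  have hlM2 : (l : ℝ) * M ≤ 2 * (Z : ℝ) ^ (129 * q + 162) := by
    have h1 : Z ^ (129 * q + 162) / M * M ≤ Z ^ (129 * q + 162) := Nat.div_mul_le_self _ _
    have h2 : M ≤ Z ^ (129 * q + 162) :=
      le_trans hM2 (Nat.pow_le_pow_right hZn1 (by omega))
    have h3 : l * M ≤ 2 * Z ^ (129 * q + 162) := by
      rw [hl, add_mul, one_mul, two_mul]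
      exact Nat.add_le_add h1 h2
    exact_mod_cast h3
  have hl2 : (l : ℝ) ≤ 2 * (Z : ℝ) ^ (q + 144) := by
    have h1 : Z ^ (129 * q + 162) / M ≤ Z ^ (q + 144) := by
      apply Nat.div_le_of_le_mul
      calc Z ^ (129 * q + 162) = Z ^ (128 * q + 18) * Z ^ (q + 144) := by
            rw [← pow_add]
            congr 1
            ring
        _ ≤ M * Z ^ (q + 144) := Nat.mul_le_mul_right _ hM1
    have h2 : 1 ≤ Z ^ (q + 144) := Nat.one_le_pow _ _ hZn1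
    have h3 : l ≤ 2 * Z ^ (q + 144) := by
      rw [hl, two_mul]
      exact Nat.add_le_add h1 h2
    exact_mod_cast h3
  have hlpos : 1 ≤ l := by rw [hl]; exact Nat.le_add_left 1 _
  have hlr : (1 : ℝ) ≤ l := by exact_mod_cast hlpos
  have hlZ : l * Z ≤ Z ^ 158 := by
    have h1 : (l : ℝ) * Z ≤ (Z : ℝ) ^ 158 := by
      calc (l : ℝ) * Z ≤ 2 * (Z : ℝ) ^ (q + 144) * Z := mul_le_mul_of_nonneg_right hl2 hZ0.le
        _ ≤ Z * (Z : ℝ) ^ (q + 144) * Z := by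
            apply mul_le_mul_of_nonneg_right _ hZ0.le
            apply mul_le_mul_of_nonneg_right _ (by positivity)
            linarith
        _ = (Z : ℝ) ^ (q + 146) := by ring
        _ ≤ (Z : ℝ) ^ 158 := pow_le_pow_right₀ hZ1 (by omega)
    exact_mod_cast h1
  have hZh : Z * Z ^ 31 ≤ Z ^ 158 := by
    calc Z * Z ^ 31 = Z ^ 32 := by ring
      _ ≤ Z ^ 158 := Nat.pow_le_pow_right hZn1 (by norm_num)
  -- the parameters
  set X : ℝ := (Z : ℝ) ^ 160 with hX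
  have hXpos : 0 < X := by rw [hX]; positivity
  set lam : ℝ := (M : ℝ) * (q.factorial : ℝ) / (5 * X) ^ (q + 1) with hlam
  set Lam : ℝ := (M : ℝ) * (q.factorial : ℝ) / (X / 4) ^ (q + 1) with hLam
  set mu : ℝ := (M : ℝ) * ((q + 1).factorial : ℝ) / (X / 4) ^ (q + 2) with hmu
  have hfq : (0 : ℝ) < (q.factorial : ℝ) := by exact_mod_cast q.factorial_pos
  have hfq1 : (0 : ℝ) < ((q + 1).factorial : ℝ) := by exact_mod_cast (q + 1).factorial_pos
  have hlampos : 0 < lam := by rw [hlam]; positivity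
  have hmunn : 0 ≤ mu := by rw [hmu]; positivity
  have key := weyl_ind Z (Z ^ 31) l (Z ^ 158) hZn1 (Nat.one_le_pow _ _ hZn1) hlpos
    (Nat.one_le_pow _ _ hZn1) hlZ hZh q (Fch M) (Om X) lam Lam mu a (a + (Z : ℤ) ^ 158) b
    (b + (Z : ℤ) ^ 158) (Om_convex X) hlampos hmunn ?_ ?_ ?_ ?_ ?_ ?_ ?_ ?_ ?_ ?_ ?_
  · have e : (((Z ^ 158 : ℕ) : ℝ)) = (Z : ℝ) ^ 158 := by push_cast; rfl
    rw [e] at key
    exact key
  · intro k z hz
    apply Fch_deriv
    exact lt_trans (by positivity) hz.1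
  · intro z hz
    obtain ⟨h1, h2⟩ := Om_norm X z hz
    rw [Fch_norm, hlam]
    apply div_le_div_of_nonneg_left (by positivity)
    · exact pow_pos (lt_trans (by positivity) h1) _
    · exact pow_le_pow_left₀ (norm_nonneg _) h2.le _
  · intro z hz
    obtain ⟨h1, h2⟩ := Om_norm X z hz
    rw [Fch_norm, hLam]
    apply div_le_div_of_nonneg_left (by positivity) (by positivity)
    exact pow_le_pow_left₀ (by positivity) h1.le _
  · intro z hz
    obtain ⟨h1, h2⟩ := Om_norm X z hz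
    rw [Fch_norm, hmu]
    apply div_le_div_of_nonneg_left (by positivity) (by positivity)
    exact pow_le_pow_left₀ (by positivity) h1.le _
  · push_cast
    exact le_refl _
  · push_cast
    exact le_refl _
  · intro w hw
    rw [mem_rect] at hw
    have h158 : 1000000 * (Z : ℝ) ^ 158 ≤ (Z : ℝ) ^ 160 := by
      have e : (Z : ℝ) ^ 160 = Z ^ 2 * (Z : ℝ) ^ 158 := by ring
      rw [e]
      apply mul_le_mul_of_nonneg_right _ (by positivity)
      exact le_trans (by norm_num) (sq_64 hZr)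
    have h158p : 0 < (Z : ℝ) ^ 158 := by positivity
    have w1 : (a : ℝ) ≤ w.1 := by exact_mod_cast hw.1.1
    have w2 : (w.1 : ℝ) ≤ a + (Z : ℝ) ^ 158 := by
      have := hw.1.2.le
      exact_mod_cast this
    have w3 : (b : ℝ) ≤ w.2 := by exact_mod_cast hw.2.1
    have w4 : (w.2 : ℝ) ≤ b + (Z : ℝ) ^ 158 := by
      have := hw.2.2.le
      exact_mod_cast this
    have ha1r : X ≤ 2 * a := by rw [hX]; exact_mod_cast ha1
    have ha2r : (a : ℝ) ≤ 2 * X := by rw [hX]; exact_mod_cast ha2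
    have hbr : |(b : ℝ)| ≤ 2 * X := by rw [hX]; exact_mod_cast hb
    rw [abs_le] at hbr
    rw [← hX] at h158
    exact mem_Om_of X ((Z : ℝ) ^ 158) a b h158p h158 ha1r ha2r hbr.1 hbr.2 w w1 w2 w3 w4
  · -- (a)
    have hA : (q.factorial : ℝ) * 4 ^ (q + 1) * 2 ^ q ≤ (Z : ℝ) ^ 6 := by
      have h1 : (1000000 : ℝ) ≤ (Z : ℝ) ^ 6 := by
        calc (1000000 : ℝ) ≤ Z := hZr
          _ = (Z : ℝ) ^ 1 := by ring
          _ ≤ (Z : ℝ) ^ 6 := pow_le_pow_right₀ hZ1 (by norm_num)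
      refine le_trans ?_ h1
      interval_cases q <;> norm_num [Nat.factorial]
    have e1 : Lam * (2 * ((Z : ℝ) * ((Z ^ 31 : ℕ) : ℝ))) ^ q
        = (M : ℝ) * ((q.factorial : ℝ) * 4 ^ (q + 1) * 2 ^ q) * (Z : ℝ) ^ (32 * q)
          / X ^ (q + 1) := by
      rw [hLam]
      push_cast
      rw [div_pow]
      field_simp
      ring
    rw [e1, div_le_one (by positivity)]
    calc (M : ℝ) * ((q.factorial : ℝ) * 4 ^ (q + 1) * 2 ^ q) * (Z : ℝ) ^ (32 * q)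
        ≤ (Z : ℝ) ^ (128 * q + 154) * (Z : ℝ) ^ 6 * (Z : ℝ) ^ (32 * q) := by
          apply mul_le_mul_of_nonneg_right _ (by positivity)
          exact mul_le_mul hM2r hA (by positivity) (by positivity)
      _ = X ^ (q + 1) := by rw [hX]; ring
  · -- (b)
    have hB : (5 : ℝ) ^ (q + 1) * 2 ^ q ≤ Z := by
      refine le_trans ?_ hZr
      interval_cases q <;> norm_num
    have e1 : (l : ℝ) * lam * (((Z ^ 31 : ℕ) : ℝ) / 2) ^ q
        = (l * M) * (q.factorial : ℝ) * (Z : ℝ) ^ (31 * q)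
          / ((5 : ℝ) ^ (q + 1) * 2 ^ q * X ^ (q + 1)) := by
      rw [hlam]
      push_cast
      rw [div_pow, mul_pow 5 X]
      field_simp
      ring
    rw [e1, le_div_iff₀ (by positivity)]
    have hf1 : (1 : ℝ) ≤ (q.factorial : ℝ) := by exact_mod_cast q.factorial_pos
    calc (Z : ℝ) * ((5 : ℝ) ^ (q + 1) * 2 ^ q * X ^ (q + 1))
        ≤ (Z : ℝ) * (Z * X ^ (q + 1)) := by
          apply mul_le_mul_of_nonneg_left _ hZ0.le
          exact mul_le_mul_of_nonneg_right hB (by positivity)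
      _ = (Z : ℝ) ^ (129 * q + 162) * 1 * (Z : ℝ) ^ (31 * q) := by rw [hX]; ring
      _ ≤ (l * M) * (q.factorial : ℝ) * (Z : ℝ) ^ (31 * q) := by
          apply mul_le_mul_of_nonneg_right _ (by positivity)
          exact mul_le_mul hlM hf1 (by norm_num) (by positivity)
  · -- (c)
    have hC : ((q + 1).factorial : ℝ) * 4 ^ (q + 3) * 2 ^ q ≤ (Z : ℝ) ^ 2 := by
      have h1 : (1000000000000 : ℝ) ≤ (Z : ℝ) ^ 2 := sq_64 hZr
      refine le_trans ?_ h1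
      interval_cases q <;> norm_num [Nat.factorial]
    have e1 : mu * (2 * ((Z : ℝ) * ((Z ^ 31 : ℕ) : ℝ))) ^ q * (l : ℝ) ^ 2 * Z
        = (l * M) * l * (((q + 1).factorial : ℝ) * 4 ^ (q + 2) * 2 ^ q)
          * (Z : ℝ) ^ (32 * q + 1) / X ^ (q + 2) := by
      rw [hmu]
      push_cast
      rw [div_pow]
      field_simp
      ring
    rw [e1, div_le_one (by positivity)]
    calc (l * M) * l * (((q + 1).factorial : ℝ) * 4 ^ (q + 2) * 2 ^ q)
          * (Z : ℝ) ^ (32 * q + 1)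
        ≤ (2 * (Z : ℝ) ^ (129 * q + 162)) * (2 * (Z : ℝ) ^ (q + 144))
          * (((q + 1).factorial : ℝ) * 4 ^ (q + 2) * 2 ^ q) * (Z : ℝ) ^ (32 * q + 1) := by
          apply mul_le_mul_of_nonneg_right _ (by positivity)
          apply mul_le_mul_of_nonneg_right _ (by positivity)
          exact mul_le_mul hlM2 hl2 (by linarith) (by positivity)
      _ = (((q + 1).factorial : ℝ) * 4 ^ (q + 3) * 2 ^ q) * (Z : ℝ) ^ (162 * q + 307) := by
          ring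
      _ ≤ (Z : ℝ) ^ 2 * (Z : ℝ) ^ (162 * q + 307) :=
          mul_le_mul_of_nonneg_right hC (by positivity)
      _ = (Z : ℝ) ^ (162 * q + 309) := by ring
      _ ≤ (Z : ℝ) ^ (160 * q + 320) := pow_le_pow_right₀ hZ1 (by omega)
      _ = X ^ (q + 2) := by rw [hX]; ring
  · -- (e)
    have hE : (2 : ℝ) ^ (q + 2) * (q + 1) * 4 ^ (q + 2) * 5 ^ (q + 1) ≤ (Z : ℝ) ^ 2 := by
      have h1 : (1000000000000 : ℝ) ≤ (Z : ℝ) ^ 2 := sq_64 hZr
      refine le_trans ?_ h1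
      interval_cases q <;> norm_num
    have e1 : 2 ^ (q + 2) * ((Z : ℝ) * ((Z ^ 31 : ℕ) : ℝ)) * mu
        = ((2 : ℝ) ^ (q + 2) * (q + 1) * 4 ^ (q + 2) * 5 ^ (q + 1)) * (Z : ℝ) ^ 32 * (1 / X)
          * lam := by
      rw [hmu, hlam, Nat.factorial_succ]
      push_cast
      rw [div_pow, mul_pow 5 X]
      field_simp
      ring
    rw [e1]
    have h2 : ((2 : ℝ) ^ (q + 2) * (q + 1) * 4 ^ (q + 2) * 5 ^ (q + 1)) * (Z : ℝ) ^ 32
        * (1 / X) ≤ 1 := by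
      rw [mul_one_div, div_le_one hXpos, hX]
      calc ((2 : ℝ) ^ (q + 2) * (q + 1) * 4 ^ (q + 2) * 5 ^ (q + 1)) * (Z : ℝ) ^ 32
          ≤ (Z : ℝ) ^ 2 * (Z : ℝ) ^ 32 := mul_le_mul_of_nonneg_right hE (by positivity)
        _ = (Z : ℝ) ^ 34 := by ring
        _ ≤ (Z : ℝ) ^ 160 := pow_le_pow_right₀ hZ1 (by norm_num)
    calc _ ≤ 1 * lam := mul_le_mul_of_nonneg_right h2 hlampos.le
      _ = lam := one_mul _

/-- The sum over a box, in every range of frequencies. -/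
theorem weyl_rect (Z : ℕ) (hZ : 1000000 ≤ Z) (M : ℕ) (hM1 : Z ^ 150 ≤ M) (hM2 : M ≤ Z ^ 660)
    (a b : ℤ) (ha1 : (Z : ℤ) ^ 160 ≤ 2 * a) (ha2 : a ≤ 2 * (Z : ℤ) ^ 160)
    (hb : |b| ≤ 2 * (Z : ℤ) ^ 160) :
    ‖∑ w ∈ rect a (a + (Z : ℤ) ^ 158) b (b + (Z : ℤ) ^ 158),
      (zc w / (‖zc w‖ : ℂ)) ^ M‖ ^ 16 * Z ≤ Cw 4 * ((Z : ℝ) ^ 158) ^ 32 := by
  have hZr : (1000000 : ℝ) ≤ Z := by exact_mod_cast hZ
  have hZ0 : (0 : ℝ) < Z := by linarith
  have hZn1 : 1 ≤ Z := by omega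
  have hne : ∀ w ∈ rect a (a + (Z : ℤ) ^ 158) b (b + (Z : ℤ) ^ 158), zc w ≠ 0 := by
    intro w hw h
    rw [mem_rect] at hw
    have h1 : (zc w).re = 0 := by rw [h]; rfl
    rw [zc_re] at h1
    have h2 : w.1 = 0 := by exact_mod_cast h1
    have h3 : (0 : ℤ) < (Z : ℤ) ^ 160 := by positivity
    omega
  have hsum : ∑ w ∈ rect a (a + (Z : ℤ) ^ 158) b (b + (Z : ℤ) ^ 158),
      (zc w / (‖zc w‖ : ℂ)) ^ M
      = ∑ w ∈ rect a (a + (Z : ℤ) ^ 158) b (b + (Z : ℤ) ^ 158), ph (Fch M 0 (zc w)).im := by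
    apply Finset.sum_congr rfl
    intro w hw
    rw [Fch_phase M _ (hne w hw)]
  rw [hsum]
  set T : ℝ := ‖∑ w ∈ rect a (a + (Z : ℤ) ^ 158) b (b + (Z : ℤ) ^ 158),
    ph (Fch M 0 (zc w)).im‖ / ((Z : ℝ) ^ 158) ^ 2 with hT
  have hT0 : 0 ≤ T := by rw [hT]; positivity
  have hT1 : T ≤ 1 := by
    rw [hT, div_le_one (by positivity)]
    refine le_trans (norm_sum_ph_le _ _) ?_
    have h := card_rect_le (x0 := a) (x1 := a + (Z : ℤ) ^ 158) (y0 := b)
      (y1 := b + (Z : ℤ) ^ 158) (l0 := Z ^ 158) (by push_cast; exact le_refl _)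
      (by push_cast; exact le_refl _)
    exact_mod_cast h
  have hq : ∃ q : ℕ, q ≤ 4 ∧ Z ^ (128 * q + 18) ≤ M ∧ M ≤ Z ^ (128 * q + 154) := by
    have hmono : ∀ e1 e2 : ℕ, e1 ≤ e2 → Z ^ e1 ≤ Z ^ e2 :=
      fun e1 e2 h => Nat.pow_le_pow_right hZn1 h
    rcases le_or_gt M (Z ^ 282) with h1 | h1
    · exact ⟨1, by norm_num, le_trans (hmono _ _ (by norm_num)) hM1,
        le_trans h1 (hmono _ _ (by norm_num))⟩
    rcases le_or_gt M (Z ^ 410) with h2 | h2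
    · exact ⟨2, by norm_num, le_trans (hmono _ _ (by norm_num)) h1.le,
        le_trans h2 (hmono _ _ (by norm_num))⟩
    rcases le_or_gt M (Z ^ 538) with h3 | h3
    · exact ⟨3, by norm_num, le_trans (hmono _ _ (by norm_num)) h2.le,
        le_trans h3 (hmono _ _ (by norm_num))⟩
    · exact ⟨4, by norm_num, le_trans (hmono _ _ (by norm_num)) h3.le,
        le_trans hM2 (hmono _ _ (by norm_num))⟩
  obtain ⟨q, hq4, hq1, hq2⟩ := hq
  have hb1 := box_q q hq4 Z hZ M hq1 hq2 a b ha1 ha2 hb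
  rw [← hT] at hb1
  have h16 : T ^ 16 ≤ Cw 4 / Z := by
    have e1 : T ^ 16 ≤ T ^ (2 ^ q) := by
      apply pow_le_pow_of_le_one hT0 hT1
      interval_cases q <;> norm_num
    have e2 : Cw q / Z ≤ Cw 4 / Z := div_le_div_of_nonneg_right (Cw_mono hq4) hZ0.le
    linarith
  rw [le_div_iff₀ hZ0, hT, div_pow, div_mul_eq_mul_div, div_le_iff₀ (by positivity)] at h16
  calc _ ≤ Cw 4 * (((Z : ℝ) ^ 158) ^ 2) ^ 16 := h16
    _ = Cw 4 * ((Z : ℝ) ^ 158) ^ 32 := by ring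

/-- Cancellation of the angular characters of frequency between `X^(150/160)` and
`X^(660/160)` over boxes of side `X^(158/160)`, with `X = Z^160`. -/
theorem weyl_box : ∃ C Z0 : ℕ, ∀ Z : ℕ, Z0 ≤ Z → ∀ M : ℕ, Z ^ 150 ≤ M → M ≤ Z ^ 660 →
    ∀ a b : ℤ, (Z : ℤ) ^ 160 ≤ 2 * a → a ≤ 2 * (Z : ℤ) ^ 160 → |b| ≤ 2 * (Z : ℤ) ^ 160 →
    ‖∑ i ∈ range (Z ^ 158), ∑ j ∈ range (Z ^ 158),
      ((((a + i : ℤ) : ℂ) + ((b + j : ℤ) : ℂ) * Complex.I)
        / (‖((a + i : ℤ) : ℂ) + ((b + j : ℤ) : ℂ) * Complex.I‖ : ℂ)) ^ M‖ ^ 16 * (Z : ℝ)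
      ≤ (C : ℝ) * ((Z : ℝ) ^ 158) ^ 32 := by
  refine ⟨⌈Cw 4⌉₊, 1000000, ?_⟩
  intro Z hZ M hM1 hM2 a b ha1 ha2 hb
  have h := weyl_rect Z hZ M hM1 hM2 a b ha1 ha2 hb
  have e : ∑ i ∈ range (Z ^ 158), ∑ j ∈ range (Z ^ 158),
      ((((a + i : ℤ) : ℂ) + ((b + j : ℤ) : ℂ) * Complex.I)
        / (‖((a + i : ℤ) : ℂ) + ((b + j : ℤ) : ℂ) * Complex.I‖ : ℂ)) ^ M
      = ∑ w ∈ rect a (a + (Z : ℤ) ^ 158) b (b + (Z : ℤ) ^ 158),
        (zc w / (‖zc w‖ : ℂ)) ^ M := by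
    rw [← Finset.sum_product']
    apply Finset.sum_nbij (fun p => (a + (p.1 : ℤ), b + (p.2 : ℤ)))
    · intro p hp
      rw [Finset.mem_product, Finset.mem_range, Finset.mem_range] at hp
      have h1 : ((p.1 : ℕ) : ℤ) < (Z : ℤ) ^ 158 := by exact_mod_cast hp.1
      have h2 : ((p.2 : ℕ) : ℤ) < (Z : ℤ) ^ 158 := by exact_mod_cast hp.2
      rw [mem_rect]
      simp only
      omega
    · intro p _ p' _ hpp
      simp only [Prod.mk.injEq] at hpp
      ext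
      · omega
      · omega
    · intro w hw
      rw [Finset.mem_coe, mem_rect] at hw
      refine ⟨((w.1 - a).toNat, (w.2 - b).toNat), ?_, ?_⟩
      · rw [Finset.mem_coe, Finset.mem_product, Finset.mem_range, Finset.mem_range]
        have h1 : (((w.1 - a).toNat : ℕ) : ℤ) < ((Z ^ 158 : ℕ) : ℤ) := by
          push_cast
          omega
        have h2 : (((w.2 - b).toNat : ℕ) : ℤ) < ((Z ^ 158 : ℕ) : ℤ) := by
          push_cast
          omega
        exact ⟨by exact_mod_cast h1, by exact_mod_cast h2⟩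
      · ext
        · simp only
          omega
        · simp only
          omega
    · intro p _
      rfl
  rw [e]
  refine le_trans h ?_
  apply mul_le_mul_of_nonneg_right (Nat.le_ceil _) (by positivity)

end Pool.Agent.Lib.MP_a17b09_nt.LP
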