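import Pool.Agent.Lib.MP_a17b09_nt.LP.WeylGen
import Pool.Agent.Lib.MP_a17b09_nt.LP.WeylBox

/-!
Cancellation of high angular characters over boxes, for the forms `(x + y om)(x + y om')`.
-/

set_option autoImplicit false

namespace Pool.Agent.Lib.MP_a17b09_nt.LP

open Finset

lemma Fch_deriv_succ (M k : ℕ) (z : ℂ) (hz0 : z ≠ 0) :
    HasDerivAt (Fch M (k + 1)) (Fch M (k + 2) z) z := by
  have h1 : HasDerivAt (fun z : ℂ => z ^ (k + 1)) (((k + 1 : ℕ) : ℂ) * z ^ k) z := by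
    simpa using hasDerivAt_pow (k + 1) z
  have h2 := (h1.inv (pow_ne_zero _ hz0)).const_mul
    ((M : ℂ) * (-1) ^ k * (k.factorial : ℂ))
  have e : Fch M (k + 2) z = (M : ℂ) * (-1) ^ k * (k.factorial : ℂ)
      * (-(((k + 1 : ℕ) : ℂ) * z ^ k) / (z ^ (k + 1)) ^ 2) := by
    show Fch M (k + 1 + 1) z = _
    simp only [Fch]
    rw [Nat.factorial_succ]
    push_cast
    field_simp
    ring
  rw [e]
  exact h2

/-- The rotated logarithm and its derivatives, times `M`. -/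
noncomputable def FchU (M : ℕ) (u : ℂ) : ℕ → ℂ → ℂ
  | 0 => fun z => (M : ℂ) * Complex.log (u * z)
  | k + 1 => Fch M (k + 1)

lemma FchU_deriv (M : ℕ) (u : ℂ) (k : ℕ) (z : ℂ) (hz : 0 < (u * z).re) :
    HasDerivAt (FchU M u k) (FchU M u (k + 1) z) z := by
  have huz0 : u * z ≠ 0 := by
    intro h
    rw [h] at hz
    simp at hz
  have hu0 : u ≠ 0 := left_ne_zero_of_mul huz0
  have hz0 : z ≠ 0 := right_ne_zero_of_mul huz0
  cases k with
  | zero =>
    have h1 : HasDerivAt (fun z : ℂ => u * z) (u * 1) z := (hasDerivAt_id z).const_mul u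
    have h2 := ((Complex.hasDerivAt_log (z := u * z) (Or.inl hz)).comp z h1).const_mul (M : ℂ)
    have e : FchU M u (0 + 1) z = (M : ℂ) * ((u * z)⁻¹ * (u * 1)) := by
      simp only [FchU, Fch, zero_add, pow_zero, Nat.factorial_zero, Nat.cast_one, pow_one]
      field_simp
    rw [e]
    exact h2
  | succ k => exact Fch_deriv_succ M k z hz0

lemma FchU_norm (M : ℕ) (u : ℂ) (k : ℕ) (z : ℂ) :
    ‖FchU M u (k + 1) z‖ = (M : ℝ) * (k.factorial : ℝ) / ‖z‖ ^ (k + 1) := Fch_norm M k z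

lemma FchU_phase (M : ℕ) (u z : ℂ) (hu : ‖u‖ = 1) (hz : z ≠ 0) :
    ph (FchU M u 0 z).im = u ^ M * (z / (‖z‖ : ℂ)) ^ M := by
  have hu0 : u ≠ 0 := by
    intro h
    rw [h, norm_zero] at hu
    norm_num at hu
  have h1 := Fch_phase M (u * z) (mul_ne_zero hu0 hz)
  have e : FchU M u 0 z = Fch M 0 (u * z) := rfl
  rw [e, h1, ← mul_pow]
  congr 1
  rw [norm_mul, hu, one_mul, mul_div_assoc]

/-- The region. -/
def OmU (u : ℂ) (X A : ℝ) : Set ℂ := {z | X / A < (u * z).re} ∩ Metric.ball 0 (A * X)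

lemma OmU_convex (u : ℂ) (X A : ℝ) : Convex ℝ (OmU u X A) := by
  apply Convex.inter _ (convex_ball _ _)
  exact (convex_halfSpace_re_gt (X / A)).linear_preimage (LinearMap.mulLeft ℝ u)

lemma OmU_norm (u : ℂ) (hu : ‖u‖ = 1) (X A : ℝ) (z : ℂ) (hz : z ∈ OmU u X A) :
    X / A < ‖z‖ ∧ ‖z‖ < A * X := by
  obtain ⟨h1, h2⟩ := hz
  have h3 : (u * z).re ≤ ‖z‖ := by
    calc (u * z).re ≤ ‖u * z‖ := Complex.re_le_norm _
      _ = ‖z‖ := by rw [norm_mul, hu, one_mul]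
  refine ⟨lt_of_lt_of_le h1 h3, ?_⟩
  simpa using h2

/-- Bounds for the derivatives. -/
lemma deriv_bounds (q : ℕ) (hq : q ≤ 4) (A X M n : ℝ) (hA : 120 ≤ A) (hX : 0 < X)
    (hM : 0 < M) (h1 : X / A < n) (h2 : n < A * X) :
    M / (A * X) ^ (q + 1) ≤ M * (q.factorial : ℝ) / n ^ (q + 1)
      ∧ M * (q.factorial : ℝ) / n ^ (q + 1) ≤ M * A ^ (q + 2) / X ^ (q + 1)
      ∧ M * ((q + 1).factorial : ℝ) / n ^ (q + 2) ≤ M * A ^ (q + 3) / X ^ (q + 2) := by
  have hA0 : (0 : ℝ) < A := by linarith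
  have hn0 : 0 < n := lt_trans (by positivity) h1
  have hf1 : (1 : ℝ) ≤ (q.factorial : ℝ) := by exact_mod_cast q.factorial_pos
  have hf2 := fact_le q (by omega) A hA
  have hf3 := fact_le (q + 1) (by omega) A hA
  have hXn : X ≤ A * n := by
    rw [div_lt_iff₀ hA0] at h1
    linarith
  refine ⟨?_, ?_, ?_⟩
  · rw [div_le_div_iff₀ (by positivity) (by positivity)]
    have h3 : n ^ (q + 1) ≤ (A * X) ^ (q + 1) := pow_le_pow_left₀ hn0.le h2.le _
    calc M * n ^ (q + 1) ≤ M * (A * X) ^ (q + 1) := mul_le_mul_of_nonneg_left h3 hM.le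
      _ = M * 1 * (A * X) ^ (q + 1) := by ring
      _ ≤ M * (q.factorial : ℝ) * (A * X) ^ (q + 1) := by
          apply mul_le_mul_of_nonneg_right _ (by positivity)
          exact mul_le_mul_of_nonneg_left hf1 hM.le
  · rw [div_le_div_iff₀ (by positivity) (by positivity)]
    have h3 : X ^ (q + 1) ≤ (A * n) ^ (q + 1) := pow_le_pow_left₀ hX.le hXn _
    calc M * (q.factorial : ℝ) * X ^ (q + 1) ≤ M * A * (A * n) ^ (q + 1) := by
          apply mul_le_mul _ h3 (by positivity) (by positivity)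
          exact mul_le_mul_of_nonneg_left hf2 hM.le
      _ = M * A ^ (q + 2) * n ^ (q + 1) := by ring
  · rw [div_le_div_iff₀ (by positivity) (by positivity)]
    have h3 : X ^ (q + 2) ≤ (A * n) ^ (q + 2) := pow_le_pow_left₀ hX.le hXn _
    calc M * ((q + 1).factorial : ℝ) * X ^ (q + 2) ≤ M * A * (A * n) ^ (q + 2) := by
          apply mul_le_mul _ h3 (by positivity) (by positivity)
          exact mul_le_mul_of_nonneg_left hf3 hM.le
      _ = M * A ^ (q + 3) * n ^ (q + 2) := by ring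

lemma exists_A_complex (om : ℂ) (hom : om.im ≠ 0) (K : ℝ) : ∃ A : ℝ, 120 ≤ A ∧ 1 + ‖om‖ ≤ A
    ∧ 2 * K ≤ A ∧ (∀ G : ℂ, ‖G‖ ≤ A * |G.im| ∨ ‖G‖ ≤ A * |(G * om).im|)
    ∧ (∀ s t : ℝ, |s| ≤ A * ‖(s : ℂ) + (t : ℂ) * om‖ ∧ |t| ≤ A * ‖(s : ℂ) + (t : ℂ) * om‖) := by
  have hy : 0 < |om.im| := abs_pos.mpr hom
  have hw : 0 ≤ ‖om‖ := norm_nonneg om
  set A : ℝ := 120 + 2 * |K| + 2 * (1 + ‖om‖) * (1 + 1 / |om.im|) with hA
  have hq : 0 < 1 / |om.im| := by positivity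
  have hA120 : 120 ≤ A := by
    rw [hA]
    have : 0 ≤ 2 * |K| + 2 * (1 + ‖om‖) * (1 + 1 / |om.im|) := by positivity
    linarith
  have hA0 : 0 < A := by linarith
  have hA1 : 2 * (1 + ‖om‖) / |om.im| ≤ A := by
    have e : A = 2 * (1 + ‖om‖) / |om.im| + (120 + 2 * |K| + 2 * (1 + ‖om‖)) := by
      rw [hA]; ring
    rw [e]
    have : 0 ≤ 120 + 2 * |K| + 2 * (1 + ‖om‖) := by positivity
    linarith
  refine ⟨A, hA120, ?_, ?_, ?_, ?_⟩
  · rw [hA]
    have h1 : 0 ≤ 2 * (1 + ‖om‖) * (1 / |om.im|) := by positivity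
    have h2 : 0 ≤ |K| := abs_nonneg K
    nlinarith
  · rw [hA]
    have h1 : 0 ≤ 2 * (1 + ‖om‖) * (1 + 1 / |om.im|) := by positivity
    have h2 := le_abs_self K
    linarith
  · intro G
    by_contra hcon
    push Not at hcon
    obtain ⟨h1, h2⟩ := hcon
    have hG : 0 < ‖G‖ := lt_of_le_of_lt (by positivity) h1
    have e : (G * om).im = G.re * om.im + G.im * om.re := by rw [Complex.mul_im]
    have h3 : |G.re| * |om.im| ≤ |(G * om).im| + |G.im| * ‖om‖ := by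
      have h4 : G.re * om.im = (G * om).im - G.im * om.re := by rw [e]; ring
      rw [← abs_mul, h4]
      refine le_trans (abs_sub _ _) ?_
      rw [abs_mul]
      have h5 : |om.re| ≤ ‖om‖ := Complex.abs_re_le_norm om
      have := mul_le_mul_of_nonneg_left h5 (abs_nonneg G.im)
      linarith
    have h6 : A * (|G.re| * |om.im|) ≤ (1 + ‖om‖) * ‖G‖ := by
      have h7 : A * (|G.re| * |om.im|) ≤ A * |(G * om).im| + (A * |G.im|) * ‖om‖ := by
        have := mul_le_mul_of_nonneg_left h3 hA0.le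
        linarith
      have h8 : (A * |G.im|) * ‖om‖ ≤ ‖G‖ * ‖om‖ := mul_le_mul_of_nonneg_right h1.le hw
      linarith
    rw [div_le_iff₀ hy] at hA1
    have h9 : 2 * (1 + ‖om‖) * |G.re| ≤ (1 + ‖om‖) * ‖G‖ := by
      have := mul_le_mul_of_nonneg_right hA1 (abs_nonneg G.re)
      linarith
    have h10 : 2 * |G.re| ≤ ‖G‖ := by
      have h11 : 0 < 1 + ‖om‖ := by positivity
      have h12 : (1 + ‖om‖) * (2 * |G.re|) ≤ (1 + ‖om‖) * ‖G‖ := by linarith
      exact le_of_mul_le_mul_left h12 h11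
    have h13 : ‖G‖ ≤ |G.re| + |G.im| := Complex.norm_le_abs_re_add_abs_im G
    have h14 : 120 * |G.im| ≤ A * |G.im| := mul_le_mul_of_nonneg_right hA120 (abs_nonneg _)
    have h15 := abs_nonneg G.im
    linarith
  · intro s t
    set w : ℂ := (s : ℂ) + (t : ℂ) * om with hwdef
    have him : w.im = t * om.im := by
      rw [hwdef, Complex.add_im, Complex.ofReal_im, Complex.im_ofReal_mul]
      ring
    have h1 : |t| * |om.im| ≤ ‖w‖ := by
      rw [← abs_mul, ← him]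
      exact Complex.abs_im_le_norm w
    have h2 : |t| ≤ ‖w‖ / |om.im| := by
      rw [le_div_iff₀ hy]
      exact h1
    have h3 : |s| ≤ ‖w‖ + |t| * ‖om‖ := by
      have e : (s : ℂ) = w - (t : ℂ) * om := by rw [hwdef]; ring
      calc |s| = ‖(s : ℂ)‖ := by rw [Complex.norm_real, Real.norm_eq_abs]
        _ = ‖w - (t : ℂ) * om‖ := by rw [← e]
        _ ≤ ‖w‖ + ‖(t : ℂ) * om‖ := norm_sub_le _ _
        _ = ‖w‖ + |t| * ‖om‖ := by rw [norm_mul, Complex.norm_real, Real.norm_eq_abs]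
    have hw0 : 0 ≤ ‖w‖ := norm_nonneg w
    constructor
    · have h4 : |t| * ‖om‖ ≤ ‖w‖ / |om.im| * ‖om‖ := mul_le_mul_of_nonneg_right h2 hw
      have h5 : ‖w‖ + ‖w‖ / |om.im| * ‖om‖ ≤ A * ‖w‖ := by
        have e : ‖w‖ + ‖w‖ / |om.im| * ‖om‖ = (1 + ‖om‖ / |om.im|) * ‖w‖ := by ring
        rw [e]
        apply mul_le_mul_of_nonneg_right _ hw0
        have h6 : 2 * (1 + ‖om‖) / |om.im| = ‖om‖ / |om.im| + (2 + ‖om‖) / |om.im| := by ring
        have h7 : 0 ≤ ‖om‖ / |om.im| := by positivity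
        have e2 : A = 120 + 2 * |K| + 2 * (1 + ‖om‖) + (‖om‖ / |om.im|
            + (2 + ‖om‖) / |om.im|) := by
          rw [hA]; ring
        have h8 : 0 ≤ (2 + ‖om‖) / |om.im| := by positivity
        have h9 := abs_nonneg K
        linarith
      linarith
    · have h5 : ‖w‖ / |om.im| ≤ A * ‖w‖ := by
        have e : ‖w‖ / |om.im| = (1 / |om.im|) * ‖w‖ := by ring
        rw [e]
        apply mul_le_mul_of_nonneg_right _ hw0
        have e2 : A = 120 + 2 * |K| + 2 * (1 + ‖om‖) + 2 * ‖om‖ / |om.im|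
            + 2 * (1 / |om.im|) := by
          rw [hA]; ring
        have h7 : 0 ≤ 2 * ‖om‖ / |om.im| := by positivity
        have h9 := abs_nonneg K
        linarith
      linarith

/-- Cancellation over boxes for the powers of `(x + y om) / |x + y om|`, `om` not real. -/
theorem weyl_box_im (om : ℂ) (hom : om.im ≠ 0) (K : ℝ) (hK : 0 < K) : ∃ Z0 : ℕ, ∀ Z : ℕ,
    Z0 ≤ Z → ∀ M : ℕ, Z ^ 150 ≤ M → M ≤ Z ^ 660 → ∀ a b : ℤ,
    (Z : ℝ) ^ 160 / K ≤ ‖zw om (a, b)‖ → ‖zw om (a, b)‖ ≤ K * (Z : ℝ) ^ 160 →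
    ‖∑ w ∈ rect a (a + (Z : ℤ) ^ 158) b (b + (Z : ℤ) ^ 158),
      (zw om w / (‖zw om w‖ : ℂ)) ^ M‖ ^ 16 * Z ≤ Dw 4 7 4 * ((Z : ℝ) ^ 158) ^ 32 := by
  obtain ⟨A, hA120, hA1, hA2, hA3, hA4⟩ := exists_A_complex om hom K
  refine ⟨⌈A ^ 25⌉₊ + 2, ?_⟩
  intro Z hZ M hM1 hM2 a b hab1 hab2
  have hA0 : (0 : ℝ) < A := by linarith
  have hA1' : (1 : ℝ) ≤ A := by linarith
  have hZA : A ^ 25 ≤ (Z : ℝ) := by
    have h1 := Nat.le_ceil (A ^ 25)
    have h2 : ((⌈A ^ 25⌉₊ : ℕ) : ℝ) ≤ (Z : ℝ) := by exact_mod_cast (by omega : ⌈A ^ 25⌉₊ ≤ Z)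
    linarith
  have hZ2 : 2 ≤ Z := by omega
  have hZn1 : 1 ≤ Z := by omega
  have hZ1 : (1 : ℝ) ≤ Z := by exact_mod_cast hZn1
  have hZ0 : (0 : ℝ) < Z := by linarith
  have hM1r : (Z : ℝ) ^ 150 ≤ (M : ℝ) := by exact_mod_cast hM1
  have hM2r : (M : ℝ) ≤ (Z : ℝ) ^ 660 := by exact_mod_cast hM2
  have hM0 : (0 : ℝ) < M := lt_of_lt_of_le (by positivity) hM1r
  obtain ⟨q, hq4, hq1, hq2⟩ := exists_q Z hZ2 M hM1r hM2r
  obtain ⟨l, hl1, hl2, hl3, hl4, hl5⟩ := exists_l q hq4 Z hZ2 M hq1 hq2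
  have hlr : (1 : ℝ) ≤ l := by exact_mod_cast hl1
  set X : ℝ := (Z : ℝ) ^ 160 with hX
  have hX0 : 0 < X := by rw [hX]; positivity
  set S : ℝ := (Z : ℝ) ^ 158 with hS
  have hS0 : 0 < S := by rw [hS]; positivity
  have hXS : X = (Z : ℝ) ^ 2 * S := by rw [hX, hS]; ring
  -- A is much smaller than Z
  have hAZ : 2 * A ≤ (Z : ℝ) := by
    calc 2 * A ≤ A * A := mul_le_mul_of_nonneg_right (by linarith) hA0.le
      _ = A ^ 2 := by ring
      _ ≤ A ^ 25 := pow_le_pow_right₀ hA1' (by norm_num)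
      _ ≤ Z := hZA
  have hAAS : 2 * (A * (A * S)) ≤ X := by
    rw [hXS]
    have h1 : 2 * A * A ≤ (Z : ℝ) ^ 2 := by
      rw [sq]
      exact mul_le_mul hAZ (le_trans (le_mul_of_one_le_left hA0.le one_le_two) hAZ)
        hA0.le hZ0.le
    calc 2 * (A * (A * S)) = (2 * A * A) * S := by ring
      _ ≤ (Z : ℝ) ^ 2 * S := mul_le_mul_of_nonneg_right h1 hS0.le
  set p0 : ℂ := zw om (a, b) with hp0
  have hp0pos : 0 < ‖p0‖ := lt_of_lt_of_le (by positivity) hab1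
  have hp0ne : (‖p0‖ : ℂ) ≠ 0 := by exact_mod_cast hp0pos.ne'
  set u : ℂ := (starRingEnd ℂ) p0 / (‖p0‖ : ℂ) with hu
  have hun : ‖u‖ = 1 := by
    rw [hu, norm_div, Complex.norm_conj, Complex.norm_real, Real.norm_eq_abs, abs_norm,
      div_self hp0pos.ne']
  have hup : u * p0 = (‖p0‖ : ℂ) := by
    rw [hu, div_mul_eq_mul_div, mul_comm, Complex.mul_conj, Complex.normSq_eq_norm_sq]
    rw [div_eq_iff hp0ne]
    push_cast
    ring
  have hmemOm : ∀ w ∈ rect a (a + (Z : ℤ) ^ 158) b (b + (Z : ℤ) ^ 158),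
      zw om w ∈ OmU u X A := by
    intro w hw
    rw [mem_rect] at hw
    set d : ℤ × ℤ := (w.1 - a, w.2 - b) with hd
    have hwd : w = (a, b) + d := by
      rw [hd]
      ext <;> simp
    have hdn : ‖zw om d‖ ≤ A * S := by
      apply norm_zw_le om d A S hA1 hS0.le
      · rw [abs_le]
        have h1 : (0 : ℝ) ≤ (d.1 : ℝ) := by
          have : (0 : ℤ) ≤ d.1 := by rw [hd]; simp only; omega
          exact_mod_cast this
        have h2 : (d.1 : ℝ) ≤ S := by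
          have : d.1 ≤ (Z : ℤ) ^ 158 := by rw [hd]; simp only; omega
          rw [hS]
          exact_mod_cast this
        constructor <;> linarith
      · rw [abs_le]
        have h1 : (0 : ℝ) ≤ (d.2 : ℝ) := by
          have : (0 : ℤ) ≤ d.2 := by rw [hd]; simp only; omega
          exact_mod_cast this
        have h2 : (d.2 : ℝ) ≤ S := by
          have : d.2 ≤ (Z : ℤ) ^ 158 := by rw [hd]; simp only; omega
          rw [hS]
          exact_mod_cast this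
        constructor <;> linarith
    have e : zw om w = p0 + zw om d := by
      rw [hwd, zw_add]
    rw [e]
    have hKA : X / A * 2 ≤ ‖p0‖ := by
      refine le_trans ?_ hab1
      rw [div_mul_eq_mul_div, div_le_div_iff₀ hA0 hK, mul_assoc]
      exact mul_le_mul_of_nonneg_left hA2 hX0.le
    have hASX : A * S * 2 ≤ X / A := by
      rw [le_div_iff₀ hA0]
      linarith
    refine ⟨?_, ?_⟩
    · show X / A < (u * (p0 + zw om d)).re
      rw [mul_add, hup, Complex.add_re, Complex.ofReal_re]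
      have h3 : -(A * S) ≤ (u * zw om d).re := by
        have h4 : |(u * zw om d).re| ≤ ‖u * zw om d‖ := Complex.abs_re_le_norm _
        rw [norm_mul, hun, one_mul] at h4
        have := neg_abs_le ((u * zw om d).re)
        linarith
      have : 0 < X / A := by positivity
      have : 0 < A * S := by positivity
      linarith
    · rw [mem_ball_zero_iff]
      refine lt_of_le_of_lt (norm_add_le _ _) ?_
      have h3 : K * X * 2 ≤ A * X := by
        rw [mul_comm (K * X) 2, ← mul_assoc]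
        exact mul_le_mul_of_nonneg_right hA2 hX0.le
      have h4 : X / A ≤ X := by
        rw [div_le_iff₀ hA0]
        exact le_mul_of_one_le_right hX0.le hA1'
      have h5 : 120 * X ≤ A * X := mul_le_mul_of_nonneg_right hA120 hX0.le
      linarith
  have hne : ∀ w ∈ rect a (a + (Z : ℤ) ^ 158) b (b + (Z : ℤ) ^ 158), zw om w ≠ 0 := by
    intro w hw h0
    have h := (OmU_norm u hun X A _ (hmemOm w hw)).1
    rw [h0, norm_zero] at h
    have : 0 < X / A := by positivity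
    linarith
  have hH1 : (0 : ℝ) < (Z : ℝ) ^ 31 / A := by positivity
  have hgood := chainC om A hA1' hA1 hA3 Z ((Z : ℝ) ^ 31 / A) hZ1 hH1 (Z ^ 32) l (Z ^ 158) hl1
    (by push_cast; exact hl5) q (FchU M u) (OmU u X A) ((M : ℝ) / (A * X) ^ (q + 1))
    ((M : ℝ) * A ^ (q + 2) / X ^ (q + 1)) ((M : ℝ) * A ^ (q + 3) / X ^ (q + 2))
    a (a + (Z : ℤ) ^ 158) b (b + (Z : ℤ) ^ 158) (OmU_convex u X A) (by positivity)
    (by positivity) (by positivity)
    (fun k z hz => FchU_deriv M u k z (lt_trans (by positivity) hz.1))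
    (fun z hz => by
      obtain ⟨h1, h2⟩ := OmU_norm u hun X A z hz
      rw [FchU_norm]
      exact (deriv_bounds q hq4 A X M ‖z‖ hA120 hX0 hM0 h1 h2).1)
    (fun z hz => by
      obtain ⟨h1, h2⟩ := OmU_norm u hun X A z hz
      rw [FchU_norm]
      exact (deriv_bounds q hq4 A X M ‖z‖ hA120 hX0 hM0 h1 h2).2.1)
    (fun z hz => by
      obtain ⟨h1, h2⟩ := OmU_norm u hun X A z hz
      show ‖FchU M u (q + 1 + 1) z‖ ≤ _
      rw [FchU_norm]
      exact (deriv_bounds q hq4 A X M ‖z‖ hA120 hX0 hM0 h1 h2).2.2)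
    (by push_cast; exact le_refl _) (by push_cast; exact le_refl _) hmemOm
    (by push_cast; exact params_a q hq4 A Z M hA120 hZA hM0 hq2)
    (params_b q hq4 A Z M l hA120 hZA hM0 hl2)
    (by push_cast; exact params_c q hq4 A Z M l hA120 hZA hM0 (by linarith) hl3 hl4)
    (by push_cast; exact params_e q hq4 A Z M hA120 hZA hM0)
  have hfin := finish Z hZ2 q hq4 (fun h => ‖zw om h‖ < (Z : ℝ) ^ 31 / A) ?_
    (fun w => (FchU M u 0 (zw om w)).im) a b (by
      convert hgood using 2)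
  · have e : ‖∑ w ∈ rect a (a + (Z : ℤ) ^ 158) b (b + (Z : ℤ) ^ 158),
        ph ((fun w => (FchU M u 0 (zw om w)).im) w)‖
        = ‖∑ w ∈ rect a (a + (Z : ℤ) ^ 158) b (b + (Z : ℤ) ^ 158),
          (zw om w / (‖zw om w‖ : ℂ)) ^ M‖ := by
      have e2 : ∑ w ∈ rect a (a + (Z : ℤ) ^ 158) b (b + (Z : ℤ) ^ 158),
          ph ((fun w => (FchU M u 0 (zw om w)).im) w)
          = u ^ M * ∑ w ∈ rect a (a + (Z : ℤ) ^ 158) b (b + (Z : ℤ) ^ 158),
            (zw om w / (‖zw om w‖ : ℂ)) ^ M := by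
        rw [Finset.mul_sum]
        apply Finset.sum_congr rfl
        intro w hw
        exact FchU_phase M u _ hun (hne w hw)
      rw [e2, norm_mul, norm_pow, hun, one_pow, one_mul]
    rw [e] at hfin
    exact hfin
  · intro k'
    have hsub : (Ico (0 : ℤ) ((Z ^ 32 : ℕ) : ℤ) ×ˢ Ico (0 : ℤ) ((Z ^ 32 : ℕ) : ℤ)).filter
        (fun k => ‖zw om (k - k')‖ < (Z : ℝ) ^ 31 / A)
        ⊆ (Ico (0 : ℤ) ((Z ^ 32 : ℕ) : ℤ) ×ˢ Ico (0 : ℤ) ((Z ^ 32 : ℕ) : ℤ)).filter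
        (fun k => |(k - k').1| < ((Z ^ 31 : ℕ) : ℤ) ∧ |(k - k').2| < ((Z ^ 31 : ℕ) : ℤ)) := by
      intro k hk
      rw [Finset.mem_filter] at hk ⊢
      refine ⟨hk.1, ?_⟩
      have h1 := hA4 ((k - k').1 : ℝ) ((k - k').2 : ℝ)
      have e : (((k - k').1 : ℝ) : ℂ) + (((k - k').2 : ℝ) : ℂ) * om = zw om (k - k') := by
        simp only [zw]
        push_cast
        rfl
      rw [e] at h1
      have h2 := hk.2
      rw [lt_div_iff₀ hA0] at h2
      have h3 : |((k - k').1 : ℝ)| < (Z : ℝ) ^ 31 := by linarith [h1.1]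
      have h4 : |((k - k').2 : ℝ)| < (Z : ℝ) ^ 31 := by linarith [h1.2]
      constructor
      · have : ((|(k - k').1| : ℤ) : ℝ) < (((Z ^ 31 : ℕ) : ℤ) : ℝ) := by
          push_cast
          exact_mod_cast h3
        exact_mod_cast this
      · have : ((|(k - k').2| : ℤ) : ℝ) < (((Z ^ 31 : ℕ) : ℤ) : ℝ) := by
          push_cast
          exact_mod_cast h4
        exact_mod_cast this
    have h5 := le_trans (Finset.card_le_card hsub) (card_close (Z ^ 32) (Z ^ 31) k')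
    have h6 : ((((Ico (0 : ℤ) ((Z ^ 32 : ℕ) : ℤ) ×ˢ Ico (0 : ℤ) ((Z ^ 32 : ℕ) : ℤ)).filter
        (fun k => ‖zw om (k - k')‖ < (Z : ℝ) ^ 31 / A)).card : ℕ) : ℝ)
        ≤ (((2 * Z ^ 31) ^ 2 : ℕ) : ℝ) := by exact_mod_cast h5
    refine le_trans (le_of_eq ?_) (le_trans h6 ?_)
    · congr!
    · rw [le_div_iff₀ hZ0]
      push_cast
      calc (2 * (Z : ℝ) ^ 31) ^ 2 * Z = 4 * (Z : ℝ) ^ 63 := by ring
        _ ≤ 4 * (Z : ℝ) ^ 64 := by
            apply mul_le_mul_of_nonneg_left _ (by norm_num)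
            exact pow_le_pow_right₀ hZ1 (by norm_num)
        _ = 4 * ((Z : ℝ) ^ 32) ^ 2 := by ring

end Pool.Agent.Lib.MP_a17b09_nt.LP
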