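import Pool.Agent.Lib.MP_a17b09_nt.LP.WeylForms

/-!
Cancellation of high angular characters over boxes, real quadratic case.
-/

set_option autoImplicit false

namespace Pool.Agent.Lib.MP_a17b09_nt.LP

open Finset

/-- The real logarithm and its derivatives, times `tau`. -/
noncomputable def Lch (tau : ℝ) : ℕ → ℝ → ℝ
  | 0 => fun x => tau * Real.log x
  | k + 1 => fun x => (tau * (-1) ^ k * (k.factorial : ℝ)) * (x ^ (k + 1))⁻¹

lemma Lch_deriv (tau : ℝ) (k : ℕ) (x : ℝ) (hx : 0 < x) :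
    HasDerivAt (Lch tau k) (Lch tau (k + 1) x) x := by
  have hx0 : x ≠ 0 := hx.ne'
  cases k with
  | zero =>
    have h := (Real.hasDerivAt_log hx0).const_mul tau
    have e : Lch tau (0 + 1) x = tau * x⁻¹ := by
      simp [Lch]
    rw [e]
    exact h
  | succ k =>
    have h1 : HasDerivAt (fun z : ℝ => z ^ (k + 1)) (((k + 1 : ℕ) : ℝ) * x ^ k) x := by
      simpa using hasDerivAt_pow (k + 1) x
    have h2 := (h1.inv (pow_ne_zero _ hx0)).const_mul (tau * (-1) ^ k * (k.factorial : ℝ))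
    have e : Lch tau (k + 1 + 1) x = tau * (-1) ^ k * (k.factorial : ℝ)
        * (-(((k + 1 : ℕ) : ℝ) * x ^ k) / (x ^ (k + 1)) ^ 2) := by
      simp only [Lch]
      rw [Nat.factorial_succ]
      push_cast
      field_simp
      ring
    rw [e]
    exact h2

lemma Lch_norm (tau : ℝ) (k : ℕ) (x : ℝ) (hx : 0 < x) :
    ‖Lch tau (k + 1) x‖ = |tau| * (k.factorial : ℝ) / x ^ (k + 1) := by
  simp only [Lch]
  rw [norm_mul, norm_mul, norm_mul, norm_pow, norm_neg, norm_one, one_pow, norm_inv, norm_pow,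
    Real.norm_eq_abs, Real.norm_eq_abs, Real.norm_eq_abs, abs_of_pos hx,
    abs_of_nonneg (Nat.cast_nonneg k.factorial : (0 : ℝ) ≤ (k.factorial : ℝ))]
  rw [mul_one, div_eq_mul_inv]

lemma exists_A_real (o1 o2 : ℝ) (ho : o1 ≠ o2) (K : ℝ) : ∃ A : ℝ, 120 ≤ A ∧ 1 + |o1| ≤ A
    ∧ 1 + |o2| ≤ A ∧ 2 * K ≤ A
    ∧ (∀ u v : ℝ, |u| ≤ A * |u + v| ∨ |u| ≤ A * |u * o1 + v * o2|) := by
  have hy : 0 < |o1 - o2| := abs_pos.mpr (sub_ne_zero.mpr ho)
  set A : ℝ := 120 + 2 * |K| + |o1| + |o2| + 1 + (1 + |o2|) / |o1 - o2| with hA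
  have h1 := abs_nonneg o1
  have h2 := abs_nonneg o2
  have h3 := abs_nonneg K
  have h4 : 0 ≤ (1 + |o2|) / |o1 - o2| := by positivity
  have h5 := le_abs_self K
  refine ⟨A, by rw [hA]; linarith, by rw [hA]; linarith, by rw [hA]; linarith,
    by rw [hA]; linarith, ?_⟩
  intro u v
  by_contra hcon
  push Not at hcon
  obtain ⟨c1, c2⟩ := hcon
  have hA0 : 0 < A := by rw [hA]; linarith
  have hu : 0 < |u| := lt_of_le_of_lt (by positivity) c1
  have e : u * (o1 - o2) = (u * o1 + v * o2) - o2 * (u + v) := by ring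
  have h6 : |u| * |o1 - o2| ≤ |u * o1 + v * o2| + |o2| * |u + v| := by
    rw [← abs_mul, e]
    refine le_trans (abs_sub _ _) ?_
    rw [abs_mul]
  have h7 : A * (|u| * |o1 - o2|) < (1 + |o2|) * |u| := by
    have h8 : A * (|u| * |o1 - o2|) ≤ A * |u * o1 + v * o2| + |o2| * (A * |u + v|) := by
      have := mul_le_mul_of_nonneg_left h6 hA0.le
      linarith
    have h9 : |o2| * (A * |u + v|) ≤ |o2| * |u| := mul_le_mul_of_nonneg_left c1.le h2
    linarith
  have h10 : (1 + |o2|) ≤ A * |o1 - o2| := by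
    have : (1 + |o2|) / |o1 - o2| ≤ A := by rw [hA]; linarith
    rw [div_le_iff₀ hy] at this
    exact this
  have h11 : (1 + |o2|) * |u| ≤ A * |o1 - o2| * |u| := mul_le_mul_of_nonneg_right h10 hu.le
  linarith

/-- Cancellation over boxes for `exp (i tau log (g / g'))`, `g = x + y o1`, `g' = x + y o2`. -/
theorem weyl_box_re (o1 o2 : ℝ) (ho : o1 ≠ o2) (K : ℝ) (hK : 0 < K) : ∃ Z0 : ℕ, ∀ Z : ℕ,
    Z0 ≤ Z → ∀ tau : ℝ, (Z : ℝ) ^ 150 ≤ |tau| → |tau| ≤ (Z : ℝ) ^ 660 → ∀ a b : ℤ,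
    (Z : ℝ) ^ 160 / K ≤ gr o1 (a, b) → gr o1 (a, b) ≤ K * (Z : ℝ) ^ 160 →
    (Z : ℝ) ^ 160 / K ≤ gr o2 (a, b) → gr o2 (a, b) ≤ K * (Z : ℝ) ^ 160 →
    ‖∑ w ∈ rect a (a + (Z : ℤ) ^ 158) b (b + (Z : ℤ) ^ 158),
      ph (tau * (Real.log (gr o1 w) - Real.log (gr o2 w)))‖ ^ 16 * Z
      ≤ Dw 4 7 4 * ((Z : ℝ) ^ 158) ^ 32 := by
  obtain ⟨A, hA120, hA1, hA2, hAK, hA3⟩ := exists_A_real o1 o2 ho K
  refine ⟨⌈A ^ 25⌉₊ + 2, ?_⟩
  intro Z hZ tau hM1r hM2r a b hab1 hab2 hab3 hab4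
  have hA0 : (0 : ℝ) < A := by linarith
  have hA1' : (1 : ℝ) ≤ A := by linarith
  have hZA : A ^ 25 ≤ (Z : ℝ) := by
    have h1 := Nat.le_ceil (A ^ 25)
    have h2 : ((⌈A ^ 25⌉₊ : ℕ) : ℝ) ≤ (Z : ℝ) := by exact_mod_cast (by omega : ⌈A ^ 25⌉₊ ≤ Z)
    linarith
  have hZ2 : 2 ≤ Z := by omega
  have hZn1 : 1 ≤ Z := by omega
  have hZ1 : (1 : ℝ) ≤ Z := by exact_mod_cast hZn1
  have hZ0 : (0 : ℝ) < Z := by linarith
  set M : ℝ := |tau| with hMdef
  have hM0 : (0 : ℝ) < M := lt_of_lt_of_le (by positivity) hM1r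
  obtain ⟨q, hq4, hq1, hq2⟩ := exists_q Z hZ2 M hM1r hM2r
  obtain ⟨l, hl1, hl2, hl3, hl4, hl5⟩ := exists_l q hq4 Z hZ2 M hq1 hq2
  have hlr : (1 : ℝ) ≤ l := by exact_mod_cast hl1
  set X : ℝ := (Z : ℝ) ^ 160 with hX
  have hX0 : 0 < X := by rw [hX]; positivity
  set S : ℝ := (Z : ℝ) ^ 158 with hS
  have hS0 : 0 < S := by rw [hS]; positivity
  have hXS : X = (Z : ℝ) ^ 2 * S := by rw [hX, hS]; ring
  have hAZ : 2 * A ≤ (Z : ℝ) := by
    calc 2 * A ≤ A * A := mul_le_mul_of_nonneg_right (by linarith) hA0.le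
      _ = A ^ 2 := by ring
      _ ≤ A ^ 25 := pow_le_pow_right₀ hA1' (by norm_num)
      _ ≤ Z := hZA
  have hAAS : 2 * (A * (A * S)) ≤ X := by
    rw [hXS]
    have h1 : 2 * A * A ≤ (Z : ℝ) ^ 2 := by nlinarith
    calc 2 * (A * (A * S)) = (2 * A * A) * S := by ring
      _ ≤ (Z : ℝ) ^ 2 * S := mul_le_mul_of_nonneg_right h1 hS0.le
  set I : Set ℝ := Set.Ioo (X / A) (A * X) with hI
  have hIc : Convex ℝ I := convex_Ioo _ _
  have hmem : ∀ o : ℝ, 1 + |o| ≤ A → X / K ≤ gr o (a, b) → gr o (a, b) ≤ K * X →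
      ∀ w ∈ rect a (a + (Z : ℤ) ^ 158) b (b + (Z : ℤ) ^ 158), gr o w ∈ I := by
    intro o ho1 hc1 hc2 w hw
    rw [mem_rect] at hw
    set d : ℤ × ℤ := (w.1 - a, w.2 - b) with hd
    have hwd : w = (a, b) + d := by
      rw [hd]
      ext <;> simp
    have hdn : |gr o d| ≤ A * S := by
      apply abs_gr_le o d A S ho1 hS0.le
      · rw [abs_le]
        have h1 : (0 : ℝ) ≤ (d.1 : ℝ) := by
          have : (0 : ℤ) ≤ d.1 := by rw [hd]; simp only; omega
          exact_mod_cast this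
        have h2 : (d.1 : ℝ) ≤ S := by
          have : d.1 ≤ (Z : ℤ) ^ 158 := by rw [hd]; simp only; omega
          rw [hS]
          exact_mod_cast this
        constructor <;> linarith
      · rw [abs_le]
        have h1 : (0 : ℝ) ≤ (d.2 : ℝ) := by
          have : (0 : ℤ) ≤ d.2 := by rw [hd]; simp only; omega
          exact_mod_cast this
        have h2 : (d.2 : ℝ) ≤ S := by
          have : d.2 ≤ (Z : ℤ) ^ 158 := by rw [hd]; simp only; omega
          rw [hS]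
          exact_mod_cast this
        constructor <;> linarith
    have e : gr o w = gr o (a, b) + gr o d := by
      rw [hwd, gr_add]
    rw [e, hI, Set.mem_Ioo]
    rw [abs_le] at hdn
    have hKA : X / A * 2 ≤ gr o (a, b) := by
      refine le_trans ?_ hc1
      rw [div_mul_eq_mul_div, div_le_div_iff₀ hA0 hK]
      nlinarith
    have hASX : A * S * 2 ≤ X / A := by
      rw [le_div_iff₀ hA0]
      linarith
    have hXA : 0 < X / A := by positivity
    have hAS : 0 < A * S := by positivity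
    refine ⟨by linarith [hdn.1], ?_⟩
    have h3 : K * X * 2 ≤ A * X := by nlinarith
    have h4 : X / A ≤ X := by
      rw [div_le_iff₀ hA0]
      nlinarith
    have h5 : 120 * X ≤ A * X := mul_le_mul_of_nonneg_right hA120 hX0.le
    linarith [hdn.2]
  have hIpos : ∀ x ∈ I, 0 < x := by
    intro x hx
    exact lt_trans (by positivity) hx.1
  have htau : |(-tau)| = M := by rw [abs_neg]
  have hH1 : (0 : ℝ) < (Z : ℝ) ^ 31 / A := by positivity
  have hgood := chainR o1 o2 A hA1' hA1 hA2 hA3 Z ((Z : ℝ) ^ 31 / A) hZ1 hH1 (Z ^ 32) l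
    (Z ^ 158) hl1
    (by push_cast; exact hl5) q (Lch tau) (Lch (-tau)) I I (M / (A * X) ^ (q + 1))
    (M * A ^ (q + 2) / X ^ (q + 1)) (M * A ^ (q + 3) / X ^ (q + 2))
    a (a + (Z : ℤ) ^ 158) b (b + (Z : ℤ) ^ 158) hIc hIc (by positivity)
    (by positivity) (by positivity)
    (fun k z hz => Lch_deriv tau k z (hIpos z hz))
    (fun k z hz => Lch_deriv (-tau) k z (hIpos z hz))
    (fun z hz => by
      rw [Lch_norm tau q z (hIpos z hz)]
      exact (deriv_bounds q hq4 A X M z hA120 hX0 hM0 hz.1 hz.2).1)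
    (fun z hz => by
      rw [Lch_norm tau q z (hIpos z hz)]
      exact (deriv_bounds q hq4 A X M z hA120 hX0 hM0 hz.1 hz.2).2.1)
    (fun z hz => by
      show ‖Lch tau (q + 1 + 1) z‖ ≤ _
      rw [Lch_norm tau (q + 1) z (hIpos z hz)]
      exact (deriv_bounds q hq4 A X M z hA120 hX0 hM0 hz.1 hz.2).2.2)
    (fun z hz => by
      rw [Lch_norm (-tau) q z (hIpos z hz), htau]
      exact (deriv_bounds q hq4 A X M z hA120 hX0 hM0 hz.1 hz.2).2.1)
    (fun z hz => by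
      show ‖Lch (-tau) (q + 1 + 1) z‖ ≤ _
      rw [Lch_norm (-tau) (q + 1) z (hIpos z hz), htau]
      exact (deriv_bounds q hq4 A X M z hA120 hX0 hM0 hz.1 hz.2).2.2)
    (by push_cast; exact le_refl _) (by push_cast; exact le_refl _)
    (hmem o1 hA1 hab1 hab2) (hmem o2 hA2 hab3 hab4)
    (by push_cast; exact params_a q hq4 A Z M hA120 hZA hM0 hq2)
    (params_b q hq4 A Z M l hA120 hZA hM0 hl2)
    (by push_cast; exact params_c q hq4 A Z M l hA120 hZA hM0 (by linarith) hl3 hl4)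
    (by push_cast; exact params_e q hq4 A Z M hA120 hZA hM0)
  have hfin := finish Z hZ2 q hq4 (fun h => |gr o1 h| < (Z : ℝ) ^ 31 / A) ?_
    (fun w => Lch tau 0 (gr o1 w) + Lch (-tau) 0 (gr o2 w)) a b (by
      convert hgood using 2)
  · have e : ∀ w : ℤ × ℤ, (fun w => Lch tau 0 (gr o1 w) + Lch (-tau) 0 (gr o2 w)) w
        = tau * (Real.log (gr o1 w) - Real.log (gr o2 w)) := by
      intro w
      simp only [Lch]
      ring
    simp only [e] at hfin
    exact hfin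
  · intro k'
    set P := Ico (0 : ℤ) ((Z ^ 32 : ℕ) : ℤ) with hP
    have hcount : (((P ×ˢ P).filter
        (fun k => |gr o1 (k - k')| < (Z : ℝ) ^ 31 / A)).card : ℕ)
        ≤ (2 * Z ^ 31 + 2) * Z ^ 32 := by
      have hinj : ((P ×ˢ P).filter
          (fun k => |gr o1 (k - k')| < (Z : ℝ) ^ 31 / A)).card
          ≤ ((Icc (-((Z ^ 31 : ℕ) : ℤ)) ((Z ^ 31 : ℕ) + 1 : ℤ)) ×ˢ P).card := by
        apply Finset.card_le_card_of_injOn
          (fun k => (k.1 - ⌊(k'.1 : ℝ) - ((k.2 : ℝ) - k'.2) * o1⌋, k.2))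
        · intro k hk
          rw [Finset.mem_coe, Finset.mem_filter, Finset.mem_product] at hk
          rw [Finset.mem_coe, Finset.mem_product]
          refine ⟨?_, hk.1.2⟩
          have h1 := hk.2
          have h2 : (Z : ℝ) ^ 31 / A ≤ (Z : ℝ) ^ 31 := by
            rw [div_le_iff₀ hA0]
            have : (0 : ℝ) < (Z : ℝ) ^ 31 := by positivity
            nlinarith
          have h3 : |gr o1 (k - k')| < (Z : ℝ) ^ 31 := lt_of_lt_of_le h1 h2
          have e : gr o1 (k - k') = (k.1 : ℝ) - ((k'.1 : ℝ) - ((k.2 : ℝ) - k'.2) * o1) := by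
            simp only [gr, Prod.fst_sub, Prod.snd_sub]
            push_cast
            ring
          rw [e, abs_lt] at h3
          set c : ℝ := (k'.1 : ℝ) - ((k.2 : ℝ) - k'.2) * o1 with hc
          have f1 := Int.floor_le c
          have f2 := Int.lt_floor_add_one c
          rw [Finset.mem_Icc]
          show (-((Z ^ 31 : ℕ) : ℤ)) ≤ k.1 - ⌊c⌋ ∧ k.1 - ⌊c⌋ ≤ ((Z ^ 31 : ℕ) + 1 : ℤ)
          constructor
          · have : (-((Z ^ 31 : ℕ) : ℤ) : ℝ) ≤ ((k.1 - ⌊c⌋ : ℤ) : ℝ) := by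
              push_cast
              linarith [h3.1]
            exact_mod_cast this
          · have : ((k.1 - ⌊c⌋ : ℤ) : ℝ) ≤ (((Z ^ 31 : ℕ) + 1 : ℤ) : ℝ) := by
              push_cast
              linarith [h3.2]
            exact_mod_cast this
        · intro k _ v _ hkv
          simp only [Prod.mk.injEq] at hkv
          obtain ⟨g1, g2⟩ := hkv
          rw [g2] at g1
          ext
          · linarith
          · exact g2
      refine le_trans hinj ?_
      rw [Finset.card_product, Int.card_Icc, hP, Int.card_Ico]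
      apply Nat.mul_le_mul
      · omega
      · omega
    have hc2 : ((((P ×ˢ P).filter
        (fun k => |gr o1 (k - k')| < (Z : ℝ) ^ 31 / A)).card : ℕ) : ℝ)
        ≤ (((2 * Z ^ 31 + 2) * Z ^ 32 : ℕ) : ℝ) := by exact_mod_cast hcount
    refine le_trans (le_of_eq ?_) (le_trans hc2 ?_)
    · congr!
    · rw [le_div_iff₀ hZ0]
      push_cast
      have h1 : (1 : ℝ) ≤ (Z : ℝ) ^ 31 := one_le_pow₀ hZ1
      calc (2 * (Z : ℝ) ^ 31 + 2) * (Z : ℝ) ^ 32 * Z
          ≤ (4 * (Z : ℝ) ^ 31) * (Z : ℝ) ^ 32 * Z := by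
            apply mul_le_mul_of_nonneg_right _ hZ0.le
            apply mul_le_mul_of_nonneg_right _ (by positivity)
            linarith
        _ = 4 * ((Z : ℝ) ^ 32) ^ 2 := by ring

end Pool.Agent.Lib.MP_a17b09_nt.LP
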