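import Mathlib

set_option autoImplicit false

open Finset

namespace Pool.Agent.Lib.MP_a17b09_nt.LP

/-- number of divisors -/
def dv (n : ℕ) : ℕ := n.divisors.card

lemma dv_mul_le (m n : ℕ) : dv (m * n) ≤ dv m * dv n := by
  unfold dv
  rw [Nat.divisors_mul]
  exact Finset.card_mul_le

lemma dv_pos {n : ℕ} (hn : 0 < n) : 0 < dv n := by
  unfold dv
  exact Finset.card_pos.2 ⟨1, by simp [hn.ne']⟩

lemma dv_prime {p : ℕ} (hp : p.Prime) : dv p = 2 := by
  unfold dv
  rw [hp.divisors, Finset.card_pair hp.one_lt.ne]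

lemma dv_le_of_dvd {m n : ℕ} (h : m ∣ n) (hn : 0 < n) : dv m ≤ dv n := by
  unfold dv
  exact Finset.card_le_card (Nat.divisors_subset_of_dvd hn.ne' h)

/-- Every `n` has a divisor `q ≤ √n` with `d(n) ≤ 2 d(q)²`. -/
theorem exists_small_divisor {n : ℕ} (hn : 0 < n) :
    ∃ q, q ∣ n ∧ q ^ 2 ≤ n ∧ dv n ≤ 2 * (dv q) ^ 2 := by
  classical
  set S : Finset ℕ := n.divisors.filter (fun q => q ^ 2 ≤ n) with hS
  have h1 : 1 ∈ S := by
    rw [hS, Finset.mem_filter]
    exact ⟨by simp [hn.ne'], by simpa using (show 1 ≤ n from hn)⟩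
  have hne : S.Nonempty := ⟨1, h1⟩
  obtain ⟨q, hq, hmax⟩ := S.exists_max_image id hne
  rw [hS, Finset.mem_filter, Nat.mem_divisors] at hq
  obtain ⟨⟨⟨m, hm⟩, _⟩, hq2⟩ := hq
  have hq0 : 0 < q := Nat.pos_of_ne_zero (by rintro rfl; simp at hm; omega)
  have hm0 : 0 < m := Nat.pos_of_ne_zero (by rintro rfl; simp at hm; omega)
  rcases Nat.eq_or_lt_of_le (show 1 ≤ m from hm0) with hm1 | hm1
  · refine ⟨q, ⟨m, hm⟩, hq2, ?_⟩
    rw [hm, ← hm1, mul_one]
    have := dv_pos hq0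
    nlinarith
  · obtain ⟨p, hp, hpm⟩ := Nat.exists_prime_and_dvd hm1.ne'
    obtain ⟨r, hr⟩ := hpm
    have hr0 : 0 < r := Nat.pos_of_ne_zero (by rintro rfl; simp at hr; omega)
    have hpq : n < (p * q) ^ 2 := by
      by_contra hcon
      push Not at hcon
      have hmem : p * q ∈ S := by
        rw [hS, Finset.mem_filter, Nat.mem_divisors]
        exact ⟨⟨⟨r, by rw [hm, hr]; ring⟩, hn.ne'⟩, hcon⟩
      have := hmax _ hmem
      simp only [id] at this
      have h2 := hp.two_le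
      nlinarith
    have hr2 : r ^ 2 ≤ n := by
      have h3 : q * (p * r) < p ^ 2 * q ^ 2 := by
        calc q * (p * r) = n := by rw [hm, hr]
          _ < (p * q) ^ 2 := hpq
          _ = p ^ 2 * q ^ 2 := by ring
      have h4 : r < p * q := by
        have h5 : (p * q) * r < (p * q) * (p * q) := by
          calc (p * q) * r = q * (p * r) := by ring
            _ < p ^ 2 * q ^ 2 := h3
            _ = (p * q) * (p * q) := by ring
        exact lt_of_mul_lt_mul_left h5 (Nat.zero_le _)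
      calc r ^ 2 = r * r := by ring
        _ ≤ (p * q) * r := by gcongr
        _ = n := by rw [hm, hr]; ring
    have hd : dv n ≤ dv q * (2 * dv r) := by
      rw [hm, hr]
      refine (dv_mul_le _ _).trans ?_
      gcongr
      refine (dv_mul_le _ _).trans ?_
      rw [dv_prime hp]
    rcases le_total (dv q) (dv r) with h | h
    · refine ⟨r, ⟨p * q, by rw [hm, hr]; ring⟩, hr2, hd.trans ?_⟩
      nlinarith
    · refine ⟨q, ⟨m, hm⟩, hq2, hd.trans ?_⟩
      nlinarith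

lemma sum_recip_le (N : ℕ) : ∑ q ∈ Icc 1 N, (1 : ℝ) / q ≤ 1 + Real.log N := by
  have h := harmonic_le_one_add_log N
  rw [harmonic_eq_sum_Icc] at h
  push_cast at h
  simpa [one_div] using h

/-- hyperbola inequality -/
lemma sum_divAnti_le (N : ℕ) (g : ℕ → ℝ) (hg : ∀ n, 0 ≤ g n) :
    ∑ q ∈ Icc 1 N, ∑ x ∈ q.divisorsAntidiagonal, g x.1 * g x.2 ≤
      (∑ a ∈ Icc 1 N, g a) ^ 2 := by
  classical
  rw [sq, Finset.sum_mul_sum, ← Finset.sum_product', ← Finset.sum_biUnion]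
  · apply Finset.sum_le_sum_of_subset_of_nonneg
    · intro x hx
      rw [Finset.mem_biUnion] at hx
      obtain ⟨q, hq, hx⟩ := hx
      rw [Nat.mem_divisorsAntidiagonal] at hx
      rw [Finset.mem_Icc] at hq
      rw [Finset.mem_product, Finset.mem_Icc, Finset.mem_Icc]
      have h1 : x.1 ∣ q := ⟨x.2, hx.1.symm⟩
      have h2 : x.2 ∣ q := ⟨x.1, by rw [mul_comm]; exact hx.1.symm⟩
      have hq0 : 0 < q := by omega
      exact ⟨⟨Nat.pos_of_dvd_of_pos h1 hq0, (Nat.le_of_dvd hq0 h1).trans hq.2⟩,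
        ⟨Nat.pos_of_dvd_of_pos h2 hq0, (Nat.le_of_dvd hq0 h2).trans hq.2⟩⟩
    · intro x _ _
      exact mul_nonneg (hg _) (hg _)
  · intro q _ q' _ hqq
    rw [Function.onFun, Finset.disjoint_left]
    intro x hx hx'
    rw [Nat.mem_divisorsAntidiagonal] at hx hx'
    exact hqq (hx.1.symm.trans hx'.1)

/-- moments of the divisor function with weight `1/q` -/
theorem sum_dv_pow_div (N : ℕ) : ∀ k : ℕ,
    ∑ q ∈ Icc 1 N, (dv q : ℝ) ^ k / q ≤ (∑ q ∈ Icc 1 N, (1 : ℝ) / q) ^ (2 ^ k) := by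
  intro k
  induction k with
  | zero => simp
  | succ k ih =>
    have h1 : ∑ q ∈ Icc 1 N, (dv q : ℝ) ^ (k + 1) / q ≤
        ∑ q ∈ Icc 1 N, ∑ x ∈ q.divisorsAntidiagonal,
          ((dv x.1 : ℝ) ^ k / x.1) * ((dv x.2 : ℝ) ^ k / x.2) := by
      apply Finset.sum_le_sum
      intro q hq
      rw [Finset.mem_Icc] at hq
      have hq0 : q ≠ 0 := by omega
      have hcard : (q.divisorsAntidiagonal.card : ℝ) = dv q := by
        have : q.divisorsAntidiagonal.card = dv q := by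
          unfold dv
          rw [← Nat.map_div_right_divisors, Finset.card_map]
        exact_mod_cast this
      have h2 : ∀ x ∈ q.divisorsAntidiagonal, (dv q : ℝ) ^ k / q ≤
          ((dv x.1 : ℝ) ^ k / x.1) * ((dv x.2 : ℝ) ^ k / x.2) := by
        intro x hx
        rw [Nat.mem_divisorsAntidiagonal] at hx
        have e : (q : ℝ) = x.1 * x.2 := by rw [← hx.1]; push_cast; ring
        rw [div_mul_div_comm, ← mul_pow, ← e]
        have : (dv q : ℝ) ≤ dv x.1 * dv x.2 := by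
          have := dv_mul_le x.1 x.2
          rw [hx.1] at this
          exact_mod_cast this
        gcongr
      calc (dv q : ℝ) ^ (k + 1) / q = dv q * ((dv q : ℝ) ^ k / q) := by ring
        _ = ∑ x ∈ q.divisorsAntidiagonal, (dv q : ℝ) ^ k / q := by
            rw [Finset.sum_const, nsmul_eq_mul, hcard]
        _ ≤ _ := Finset.sum_le_sum h2
    refine h1.trans ((sum_divAnti_le N (fun n => (dv n : ℝ) ^ k / n) (by intro n; positivity)).trans ?_)
    have h0 : 0 ≤ ∑ a ∈ Icc 1 N, (dv a : ℝ) ^ k / a := Finset.sum_nonneg (by intro i _; positivity)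
    calc (∑ a ∈ Icc 1 N, (dv a : ℝ) ^ k / a) ^ 2 ≤
        ((∑ q ∈ Icc 1 N, (1 : ℝ) / q) ^ (2 ^ k)) ^ 2 := by gcongr
      _ = _ := by rw [← pow_mul, pow_succ]

theorem sum_dv_pow_div_log (N : ℕ) (k : ℕ) :
    ∑ q ∈ Icc 1 N, (dv q : ℝ) ^ k / q ≤ (1 + Real.log N) ^ (2 ^ k) := by
  refine (sum_dv_pow_div N k).trans ?_
  have h0 : 0 ≤ ∑ a ∈ Icc 1 N, (1 : ℝ) / a := Finset.sum_nonneg (by intro i _; positivity)
  gcongr
  exact sum_recip_le N

/-- roots of `t² + 1` modulo `q` -/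
lemma root_eq_of_gcd {q : ℕ} {t0 t t1 : ℤ} (h0 : (q : ℤ) ∣ t0 ^ 2 + 1)
    (h : (q : ℤ) ∣ t ^ 2 + 1) (h1 : (q : ℤ) ∣ t1 ^ 2 + 1)
    (hg : Int.gcd q (t - t0) = Int.gcd q (t1 - t0)) : (q : ℤ) ∣ t - t1 := by
  rcases Nat.eq_zero_or_pos q with rfl | hq
  · exfalso
    simp at h0
    nlinarith [sq_nonneg t0]
  set g : ℤ := (Int.gcd q (t - t0) : ℤ) with hgdef
  have hgpos : 0 < g := by
    rw [hgdef]
    have := Int.gcd_pos_of_ne_zero_left (t - t0) (show (q : ℤ) ≠ 0 by exact_mod_cast hq.ne')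
    exact_mod_cast this
  obtain ⟨q', hq'⟩ : g ∣ (q : ℤ) := Int.gcd_dvd_left ..
  have key : ∀ s : ℤ, (q : ℤ) ∣ s ^ 2 + 1 → (Int.gcd q (s - t0) : ℤ) = g →
      g ∣ s - t0 ∧ q' ∣ s + t0 := by
    intro s hs hsg
    have hgs : g ∣ s - t0 := by rw [← hsg]; exact Int.gcd_dvd_right ..
    refine ⟨hgs, ?_⟩
    obtain ⟨r, hr⟩ := hgs
    have hd : (q : ℤ) ∣ (s - t0) * (s + t0) := by
      have : (s - t0) * (s + t0) = (s ^ 2 + 1) - (t0 ^ 2 + 1) := by ring
      rw [this]; exact dvd_sub hs h0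
    rw [hq', hr, mul_assoc] at hd
    have hd2 : q' ∣ r * (s + t0) := (mul_dvd_mul_iff_left hgpos.ne').1 hd
    have hcop : IsCoprime q' r := by
      rw [Int.isCoprime_iff_gcd_eq_one]
      have e : Int.gcd (g * q') (g * r) = g.natAbs * Int.gcd q' r := Int.gcd_mul_left ..
      rw [← hq', ← hr] at e
      have e2 : g.natAbs = Int.gcd q (s - t0) := by
        have := hsg
        omega
      rw [e2] at e
      have hpos : 0 < Int.gcd q (s - t0) := by omega
      exact Nat.eq_of_mul_eq_mul_left hpos (by omega)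
    exact hcop.dvd_of_dvd_mul_left hd2
  obtain ⟨ha, hb⟩ := key t h rfl
  obtain ⟨hc, hd⟩ := key t1 h1 (by rw [hgdef, hg])
  have hg1 : g ∣ t - t1 := by
    have : t - t1 = (t - t0) - (t1 - t0) := by ring
    rw [this]; exact dvd_sub ha hc
  have hq1 : q' ∣ t - t1 := by
    have : t - t1 = (t + t0) - (t1 + t0) := by ring
    rw [this]; exact dvd_sub hb hd
  have hcop : IsCoprime g q' := by
    rw [Int.isCoprime_iff_gcd_eq_one]
    by_contra hcon
    obtain ⟨p, hp, hpd⟩ := Nat.exists_prime_and_dvd hcon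
    have hp1 : (p : ℤ) ∣ g := (Int.natCast_dvd_natCast.2 hpd).trans (Int.gcd_dvd_left ..)
    have hp2 : (p : ℤ) ∣ q' := (Int.natCast_dvd_natCast.2 hpd).trans (Int.gcd_dvd_right ..)
    have h2 : (p : ℤ) ∣ 2 * t0 := by
      have : 2 * t0 = (t + t0) - (t - t0) := by ring
      rw [this]; exact dvd_sub (hp2.trans hb) (hp1.trans ha)
    have hpi : Prime (p : ℤ) := Nat.prime_iff_prime_int.1 hp
    rcases hpi.dvd_or_dvd h2 with h3 | h3
    · have hp2' : p = 2 := by
        have h4 : p ∣ 2 := by exact_mod_cast h3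
        exact (Nat.prime_dvd_prime_iff_eq hp Nat.prime_two).1 h4
      have h4 : (4 : ℤ) ∣ t0 ^ 2 + 1 := by
        refine dvd_trans ?_ h0
        rw [hq']
        have e4 : (4 : ℤ) = 2 * 2 := by norm_num
        rw [e4]
        have e2 : (p : ℤ) = 2 := by exact_mod_cast hp2'
        rw [e2] at hp1 hp2
        exact mul_dvd_mul hp1 hp2
      obtain ⟨k, hk⟩ := Int.even_or_odd' t0
      rcases hk with hk | hk
      · have e : t0 ^ 2 + 1 = 4 * k ^ 2 + 1 := by rw [hk]; ring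
        rw [e] at h4
        generalize k ^ 2 = w at h4
        omega
      · have e : t0 ^ 2 + 1 = 4 * (k ^ 2 + k) + 2 := by rw [hk]; ring
        rw [e] at h4
        generalize k ^ 2 + k = w at h4
        omega
    · have h4 : (p : ℤ) ∣ 1 := by
        have h5 : (p : ℤ) ∣ t0 ^ 2 + 1 := by
          refine dvd_trans ?_ h0
          rw [hq']; exact hp1.mul_right _
        have h6 : (p : ℤ) ∣ t0 ^ 2 := h3.trans (dvd_pow_self _ two_ne_zero)
        exact (dvd_add_right h6).1 h5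
      exact hpi.not_isUnit (isUnit_of_dvd_one h4)
  rw [hq']
  exact hcop.mul_dvd hg1 hq1

/-- the number of roots of `t² + 1` modulo `q` is at most `d(q)` -/
theorem card_roots_le {q : ℕ} (hq : 0 < q) :
    ((range q).filter (fun t => q ∣ t ^ 2 + 1)).card ≤ dv q := by
  classical
  rcases ((range q).filter (fun t => q ∣ t ^ 2 + 1)).eq_empty_or_nonempty with h | ⟨t0, ht0⟩
  · rw [h]; simp
  rw [Finset.mem_filter, Finset.mem_range] at ht0
  have h0 : (q : ℤ) ∣ (t0 : ℤ) ^ 2 + 1 := by exact_mod_cast ht0.2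
  unfold dv
  apply Finset.card_le_card_of_injOn (fun t : ℕ => Int.gcd q ((t : ℤ) - t0))
  · intro t _
    rw [Finset.mem_coe, Nat.mem_divisors]
    refine ⟨?_, hq.ne'⟩
    have : (Int.gcd (q : ℤ) ((t : ℤ) - t0) : ℤ) ∣ (q : ℤ) := Int.gcd_dvd_left ..
    exact_mod_cast this
  · intro t ht t1 ht1 hg
    simp only [Finset.coe_filter, Finset.mem_range, Set.mem_ofPred_eq] at ht ht1
    have h := root_eq_of_gcd h0 (by exact_mod_cast ht.2) (by exact_mod_cast ht1.2) hg
    have h3 : (t : ℤ) = t1 := by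
      have e1 : (t : ℤ) % q = t1 % q := (Int.emod_eq_emod_iff_emod_sub_eq_zero.2 (Int.emod_eq_zero_of_dvd h))
      rw [Int.emod_eq_of_lt (by positivity) (by exact_mod_cast ht.1),
        Int.emod_eq_of_lt (by positivity) (by exact_mod_cast ht1.1)] at e1
      exact e1
    exact_mod_cast h3

/-- counting in an interval -/
theorem card_dvd_le {q N : ℕ} (hq : 0 < q) :
    ((Icc 1 N).filter (fun t => q ∣ t ^ 2 + 1)).card ≤ dv q * (N / q + 1) := by
  classical
  calc ((Icc 1 N).filter (fun t => q ∣ t ^ 2 + 1)).card ≤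
      (((range q).filter (fun t => q ∣ t ^ 2 + 1)) ×ˢ range (N / q + 1)).card := by
        apply Finset.card_le_card_of_injOn (fun t => (t % q, t / q))
        · intro t ht
          simp only [Finset.coe_filter, Finset.mem_Icc, Set.mem_ofPred_eq] at ht
          simp only [Finset.coe_product, Set.mem_prod, Finset.coe_filter, Finset.mem_range,
            Set.mem_ofPred_eq, Finset.coe_range, Set.mem_Iio]
          refine ⟨⟨Nat.mod_lt _ hq, ?_⟩, Nat.lt_succ_of_le (Nat.div_le_div_right ht.1.2)⟩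
          have e : t ^ 2 + 1 ≡ (t % q) ^ 2 + 1 [MOD q] :=
            ((Nat.mod_modEq t q).symm.pow 2).add_right 1
          exact (e.dvd_iff (dvd_refl q)).1 ht.2
        · intro t _ t' _ h
          simp only [Prod.mk.injEq] at h
          rw [← Nat.div_add_mod t q, ← Nat.div_add_mod t' q, h.1, h.2]
    _ ≤ dv q * (N / q + 1) := by
        rw [Finset.card_product, Finset.card_range]
        exact Nat.mul_le_mul_right _ (card_roots_le hq)

/-- second moment of the divisor function at `t² + 1` -/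
theorem second_moment (N : ℕ) (hN : 0 < N) :
    ∑ t ∈ Icc 1 N, (dv (t ^ 2 + 1) : ℝ) ^ 2 ≤ 8 * N * (1 + Real.log N) ^ 32 := by
  classical
  have h1 : ∀ t ∈ Icc 1 N, (dv (t ^ 2 + 1) : ℝ) ^ 2 ≤
      ∑ q ∈ Icc 1 N, if q ∣ t ^ 2 + 1 then 4 * (dv q : ℝ) ^ 4 else 0 := by
    intro t ht
    rw [Finset.mem_Icc] at ht
    obtain ⟨q, hq1, hq2, hq3⟩ := exists_small_divisor (n := t ^ 2 + 1) (by positivity)
    have hq0 : 0 < q := Nat.pos_of_dvd_of_pos hq1 (by positivity)
    have hqN : q ≤ N := by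
      by_contra hcon
      push Not at hcon
      nlinarith [ht.2]
    have h2 : (dv (t ^ 2 + 1) : ℝ) ^ 2 ≤ 4 * (dv q : ℝ) ^ 4 := by
      have h3 : (dv (t ^ 2 + 1) : ℝ) ≤ 2 * (dv q : ℝ) ^ 2 := by exact_mod_cast hq3
      calc (dv (t ^ 2 + 1) : ℝ) ^ 2 ≤ (2 * (dv q : ℝ) ^ 2) ^ 2 := by gcongr
        _ = 4 * (dv q : ℝ) ^ 4 := by ring
    refine h2.trans ?_
    have h3 := Finset.single_le_sum
      (f := fun q => if q ∣ t ^ 2 + 1 then 4 * (dv q : ℝ) ^ 4 else 0) (s := Icc 1 N)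
      (by intro i _; split_ifs <;> positivity) (Finset.mem_Icc.2 ⟨hq0, hqN⟩)
    simp only [if_pos hq1] at h3
    exact h3
  refine (Finset.sum_le_sum h1).trans ?_
  rw [Finset.sum_comm]
  have h2 : ∀ q ∈ Icc 1 N, ∑ t ∈ Icc 1 N, (if q ∣ t ^ 2 + 1 then 4 * (dv q : ℝ) ^ 4 else 0) ≤
      8 * N * ((dv q : ℝ) ^ 5 / q) := by
    intro q hq
    rw [Finset.mem_Icc] at hq
    have hq0 : 0 < q := by omega
    have hqr : (0 : ℝ) < q := by exact_mod_cast hq0
    rw [← Finset.sum_filter, Finset.sum_const, nsmul_eq_mul]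
    have h3 : (((Icc 1 N).filter (fun t => q ∣ t ^ 2 + 1)).card : ℝ) ≤ dv q * (2 * (N / q)) := by
      have h4 : (((Icc 1 N).filter (fun t => q ∣ t ^ 2 + 1)).card : ℝ) ≤
          (dv q : ℝ) * ((N / q : ℕ) + 1) := by exact_mod_cast card_dvd_le hq0
      refine h4.trans ?_
      have h5 : ((N / q : ℕ) : ℝ) ≤ (N : ℝ) / q := Nat.cast_div_le
      have h6 : (1 : ℝ) ≤ (N : ℝ) / q := by
        rw [le_div_iff₀ hqr, one_mul]; exact_mod_cast hq.2
      gcongr
      linarith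
    calc (((Icc 1 N).filter (fun t => q ∣ t ^ 2 + 1)).card : ℝ) * (4 * (dv q : ℝ) ^ 4)
        ≤ (dv q * (2 * (N / q))) * (4 * (dv q : ℝ) ^ 4) := by gcongr
      _ = 8 * N * ((dv q : ℝ) ^ 5 / q) := by ring
  refine (Finset.sum_le_sum h2).trans ?_
  rw [← Finset.mul_sum]
  have := sum_dv_pow_div_log N 5
  norm_num at this
  gcongr

end Pool.Agent.Lib.MP_a17b09_nt.LP
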