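import Mathlib
import Pool.Agent.Lib.MP_a17b09_nt.Basic
import Pool.Agent.Lib.MP_a17b09_nt.LP.GaussCount

/-!
Module G, final form: the number of quadruples of Gaussian integers of norm in `[B/8, B]` whose
product has imaginary part at most `H` in absolute value.
-/

set_option autoImplicit false

namespace Pool.Agent.Lib.MP_a17b09_nt.LP

open Finset Pool.Agent.Lib.MP_a17b09_nt

/-- Gaussian integers with norm in `[B/8, B]` -/
noncomputable def SB (B : ℕ) : Finset (ℤ × ℤ) := ((Finset.Icc (-(B:ℤ)) B) ×ˢ (Finset.Icc (-(B:ℤ)) B)).filter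
  (fun u => (B:ℤ) ≤ 8 * nrm 0 1 u ∧ nrm 0 1 u ≤ B)

theorem mem_SB {B : ℕ} {u : ℤ × ℤ} (hu : u ∈ SB B) : (B:ℤ) ≤ 8 * nrm 0 1 u ∧ nrm 0 1 u ≤ B := by
  unfold SB at hu
  exact (Finset.mem_filter.1 hu).2

theorem nrm01 (u : ℤ × ℤ) : nrm 0 1 u = u.1 ^ 2 + u.2 ^ 2 := by unfold nrm; ring

theorem mulp01 (u v : ℤ × ℤ) :
    mulp 0 1 u v = (u.1 * v.1 - u.2 * v.2, u.1 * v.2 + u.2 * v.1) := by
  unfold mulp; ext <;> ring

/-- conversion to Gaussian integers -/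
def toG (u : ℤ × ℤ) : GaussianInt := ⟨u.1, u.2⟩

theorem toG_mulp (u v : ℤ × ℤ) : toG (mulp 0 1 u v) = toG u * toG v := by
  rw [mulp01]
  unfold toG
  rw [Zsqrtd.ext_iff]
  constructor
  · simp only [Zsqrtd.re_mul]; ring
  · simp only [Zsqrtd.im_mul]

theorem toG_norm (u : ℤ × ℤ) : (toG u).norm = nrm 0 1 u := by
  rw [gauss_norm_eq, nrm01]
  unfold toG
  ring

theorem toG_inj {u v : ℤ × ℤ} (h : toG u = toG v) : u = v := by
  unfold toG at h
  rw [Zsqrtd.mk.injEq] at h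
  exact Prod.ext h.1 h.2

/-- complex conjugation -/
def cj (u : ℤ × ℤ) : ℤ × ℤ := (u.1, -u.2)

theorem cj_mem {B : ℕ} {u : ℤ × ℤ} (hu : u ∈ SB B) : cj u ∈ SB B := by
  unfold SB at hu ⊢
  rw [Finset.mem_filter, Finset.mem_product, Finset.mem_Icc, Finset.mem_Icc] at hu ⊢
  unfold cj
  rw [nrm01] at hu ⊢
  simp only at hu ⊢
  obtain ⟨⟨⟨h1, h2⟩, h3, h4⟩, h5, h6⟩ := hu
  refine ⟨⟨⟨h1, h2⟩, by omega, by omega⟩, ?_, ?_⟩
  · rw [neg_sq]; exact h5
  · rw [neg_sq]; exact h6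

/-- the quadruples with real product -/
theorem count_zero (B : ℕ) (hB : 1 ≤ B) :
    ((((SB B ×ˢ SB B) ×ˢ (SB B ×ˢ SB B)).filter (fun p =>
      (mulp 0 1 (mulp 0 1 p.1.1 p.1.2) (mulp 0 1 p.2.1 p.2.2)).2 = 0)).card : ℝ) ≤
      128 * (B : ℝ) ^ 2 * (1 + 2 * Real.log B) ^ 64 := by
  classical
  set S := (SB B).image toG with hS
  have hS' : ∀ b ∈ S, b ≠ 0 ∧ b.norm ≤ B := by
    intro b hb
    rw [hS, Finset.mem_image] at hb
    obtain ⟨u, hu, rfl⟩ := hb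
    obtain ⟨h1, h2⟩ := mem_SB hu
    rw [← GaussianInt.norm_pos, toG_norm]
    exact ⟨by omega, h2⟩
  refine le_trans ?_ (gauss_real_count S B hS')
  have : (((SB B ×ˢ SB B) ×ˢ (SB B ×ˢ SB B)).filter (fun p =>
      (mulp 0 1 (mulp 0 1 p.1.1 p.1.2) (mulp 0 1 p.2.1 p.2.2)).2 = 0)).card ≤
      ((S ×ˢ S ×ˢ S ×ˢ S).filter
        (fun q => (q.1 * q.2.1 * q.2.2.1 * q.2.2.2).im = 0)).card := by
    apply Finset.card_le_card_of_injOn
      (fun p => (toG p.1.1, (toG p.1.2, (toG p.2.1, toG p.2.2))))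
    · intro p hp
      rw [Finset.mem_coe, Finset.mem_filter, Finset.mem_product, Finset.mem_product,
        Finset.mem_product] at hp
      obtain ⟨⟨⟨s1, s2⟩, s3, s4⟩, h⟩ := hp
      rw [Finset.mem_coe, Finset.mem_filter, Finset.mem_product, Finset.mem_product,
        Finset.mem_product]
      refine ⟨⟨Finset.mem_image_of_mem _ s1, Finset.mem_image_of_mem _ s2,
        Finset.mem_image_of_mem _ s3, Finset.mem_image_of_mem _ s4⟩, ?_⟩
      simp only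
      have e : toG p.1.1 * toG p.1.2 * toG p.2.1 * toG p.2.2 =
          toG (mulp 0 1 (mulp 0 1 p.1.1 p.1.2) (mulp 0 1 p.2.1 p.2.2)) := by
        rw [toG_mulp, toG_mulp, toG_mulp]; ring
      rw [e]
      exact h
    · intro p _ p' _ heq
      simp only [Prod.mk.injEq] at heq
      obtain ⟨h1, h2, h3, h4⟩ := heq
      exact Prod.ext (Prod.ext (toG_inj h1) (toG_inj h2)) (Prod.ext (toG_inj h3) (toG_inj h4))
  exact_mod_cast this

/-- lattice points in a thin strip -/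
theorem slab (B H : ℕ) (ρ : ℤ × ℤ) (hρ0 : 0 < nrm 0 1 ρ) (hρ : (B : ℤ) ^ 2 ≤ 64 * nrm 0 1 ρ)
    (T : Finset (ℤ × ℤ)) (hT : ∀ u ∈ T, nrm 0 1 u ≤ (B : ℤ) ^ 2 ∧
      0 < |(mulp 0 1 ρ u).2| ∧ |(mulp 0 1 ρ u).2| ≤ H) : T.card ≤ 36 * H := by
  classical
  obtain ⟨x, y⟩ := ρ
  obtain ⟨c, hc⟩ : ∃ c : ℕ, c = Int.gcd x y := ⟨_, rfl⟩
  have hc0 : 0 < c := by
    rw [hc]
    apply Int.gcd_pos_iff.2
    by_contra hcon
    push Not at hcon
    rw [nrm01, hcon.1, hcon.2] at hρ0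
    simp at hρ0
  have hcx : (c : ℤ) ∣ x := by rw [hc]; exact Int.gcd_dvd_left ..
  have hcy : (c : ℤ) ∣ y := by rw [hc]; exact Int.gcd_dvd_right ..
  obtain ⟨x1, hx1⟩ := hcx
  obtain ⟨y1, hy1⟩ := hcy
  have hcz : (0 : ℤ) < c := by exact_mod_cast hc0
  -- Bezout
  obtain ⟨α, β, hab⟩ : ∃ α β : ℤ, α * x1 + β * y1 = 1 := by
    have h1 := Int.gcd_eq_gcd_ab x y
    rw [← hc] at h1
    refine ⟨Int.gcdA x y, Int.gcdB x y, ?_⟩
    generalize Int.gcdA x y = A at *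
    generalize Int.gcdB x y = D at *
    have h2 : (c : ℤ) * (A * x1 + D * y1) = c * 1 := by
      rw [mul_one]
      nth_rewrite 2 [h1]
      rw [hx1, hy1]; ring
    exact mul_left_cancel₀ hcz.ne' h2
  obtain ⟨N1, hN1⟩ : ∃ N1 : ℤ, N1 = x1 ^ 2 + y1 ^ 2 := ⟨_, rfl⟩
  have hNN : nrm 0 1 (x, y) = c ^ 2 * N1 := by
    rw [nrm01, hN1]; simp only; rw [hx1, hy1]; ring
  have hN1pos : 0 < N1 := by
    rw [hNN] at hρ0
    exact pos_of_mul_pos_right hρ0 (by positivity)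
  obtain ⟨Hc, hHc⟩ : ∃ Hc : ℕ, Hc = H / c := ⟨_, rfl⟩
  have hHc1 : Hc * c ≤ H := by rw [hHc]; exact Nat.div_mul_le_self H c
  set U : Finset (ℤ × ℤ) := ((Finset.Icc (-(Hc : ℤ)) Hc).erase 0) ×ˢ
    (Finset.Icc (-(8 * (c : ℤ))) (8 * c)) with hU
  have hUcard : U.card ≤ 36 * H := by
    rw [hU, Finset.card_product, Finset.card_erase_of_mem (by
      rw [Finset.mem_Icc]; constructor <;> omega), Int.card_Icc, Int.card_Icc]
    have e1 : ((Hc : ℤ) + 1 - -(Hc : ℤ)).toNat - 1 = 2 * Hc := by omega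
    have e2 : (8 * (c : ℤ) + 1 - -(8 * (c : ℤ))).toNat = 16 * c + 1 := by omega
    rw [e1, e2]
    have h1 : Hc ≤ Hc * c := Nat.le_mul_of_pos_right _ hc0
    nlinarith
  refine le_trans ?_ hUcard
  apply Finset.card_le_card_of_injOn
    (fun u => (x1 * u.2 + y1 * u.1, (x1 * u.1 - y1 * u.2) / N1))
  · intro u hu
    rw [Finset.mem_coe] at hu
    obtain ⟨h1, h2, h3⟩ := hT u hu
    have e : (mulp 0 1 (x, y) u).2 = c * (x1 * u.2 + y1 * u.1) := by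
      rw [mulp01]; simp only; rw [hx1, hy1]; ring
    rw [e, abs_mul, abs_of_pos hcz] at h2 h3
    obtain ⟨v, hv⟩ : ∃ v : ℤ, v = x1 * u.2 + y1 * u.1 := ⟨_, rfl⟩
    obtain ⟨w, hw⟩ : ∃ w : ℤ, w = x1 * u.1 - y1 * u.2 := ⟨_, rfl⟩
    rw [← hv] at h2 h3
    rw [Finset.mem_coe, hU, Finset.mem_product, Finset.mem_erase, Finset.mem_Icc, Finset.mem_Icc]
    simp only
    rw [← hv, ← hw]
    have hv0 : v ≠ 0 := by
      intro h; rw [h] at h2; simp at h2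
    have hvH : |v| ≤ Hc := by
      have h4 : c * v.natAbs ≤ H := by
        have : ((c * v.natAbs : ℕ) : ℤ) ≤ H := by push_cast; exact h3
        exact_mod_cast this
      have h5 : v.natAbs ≤ Hc := by
        rw [hHc]
        exact (Nat.le_div_iff_mul_le hc0).2 (by rw [mul_comm]; exact h4)
      rw [Int.abs_eq_natAbs]
      exact_mod_cast h5
    have hw2 : w ^ 2 ≤ (8 * c * N1) ^ 2 := by
      have e3 : w ^ 2 + v ^ 2 = N1 * nrm 0 1 u := by
        rw [hw, hv, hN1, nrm01]; ring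
      have h6 : N1 * nrm 0 1 u ≤ N1 * (64 * (c ^ 2 * N1)) := by
        apply mul_le_mul_of_nonneg_left _ hN1pos.le
        rw [← hNN]
        exact h1.trans hρ
      nlinarith [sq_nonneg v]
    have hw3 : |w| ≤ 8 * c * N1 := abs_le_of_sq_le_sq hw2 (by positivity)
    rw [abs_le] at hw3 hvH
    refine ⟨⟨hv0, hvH.1, hvH.2⟩, ?_, ?_⟩
    · rw [Int.le_ediv_iff_mul_le hN1pos]; linarith
    · apply Int.le_of_lt_add_one
      rw [Int.ediv_lt_iff_lt_mul hN1pos]; nlinarith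
  · intro u hu u' hu' heq
    simp only [Prod.mk.injEq] at heq
    obtain ⟨h1, h2⟩ := heq
    obtain ⟨j, hj⟩ : ∃ j : ℤ, j = α * (u.1 - u'.1) - β * (u.2 - u'.2) := ⟨_, rfl⟩
    have hdx : u.1 - u'.1 = x1 * j := by
      rw [hj]
      linear_combination (-(u.1 - u'.1)) * hab + β * h1
    have hdy : u.2 - u'.2 = -(y1 * j) := by
      rw [hj]
      linear_combination (-(u.2 - u'.2)) * hab + α * h1
    have hdu : x1 * u.1 - y1 * u.2 = (x1 * u'.1 - y1 * u'.2) + j * N1 := by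
      rw [hN1]
      linear_combination x1 * hdx - y1 * hdy
    rw [hdu, Int.add_mul_ediv_right _ _ hN1pos.ne'] at h2
    have hj0 : j = 0 := by linarith
    rw [hj0, mul_zero] at hdx hdy
    exact Prod.ext (by linarith) (by linarith)

theorem mulp_swap (u v : ℤ × ℤ) : mulp 0 1 u v = mulp 0 1 v u := by
  rw [mulp01, mulp01]; ext <;> ring

/-- symmetrisation -/
theorem sym_sum (V : Finset (ℤ × ℤ)) (R : ℤ × ℤ → ℕ) (w : ℤ × ℤ → ℤ × ℤ → ℕ)
    (hw : ∀ u v, w u v = w v u) (K : ℕ) (hK : ∀ u ∈ V, ∑ v ∈ V, w u v ≤ K) :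
    ∑ u ∈ V, R u * ∑ v ∈ V, R v * w u v ≤ K * ∑ u ∈ V, R u * R u := by
  have h1 : ∑ u ∈ V, ∑ v ∈ V, 2 * (R u * (R v * w u v)) ≤
      ∑ u ∈ V, ∑ v ∈ V, (R u * R u * w u v + R v * R v * w u v) := by
    apply Finset.sum_le_sum
    intro u _
    apply Finset.sum_le_sum
    intro v _
    have h2 : 2 * (R u * R v) ≤ R u * R u + R v * R v := by
      have := two_mul_le_add_sq (R u) (R v)
      nlinarith
    calc 2 * (R u * (R v * w u v)) = (2 * (R u * R v)) * w u v := by ring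
      _ ≤ (R u * R u + R v * R v) * w u v := Nat.mul_le_mul_right _ h2
      _ = _ := by ring
  have h3 : ∑ u ∈ V, ∑ v ∈ V, R v * R v * w u v = ∑ u ∈ V, ∑ v ∈ V, R u * R u * w u v := by
    rw [Finset.sum_comm]
    apply Finset.sum_congr rfl
    intro u _
    apply Finset.sum_congr rfl
    intro v _
    rw [hw v u]
  have h4 : ∑ u ∈ V, ∑ v ∈ V, R u * R u * w u v ≤ K * ∑ u ∈ V, R u * R u := by
    rw [Finset.mul_sum]
    apply Finset.sum_le_sum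
    intro u hu
    rw [← Finset.mul_sum, mul_comm K]
    exact Nat.mul_le_mul_left _ (hK u hu)
  have h5 : ∑ u ∈ V, ∑ v ∈ V, 2 * (R u * (R v * w u v)) =
      2 * ∑ u ∈ V, R u * ∑ v ∈ V, R v * w u v := by
    rw [Finset.mul_sum]
    apply Finset.sum_congr rfl
    intro u _
    rw [Finset.mul_sum, Finset.mul_sum]
  rw [h5] at h1
  have h6 : ∑ u ∈ V, ∑ v ∈ V, (R u * R u * w u v + R v * R v * w u v) =
      ∑ u ∈ V, ∑ v ∈ V, R u * R u * w u v + ∑ u ∈ V, ∑ v ∈ V, R v * R v * w u v := by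
    rw [← Finset.sum_add_distrib]
    apply Finset.sum_congr rfl
    intro u _
    rw [← Finset.sum_add_distrib]
  rw [h6, h3] at h1
  omega

/-- the quadruples with nonzero imaginary part -/
theorem count_pos (B H : ℕ) (hB : 1 ≤ B) :
    (((SB B ×ˢ SB B) ×ˢ (SB B ×ˢ SB B)).filter (fun p =>
      0 < |(mulp 0 1 (mulp 0 1 p.1.1 p.1.2) (mulp 0 1 p.2.1 p.2.2)).2| ∧
      |(mulp 0 1 (mulp 0 1 p.1.1 p.1.2) (mulp 0 1 p.2.1 p.2.2)).2| ≤ (H:ℤ))).card ≤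
    36 * H * (((SB B ×ˢ SB B) ×ˢ (SB B ×ˢ SB B)).filter (fun p =>
      (mulp 0 1 (mulp 0 1 p.1.1 p.1.2) (mulp 0 1 p.2.1 p.2.2)).2 = 0)).card := by
  classical
  set P := SB B ×ˢ SB B with hP
  set m : (ℤ × ℤ) × (ℤ × ℤ) → ℤ × ℤ := fun p => mulp 0 1 p.1 p.2 with hm
  set V := P.image m with hV
  set R : ℤ × ℤ → ℕ := fun ρ => (P.filter (fun p => m p = ρ)).card with hR
  set w : ℤ × ℤ → ℤ × ℤ → ℕ := fun u v =>
    if 0 < |(mulp 0 1 u v).2| ∧ |(mulp 0 1 u v).2| ≤ (H:ℤ) then 1 else 0 with hw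
  have hBz : (1 : ℤ) ≤ B := by exact_mod_cast hB
  have hVn : ∀ u ∈ V, 0 < nrm 0 1 u ∧ (B : ℤ) ^ 2 ≤ 64 * nrm 0 1 u ∧ nrm 0 1 u ≤ (B : ℤ) ^ 2 := by
    intro u hu
    rw [hV, Finset.mem_image] at hu
    obtain ⟨p, hp, rfl⟩ := hu
    rw [hP, Finset.mem_product] at hp
    obtain ⟨a1, a2⟩ := mem_SB hp.1
    obtain ⟨b1, b2⟩ := mem_SB hp.2
    simp only [hm]
    rw [nrm_mulp]
    generalize nrm 0 1 p.1 = s at *
    generalize nrm 0 1 p.2 = t at *
    have hs : 0 < s := by omega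
    have ht : 0 < t := by omega
    refine ⟨mul_pos hs ht, ?_, ?_⟩
    · nlinarith
    · nlinarith
  have hA : (((P ×ˢ P)).filter (fun p =>
      0 < |(mulp 0 1 (mulp 0 1 p.1.1 p.1.2) (mulp 0 1 p.2.1 p.2.2)).2| ∧
      |(mulp 0 1 (mulp 0 1 p.1.1 p.1.2) (mulp 0 1 p.2.1 p.2.2)).2| ≤ (H:ℤ))).card =
      ∑ u ∈ V, R u * ∑ v ∈ V, R v * w u v := by
    rw [Finset.card_filter, Finset.sum_product]
    have e1 : ∀ p1 : (ℤ × ℤ) × (ℤ × ℤ), ∑ p2 ∈ P, w (m p1) (m p2) = ∑ v ∈ V, R v * w (m p1) v := by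
      intro p1
      have := Finset.sum_comp (s := P) (fun v => w (m p1) v) m
      simp only [smul_eq_mul] at this
      exact this
    have e2 := Finset.sum_comp (s := P) (fun u => ∑ v ∈ V, R v * w u v) m
    simp only [smul_eq_mul] at e2
    calc _ = ∑ p1 ∈ P, ∑ p2 ∈ P, w (m p1) (m p2) := rfl
      _ = ∑ p1 ∈ P, ∑ v ∈ V, R v * w (m p1) v := Finset.sum_congr rfl (fun p1 _ => e1 p1)
      _ = _ := e2
  have hE : ∑ u ∈ V, R u * R u ≤ ((P ×ˢ P).filter (fun p =>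
      (mulp 0 1 (mulp 0 1 p.1.1 p.1.2) (mulp 0 1 p.2.1 p.2.2)).2 = 0)).card := by
    have e2 := Finset.sum_comp (s := P) (fun u => R u) m
    simp only [smul_eq_mul] at e2
    have e3 : ∑ u ∈ V, R u * R u = ((P ×ˢ P).filter (fun p => m p.2 = m p.1)).card := by
      rw [Finset.card_filter, Finset.sum_product]
      rw [show ∑ u ∈ V, R u * R u = ∑ p1 ∈ P, R (m p1) from e2.symm]
      apply Finset.sum_congr rfl
      intro p1 _
      simp only [hR]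
      rw [Finset.card_filter]
    rw [e3]
    apply Finset.card_le_card_of_injOn (fun p => (p.1, (cj p.2.1, cj p.2.2)))
    · intro p hp
      rw [Finset.mem_coe, Finset.mem_filter, Finset.mem_product, hP, Finset.mem_product,
        Finset.mem_product] at hp
      rw [Finset.mem_coe, Finset.mem_filter, Finset.mem_product, hP, Finset.mem_product,
        Finset.mem_product]
      obtain ⟨⟨⟨s1, s2⟩, s3, s4⟩, h⟩ := hp
      refine ⟨⟨⟨s1, s2⟩, cj_mem s3, cj_mem s4⟩, ?_⟩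
      simp only [hm] at h
      simp only
      have e4 : mulp 0 1 (cj p.2.1) (cj p.2.2) = cj (mulp 0 1 p.2.1 p.2.2) := by
        rw [mulp01, mulp01]; unfold cj; ext
        · simp only; ring
        · simp only; ring
      rw [e4, h]
      generalize mulp 0 1 p.1.1 p.1.2 = t
      rw [mulp01]; unfold cj; simp only; ring
    · intro p _ p' _ heq
      simp only [Prod.mk.injEq] at heq
      obtain ⟨h1, h2, h3⟩ := heq
      have hcj : ∀ u v : ℤ × ℤ, cj u = cj v → u = v := by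
        intro u v h
        unfold cj at h
        simp only [Prod.mk.injEq, neg_inj] at h
        exact Prod.ext h.1 h.2
      exact Prod.ext h1 (Prod.ext (hcj _ _ h2) (hcj _ _ h3))
  rw [hA]
  refine (sym_sum V R w ?_ (36 * H) ?_).trans (Nat.mul_le_mul_left _ hE)
  · intro u v
    simp only [hw]
    rw [mulp_swap u v]
  · intro u hu
    obtain ⟨h1, h2, h3⟩ := hVn u hu
    have e5 : ∑ v ∈ V, w u v =
        (V.filter (fun v => 0 < |(mulp 0 1 u v).2| ∧ |(mulp 0 1 u v).2| ≤ (H:ℤ))).card := by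
      rw [Finset.card_filter]
    rw [e5]
    apply slab B H u h1 h2
    intro v hv
    rw [Finset.mem_filter] at hv
    exact ⟨(hVn v hv.1).2.2, hv.2⟩

/-- MODULE G: the energy bound. -/
theorem energy : ∃ C : ℝ, 0 < C ∧ ∃ κ : ℕ, ∀ B H : ℕ, 1 ≤ B → 1 ≤ H →
    ((((SB B ×ˢ SB B) ×ˢ (SB B ×ˢ SB B)).filter (fun p =>
      |(mulp 0 1 (mulp 0 1 p.1.1 p.1.2) (mulp 0 1 p.2.1 p.2.2)).2| ≤ (H:ℤ))).card : ℝ) ≤
      C * H * (B:ℝ)^2 * (1 + Real.log B)^κ := by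
  classical
  refine ⟨37 * 128 * 2 ^ 64, by norm_num, 64, ?_⟩
  intro B H hB hH
  have h0 := count_zero B hB
  have h1 := count_pos B H hB
  obtain ⟨Z, hZ⟩ : ∃ Z : ℕ, Z = (((SB B ×ˢ SB B) ×ˢ (SB B ×ˢ SB B)).filter (fun p =>
      (mulp 0 1 (mulp 0 1 p.1.1 p.1.2) (mulp 0 1 p.2.1 p.2.2)).2 = 0)).card := ⟨_, rfl⟩
  rw [← hZ] at h0 h1
  have h2 : (((SB B ×ˢ SB B) ×ˢ (SB B ×ˢ SB B)).filter (fun p =>
      |(mulp 0 1 (mulp 0 1 p.1.1 p.1.2) (mulp 0 1 p.2.1 p.2.2)).2| ≤ (H:ℤ))).card ≤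
      Z + 36 * H * Z := by
    refine le_trans ?_ (Nat.add_le_add (le_of_eq hZ.symm) h1)
    refine le_trans ?_ (Finset.card_union_le _ _)
    apply Finset.card_le_card
    intro p hp
    rw [Finset.mem_filter] at hp
    rw [Finset.mem_union, Finset.mem_filter, Finset.mem_filter]
    by_cases h : (mulp 0 1 (mulp 0 1 p.1.1 p.1.2) (mulp 0 1 p.2.1 p.2.2)).2 = 0
    · left; exact ⟨hp.1, h⟩
    · right; exact ⟨hp.1, abs_pos.2 h, hp.2⟩
  have h3 : ((((SB B ×ˢ SB B) ×ˢ (SB B ×ˢ SB B)).filter (fun p =>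
      |(mulp 0 1 (mulp 0 1 p.1.1 p.1.2) (mulp 0 1 p.2.1 p.2.2)).2| ≤ (H:ℤ))).card : ℝ) ≤
      Z + 36 * H * Z := by exact_mod_cast h2
  refine h3.trans ?_
  have hB1 : (1 : ℝ) ≤ B := by exact_mod_cast hB
  have hH1 : (1 : ℝ) ≤ H := by exact_mod_cast hH
  have hlog : 0 ≤ Real.log B := Real.log_nonneg hB1
  have h4 : (1 + 2 * Real.log B) ^ 64 ≤ 2 ^ 64 * (1 + Real.log B) ^ 64 := by
    rw [← mul_pow]
    exact pow_le_pow_left₀ (by linarith) (by linarith) 64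
  have hZ0 : (0 : ℝ) ≤ Z := Nat.cast_nonneg Z
  calc (Z : ℝ) + 36 * H * Z ≤ 37 * H * Z := by nlinarith
    _ ≤ 37 * H * (128 * (B : ℝ) ^ 2 * (1 + 2 * Real.log B) ^ 64) :=
        mul_le_mul_of_nonneg_left h0 (by positivity)
    _ ≤ 37 * H * (128 * (B : ℝ) ^ 2 * (2 ^ 64 * (1 + Real.log B) ^ 64)) := by
        apply mul_le_mul_of_nonneg_left _ (by positivity)
        exact mul_le_mul_of_nonneg_left h4 (by positivity)
    _ = _ := by ring

end Pool.Agent.Lib.MP_a17b09_nt.LP
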