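import Pool.Agent.Lib.MP_a17b09_nt.Count
import Pool.Agent.Lib.MP_a17b09_nt.LP.DivSum
import Pool.Agent.Lib.MP_a17b09_nt.LP.Energy

set_option autoImplicit false

open Finset

namespace Pool.Agent.Lib.MP_a17b09_nt.LP

lemma not_sq : ¬ IsSquare ((0 : ℤ) ^ 2 - 4 * 1) := by
  rintro ⟨x, hx⟩
  nlinarith [mul_self_nonneg x]

/-- the complex number of a pair -/
noncomputable def cz (u : ℤ × ℤ) : ℂ := ⟨u.1, u.2⟩

lemma cz_mulp (u v : ℤ × ℤ) : cz (mulp 0 1 u v) = cz u * cz v := by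
  unfold cz mulp
  apply Complex.ext
  · simp
  · simp

lemma cz_ne_zero {u : ℤ × ℤ} (hu : u ≠ 0) : cz u ≠ 0 := by
  intro h
  apply hu
  unfold cz at h
  have h1 := congrArg Complex.re h
  have h2 := congrArg Complex.im h
  simp at h1 h2
  exact Prod.ext h1 h2

/-- normalised angle, in quarter turns -/
noncomputable def th (u : ℤ × ℤ) : ℝ := 2 / Real.pi * (cz u).arg

lemma neg_two_lt_th (u : ℤ × ℤ) : -2 < th u := by
  unfold th
  have h := Complex.neg_pi_lt_arg (cz u)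
  have hpi := Real.pi_pos
  rw [div_mul_eq_mul_div, lt_div_iff₀ hpi]
  linarith

lemma th_le_two (u : ℤ × ℤ) : th u ≤ 2 := by
  unfold th
  have h := Complex.arg_le_pi (cz u)
  have hpi := Real.pi_pos
  rw [div_mul_eq_mul_div, div_le_iff₀ hpi]
  linarith

lemma th_mulp {u v : ℤ × ℤ} (hu : u ≠ 0) (hv : v ≠ 0) :
    ∃ n : ℤ, th (mulp 0 1 u v) = th u + th v + 4 * n := by
  have h := Complex.arg_mul_coe_angle (cz_ne_zero hu) (cz_ne_zero hv)
  rw [← cz_mulp, ← Real.Angle.coe_add, Real.Angle.angle_eq_iff_two_pi_dvd_sub] at h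
  obtain ⟨k, hk⟩ := h
  refine ⟨k, ?_⟩
  unfold th
  have hpi := Real.pi_pos
  have e : (cz (mulp 0 1 u v)).arg = (cz u).arg + (cz v).arg + 2 * Real.pi * k := by linarith
  rw [e]
  field_simp
  ring

/-- multiplication by `i` -/
def rot (u : ℤ × ℤ) : ℤ × ℤ := mulp 0 1 (0, 1) u

lemma rot_eq (u : ℤ × ℤ) : rot u = (-u.2, u.1) := by
  unfold rot mulp; ext <;> simp

lemma rot_ne_zero {u : ℤ × ℤ} (hu : u ≠ 0) : rot u ≠ 0 := by
  rw [rot_eq]
  intro h
  apply hu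
  have h1 := congrArg Prod.fst h
  have h2 := congrArg Prod.snd h
  simp at h1 h2
  exact Prod.ext h2 h1

lemma nrm_rot (u : ℤ × ℤ) : nrm 0 1 (rot u) = nrm 0 1 u := by
  rw [rot_eq]; unfold nrm; ring

lemma th_I : th (0, 1) = 1 := by
  unfold th cz
  have e : (⟨((0 : ℤ) : ℝ), ((1 : ℤ) : ℝ)⟩ : ℂ) = Complex.I := by
    apply Complex.ext <;> simp
  simp only
  rw [e, Complex.arg_I]
  have := Real.pi_pos
  field_simp

lemma th_rot {u : ℤ × ℤ} (hu : u ≠ 0) : ∃ n : ℤ, th (rot u) = th u + 1 + 4 * n := by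
  have h01 : ((0, 1) : ℤ × ℤ) ≠ 0 := by
    intro h; have := congrArg Prod.snd h; simp at this
  obtain ⟨n, hn⟩ := th_mulp h01 hu
  refine ⟨n, ?_⟩
  unfold rot
  rw [hn, th_I]; ring

/-- rotate to a prescribed lift of the angle -/
lemma exists_rot (n : ℕ) : ∀ u : ℤ × ℤ, u ≠ 0 → ∃ u' : ℤ × ℤ, u' ≠ 0 ∧
    nrm 0 1 u' = nrm 0 1 u ∧ (∃ m : ℤ, th u' = th u + n + 4 * m) ∧ (∃ k : ℕ, u' = rot^[k] u) := by
  induction n with
  | zero =>
    intro u hu
    exact ⟨u, hu, rfl, ⟨0, by simp⟩, ⟨0, rfl⟩⟩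
  | succ n ih =>
    intro u hu
    obtain ⟨u', h1, h2, ⟨m, hm⟩, ⟨k, hk⟩⟩ := ih u hu
    obtain ⟨m', hm'⟩ := th_rot h1
    refine ⟨rot u', rot_ne_zero h1, by rw [nrm_rot, h2], ⟨m + m', ?_⟩, ⟨k + 1, ?_⟩⟩
    · rw [hm', hm]; push_cast; ring
    · rw [Function.iterate_succ_apply', hk]

lemma exists_lift {u : ℤ × ℤ} (hu : u ≠ 0) (n : ℤ) (h1 : -2 < th u + n) (h2 : th u + n ≤ 2) :
    ∃ u' : ℤ × ℤ, u' ≠ 0 ∧ nrm 0 1 u' = nrm 0 1 u ∧ th u' = th u + n ∧
      (∃ k : ℕ, u' = rot^[k] u) := by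
  obtain ⟨u', h3, h4, ⟨m, hm⟩, h5⟩ := exists_rot (n % 4).toNat u hu
  refine ⟨u', h3, h4, ?_, h5⟩
  have e1 : (((n % 4).toNat : ℕ) : ℝ) = ((n % 4 : ℤ) : ℝ) := by
    have h6 : 0 ≤ n % 4 := Int.emod_nonneg _ (by norm_num)
    have : (((n % 4).toNat : ℤ)) = n % 4 := Int.toNat_of_nonneg h6
    exact_mod_cast this
  rw [e1] at hm
  have e2 : (n : ℝ) = ((n % 4 : ℤ) : ℝ) + 4 * ((n / 4 : ℤ) : ℝ) := by
    have := Int.emod_add_mul_ediv n 4
    exact_mod_cast this.symm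
  have h6 := neg_two_lt_th u'
  have h7 := th_le_two u'
  -- th u' - (th u + n) = 4 (m - n/4)
  have e3 : th u' - (th u + n) = 4 * ((m - n / 4 : ℤ) : ℝ) := by
    rw [hm, e2]; push_cast; ring
  have h8 : (-1 : ℝ) < ((m - n / 4 : ℤ) : ℝ) := by linarith
  have h9 : ((m - n / 4 : ℤ) : ℝ) < 1 := by linarith
  have h10 : m - n / 4 = 0 := by
    have a : (-1 : ℤ) < m - n / 4 := by exact_mod_cast h8
    have b : m - n / 4 < 1 := by exact_mod_cast h9
    omega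
  rw [h10] at e3
  simp at e3
  linarith

lemma nrm_iter_rot (k : ℕ) (u : ℤ × ℤ) : nrm 0 1 (rot^[k] u) = nrm 0 1 u := by
  induction k with
  | zero => rfl
  | succ k ih => rw [Function.iterate_succ_apply', nrm_rot, ih]

lemma fst_pos_of_th {u : ℤ × ℤ} (hu : u ≠ 0) (h1 : -1 < th u) (h2 : th u < 1) : 0 < u.1 := by
  have hpi := Real.pi_pos
  unfold th at h1 h2
  rw [div_mul_eq_mul_div, lt_div_iff₀ hpi] at h1
  rw [div_mul_eq_mul_div, div_lt_iff₀ hpi] at h2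
  have h3 : |(cz u).arg| < Real.pi / 2 := by
    rw [abs_lt]; constructor <;> linarith
  rcases Complex.abs_arg_lt_pi_div_two_iff.1 h3 with h | h
  · have h' : (0 : ℝ) < (u.1 : ℝ) := h
    exact_mod_cast h'
  · exact absurd h (cz_ne_zero hu)

lemma th_eq_arctan {u : ℤ × ℤ} (hu : 0 < u.1) : th u = 2 / Real.pi * Real.arctan (slope u) := by
  unfold th
  congr 1
  have h3 : |(cz u).arg| < Real.pi / 2 := by
    rw [Complex.abs_arg_lt_pi_div_two_iff]
    left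
    show (0 : ℝ) < (u.1 : ℝ)
    exact_mod_cast hu
  rw [abs_lt] at h3
  rw [← Real.arctan_tan h3.1 h3.2, Complex.tan_arg]
  rfl

lemma th_mono_of_det {u v : ℤ × ℤ} (hu : 0 < u.1) (hv : 0 < v.1) (h : 0 ≤ det u v) :
    th u ≤ th v := by
  rw [th_eq_arctan hu, th_eq_arctan hv]
  have := slope_le_of_det hu hv h
  have hpi := Real.pi_pos
  gcongr

lemma abs_th_lt {u : ℤ × ℤ} (hu : 0 < u.1) : |th u| < 1 := by
  rw [th_eq_arctan hu, abs_mul, abs_of_pos (by have := Real.pi_pos; positivity)]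
  have h1 := Real.neg_pi_div_two_lt_arctan (slope u)
  have h2 := Real.arctan_lt_pi_div_two (slope u)
  have h3 : |Real.arctan (slope u)| < Real.pi / 2 := abs_lt.2 ⟨by linarith, h2⟩
  have hpi := Real.pi_pos
  rw [div_mul_eq_mul_div, div_lt_one hpi]
  linarith

/-- slope bound near the diagonal -/
lemma abs_slope_le {u : ℤ × ℤ} (hu : 0 < u.1) (h : |th u| ≤ 3 / 5) : |(u.2 : ℝ)| ≤ 2 * u.1 := by
  rw [th_eq_arctan hu, abs_mul, abs_of_pos (by have := Real.pi_pos; positivity)] at h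
  have hpi := Real.pi_pos
  have h1 : |Real.arctan (slope u)| ≤ 3 * Real.pi / 10 := by
    rw [div_mul_eq_mul_div, div_le_iff₀ hpi] at h
    linarith
  have h2 : |slope u| ≤ 2 := by
    have h3 : |Real.arctan (slope u)| ≤ Real.arctan 2 := by
      refine h1.trans ?_
      -- tan (3π/10) ≤ 2
      have h5 : Real.cos (Real.pi / 5) = (1 + Real.sqrt 5) / 4 := Real.cos_pi_div_five
      have h6 : Real.sin (3 * Real.pi / 10) = (1 + Real.sqrt 5) / 4 := by
        rw [← h5, ← Real.sin_pi_div_two_sub]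
        congr 1; ring
      have h7 : (2 : ℝ) ≤ Real.sqrt 5 ∧ Real.sqrt 5 ≤ 9 / 4 := by
        constructor
        · apply Real.le_sqrt_of_sq_le; norm_num
        · rw [Real.sqrt_le_left (by norm_num)]; norm_num
      have h8 : 0 < Real.cos (3 * Real.pi / 10) := by
        apply Real.cos_pos_of_mem_Ioo
        constructor <;> linarith
      have h9 : Real.sin (3 * Real.pi / 10) ≤ 2 * Real.cos (3 * Real.pi / 10) := by
        have h10 := Real.sin_sq_add_cos_sq (3 * Real.pi / 10)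
        rw [h6] at h10 ⊢
        have hs := Real.sq_sqrt (show (0 : ℝ) ≤ 5 by norm_num)
        by_contra hcon
        push Not at hcon
        have h11 : (2 * Real.cos (3 * Real.pi / 10)) ^ 2 < ((1 + Real.sqrt 5) / 4) ^ 2 := by
          gcongr
        nlinarith
      have h12 : Real.tan (3 * Real.pi / 10) ≤ 2 := by
        rw [Real.tan_eq_sin_div_cos, div_le_iff₀ h8]; exact h9
      have h13 : Real.arctan (Real.tan (3 * Real.pi / 10)) = 3 * Real.pi / 10 :=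
        Real.arctan_tan (by linarith) (by linarith)
      rw [← h13]
      exact Real.arctan_strictMono.monotone h12
    rw [abs_le] at h3 ⊢
    have h4 : Real.arctan (-2) ≤ Real.arctan (slope u) := by
      rw [Real.arctan_neg]; exact h3.1
    exact ⟨Real.arctan_strictMono.le_iff_le.1 h4, Real.arctan_strictMono.le_iff_le.1 h3.2⟩
  have hur : (0 : ℝ) < u.1 := by exact_mod_cast hu
  unfold slope at h2
  rw [abs_div, abs_of_pos hur, div_le_iff₀ hur] at h2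
  exact h2

/-- position on the grid `ℤ / Q` (lifted to `ℤ`) -/
noncomputable def pos (Q : ℕ) (u : ℤ × ℤ) : ℤ := ⌊(Q : ℝ) * th u⌋

lemma pos_mulp (Q : ℕ) {u v : ℤ × ℤ} (hu : u ≠ 0) (hv : v ≠ 0) :
    ∃ e n : ℤ, (e = 0 ∨ e = 1) ∧ pos Q (mulp 0 1 u v) = pos Q u + pos Q v + e + n * Q := by
  obtain ⟨n, hn⟩ := th_mulp hu hv
  have h1 : pos Q (mulp 0 1 u v) = ⌊(Q : ℝ) * th u + Q * th v⌋ + 4 * n * Q := by
    unfold pos
    rw [hn]
    have e : (Q : ℝ) * (th u + th v + 4 * n) = (Q : ℝ) * th u + Q * th v + ((4 * n * Q : ℤ) : ℝ) := by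
      push_cast; ring
    rw [e, Int.floor_add_intCast]
  have h2 := Int.le_floor_add ((Q : ℝ) * th u) (Q * th v)
  have h3 := Int.le_floor_add_floor ((Q : ℝ) * th u) (Q * th v)
  refine ⟨⌊(Q : ℝ) * th u + Q * th v⌋ - ⌊(Q : ℝ) * th u⌋ - ⌊(Q : ℝ) * th v⌋, 4 * n, ?_, ?_⟩
  · omega
  · rw [h1]; unfold pos; ring

lemma pos_rot (Q : ℕ) {u : ℤ × ℤ} (hu : u ≠ 0) : ∃ n : ℤ, pos Q (rot u) = pos Q u + n * Q := by
  obtain ⟨n, hn⟩ := th_rot hu
  refine ⟨1 + 4 * n, ?_⟩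
  unfold pos
  rw [hn]
  have e : (Q : ℝ) * (th u + 1 + 4 * n) = (Q : ℝ) * th u + (((1 + 4 * n) * Q : ℤ) : ℝ) := by
    push_cast; ring
  rw [e, Int.floor_add_intCast]

lemma pos_iter_rot (Q : ℕ) (k : ℕ) {u : ℤ × ℤ} (hu : u ≠ 0) :
    ∃ n : ℤ, pos Q (rot^[k] u) = pos Q u + n * Q := by
  have hne : ∀ k : ℕ, rot^[k] u ≠ 0 := by
    intro k
    induction k with
    | zero => exact hu
    | succ k ih => rw [Function.iterate_succ_apply']; exact rot_ne_zero ih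
  induction k with
  | zero => exact ⟨0, by simp⟩
  | succ k ih =>
    obtain ⟨n, hn⟩ := ih
    obtain ⟨m, hm⟩ := pos_rot Q (hne k)
    refine ⟨n + m, ?_⟩
    rw [Function.iterate_succ_apply', hm, hn]; ring

end Pool.Agent.Lib.MP_a17b09_nt.LP
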