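import Pool.Agent.Lib.MP_a17b09_nt.LP.Exc

set_option autoImplicit false

open Finset

namespace Pool.Agent.Lib.MP_a17b09_nt.LP

lemma th_cj {u : ℤ × ℤ} (h : th u ≠ 2) : th (cj u) = -th u := by
  have hpi := Real.pi_pos
  unfold th
  have e : cz (cj u) = (starRingEnd ℂ) (cz u) := by
    unfold cz cj
    apply Complex.ext <;> simp
  have h1 : (cz u).arg ≠ Real.pi := by
    intro h2
    apply h
    unfold th
    rw [h2]
    field_simp
  rw [e, Complex.arg_conj, if_neg h1]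
  ring

lemma th_iter_rot (k : ℕ) {u : ℤ × ℤ} (hu : u ≠ 0) :
    rot^[k] u ≠ 0 ∧ ∃ m : ℤ, th (rot^[k] u) = th u + k + 4 * m := by
  induction k with
  | zero => exact ⟨hu, 0, by simp⟩
  | succ k ih =>
    obtain ⟨h1, m, hm⟩ := ih
    rw [Function.iterate_succ_apply']
    obtain ⟨m', hm'⟩ := th_rot h1
    refine ⟨rot_ne_zero h1, m + m', ?_⟩
    rw [hm', hm]; push_cast; ring

lemma rot_inj : Function.Injective rot := by
  intro u v h
  rw [rot_eq, rot_eq] at h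
  have h1 := congrArg Prod.fst h
  have h2 := congrArg Prod.snd h
  simp at h1 h2
  exact Prod.ext h2 h1

lemma cj_inj : Function.Injective cj := by
  intro u v h
  unfold cj at h
  have h1 := congrArg Prod.fst h
  have h2 := congrArg Prod.snd h
  simp at h1 h2
  exact Prod.ext h1 h2

lemma cj_ne_zero {u : ℤ × ℤ} (hu : u ≠ 0) : cj u ≠ 0 := by
  intro h
  apply hu
  apply cj_inj
  rw [h]; rfl

lemma nrm_cj (u : ℤ × ℤ) : nrm 0 1 (cj u) = nrm 0 1 u := by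
  rw [nrm01, nrm01]; unfold cj; ring

lemma rot_mem {B : ℕ} {u : ℤ × ℤ} (hu : u ∈ SB B) : rot u ∈ SB B := by
  have h := mem_SB hu
  unfold SB at hu ⊢
  rw [Finset.mem_filter, Finset.mem_product, Finset.mem_Icc, Finset.mem_Icc] at hu ⊢
  rw [nrm_rot]
  rw [rot_eq]
  obtain ⟨⟨⟨h1, h2⟩, h3, h4⟩, h5, h6⟩ := hu
  exact ⟨⟨⟨by simp only; omega, by simp only; omega⟩, h1, h2⟩, h5, h6⟩

lemma iter_rot_mem {B : ℕ} {u : ℤ × ℤ} (k : ℕ) (hu : u ∈ SB B) : rot^[k] u ∈ SB B := by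
  induction k with
  | zero => exact hu
  | succ k ih => rw [Function.iterate_succ_apply']; exact rot_mem ih

lemma norm_cz_sq (u : ℤ × ℤ) : ‖cz u‖ ^ 2 = (nrm 0 1 u : ℝ) := by
  rw [← Complex.normSq_eq_norm_sq, nrm01]
  unfold cz
  rw [Complex.normSq_mk]
  push_cast
  ring

/-- small angle means small imaginary part -/
lemma abs_snd_le {u : ℤ × ℤ} {ε R : ℝ} (hR : 0 ≤ R) (hth : |th u| ≤ ε)
    (hn : (nrm 0 1 u : ℝ) ≤ R ^ 2) : |(u.2 : ℝ)| ≤ 2 * R * ε := by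
  have hpi := Real.pi_pos
  have hpi4 := Real.pi_le_four
  have h1 : ‖cz u‖ ≤ R := by
    rw [← norm_cz_sq] at hn
    exact le_of_sq_le_sq hn hR
  have h2 : (u.2 : ℝ) = ‖cz u‖ * Real.sin (cz u).arg := by
    rw [Complex.norm_mul_sin_arg]; rfl
  have h3 : (cz u).arg = Real.pi / 2 * th u := by
    unfold th; field_simp
  have h4 : |Real.sin (cz u).arg| ≤ 2 * ε := by
    refine Real.abs_sin_le_abs.trans ?_
    rw [h3, abs_mul, abs_of_pos (by positivity)]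
    have h0 := abs_nonneg (th u)
    nlinarith
  rw [h2, abs_mul, abs_of_nonneg (norm_nonneg _)]
  calc ‖cz u‖ * |Real.sin (cz u).arg| ≤ R * (2 * ε) := by gcongr
    _ = 2 * R * ε := by ring

section

variable {Q Y L : ℕ}

lemma th_close4 (hQ : Q = L * Y) (hY : 0 < Y) (hL : 0 < L) {u v u' v' : ℤ × ℤ} {d : ℤ}
    (hd : |d| < Y) (h : (((pos Q u : ℤ) : ZMod Q) + ((pos Q v : ℤ) : ZMod Q)) -
      (((pos Q u' : ℤ) : ZMod Q) + ((pos Q v' : ℤ) : ZMod Q)) = (d : ZMod Q)) :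
    ∃ n : ℤ, |th u + th v - th u' - th v' - n| ≤ 2 / L := by
  have hYr : (1 : ℝ) ≤ Y := by exact_mod_cast hY
  have hLr : (0 : ℝ) < L := by exact_mod_cast hL
  have hQr : (Q : ℝ) = L * Y := by exact_mod_cast hQ
  have hQ0 : (0 : ℝ) < Q := by rw [hQr]; positivity
  have h1 : ((pos Q u + pos Q v - pos Q u' - pos Q v' - d : ℤ) : ZMod Q) = 0 := by
    push_cast; rw [← h]; ring
  rw [ZMod.intCast_zmod_eq_zero_iff_dvd] at h1
  obtain ⟨n, hn⟩ := h1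
  refine ⟨n, ?_⟩
  have a1 := Int.floor_le ((Q : ℝ) * th u)
  have a2 := Int.lt_floor_add_one ((Q : ℝ) * th u)
  have b1 := Int.floor_le ((Q : ℝ) * th v)
  have b2 := Int.lt_floor_add_one ((Q : ℝ) * th v)
  have c1 := Int.floor_le ((Q : ℝ) * th u')
  have c2 := Int.lt_floor_add_one ((Q : ℝ) * th u')
  have d1 := Int.floor_le ((Q : ℝ) * th v')
  have d2 := Int.lt_floor_add_one ((Q : ℝ) * th v')
  have e1 : ((pos Q u : ℤ) : ℝ) = (⌊(Q : ℝ) * th u⌋ : ℝ) := rfl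
  have e2 : ((pos Q v : ℤ) : ℝ) = (⌊(Q : ℝ) * th v⌋ : ℝ) := rfl
  have e3 : ((pos Q u' : ℤ) : ℝ) = (⌊(Q : ℝ) * th u'⌋ : ℝ) := rfl
  have e4 : ((pos Q v' : ℤ) : ℝ) = (⌊(Q : ℝ) * th v'⌋ : ℝ) := rfl
  have h2 : ((pos Q u : ℤ) : ℝ) + pos Q v - pos Q u' - pos Q v' - d = Q * n := by exact_mod_cast hn
  rw [e1, e2, e3, e4] at h2
  have hdr : |(d : ℝ)| ≤ Y - 1 := by
    have : |d| ≤ (Y : ℤ) - 1 := by omega
    exact_mod_cast this
  rw [abs_le] at hdr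
  have e5 : (2 : ℝ) / L = 2 * Y / Q := by rw [hQr]; field_simp
  have key : |(th u + th v - th u' - th v' - n) * Q| ≤ 2 * Y := by
    rw [abs_le]
    constructor <;> nlinarith
  rw [abs_mul, abs_of_pos hQ0] at key
  rw [e5, le_div_iff₀ hQ0]
  exact key

open Classical in
/-- transfer of closeness on the grid to small imaginary parts -/
lemma energy_transfer (hQ : Q = L * Y) (hY : 0 < Y) (hL : 20 ≤ L) {B : ℕ} (hB : 1 ≤ B)
    (G : Finset (ℤ × ℤ)) (hG : ∀ u ∈ G, u ∈ SB B ∧ th u ≠ 2) (H : ℕ)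
    (hH : 4 * B ^ 2 ≤ H * L)
    (S : Finset (((ℤ × ℤ) × (ℤ × ℤ)) × ((ℤ × ℤ) × (ℤ × ℤ))))
    (hS : S ⊆ (G ×ˢ G) ×ˢ (G ×ˢ G))
    (hd : ∀ p ∈ S, ∃ d : ℤ, |d| < Y ∧
      (((pos Q p.1.1 : ℤ) : ZMod Q) + ((pos Q p.1.2 : ℤ) : ZMod Q)) -
      (((pos Q p.2.1 : ℤ) : ZMod Q) + ((pos Q p.2.2 : ℤ) : ZMod Q)) = (d : ZMod Q)) :
    S.card ≤ 4 * (((SB B ×ˢ SB B) ×ˢ (SB B ×ˢ SB B)).filter (fun p =>
      |(mulp 0 1 (mulp 0 1 p.1.1 p.1.2) (mulp 0 1 p.2.1 p.2.2)).2| ≤ (H : ℤ))).card := by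
  classical
  have hLr : (20 : ℝ) ≤ L := by exact_mod_cast hL
  have hLpos : (0 : ℝ) < L := by linarith
  have hne : ∀ u ∈ SB B, u ≠ 0 := by
    rintro u hu rfl
    have := (mem_SB hu).1
    simp [nrm] at this
    omega
  have key : ∀ p ∈ S, ∃ k : ℕ, k < 4 ∧
      |(mulp 0 1 (mulp 0 1 (rot^[k] p.1.1) p.1.2) (mulp 0 1 (cj p.2.1) (cj p.2.2))).2| ≤
        (H : ℤ) := by
    rintro ⟨⟨u, v⟩, ⟨u', v'⟩⟩ hp
    obtain ⟨d, hd1, hd2⟩ := hd _ hp
    simp only at hd2 ⊢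
    have hmem := hS hp
    rw [Finset.mem_product, Finset.mem_product, Finset.mem_product] at hmem
    obtain ⟨⟨hu, hv⟩, hu', hv'⟩ := hmem
    simp only at hu hv hu' hv'
    obtain ⟨n, hn⟩ := th_close4 hQ hY (by omega) hd1 hd2
    have hu0 := hne u (hG u hu).1
    have hv0 := hne v (hG v hv).1
    have hu'0 := cj_ne_zero (hne u' (hG u' hu').1)
    have hv'0 := cj_ne_zero (hne v' (hG v' hv').1)
    have hk0 : 0 ≤ (-n) % 4 := Int.emod_nonneg _ (by norm_num)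
    have hk4 : (-n) % 4 < 4 := Int.emod_lt_of_pos _ (by norm_num)
    refine ⟨((-n) % 4).toNat, by omega, ?_⟩
    set k : ℕ := ((-n) % 4).toNat with hk
    have hkr : (k : ℝ) = (((-n) % 4 : ℤ) : ℝ) := by
      have : ((k : ℕ) : ℤ) = (-n) % 4 := Int.toNat_of_nonneg hk0
      exact_mod_cast this
    obtain ⟨hr0, m1, hm1⟩ := th_iter_rot k hu0
    obtain ⟨m2, hm2⟩ := th_mulp hr0 hv0
    obtain ⟨m3, hm3⟩ := th_mulp hu'0 hv'0
    have ha := mulp_ne_zero not_sq hr0 hv0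
    have hb := mulp_ne_zero not_sq hu'0 hv'0
    obtain ⟨m4, hm4⟩ := th_mulp ha hb
    set z := mulp 0 1 (mulp 0 1 (rot^[k] u) v) (mulp 0 1 (cj u') (cj v')) with hz
    rw [hm2, hm3, hm1, th_cj (hG u' hu').2, th_cj (hG v' hv').2, hkr] at hm4
    have hdm : (n : ℝ) = -(((-n) % 4 : ℤ) : ℝ) - 4 * (((-n) / 4 : ℤ) : ℝ) := by
      have := Int.emod_add_mul_ediv (-n) 4
      have h2 : n = -((-n) % 4) - 4 * ((-n) / 4) := by omega
      exact_mod_cast h2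
    set t : ℝ := th u + th v - th u' - th v' - n with ht
    have hth : th z = t + 4 * ((m1 + m2 + m3 + m4 - (-n) / 4 : ℤ) : ℝ) := by
      rw [hm4, ht, hdm]; push_cast; ring
    have hinv : (2 : ℝ) / L ≤ 1 / 10 := by
      rw [div_le_div_iff₀ hLpos (by norm_num)]; linarith
    have habs : |t| ≤ 1 / 10 := hn.trans hinv
    rw [abs_le] at habs
    have hz1 := neg_two_lt_th z
    have hz2 := th_le_two z
    have hq0 : m1 + m2 + m3 + m4 - (-n) / 4 = 0 := by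
      have a : (-1 : ℝ) < ((m1 + m2 + m3 + m4 - (-n) / 4 : ℤ) : ℝ) := by linarith
      have b : ((m1 + m2 + m3 + m4 - (-n) / 4 : ℤ) : ℝ) < 1 := by linarith
      have a' : (-1 : ℤ) < m1 + m2 + m3 + m4 - (-n) / 4 := by exact_mod_cast a
      have b' : m1 + m2 + m3 + m4 - (-n) / 4 < 1 := by exact_mod_cast b
      omega
    rw [hq0] at hth
    have hthz : |th z| ≤ 2 / L := by
      rw [hth]; simpa using hn
    have hB0 : ∀ w ∈ SB B, (nrm 0 1 w : ℝ) ≤ B ∧ (0 : ℝ) ≤ nrm 0 1 w := by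
      intro w hw
      have h1 := (mem_SB hw).2
      have h2 : 0 ≤ nrm 0 1 w := by rw [nrm01]; positivity
      exact ⟨by exact_mod_cast h1, by exact_mod_cast h2⟩
    have hnz : (nrm 0 1 z : ℝ) ≤ ((B : ℝ) ^ 2) ^ 2 := by
      rw [hz, nrm_mulp, nrm_mulp, nrm_mulp, nrm_iter_rot, nrm_cj, nrm_cj]
      push_cast
      obtain ⟨a1, b1⟩ := hB0 u (hG u hu).1
      obtain ⟨a2, b2⟩ := hB0 v (hG v hv).1
      obtain ⟨a3, b3⟩ := hB0 u' (hG u' hu').1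
      obtain ⟨a4, b4⟩ := hB0 v' (hG v' hv').1
      calc (nrm 0 1 u : ℝ) * nrm 0 1 v * (nrm 0 1 u' * nrm 0 1 v') ≤ B * B * (B * B) := by gcongr
        _ = ((B : ℝ) ^ 2) ^ 2 := by ring
    have h5 := abs_snd_le (by positivity) hthz hnz
    have h6 : |(z.2 : ℝ)| ≤ H := by
      refine h5.trans ?_
      have e : 2 * (B : ℝ) ^ 2 * (2 / L) = 4 * B ^ 2 / L := by ring
      rw [e, div_le_iff₀ hLpos]
      exact_mod_cast hH
    exact_mod_cast h6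
  choose! K hK1 hK2 using key
  have : S.card ≤ (range 4 ×ˢ (((SB B ×ˢ SB B) ×ˢ (SB B ×ˢ SB B)).filter (fun p =>
      |(mulp 0 1 (mulp 0 1 p.1.1 p.1.2) (mulp 0 1 p.2.1 p.2.2)).2| ≤ (H : ℤ)))).card := by
    apply Finset.card_le_card_of_injOn
      (fun p => (K p, ((rot^[K p] p.1.1, p.1.2), (cj p.2.1, cj p.2.2))))
    · intro p hp
      have hmem := hS hp
      rw [Finset.mem_product, Finset.mem_product, Finset.mem_product] at hmem
      obtain ⟨⟨hu, hv⟩, hu', hv'⟩ := hmem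
      rw [Finset.mem_coe, Finset.mem_product, Finset.mem_range, Finset.mem_filter,
        Finset.mem_product, Finset.mem_product, Finset.mem_product]
      exact ⟨hK1 p hp, ⟨⟨iter_rot_mem _ (hG _ hu).1, (hG _ hv).1⟩, cj_mem (hG _ hu').1,
        cj_mem (hG _ hv').1⟩, hK2 p hp⟩
    · rintro ⟨⟨u, v⟩, ⟨u', v'⟩⟩ _ ⟨⟨a, b⟩, ⟨a', b'⟩⟩ _ h
      simp only [Prod.mk.injEq] at h
      obtain ⟨h1, ⟨h2, h3⟩, h4, h5⟩ := h
      rw [h1] at h2
      have h6 := rot_inj.iterate _ h2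
      rw [h6, h3, cj_inj h4, cj_inj h5]
  rw [Finset.card_product, Finset.card_range] at this
  exact this

end

end Pool.Agent.Lib.MP_a17b09_nt.LP
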