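import Pool.Agent.Lib.MP_a17b09_nt.LP.Ang

set_option autoImplicit false

open Finset

namespace Pool.Agent.Lib.MP_a17b09_nt.LP

/-- `u` lies in the window `[cY, (c+2)Y)` modulo `Q` -/
def InW (Q Y : ℕ) (c : ℤ) (u : ℤ × ℤ) : Prop :=
  ∃ n : ℤ, c * Y ≤ pos Q u + n * Q ∧ pos Q u + n * Q < (c + 2) * Y

/-- `u` lies in the half window `[cY, (c+1)Y)` modulo `Q` -/
def InH (Q Y : ℕ) (c : ℤ) (u : ℤ × ℤ) : Prop :=
  ∃ n : ℤ, c * Y ≤ pos Q u + n * Q ∧ pos Q u + n * Q < (c + 1) * Y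

/-- monochromatic window -/
def MonoC (P : Set ℕ) (Q Y : ℕ) (M : ℤ) (c : ℤ) : Prop :=
  ∀ u v : ℤ × ℤ, u ≠ 0 → v ≠ 0 → nrm 0 1 u ≤ M → nrm 0 1 v ≤ M → InW Q Y c u → InW Q Y c v →
    col P 0 1 u = col P 0 1 v

/-- populated half window -/
def PopC (Q Y : ℕ) (M0 : ℤ) (c : ℤ) : Prop :=
  ∃ u : ℤ × ℤ, u ≠ 0 ∧ nrm 0 1 u ≤ M0 ∧ InH Q Y c u

lemma InW_add_period {Q Y L : ℕ} (hQ : Q = L * Y) (c : ℤ) (u : ℤ × ℤ) (k : ℤ) :
    InW Q Y (c + k * L) u ↔ InW Q Y c u := by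
  unfold InW
  have hQ' : (Q : ℤ) = L * Y := by exact_mod_cast hQ
  constructor
  · rintro ⟨n, h1, h2⟩
    refine ⟨n - k, ?_, ?_⟩
    · rw [hQ'] at h1 ⊢; linarith
    · rw [hQ'] at h2 ⊢; linarith
  · rintro ⟨n, h1, h2⟩
    refine ⟨n + k, ?_, ?_⟩
    · rw [hQ'] at h1 ⊢; linarith
    · rw [hQ'] at h2 ⊢; linarith

lemma InH_add_period {Q Y L : ℕ} (hQ : Q = L * Y) (c : ℤ) (u : ℤ × ℤ) (k : ℤ) :
    InH Q Y (c + k * L) u ↔ InH Q Y c u := by
  unfold InH
  have hQ' : (Q : ℤ) = L * Y := by exact_mod_cast hQ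
  constructor
  · rintro ⟨n, h1, h2⟩
    refine ⟨n - k, ?_, ?_⟩
    · rw [hQ'] at h1 ⊢; linarith
    · rw [hQ'] at h2 ⊢; linarith
  · rintro ⟨n, h1, h2⟩
    refine ⟨n + k, ?_, ?_⟩
    · rw [hQ'] at h1 ⊢; linarith
    · rw [hQ'] at h2 ⊢; linarith

lemma MonoC_add_period {P : Set ℕ} {Q Y L : ℕ} (hQ : Q = L * Y) (M : ℤ) (c k : ℤ) :
    MonoC P Q Y M (c + k * L) ↔ MonoC P Q Y M c := by
  unfold MonoC
  simp only [InW_add_period hQ]

/-- real form of the grid position -/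
lemma pos_bounds {Q Y L : ℕ} (hQ : Q = L * Y) (hY : 0 < Y) (hL : 0 < L) (c w : ℤ) (u : ℤ × ℤ) (n : ℤ) :
    (c * Y ≤ pos Q u + n * Q ↔ (c : ℝ) / L ≤ th u + n) ∧
    (pos Q u + n * Q < w * Y ↔ th u + n < (w : ℝ) / L) := by
  have hYr : (0 : ℝ) < Y := by exact_mod_cast hY
  have hLr : (0 : ℝ) < L := by exact_mod_cast hL
  have hQr : (Q : ℝ) = L * Y := by exact_mod_cast hQ
  have e : pos Q u + n * Q = ⌊(Q : ℝ) * (th u + n)⌋ := by
    unfold pos
    have : (Q : ℝ) * (th u + n) = (Q : ℝ) * th u + ((n * Q : ℤ) : ℝ) := by push_cast; ring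
    rw [this, Int.floor_add_intCast]
  rw [e]
  constructor
  · rw [Int.le_floor, div_le_iff₀ hLr, hQr]
    push_cast
    constructor
    · intro h
      have h2 : (c : ℝ) * Y ≤ ((th u + n) * L) * Y := by linarith
      exact le_of_mul_le_mul_right h2 hYr
    · intro h
      have h2 : (c : ℝ) * Y ≤ ((th u + n) * L) * Y := by gcongr
      linarith
  · rw [Int.floor_lt, lt_div_iff₀ hLr, hQr]
    push_cast
    constructor
    · intro h
      have h2 : ((th u + n) * L) * Y < (w : ℝ) * Y := by linarith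
      exact lt_of_mul_lt_mul_right h2 hYr.le
    · intro h
      have h2 : ((th u + n) * L) * Y < (w : ℝ) * Y := by gcongr
      linarith

/-- a bad window with small angles contains a bad unimodular pair -/
theorem bad_edge {P : Set ℕ} {Q Y L : ℕ} (hQ : Q = L * Y) (hY : 0 < Y) (hL : 20 ≤ L) {M X : ℤ}
    (hX : M < (X + 1) ^ 2) (hX0 : 0 ≤ X) {c : ℤ} (hc1 : -(L : ℤ) ≤ 2 * c) (hc2 : 2 * c < L)
    (hbad : ¬ MonoC P Q Y M c) :
    ∃ u v : ℤ × ℤ, det u v = 1 ∧ 0 < u.1 ∧ 0 < v.1 ∧ u.1 ≤ X ∧ v.1 ≤ X ∧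
      col P 0 1 u ≠ col P 0 1 v ∧ (c : ℝ) / L ≤ th u ∧ th u < ((c + 2 : ℤ) : ℝ) / L ∧
      (c : ℝ) / L ≤ th v ∧ th v < ((c + 2 : ℤ) : ℝ) / L := by
  have hLr : (20 : ℝ) ≤ L := by exact_mod_cast hL
  have hLpos : (0 : ℝ) < L := by linarith
  have hc1r : (-(1 : ℝ)) / 2 ≤ (c : ℝ) / L := by
    rw [div_le_div_iff₀ (by norm_num) hLpos]
    have : (-(L : ℝ)) ≤ 2 * c := by exact_mod_cast hc1
    linarith
  have hc2r : ((c + 2 : ℤ) : ℝ) / L < 3 / 5 := by
    rw [div_lt_div_iff₀ hLpos (by norm_num)]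
    have : (2 : ℝ) * c < L := by exact_mod_cast hc2
    push_cast
    linarith
  unfold MonoC at hbad
  push Not at hbad
  obtain ⟨u0, v0, hu0, hv0, huM, hvM, hu, hv, hcol⟩ := hbad
  -- normalisation of one vector
  have norm1 : ∀ w : ℤ × ℤ, w ≠ 0 → nrm 0 1 w ≤ M → InW Q Y c w →
      ∃ w' : ℤ × ℤ, IsCoprime w'.1 w'.2 ∧ 0 < w'.1 ∧ w'.1 ≤ X ∧ (c : ℝ) / L ≤ th w' ∧
        th w' < ((c + 2 : ℤ) : ℝ) / L ∧ col P 0 1 w' = col P 0 1 w := by
    intro w hw hwM ⟨n, hn1, hn2⟩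
    rw [(pos_bounds hQ hY (by omega) c (c + 2) w n).1] at hn1
    rw [(pos_bounds hQ hY (by omega) c (c + 2) w n).2] at hn2
    obtain ⟨w1, hw1, hnrm, hth, -⟩ := exists_lift hw n (by linarith) (by linarith)
    have hfst : 0 < w1.1 := fst_pos_of_th hw1 (by rw [hth]; linarith) (by rw [hth]; linarith)
    obtain ⟨w2, hcop, h2pos, h2le, hslope, hcol2⟩ := exists_primitive P not_sq hfst
    have hth2 : th w2 = th w1 := by
      rw [th_eq_arctan h2pos, th_eq_arctan hfst, hslope]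
    refine ⟨w2, hcop, h2pos, ?_, ?_, ?_, ?_⟩
    · refine h2le.trans ?_
      by_contra hcon
      push Not at hcon
      have h3 : nrm 0 1 w1 ≤ M := by rw [hnrm]; exact hwM
      rw [nrm01] at h3
      nlinarith [sq_nonneg w1.2]
    · rw [hth2, hth]; exact hn1
    · rw [hth2, hth]; exact hn2
    · rw [hcol2]; unfold col; rw [hnrm]
  obtain ⟨u, hucop, hupos, huX, hu1, hu2, hucol⟩ := norm1 u0 hu0 huM hu
  obtain ⟨v, hvcop, hvpos, hvX, hv1, hv2, hvcol⟩ := norm1 v0 hv0 hvM hv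
  have hcol' : col P 0 1 u ≠ col P 0 1 v := by rw [hucol, hvcol]; exact hcol
  have main : ∀ a b : ℤ × ℤ, IsCoprime a.1 a.2 → IsCoprime b.1 b.2 → 0 < a.1 → 0 < b.1 →
      a.1 ≤ X → b.1 ≤ X → (c : ℝ) / L ≤ th a → th a < ((c + 2 : ℤ) : ℝ) / L →
      (c : ℝ) / L ≤ th b → th b < ((c + 2 : ℤ) : ℝ) / L → col P 0 1 a ≠ col P 0 1 b →
      0 < det a b → ∃ u v : ℤ × ℤ, det u v = 1 ∧ 0 < u.1 ∧ 0 < v.1 ∧ u.1 ≤ X ∧ v.1 ≤ X ∧
      col P 0 1 u ≠ col P 0 1 v ∧ (c : ℝ) / L ≤ th u ∧ th u < ((c + 2 : ℤ) : ℝ) / L ∧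
      (c : ℝ) / L ≤ th v ∧ th v < ((c + 2 : ℤ) : ℝ) / L := by
    intro a b ha hb ha0 hb0 haX hbX ha1 ha2 hb1 hb2 hab hdet
    obtain ⟨u', v', g1, g2, g3, g4, g5, g6, g7, g8, g9, g10⟩ :=
      path_lemma P 0 1 X (det a b).toNat a b (by omega) (by omega) ha hb ha0 hb0 haX hbX hab
    exact ⟨u', v', g1, g2, g3, g4, g5, g6, ha1.trans (th_mono_of_det ha0 g2 g7),
      (th_mono_of_det g2 hb0 g8).trans_lt hb2, ha1.trans (th_mono_of_det ha0 g3 g9),
      (th_mono_of_det g3 hb0 g10).trans_lt hb2⟩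
  rcases lt_trichotomy (det u v) 0 with h | h | h
  · have h' : 0 < det v u := by
      have : det v u = - det u v := by unfold det; ring
      linarith
    exact main v u hvcop hucop hvpos hupos hvX huX hv1 hv2 hu1 hu2 (Ne.symm hcol') h'
  · exfalso
    apply hcol'
    have hd : u.1 * v.2 = u.2 * v.1 := by unfold det at h; linarith
    have h1 : u.1 ∣ v.1 := by
      have : u.1 ∣ u.2 * v.1 := ⟨v.2, hd.symm⟩
      exact hucop.dvd_of_dvd_mul_left this
    have h2 : v.1 ∣ u.1 := by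
      have : v.1 ∣ v.2 * u.1 := ⟨u.2, by linarith⟩
      exact hvcop.dvd_of_dvd_mul_left this
    have h3 : u.1 = v.1 := Int.dvd_antisymm hupos.le hvpos.le h1 h2
    have h4 : u.2 = v.2 := by
      rw [h3] at hd
      have : v.1 * (v.2 - u.2) = 0 := by linarith
      rcases mul_eq_zero.1 this with h5 | h5
      · omega
      · omega
    rw [Prod.ext h3 h4]
  · exact main u v hucop hvcop hupos hvpos huX hvX hu1 hu2 hv1 hv2 hcol' h

/-- the label of a unimodular pair in the right half plane is positive -/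
lemma lab_pos' {u v : ℤ × ℤ} (hu : 0 < u.1) (hv : 0 < v.1) (hdet : det u v = 1) :
    0 < lab 0 1 u v ∧ u.1 * v.1 ≤ lab 0 1 u v := by
  have h : 0 ≤ u.2 * v.2 := by
    by_contra hcon
    push Not at hcon
    unfold det at hdet
    rcases lt_trichotomy u.2 0 with h1 | h1 | h1
    · have h2 : 0 < v.2 := by
        by_contra h3
        push Not at h3
        nlinarith
      nlinarith
    · rw [h1] at hcon; simp at hcon
    · have h2 : v.2 < 0 := by
        by_contra h3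
        push Not at h3
        nlinarith
      nlinarith
  have h2 : 0 < u.1 * v.1 := by positivity
  unfold lab
  constructor <;> nlinarith

/-- two unimodular pairs with the same label and the same first norm differ by a unit -/
lemma assoc_of_lab {u v u' v' : ℤ × ℤ} (hd : det u v = 1) (hd' : det u' v' = 1)
    (hl : lab 0 1 u v = lab 0 1 u' v') (hn : nrm 0 1 u = nrm 0 1 u') (hu : u ≠ 0) :
    ∃ k : ℕ, u' = rot^[k] u := by
  set m : ℤ := nrm 0 1 u with hm
  have hm0 : 0 < m := by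
    rw [hm, nrm01]
    have : u.1 ≠ 0 ∨ u.2 ≠ 0 := by
      by_contra hcon
      push Not at hcon
      exact hu (Prod.ext hcon.1 hcon.2)
    rcases this with h | h
    · have := sq_pos_of_ne_zero h; nlinarith [sq_nonneg u.2]
    · have := sq_pos_of_ne_zero h; nlinarith [sq_nonneg u.1]
  set t : ℤ := lab 0 1 u v with ht
  obtain ⟨x, y⟩ := u
  obtain ⟨x', y'⟩ := u'
  obtain ⟨a, b⟩ := v
  obtain ⟨a', b'⟩ := v'
  simp only [det, lab] at hd hd' hl ht
  rw [nrm01] at hm hn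
  simp only at hm hn
  have hn' : x' ^ 2 + y' ^ 2 = m := hn.symm
  have e1 : y = x * t - m * a := by rw [ht, hm]; linear_combination (-y) * hd
  have e2 : x = m * b - y * t := by rw [ht, hm]; linear_combination (-x) * hd
  have e3 : y' = x' * t - m * a' := by
    rw [hl, ← hn']; linear_combination (-y') * hd'
  have e4 : x' = m * b' - y' * t := by
    rw [hl, ← hn']; linear_combination (-x') * hd'
  have eB : x * y' - y * x' = m * (a * x' - x * a') := by
    linear_combination x * e3 - x' * e1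
  have eA : x * x' + y * y' = m * (b * x' - y * a') := by
    linear_combination x' * e2 + y * e3
  set B : ℤ := a * x' - x * a' with hB
  set A : ℤ := b * x' - y * a' with hA
  have hAB : A ^ 2 + B ^ 2 = 1 := by
    have h1 : (x * x' + y * y') ^ 2 + (x * y' - y * x') ^ 2 = (x ^ 2 + y ^ 2) * (x' ^ 2 + y' ^ 2) := by
      ring
    rw [eA, eB, hn', ← hm] at h1
    have h2 : m ^ 2 * (A ^ 2 + B ^ 2) = m ^ 2 * 1 := by linear_combination h1
    exact mul_left_cancel₀ (pow_ne_zero 2 hm0.ne') h2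
  have ex' : x' = A * x - B * y := by
    have : m * x' = m * (A * x - B * y) := by
      have e5 : m * (A * x - B * y) = (m * A) * x - (m * B) * y := by ring
      rw [e5, ← eA, ← eB, hm]; ring
    exact mul_left_cancel₀ hm0.ne' this
  have ey' : y' = A * y + B * x := by
    have : m * y' = m * (A * y + B * x) := by
      have e5 : m * (A * y + B * x) = (m * A) * y + (m * B) * x := by ring
      rw [e5, ← eA, ← eB, hm]; ring
    exact mul_left_cancel₀ hm0.ne' this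
  clear_value A B
  have hA1 : A ^ 2 ≤ 1 := by linarith [sq_nonneg B]
  have hB1 : B ^ 2 ≤ 1 := by linarith [sq_nonneg A]
  have hA2 : -1 ≤ A ∧ A ≤ 1 := abs_le.1 (sq_le_one_iff_abs_le_one A |>.1 hA1)
  have hB2 : -1 ≤ B ∧ B ≤ 1 := abs_le.1 (sq_le_one_iff_abs_le_one B |>.1 hB1)
  have hA3 : A = -1 ∨ A = 0 ∨ A = 1 := by omega
  have hB3 : B = -1 ∨ B = 0 ∨ B = 1 := by omega
  have hcase : (A = 1 ∧ B = 0) ∨ (A = 0 ∧ B = 1) ∨ (A = -1 ∧ B = 0) ∨ (A = 0 ∧ B = -1) := by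
    rcases hA3 with h | h | h <;> rcases hB3 with h' | h' | h' <;> rw [h, h'] at hAB <;>
      norm_num at hAB <;> tauto
  rcases hcase with ⟨h, h'⟩ | ⟨h, h'⟩ | ⟨h, h'⟩ | ⟨h, h'⟩
  · refine ⟨0, ?_⟩
    rw [ex', ey', h, h']; simp
  · refine ⟨1, ?_⟩
    rw [ex', ey', h, h']; simp [rot_eq]
  · refine ⟨2, ?_⟩
    rw [ex', ey', h, h']; simp [rot_eq]
  · refine ⟨3, ?_⟩
    rw [ex', ey', h, h']; simp [rot_eq]

lemma InW_cases {Q Y L : ℕ} (hQ : Q = L * Y) (hY : 0 < Y) {c : ℤ} {u : ℤ × ℤ}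
    (h : InW Q Y c u) : ∃ n : ℤ, c = pos Q u / Y + n * L ∨ c = pos Q u / Y - 1 + n * L := by
  obtain ⟨n, h1, h2⟩ := h
  have hYz : (0 : ℤ) < Y := by exact_mod_cast hY
  have hQ' : (Q : ℤ) = L * Y := by exact_mod_cast hQ
  have e : (pos Q u + n * Q) / Y = pos Q u / Y + n * L := by
    rw [hQ', ← mul_assoc]
    exact Int.add_mul_ediv_right _ _ hYz.ne'
  have h3 : c ≤ (pos Q u + n * Q) / Y := by
    rw [Int.le_ediv_iff_mul_le hYz]; exact h1
  have h4 : (pos Q u + n * Q) / Y < c + 2 := by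
    rw [Int.ediv_lt_iff_lt_mul hYz]; exact h2
  rw [e] at h3 h4
  refine ⟨n, ?_⟩
  omega

/-- lift of a cell index to the central range -/
lemma exists_central {L : ℕ} {c : ℕ} (hc : c < L) :
    ∃ c' k : ℤ, (c : ℤ) = c' + k * L ∧ -(L : ℤ) ≤ 2 * c' ∧ 2 * c' < L := by
  by_cases h : 2 * (c : ℤ) < L
  · exact ⟨c, 0, by ring, by omega, h⟩
  · exact ⟨c - L, 1, by ring, by omega, by omega⟩

/-- the set of `1 ≤ t ≤ N` with negative sign -/
noncomputable def OS (P : Set ℕ) (N : ℕ) : Finset ℕ := by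
  classical
  exact (Icc 1 N).filter (fun t : ℕ => sgn P ((t : ℤ) ^ 2 + 1) = -1)

lemma mem_OS {P : Set ℕ} {N t : ℕ} :
    t ∈ OS P N ↔ (1 ≤ t ∧ t ≤ N) ∧ sgn P ((t : ℤ) ^ 2 + 1) = -1 := by
  unfold OS
  rw [Finset.mem_filter, Finset.mem_Icc]

open Classical in
/-- the number of windows that are not monochromatic -/
theorem nonmono_count {P : Set ℕ} {Q Y L : ℕ} (hQ : Q = L * Y) (hY : 0 < Y) (hL : 20 ≤ L)
    {M X : ℤ} (hX : M < (X + 1) ^ 2) (hX0 : 0 ≤ X) {N : ℕ} (hN : 5 * X ^ 2 ≤ N) :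
    ((range L).filter (fun c : ℕ => ¬ MonoC P Q Y M c)).card ≤
      2 * ∑ t ∈ OS P N, dv (t ^ 2 + 1) := by
  set S := (range L).filter (fun c : ℕ => ¬ MonoC P Q Y M c) with hS
  have key : ∀ c ∈ S, ∃ u v : ℤ × ℤ, det u v = 1 ∧ 0 < u.1 ∧ 0 < v.1 ∧
      (lab 0 1 u v).toNat ∈ OS P N ∧
      nrm 0 1 u * nrm 0 1 v = (lab 0 1 u v) ^ 2 + 1 ∧ InW Q Y c u := by
    intro c hc
    rw [hS, Finset.mem_filter, Finset.mem_range] at hc
    obtain ⟨c', k, e, h1, h2⟩ := exists_central hc.1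
    have hbad : ¬ MonoC P Q Y M c' := by
      rw [← MonoC_add_period hQ M c' k, ← e]; exact hc.2
    obtain ⟨u, v, hd, hu, hv, huX, hvX, hcol, a1, a2, a3, a4⟩ := bad_edge hQ hY hL hX hX0 h1 h2 hbad
    have hlab := lab_pos' hu hv hd
    have hnn : nrm 0 1 u * nrm 0 1 v = (lab 0 1 u v) ^ 2 + 1 := by
      rw [nrm_mul_nrm, hd]; ring
    refine ⟨u, v, hd, hu, hv, ?_, hnn, ?_⟩
    · rw [mem_OS]
      have hb : ∀ w : ℤ × ℤ, (c' : ℝ) / L ≤ th w → th w < ((c' + 2 : ℤ) : ℝ) / L → 0 < w.1 →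
          |w.2| ≤ 2 * w.1 := by
        intro w hw1 hw2 hw3
        have hLr : (20 : ℝ) ≤ L := by exact_mod_cast hL
        have hLpos : (0 : ℝ) < L := by linarith
        have hc1r : (-(1 : ℝ)) / 2 ≤ (c' : ℝ) / L := by
          rw [div_le_div_iff₀ (by norm_num) hLpos]
          have : (-(L : ℝ)) ≤ 2 * c' := by exact_mod_cast h1
          linarith
        have hc2r : ((c' + 2 : ℤ) : ℝ) / L < 3 / 5 := by
          rw [div_lt_div_iff₀ hLpos (by norm_num)]
          have : (2 : ℝ) * c' < L := by exact_mod_cast h2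
          push_cast
          linarith
        have h5 := abs_slope_le hw3 (abs_le.2 ⟨by linarith, by linarith⟩)
        exact_mod_cast h5
      have hu2 := hb u a1 a2 hu
      have hv2 := hb v a3 a4 hv
      have hle : lab 0 1 u v ≤ 5 * X ^ 2 := by
        have h6 : u.2 * v.2 ≤ (2 * X) * (2 * X) := by
          calc u.2 * v.2 ≤ |u.2 * v.2| := le_abs_self _
            _ = |u.2| * |v.2| := abs_mul _ _
            _ ≤ (2 * u.1) * (2 * v.1) := by gcongr
            _ ≤ (2 * X) * (2 * X) := by gcongr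
        have h7 : u.1 * v.1 ≤ X * X := by gcongr
        unfold lab
        nlinarith
      have e2 : (((lab 0 1 u v).toNat : ℕ) : ℤ) = lab 0 1 u v := Int.toNat_of_nonneg hlab.1.le
      refine ⟨⟨by omega, ?_⟩, ?_⟩
      · have : (((lab 0 1 u v).toNat : ℕ) : ℤ) ≤ (N : ℤ) := by rw [e2]; linarith
        exact_mod_cast this
      · rw [e2, ← hnn]
        have hune : u ≠ 0 := by
          intro h; rw [h] at hu; simp at hu
        have hvne : v ≠ 0 := by
          intro h; rw [h] at hv; simp at hv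
        exact sgn_mul_eq_neg_one (nrm_ne_zero not_sq hune) (nrm_ne_zero not_sq hvne) hcol
    · rw [e, InW_add_period hQ]
      refine ⟨0, ?_, ?_⟩
      · rw [(pos_bounds hQ hY (by omega) c' (c' + 2) u 0).1]
        push_cast; linarith
      · rw [(pos_bounds hQ hY (by omega) c' (c' + 2) u 0).2]
        have : th u + ((0 : ℤ) : ℝ) = th u := by simp
        rw [this]; exact a2
  choose! U V h1 h2 h3 h4 h5 h6 using key
  have hcard : ((OS P N).sigma (fun t => (t ^ 2 + 1).divisors)).card =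
      ∑ t ∈ OS P N, dv (t ^ 2 + 1) := by
    rw [Finset.card_sigma]; rfl
  rw [← hcard]
  apply Finset.card_le_mul_card_image_of_maps_to
    (f := fun c => (⟨(lab 0 1 (U c) (V c)).toNat, (nrm 0 1 (U c)).toNat⟩ : (_ : ℕ) × ℕ))
  · intro c hc
    rw [Finset.mem_sigma]
    refine ⟨h4 c hc, ?_⟩
    simp only
    rw [Nat.mem_divisors]
    refine ⟨?_, by positivity⟩
    have hlab := lab_pos' (h2 c hc) (h3 c hc) (h1 c hc)
    have e2 : (((lab 0 1 (U c) (V c)).toNat : ℕ) : ℤ) = lab 0 1 (U c) (V c) :=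
      Int.toNat_of_nonneg hlab.1.le
    have hn0 : 0 ≤ nrm 0 1 (U c) := by rw [nrm01]; positivity
    have e3 : (((nrm 0 1 (U c)).toNat : ℕ) : ℤ) = nrm 0 1 (U c) := Int.toNat_of_nonneg hn0
    have : (((nrm 0 1 (U c)).toNat : ℕ) : ℤ) ∣ (((lab 0 1 (U c) (V c)).toNat ^ 2 + 1 : ℕ) : ℤ) := by
      push_cast
      rw [e2, e3, ← h5 c hc]
      exact dvd_mul_right _ _
    exact_mod_cast this
  · rintro ⟨t, m⟩ _
    rcases (S.filter (fun c => (⟨(lab 0 1 (U c) (V c)).toNat, (nrm 0 1 (U c)).toNat⟩ :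
      (_ : ℕ) × ℕ) = ⟨t, m⟩)).eq_empty_or_nonempty with hemp | ⟨c0, hc0⟩
    · rw [hemp]; simp
    rw [Finset.mem_filter] at hc0
    set q0 : ℤ := pos Q (U c0) / Y with hq0
    have hLz : (0 : ℤ) < L := by
      have : 0 < L := by omega
      exact_mod_cast this
    have hsub : S.filter (fun c => (⟨(lab 0 1 (U c) (V c)).toNat, (nrm 0 1 (U c)).toNat⟩ :
      (_ : ℕ) × ℕ) = ⟨t, m⟩) ⊆ {(q0 % L).toNat, ((q0 - 1) % L).toNat} := by
      intro c hc
      rw [Finset.mem_filter] at hc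
      have heq := hc.2.trans hc0.2.symm
      simp only [Sigma.mk.injEq, heq_eq_eq] at heq
      have hlab := lab_pos' (h2 c hc.1) (h3 c hc.1) (h1 c hc.1)
      have hlab0 := lab_pos' (h2 c0 hc0.1) (h3 c0 hc0.1) (h1 c0 hc0.1)
      have hn0 : 0 ≤ nrm 0 1 (U c) := by rw [nrm01]; positivity
      have hn1 : 0 ≤ nrm 0 1 (U c0) := by rw [nrm01]; positivity
      have hne0 : U c0 ≠ 0 := by
        intro h; have := h2 c0 hc0.1; rw [h] at this; simp at this
      obtain ⟨k, hk⟩ := assoc_of_lab (h1 c0 hc0.1) (h1 c hc.1) (by omega) (by omega) hne0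
      obtain ⟨n, hn⟩ := pos_iter_rot Q k hne0
      rw [← hk] at hn
      have hw := h6 c hc.1
      obtain ⟨n', hn'⟩ := InW_cases hQ hY hw
      have hYz : (0 : ℤ) < Y := by exact_mod_cast hY
      have hQ' : (Q : ℤ) = L * Y := by exact_mod_cast hQ
      have e : pos Q (U c) / Y = q0 + n * L := by
        rw [hn, hQ', ← mul_assoc, hq0]
        exact Int.add_mul_ediv_right _ _ hYz.ne'
      rw [e] at hn'
      have hcL : c < L := by
        have := hc.1
        rw [hS, Finset.mem_filter, Finset.mem_range] at this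
        exact this.1
      rw [Finset.mem_insert, Finset.mem_singleton]
      rcases hn' with h | h
      · left
        have h7 : (c : ℤ) % L = q0 % L := by
          rw [h, show q0 + n * L + n' * L = q0 + (n + n') * L by ring, Int.add_mul_emod_self_right]
        rw [Int.emod_eq_of_lt (by positivity) (by exact_mod_cast hcL)] at h7
        omega
      · right
        have h7 : (c : ℤ) % L = (q0 - 1) % L := by
          rw [h, show q0 + n * L - 1 + n' * L = (q0 - 1) + (n + n') * L by ring,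
            Int.add_mul_emod_self_right]
        rw [Int.emod_eq_of_lt (by positivity) (by exact_mod_cast hcL)] at h7
        omega
    exact (Finset.card_le_card hsub).trans Finset.card_le_two

end Pool.Agent.Lib.MP_a17b09_nt.LP
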