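import Pool.Agent.Lib.MP_a17b09_nt.LP.Bil

set_option autoImplicit false

open Finset

namespace Pool.Agent.Lib.MP_a17b09_nt.LP

/-- Cauchy–Schwarz over the fibres -/
lemma card_sq_le_fibres {ι κ : Type*} [DecidableEq κ] (R : Finset ι) (f : ι → κ) (T : Finset κ)
    (hf : ∀ i ∈ R, f i ∈ T) :
    R.card ^ 2 ≤ T.card * ((R ×ˢ R).filter (fun p => f p.1 = f p.2)).card := by
  classical
  have h1 : R.card = ∑ t ∈ T, (R.filter (fun i => f i = t)).card :=
    Finset.card_eq_sum_card_fiberwise hf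
  have h2 : ((R ×ˢ R).filter (fun p => f p.1 = f p.2)).card =
      ∑ t ∈ T, (R.filter (fun i => f i = t)).card ^ 2 := by
    rw [Finset.card_eq_sum_card_fiberwise (f := fun p : ι × ι => f p.1) (t := T)]
    · apply Finset.sum_congr rfl
      intro t _
      rw [sq, ← Finset.card_product]
      congr 1
      ext p
      simp only [Finset.mem_filter, Finset.mem_product]
      constructor
      · rintro ⟨⟨⟨a, b⟩, c⟩, d⟩
        exact ⟨⟨a, d⟩, b, c ▸ d⟩
      · rintro ⟨⟨a, d⟩, b, c⟩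
        exact ⟨⟨⟨a, b⟩, d.trans c.symm⟩, d⟩
    · intro p hp
      exact hf _ (Finset.mem_product.1 (Finset.mem_filter.1 hp).1).1
  rw [h2, h1]
  have h3 := sq_sum_le_card_mul_sum_sq (s := T) (f := fun t => ((R.filter (fun i => f i = t)).card : ℝ))
  exact_mod_cast h3

section

variable {P : Set ℕ} {Q Y L : ℕ} [NeZero Q]

open Classical in
/-- few pairs fall in the bad cells -/
lemma bad_pairs (hQ : Q = L * Y) (hY : 0 < Y) {M M0 : ℤ}
    (G : Finset (ℤ × ℤ)) (g : ℤ × ℤ → ZMod Q) (s : ZMod Q) (En : ℕ)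
    (hEn : ∀ S : Finset (((ℤ × ℤ) × (ℤ × ℤ)) × ((ℤ × ℤ) × (ℤ × ℤ))),
      S ⊆ (G ×ˢ G) ×ˢ (G ×ˢ G) →
      (∀ p ∈ S, ∃ d : ℤ, |d| < Y ∧ (g p.1.1 + g p.1.2) - (g p.2.1 + g p.2.2) = (d : ZMod Q)) →
      S.card ≤ En) :
    ((G ×ˢ G).filter (fun p => g p.1 + g p.2 + s ∈ BadX P Q Y M M0)).card ^ 2 ≤
      ((range L).filter (fun c : ℕ => ¬ NiceC P Q Y M M0 c)).card * En := by
  classical
  set R := (G ×ˢ G).filter (fun p => g p.1 + g p.2 + s ∈ BadX P Q Y M M0) with hR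
  have h1 := card_sq_le_fibres R (fun p => (g p.1 + g p.2 + s).val / Y)
    ((range L).filter (fun c : ℕ => ¬ NiceC P Q Y M M0 c)) (by
      intro p hp
      rw [hR, Finset.mem_filter] at hp
      have h2 := hp.2
      unfold BadX at h2
      rw [Finset.mem_filter] at h2
      rw [Finset.mem_filter, Finset.mem_range]
      refine ⟨?_, ?_⟩
      · rw [Nat.div_lt_iff_lt_mul hY, ← hQ]
        exact ZMod.val_lt _
      · push_cast
        exact h2.2)
  refine h1.trans (Nat.mul_le_mul_left _ ?_)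
  apply hEn
  · intro p hp
    rw [Finset.mem_filter, Finset.mem_product, hR, Finset.mem_filter, Finset.mem_filter] at hp
    rw [Finset.mem_product]
    exact ⟨hp.1.1.1, hp.1.2.1⟩
  · intro p hp
    rw [Finset.mem_filter] at hp
    have h2 := hp.2
    set a := g p.1.1 + g p.1.2 + s with ha
    set b := g p.2.1 + g p.2.2 + s with hb
    refine ⟨(a.val : ℤ) - b.val, ?_, ?_⟩
    · rw [abs_lt]
      have e1 := Nat.div_add_mod a.val Y
      have e2 := Nat.div_add_mod b.val Y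
      have m1 := Nat.mod_lt a.val hY
      have m2 := Nat.mod_lt b.val hY
      rw [h2] at e1
      constructor <;> omega
    · push_cast
      rw [ZMod.natCast_zmod_val, ZMod.natCast_zmod_val, ha, hb]
      ring

open Classical in
/-- The core contradiction. -/
theorem core {J : ℕ} (hQ : Q = L * 2 ^ J) (hL : 20 ≤ L) {M M0 : ℤ} (hMM : M0 ≤ M)
    {B : ℕ} (hBM : (B : ℤ) ^ 2 ≤ M)
    (G : Finset (ℤ × ℤ)) (w : ℤ × ℤ → ℝ) (X : ℝ) (hX : 0 < X) (hG : ∀ u ∈ G, u ≠ 0 ∧ nrm 0 1 u ≤ B)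
    (hw0 : ∀ u ∈ G, 0 ≤ w u) (hwX : ∀ u ∈ G, w u * X ≤ 1) (hW : ∑ u ∈ G, w u = X)
    (Bt : Finset (ℤ × ℤ)) (hBt : ∀ β ∈ Bt, β ≠ 0 ∧ nrm 0 1 β * M0 ≤ M)
    (β0 : ℤ × ℤ) (hβ0 : β0 ∈ Bt) (hcol0 : col P 0 1 β0 = -1)
    (δ : ℝ) (hδ : 0 < δ) (hδ1 : δ ≤ 1) (b En : ℕ)
    (hb : ((range L).filter (fun c : ℕ => ¬ NiceC P Q (2 ^ J) M M0 c)).card ≤ b)
    (hEn : ∀ S : Finset (((ℤ × ℤ) × (ℤ × ℤ)) × ((ℤ × ℤ) × (ℤ × ℤ))),
      S ⊆ (G ×ˢ G) ×ˢ (G ×ˢ G) →
      (∀ p ∈ S, ∃ d : ℤ, |d| < ((2 ^ J : ℕ) : ℤ) ∧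
        (((pos Q p.1.1 : ℤ) : ZMod Q) + ((pos Q p.1.2 : ℤ) : ZMod Q)) -
        (((pos Q p.2.1 : ℤ) : ZMod Q) + ((pos Q p.2.2 : ℤ) : ZMod Q)) = (d : ZMod Q)) →
      S.card ≤ En)
    (hnum : 4800 * ((J : ℝ) + 1 + Bt.card) * b * En ≤ δ ^ 2 * X ^ 8)
    (v : ℝ) (hv0 : 0 ≤ v)
    (hv : ∀ m : ℤ, m ≠ 0 → 2 * |m| < L →
      ‖∑ u ∈ G, (w u : ℂ) * ch ((m : ZMod Q) * ((pos Q u : ℤ) : ZMod Q))‖ ≤ v)
    (hEv : ∀ E : Finset (ZMod Q),
      (∀ k ∈ E, ∀ i ≤ J, ‖ch (k * ((2 ^ i : ℕ) : ZMod Q)) - 1‖ ≤ δ) →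
      (∀ k ∈ E, ∀ β ∈ Bt, ‖ch (k * ((pos Q β : ℤ) : ZMod Q)) - ((col P 0 1 β : ℝ) : ℂ)‖ ≤ δ) →
      E.card * v ≤ X / 10) (hδ2 : δ < 1) : False := by
  classical
  have hY : 0 < 2 ^ J := by positivity
  have hYr : (0 : ℝ) < ((2 ^ J : ℕ) : ℝ) := by exact_mod_cast hY
  have hLr : (20 : ℝ) ≤ L := by exact_mod_cast hL
  have hLpos : (0 : ℝ) < L := by linarith
  have hQr : (Q : ℝ) = L * ((2 ^ J : ℕ) : ℝ) := by exact_mod_cast hQ
  have hQ0 : (0 : ℝ) < Q := by rw [hQr]; positivity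
  set Y : ℕ := 2 ^ J with hYdef
  -- the tests
  set tests : Finset (ZMod Q × ℝ) := (range (J + 1)).image (fun i => (((2 ^ i : ℕ) : ZMod Q), (1 : ℝ))) ∪
    Bt.image (fun β => (((pos Q β : ℤ) : ZMod Q), (col P 0 1 β : ℝ))) with htests
  set E := Exc tests δ with hE
  have hE1 : ∀ k ∈ E, ∀ i ≤ J, ‖ch (k * ((2 ^ i : ℕ) : ZMod Q)) - 1‖ ≤ δ := by
    intro k hk i hi
    rw [hE, mem_Exc] at hk
    have := hk (((2 ^ i : ℕ) : ZMod Q), (1 : ℝ)) (by
      rw [htests, Finset.mem_union]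
      left
      exact Finset.mem_image.2 ⟨i, Finset.mem_range.2 (by omega), rfl⟩)
    simpa using this
  have hE2 : ∀ k ∈ E, ∀ β ∈ Bt,
      ‖ch (k * ((pos Q β : ℤ) : ZMod Q)) - ((col P 0 1 β : ℝ) : ℂ)‖ ≤ δ := by
    intro k hk β hβ
    rw [hE, mem_Exc] at hk
    exact hk (((pos Q β : ℤ) : ZMod Q), (col P 0 1 β : ℝ)) (by
      rw [htests, Finset.mem_union]
      right
      exact Finset.mem_image.2 ⟨β, hβ, rfl⟩)
  have hcard : (tests.card : ℝ) ≤ (J : ℝ) + 1 + Bt.card := by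
    have h1 : tests.card ≤ (J + 1) + Bt.card := by
      rw [htests]
      refine (Finset.card_union_le _ _).trans ?_
      have := Finset.card_image_le (s := range (J + 1)) (f := fun i => (((2 ^ i : ℕ) : ZMod Q), (1 : ℝ)))
      rw [Finset.card_range] at this
      have h2 := Finset.card_image_le (s := Bt)
        (f := fun β => (((pos Q β : ℤ) : ZMod Q), (col P 0 1 β : ℝ)))
      omega
    exact_mod_cast h1
  -- bad grid points
  have hBX : (BadX P Q Y M M0).card ≤ Y * b := (card_BadX hQ hY).trans (Nat.mul_le_mul_left _ hb)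
  have hmass := mass_outside (fcol P Q Y M) (fun x => fcol_or x) tests (3 * (Y * b)) δ hδ
    (by
      intro t ht
      rw [htests, Finset.mem_union, Finset.mem_image, Finset.mem_image] at ht
      rcases ht with ⟨i, _, rfl⟩ | ⟨β, _, rfl⟩
      · left; rfl
      · rcases col_eq_or P 0 1 β with h | h
        · left; simp [h]
        · right; simp [h])
    (by
      intro t ht
      rw [htests, Finset.mem_union, Finset.mem_image, Finset.mem_image] at ht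
      rcases ht with ⟨i, hi, rfl⟩ | ⟨β, hβ, rfl⟩
      · refine (test_shift hQ hY hMM (2 ^ i) ?_).trans (Nat.mul_le_mul_left _ hBX)
        rw [Finset.mem_range] at hi
        exact Nat.pow_le_pow_right (by norm_num) (by omega)
      · exact (test_mul hQ hY hMM (hBt β hβ).1 (hBt β hβ).2).trans (Nat.mul_le_mul_left _ hBX))
  -- parameters of the spectral core
  set μ : ℝ := 12 * ((J : ℝ) + 1 + Bt.card) * b / (L * δ ^ 2) with hμ
  set Λ : ℝ := L * En / X ^ 8 with hΛ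
  have hμ0 : 0 ≤ μ := by positivity
  have hμΛ : 400 * (μ * Λ) ≤ 1 := by
    have : 400 * (μ * Λ) = 4800 * ((J : ℝ) + 1 + Bt.card) * b * En / (δ ^ 2 * X ^ 8) := by
      rw [hμ, hΛ]; field_simp; ring
    rw [this, div_le_one (by positivity)]
    exact hnum
  have hmass' : ∑ k ∈ Eᶜ, ‖FT (fun x => (fcol P Q Y M x : ℂ)) k‖ ^ 2 ≤ μ * (Q : ℝ) ^ 2 := by
    have h1 : δ ^ 2 * ∑ k ∈ Eᶜ, ‖FT (fun x => (fcol P Q Y M x : ℂ)) k‖ ^ 2 ≤
        ((J : ℝ) + 1 + Bt.card) * (Q * (4 * ((3 * (Y * b) : ℕ) : ℝ))) := by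
      refine hmass.trans ?_
      gcongr
    have h2 : ((J : ℝ) + 1 + Bt.card) * (Q * (4 * ((3 * (Y * b) : ℕ) : ℝ))) =
        δ ^ 2 * (μ * (Q : ℝ) ^ 2) := by
      rw [hμ]
      push_cast
      have e : δ ^ 2 * (12 * ((J : ℝ) + 1 + Bt.card) * b / (L * δ ^ 2) * (Q : ℝ) ^ 2) =
          12 * ((J : ℝ) + 1 + Bt.card) * b * Q * (Q / L) := by
        field_simp
      rw [e]
      have e2 : (Q : ℝ) / L = Y := by rw [hQr]; field_simp
      rw [e2]; ring
    rw [h2] at h1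
    exact le_of_mul_le_mul_left h1 (by positivity)
  -- the energy bound
  have hww : ∀ p ∈ G ×ˢ G, 0 ≤ w p.1 * w p.2 ∧ w p.1 * w p.2 ≤ 1 / X ^ 2 := by
    intro p hp
    rw [Finset.mem_product] at hp
    have a1 := hw0 _ hp.1
    have a2 := hw0 _ hp.2
    have b1 := hwX _ hp.1
    have b2 := hwX _ hp.2
    refine ⟨mul_nonneg a1 a2, ?_⟩
    rw [le_div_iff₀ (by positivity)]
    calc w p.1 * w p.2 * X ^ 2 = (w p.1 * X) * (w p.2 * X) := by ring
      _ ≤ 1 * 1 := by gcongr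
      _ = 1 := by norm_num
  have hcolabs : ∀ u, ‖((col P 0 1 u : ℝ) : ℂ)‖ = 1 := fun u => norm_col P u
  have hwin := window_ls (G ×ˢ G)
    (fun p => ((w p.1 : ℂ) * ((col P 0 1 p.1 : ℝ) : ℂ)) * ((w p.2 : ℂ) * ((col P 0 1 p.2 : ℝ) : ℂ)))
    (1 / X ^ 2) (by positivity) (by
      intro p hp
      have h := hww p hp
      have hp' := Finset.mem_product.1 hp
      rw [norm_mul, norm_mul, norm_mul, hcolabs, hcolabs, Complex.norm_real, Complex.norm_real,
        Real.norm_of_nonneg (hw0 _ hp'.1), Real.norm_of_nonneg (hw0 _ hp'.2), mul_one, mul_one]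
      exact h.2)
    (fun p => ((pos Q p.1 : ℤ) : ZMod Q) + ((pos Q p.2 : ℤ) : ZMod Q)) Y
    (by rw [hQ]; exact Nat.le_mul_of_pos_left _ (by omega)) En hEn
  have hen : ∑ k : ZMod Q, ‖∑ y ∈ range Y, ch (k * (y : ZMod Q))‖ ^ 2 *
      ‖∑ i ∈ G, (w i : ℂ) * ((col P 0 1 i : ℝ) : ℂ) * ch (k * ((pos Q i : ℤ) : ZMod Q))‖ ^ 4 ≤
      Λ * (Y : ℝ) ^ 2 * (∑ i ∈ G, w i) ^ 4 := by
    have h1 : ∀ k : ZMod Q, ‖∑ i ∈ G, (w i : ℂ) * ((col P 0 1 i : ℝ) : ℂ) *
        ch (k * ((pos Q i : ℤ) : ZMod Q))‖ ^ 4 =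
        ‖∑ p ∈ G ×ˢ G, ((w p.1 : ℂ) * ((col P 0 1 p.1 : ℝ) : ℂ)) *
          ((w p.2 : ℂ) * ((col P 0 1 p.2 : ℝ) : ℂ)) *
          ch (k * (((pos Q p.1 : ℤ) : ZMod Q) + ((pos Q p.2 : ℤ) : ZMod Q)))‖ ^ 2 := by
      intro k
      rw [show (4 : ℕ) = 2 * 2 by norm_num, pow_mul, ← norm_pow, sq (∑ i ∈ G, _),
        Finset.sum_mul_sum, Finset.sum_product]
      congr 2
      apply Finset.sum_congr rfl
      intro i _
      apply Finset.sum_congr rfl
      intro j _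
      rw [mul_add, ch_add]; ring
    rw [Finset.sum_congr rfl (fun k _ => by rw [h1 k])]
    refine hwin.trans (le_of_eq ?_)
    rw [hW, hΛ, hQr]
    field_simp
  -- the bilinear bound
  have hbp : ∀ s : ZMod Q, (((G ×ˢ G).filter (fun p => ((pos Q p.1 : ℤ) : ZMod Q) +
      ((pos Q p.2 : ℤ) : ZMod Q) + s ∈ BadX P Q Y M M0)).card : ℝ) ≤ X ^ 4 / 40 := by
    intro s
    have h1 := bad_pairs (P := P) hQ hY (M := M) (M0 := M0) G (fun u => ((pos Q u : ℤ) : ZMod Q)) s En hEn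
    have h2 : (((G ×ˢ G).filter (fun p => ((pos Q p.1 : ℤ) : ZMod Q) +
      ((pos Q p.2 : ℤ) : ZMod Q) + s ∈ BadX P Q Y M M0)).card : ℝ) ^ 2 ≤ (b : ℝ) * En := by
      have : (((G ×ˢ G).filter (fun p => ((pos Q p.1 : ℤ) : ZMod Q) +
        ((pos Q p.2 : ℤ) : ZMod Q) + s ∈ BadX P Q Y M M0)).card) ^ 2 ≤ b * En :=
        h1.trans (Nat.mul_le_mul_right _ hb)
      exact_mod_cast this
    have h3 : (b : ℝ) * En ≤ (X ^ 4 / 40) ^ 2 := by
      have hbE : 0 ≤ (b : ℝ) * En := by positivity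
      have h4 : 4800 * ((b : ℝ) * En) ≤ 4800 * ((J : ℝ) + 1 + Bt.card) * b * En := by
        have h5 : (1 : ℝ) ≤ (J : ℝ) + 1 + Bt.card := by
          have : (0 : ℝ) ≤ (J : ℝ) + Bt.card := by positivity
          linarith
        nlinarith
      have h6 : δ ^ 2 * X ^ 8 ≤ X ^ 8 := by
        have : δ ^ 2 ≤ 1 := by nlinarith
        have h7 : 0 < X ^ 8 := by positivity
        nlinarith
      have h8 : (X ^ 4 / 40) ^ 2 = X ^ 8 / 1600 := by ring
      rw [h8]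
      linarith
    exact le_of_sq_le_sq (h2.trans h3) (by positivity)
  have hbil : 9 / 10 * (∑ i ∈ G, w i) ^ 2 * Y ≤
      ∑ i ∈ G, ∑ j ∈ G, w i * (col P 0 1 i : ℝ) * (w j * (col P 0 1 j : ℝ)) *
        ∑ y ∈ range Y, fcol P Q Y M (((pos Q i : ℤ) : ZMod Q) + ((pos Q j : ℤ) : ZMod Q) +
          (y : ZMod Q)) := by
    rw [← Finset.sum_product']
    set R0 := (G ×ˢ G).filter (fun p => ((pos Q p.1 : ℤ) : ZMod Q) +
      ((pos Q p.2 : ℤ) : ZMod Q) + 0 ∈ BadX P Q Y M M0) with hR0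
    set R1 := (G ×ˢ G).filter (fun p => ((pos Q p.1 : ℤ) : ZMod Q) +
      ((pos Q p.2 : ℤ) : ZMod Q) + (Y : ZMod Q) ∈ BadX P Q Y M M0) with hR1
    have hterm : ∀ p ∈ G ×ˢ G, w p.1 * w p.2 * Y - (if p ∈ R0 ∪ R1 then 2 * (Y / X ^ 2) else 0) ≤
        w p.1 * (col P 0 1 p.1 : ℝ) * (w p.2 * (col P 0 1 p.2 : ℝ)) *
        ∑ y ∈ range Y, fcol P Q Y M (((pos Q p.1 : ℤ) : ZMod Q) + ((pos Q p.2 : ℤ) : ZMod Q) +
          (y : ZMod Q)) := by
      intro p hp
      have hp' := Finset.mem_product.1 hp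
      have h := hww p hp
      by_cases hbad : p ∈ R0 ∪ R1
      · rw [if_pos hbad]
        have hS : |∑ y ∈ range Y, fcol P Q Y M (((pos Q p.1 : ℤ) : ZMod Q) +
            ((pos Q p.2 : ℤ) : ZMod Q) + (y : ZMod Q))| ≤ Y := by
          refine (Finset.abs_sum_le_sum_abs _ _).trans ?_
          have h9 : ∀ y ∈ range Y, |fcol P Q Y M (((pos Q p.1 : ℤ) : ZMod Q) +
            ((pos Q p.2 : ℤ) : ZMod Q) + (y : ZMod Q))| = 1 := by
            intro y _
            rcases fcol_or (P := P) (Q := Q) (Y := Y) (M := M) (((pos Q p.1 : ℤ) : ZMod Q) +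
            ((pos Q p.2 : ℤ) : ZMod Q) + (y : ZMod Q)) with h | h <;> rw [h] <;> simp
          rw [Finset.sum_congr rfl h9]
          simp
        have hc : |w p.1 * (col P 0 1 p.1 : ℝ) * (w p.2 * (col P 0 1 p.2 : ℝ))| ≤ 1 / X ^ 2 := by
          have hcc : ∀ u, |(col P 0 1 u : ℝ)| = 1 := by
            intro u
            rcases col_eq_or P 0 1 u with h | h <;> rw [h] <;> simp
          rw [abs_mul, abs_mul, abs_mul, hcc, hcc, mul_one, mul_one, abs_of_nonneg (hw0 _ hp'.1),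
            abs_of_nonneg (hw0 _ hp'.2)]
          exact h.2
        have hprod : |w p.1 * (col P 0 1 p.1 : ℝ) * (w p.2 * (col P 0 1 p.2 : ℝ)) *
            ∑ y ∈ range Y, fcol P Q Y M (((pos Q p.1 : ℤ) : ZMod Q) + ((pos Q p.2 : ℤ) : ZMod Q) +
          (y : ZMod Q))| ≤ Y / X ^ 2 := by
          rw [abs_mul]
          calc _ ≤ 1 / X ^ 2 * (Y : ℝ) := mul_le_mul hc hS (abs_nonneg _) (by positivity)
            _ = Y / X ^ 2 := by ring
        have h10 : w p.1 * w p.2 * Y ≤ Y / X ^ 2 := by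
          calc w p.1 * w p.2 * Y ≤ 1 / X ^ 2 * Y := by gcongr; exact h.2
            _ = Y / X ^ 2 := by ring
        have h11 := (abs_le.1 hprod).1
        linarith
      · rw [if_neg hbad]
        rw [Finset.mem_union, not_or, hR0, hR1, Finset.mem_filter, Finset.mem_filter] at hbad
        push Not at hbad
        have hb0 := hbad.1 hp
        have hb1 := hbad.2 hp
        rw [add_zero] at hb0
        have hu := hG _ hp'.1
        have hv := hG _ hp'.2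
        have hnM : nrm 0 1 p.1 * nrm 0 1 p.2 ≤ M := by
          refine le_trans ?_ hBM
          have a1 : 0 ≤ nrm 0 1 p.1 := by rw [nrm01]; positivity
          have a2 : 0 ≤ nrm 0 1 p.2 := by rw [nrm01]; positivity
          calc nrm 0 1 p.1 * nrm 0 1 p.2 ≤ B * B := mul_le_mul hu.2 hv.2 a2 (by positivity)
            _ = (B : ℤ) ^ 2 := by ring
        have h12 : ∑ y ∈ range Y, fcol P Q Y M (((pos Q p.1 : ℤ) : ZMod Q) +
            ((pos Q p.2 : ℤ) : ZMod Q) + (y : ZMod Q)) =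
            Y * ((col P 0 1 p.1 : ℝ) * (col P 0 1 p.2 : ℝ)) := by
          rw [Finset.sum_congr rfl (fun y hy => prod_rel hQ hY hMM hu.1 hv.1 hnM hb0 hb1 y
            (Finset.mem_range.1 hy))]
          rw [Finset.sum_const, Finset.card_range, nsmul_eq_mul]
        rw [h12]
        have hc2 : ∀ u, (col P 0 1 u : ℝ) * (col P 0 1 u : ℝ) = 1 := by
          intro u
          rcases col_eq_or P 0 1 u with h | h <;> rw [h] <;> simp
        have e : w p.1 * (col P 0 1 p.1 : ℝ) * (w p.2 * (col P 0 1 p.2 : ℝ)) *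
            (Y * ((col P 0 1 p.1 : ℝ) * (col P 0 1 p.2 : ℝ))) =
            w p.1 * w p.2 * Y * ((col P 0 1 p.1 : ℝ) * (col P 0 1 p.1 : ℝ)) *
              ((col P 0 1 p.2 : ℝ) * (col P 0 1 p.2 : ℝ)) := by ring
        rw [e, hc2, hc2]
        linarith
    refine le_trans ?_ (Finset.sum_le_sum hterm)
    rw [Finset.sum_sub_distrib]
    have e1 : ∑ p ∈ G ×ˢ G, w p.1 * w p.2 * Y = (∑ i ∈ G, w i) ^ 2 * Y := by
      rw [← Finset.sum_mul, Finset.sum_product, sq, Finset.sum_mul_sum]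
    have e2 : ∑ p ∈ G ×ˢ G, (if p ∈ R0 ∪ R1 then 2 * ((Y : ℝ) / X ^ 2) else 0) ≤
        (∑ i ∈ G, w i) ^ 2 * Y / 10 := by
      rw [← Finset.sum_filter, Finset.sum_const, nsmul_eq_mul]
      have h1 : (((G ×ˢ G).filter (fun p => p ∈ R0 ∪ R1)).card : ℝ) ≤ X ^ 4 / 40 + X ^ 4 / 40 := by
        have h2 : ((G ×ˢ G).filter (fun p => p ∈ R0 ∪ R1)).card ≤ R0.card + R1.card := by
          refine le_trans (Finset.card_le_card ?_) (Finset.card_union_le _ _)
          intro p hp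
          exact (Finset.mem_filter.1 hp).2
        have h3 : (((G ×ˢ G).filter (fun p => p ∈ R0 ∪ R1)).card : ℝ) ≤ (R0.card : ℝ) + R1.card := by
          exact_mod_cast h2
        have h4 := hbp 0
        have h5 := hbp (Y : ZMod Q)
        linarith
      rw [hW]
      calc (((G ×ˢ G).filter (fun p => p ∈ R0 ∪ R1)).card : ℝ) * (2 * ((Y : ℝ) / X ^ 2)) ≤
          (X ^ 4 / 40 + X ^ 4 / 40) * (2 * ((Y : ℝ) / X ^ 2)) := by gcongr
        _ = X ^ 2 * Y / 10 := by field_simp; ring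
    rw [e1]
    linarith
  -- real characters
  have hneg : ∀ k ∈ E, -k ≠ k := by
    intro k hk hkk
    have h1 := hE1 k hk 0 (Nat.zero_le _)
    rw [pow_zero, Nat.cast_one, mul_one] at h1
    have h2 : ch k = (starRingEnd ℂ) (ch k) := by rw [← ch_neg, hkk]
    obtain ⟨r, hr⟩ := Complex.conj_eq_iff_real.1 h2.symm
    have h3 := norm_ch k
    rw [hr, Complex.norm_real] at h3
    have h4 : r = 1 := by
      rw [hr] at h1
      have h5 : ‖(r : ℂ) - 1‖ = |r - 1| := by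
        rw [← Complex.ofReal_one, ← Complex.ofReal_sub, Complex.norm_real]; rfl
      rw [h5] at h1
      rw [Real.norm_eq_abs] at h3
      rcases abs_eq (by norm_num : (0 : ℝ) ≤ 1) |>.1 h3 with h | h
      · exact h
      · rw [h] at h1
        norm_num at h1
        linarith
    have h5 : ch k = ch (0 : ZMod Q) := by rw [hr, h4, ch_zero]; simp
    have h6 : k = 0 := by
      unfold ch at h5
      exact ZMod.injective_stdAddChar h5
    have h7 := hE2 k hk β0 hβ0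
    rw [h6, zero_mul, ch_zero, hcol0] at h7
    norm_num at h7
    linarith
  -- small frequencies
  have hsmall : ∀ k ∈ E, 4 * |(k.valMinAbs : ℤ)| < L := by
    intro k hk
    exact small_rep hQ (by omega) k (fun i hi => (hE1 k hk i hi).trans_lt hδ2)
  have hvE : ∀ k ∈ E, ∀ k' ∈ E, k ≠ k' →
      ‖∑ i ∈ G, (w i : ℂ) * ch ((k - k') * ((pos Q i : ℤ) : ZMod Q))‖ ≤ v := by
    intro k hk k' hk' hne
    have h1 := hsmall k hk
    have h2 := hsmall k' hk'
    have e : k - k' = ((k.valMinAbs - k'.valMinAbs : ℤ) : ZMod Q) := by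
      rw [Int.cast_sub, ZMod.coe_valMinAbs, ZMod.coe_valMinAbs]
    rw [e]
    apply hv
    · intro h0
      apply hne
      rw [← sub_eq_zero, e, h0]; simp
    · have := abs_sub k.valMinAbs k'.valMinAbs
      omega
  exact spectral_core G w hw0 (by rw [hW]; exact hX) (fun u => (col P 0 1 u : ℝ))
    (by
      intro i _
      rcases col_eq_or P 0 1 i with h | h
      · left; simp [h]
      · right; simp [h])
    (fun u => ((pos Q u : ℤ) : ZMod Q)) (fcol P Q Y M) (fun x => fcol_or x) Y hY E v hv0 hvE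
    (by rw [hW]; exact hEv E hE1 hE2) μ Λ hμ0 hμΛ hmass' hen hbil hneg

end

end Pool.Agent.Lib.MP_a17b09_nt.LP
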