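import Pool.Agent.Lib.MP_a17b09_nt.LP.Tests

set_option autoImplicit false

open Finset

namespace Pool.Agent.Lib.MP_a17b09_nt.LP

/-- packing -/
lemma packing {ι : Type*} (S : Finset ι) (τ : ι → ℝ) (κ a l : ℝ) (hκ : 0 < κ) (hl : 0 ≤ l)
    (hsep : ∀ i ∈ S, ∀ j ∈ S, i ≠ j → 1 ≤ κ * |τ i - τ j|)
    (hmem : ∀ i ∈ S, a ≤ τ i ∧ τ i ≤ a + l) : (S.card : ℝ) ≤ κ * l + 2 := by
  have hsub : S.card ≤ (Finset.Icc ⌊κ * a⌋ ⌊κ * (a + l)⌋).card := by
    apply Finset.card_le_card_of_injOn (fun i => ⌊κ * τ i⌋)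
    · intro i hi
      rw [Finset.mem_coe, Finset.mem_Icc]
      have := hmem i hi
      exact ⟨Int.floor_le_floor (by nlinarith [this.1]), Int.floor_le_floor (by nlinarith [this.2])⟩
    · intro i hi j hj hij
      by_contra hne
      have h1 := hsep i hi j hj hne
      simp only at hij
      have h2 := Int.abs_sub_lt_one_of_floor_eq_floor hij
      rw [← mul_sub, abs_mul, abs_of_pos hκ] at h2
      linarith
  rw [Int.card_Icc] at hsub
  have h3 : ⌊κ * a⌋ ≤ ⌊κ * (a + l)⌋ := Int.floor_le_floor (by nlinarith)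
  have h4 : (S.card : ℝ) ≤ ((⌊κ * (a + l)⌋ + 1 - ⌊κ * a⌋ : ℤ) : ℝ) := by
    have : (S.card : ℤ) ≤ ⌊κ * (a + l)⌋ + 1 - ⌊κ * a⌋ := by omega
    exact_mod_cast this
  have h5 := Int.floor_le (κ * (a + l))
  have h6 := Int.lt_floor_add_one (κ * a)
  push_cast at h4
  nlinarith

lemma arctan_lower {x y : ℝ} (hx : |x| ≤ 2) (hy : |y| ≤ 2) :
    |x - y| ≤ 5 * |Real.arctan x - Real.arctan y| := by
  have main : ∀ a b : ℝ, |a| ≤ 2 → |b| ≤ 2 → a ≤ b →
      1 / 5 * (b - a) ≤ Real.arctan b - Real.arctan a := by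
    intro a b ha hb hab
    have h := Convex.mul_sub_le_image_sub_of_le_deriv (convex_Icc (-2 : ℝ) 2)
      (f := Real.arctan) (Real.continuous_arctan.continuousOn)
      (Real.differentiable_arctan.differentiableOn) (C := 1 / 5) (by
        intro z hz
        rw [interior_Icc, Set.mem_Ioo] at hz
        rw [Real.deriv_arctan]
        apply one_div_le_one_div_of_le (by positivity)
        nlinarith [hz.1, hz.2])
    exact h a (abs_le.1 ha) b (abs_le.1 hb) hab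
  rcases le_total x y with h | h
  · have h1 := main x y hx hy h
    rw [abs_sub_comm x y, abs_sub_comm (Real.arctan x), abs_of_nonneg (by linarith : 0 ≤ y - x)]
    have h2 := le_abs_self (Real.arctan y - Real.arctan x)
    linarith
  · have h1 := main y x hy hx h
    rw [abs_of_nonneg (by linarith : 0 ≤ x - y)]
    have h2 := le_abs_self (Real.arctan x - Real.arctan y)
    linarith

/-- separation of angles -/
lemma th_sep {u v : ℤ × ℤ} {M : ℝ} (hu : 0 < u.1) (hv : 0 < v.1) (hu1 : |th u| ≤ 3 / 5)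
    (hv1 : |th v| ≤ 3 / 5) (hdet : det u v ≠ 0) (huM : (nrm 0 1 u : ℝ) ≤ M)
    (hvM : (nrm 0 1 v : ℝ) ≤ M) : 1 ≤ 8 * M * |th u - th v| := by
  have hpi := Real.pi_pos
  have hur : (1 : ℝ) ≤ u.1 := by exact_mod_cast hu
  have hvr : (1 : ℝ) ≤ v.1 := by exact_mod_cast hv
  have hs : ∀ w : ℤ × ℤ, 0 < w.1 → |th w| ≤ 3 / 5 → |slope w| ≤ 2 := by
    intro w hw hw1
    have h := abs_slope_le hw hw1
    have hwr : (0 : ℝ) < w.1 := by exact_mod_cast hw
    unfold slope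
    rw [abs_div, abs_of_pos hwr, div_le_iff₀ hwr]
    exact h
  have h1 := arctan_lower (hs u hu hu1) (hs v hv hv1)
  have h2 : |th u - th v| = 2 / Real.pi * |Real.arctan (slope u) - Real.arctan (slope v)| := by
    rw [th_eq_arctan hu, th_eq_arctan hv, ← mul_sub, abs_mul, abs_of_pos (by positivity)]
  have h3 : slope u - slope v = -(det u v : ℝ) / (u.1 * v.1) := by
    unfold slope det
    have : (u.1 : ℝ) ≠ 0 := by positivity
    have : (v.1 : ℝ) ≠ 0 := by positivity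
    push_cast
    field_simp
    ring
  have h4 : (1 : ℝ) ≤ |(det u v : ℝ)| := by
    have : (1 : ℤ) ≤ |det u v| := Int.one_le_abs hdet
    exact_mod_cast this
  have h5 : 1 / (u.1 * v.1 : ℝ) ≤ |slope u - slope v| := by
    rw [h3, abs_div, abs_neg, abs_of_pos (by positivity : (0 : ℝ) < u.1 * v.1)]
    gcongr
  have h6 : (u.1 * v.1 : ℝ) ≤ M := by
    have e1 : (nrm 0 1 u : ℝ) = (u.1 : ℝ) ^ 2 + (u.2 : ℝ) ^ 2 := by rw [nrm01]; push_cast; ring
    have e2 : (nrm 0 1 v : ℝ) = (v.1 : ℝ) ^ 2 + (v.2 : ℝ) ^ 2 := by rw [nrm01]; push_cast; ring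
    rw [e1] at huM
    rw [e2] at hvM
    nlinarith [sq_nonneg ((u.1 : ℝ) - v.1), sq_nonneg (u.2 : ℝ), sq_nonneg (v.2 : ℝ)]
  have hM0 : (0 : ℝ) < M := by nlinarith
  have h7 : 1 / M ≤ 5 * |Real.arctan (slope u) - Real.arctan (slope v)| := by
    refine le_trans ?_ h1
    refine le_trans ?_ h5
    apply one_div_le_one_div_of_le (by positivity) h6
  rw [h2]
  have h8 : Real.pi ≤ 16 / 5 := by linarith [Real.pi_lt_d2]
  rw [div_le_iff₀ hM0] at h7
  have h9 : 5 / 8 ≤ 2 / Real.pi := by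
    rw [div_le_div_iff₀ (by norm_num) hpi]; linarith
  have h0 := abs_nonneg (Real.arctan (slope u) - Real.arctan (slope v))
  calc (1 : ℝ) ≤ 5 * |Real.arctan (slope u) - Real.arctan (slope v)| * M := h7
    _ = 8 * M * (5 / 8 * |Real.arctan (slope u) - Real.arctan (slope v)|) := by ring
    _ ≤ 8 * M * (2 / Real.pi * |Real.arctan (slope u) - Real.arctan (slope v)|) := by gcongr

/-- pairs from Gaussian integers -/
def ofG (z : GaussianInt) : ℤ × ℤ := (z.re, z.im)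

lemma ofG_toG (u : ℤ × ℤ) : ofG (toG u) = u := rfl

lemma toG_ofG (z : GaussianInt) : toG (ofG z) = z := rfl

/-- product of the vectors `b p`, `p ∈ T` -/
noncomputable def aT (b : ℕ → ℤ × ℤ) (T : Finset ℕ) : ℤ × ℤ := ofG (∏ p ∈ T, toG (b p))

lemma aT_empty (b : ℕ → ℤ × ℤ) : aT b ∅ = (1, 0) := by
  unfold aT; simp [ofG]

lemma aT_insert (b : ℕ → ℤ × ℤ) {p : ℕ} {T : Finset ℕ} (hp : p ∉ T) :
    aT b (insert p T) = mulp 0 1 (b p) (aT b T) := by
  classical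
  apply toG_inj
  rw [toG_mulp]
  unfold aT
  rw [toG_ofG, toG_ofG, Finset.prod_insert hp]

lemma nrm_aT (b : ℕ → ℤ × ℤ) (T : Finset ℕ) :
    nrm 0 1 (aT b T) = ∏ p ∈ T, nrm 0 1 (b p) := by
  classical
  induction T using Finset.induction_on with
  | empty => rw [aT_empty]; simp [nrm]
  | insert p T hp ih => rw [aT_insert b hp, nrm_mulp, ih, Finset.prod_insert hp]

lemma ne_zero_of_nrm {u : ℤ × ℤ} (h : nrm 0 1 u ≠ 0) : u ≠ 0 := by
  rintro rfl
  apply h
  simp [nrm]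

/-- vectors whose norms are products of different sets of primes are not parallel -/
lemma det_ne_zero_of_prod {Pr T T' : Finset ℕ} (hPr : ∀ p ∈ Pr, p.Prime) (hT : T ⊆ Pr)
    (hT' : T' ⊆ Pr) (hcard : T.card = T'.card) (hne : T ≠ T') {u v : ℤ × ℤ}
    (hu : nrm 0 1 u = ∏ p ∈ T, (p : ℤ)) (hv : nrm 0 1 v = ∏ p ∈ T', (p : ℤ)) : det u v ≠ 0 := by
  classical
  intro h0
  have h1 := nrm_mul_nrm 0 1 u v
  rw [h0, hu, hv] at h1
  have h2 : (∏ p ∈ T, (p : ℤ)) * ∏ p ∈ T', (p : ℤ) = (lab 0 1 u v) ^ 2 := by rw [h1]; ring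
  obtain ⟨p, hpT, hpT'⟩ : ∃ p ∈ T, p ∉ T' := by
    by_contra hcon
    push Not at hcon
    exact hne (Finset.eq_of_subset_of_card_le hcon hcard.ge)
  have hpp := hPr p (hT hpT)
  have hpi : Prime (p : ℤ) := Nat.prime_iff_prime_int.1 hpp
  rw [← Finset.mul_prod_erase T _ hpT] at h2
  have h3 : (p : ℤ) ∣ (lab 0 1 u v) ^ 2 := by
    rw [← h2, mul_assoc]; exact dvd_mul_right _ _
  have h4 : (p : ℤ) ∣ lab 0 1 u v := hpi.dvd_of_dvd_pow h3
  obtain ⟨s, hs⟩ := h4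
  rw [hs, mul_assoc] at h2
  have h5 : (∏ x ∈ T.erase p, (x : ℤ)) * ∏ x ∈ T', (x : ℤ) = p * s ^ 2 := by
    have : (p : ℤ) * ((∏ x ∈ T.erase p, (x : ℤ)) * ∏ x ∈ T', (x : ℤ)) = p * (p * s ^ 2) := by
      rw [h2]; ring
    exact mul_left_cancel₀ hpi.ne_zero this
  have h6 : (p : ℤ) ∣ (∏ x ∈ T.erase p, (x : ℤ)) * ∏ x ∈ T', (x : ℤ) := by
    rw [h5]; exact dvd_mul_right _ _
  rcases hpi.dvd_or_dvd h6 with h7 | h7
  · obtain ⟨x, hx, hpx⟩ := (Prime.dvd_finsetProd_iff hpi _).1 h7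
    have hxp := hPr x (hT (Finset.mem_of_mem_erase hx))
    have : p = x := (Nat.prime_dvd_prime_iff_eq hpp hxp).1 (by exact_mod_cast hpx)
    exact (Finset.ne_of_mem_erase hx) this.symm
  · obtain ⟨x, hx, hpx⟩ := (Prime.dvd_finsetProd_iff hpi _).1 h7
    have hxp := hPr x (hT' hx)
    have : p = x := (Nat.prime_dvd_prime_iff_eq hpp hxp).1 (by exact_mod_cast hpx)
    exact hpT' (this ▸ hx)

section

variable {P : Set ℕ} {Q Y L : ℕ} [NeZero Q]

lemma norm_mul3_sub_le {x y z a b : ℂ} (hy : ‖y‖ = 1) (hz : ‖z‖ = 1) (ha : ‖a‖ = 1) :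
    ‖x * y * z - a * b‖ ≤ ‖x - a‖ + ‖y - b‖ + ‖z - 1‖ := by
  have e : x * y * z - a * b = (x - a) * (y * z) + a * ((y - b)) + a * y * (z - 1) := by ring
  rw [e]
  refine (norm_add_le _ _).trans ?_
  refine (add_le_add (norm_add_le _ _) le_rfl).trans ?_
  rw [norm_mul, norm_mul, norm_mul, norm_mul, norm_mul, hy, hz, ha]
  simp

lemma norm_col (P : Set ℕ) (u : ℤ × ℤ) : ‖((col P 0 1 u : ℝ) : ℂ)‖ = 1 := by
  rcases col_eq_or P 0 1 u with h | h <;> rw [h] <;> simp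

/-- the exceptional characters imitate the colour on products of test vectors -/
lemma ch_aT (b : ℕ → ℤ × ℤ) (k : ZMod Q) (δ : ℝ) (hδ : 0 ≤ δ) (h1 : ‖ch k - 1‖ ≤ δ)
    (T : Finset ℕ) (hb : ∀ p ∈ T, b p ≠ 0 ∧
      ‖ch (k * ((pos Q (b p) : ℤ) : ZMod Q)) - ((col P 0 1 (b p) : ℝ) : ℂ)‖ ≤ δ) :
    aT b T ≠ 0 ∧ ‖ch (k * ((pos Q (aT b T) : ℤ) : ZMod Q)) - ((col P 0 1 (aT b T) : ℝ) : ℂ)‖ ≤
      2 * T.card * δ := by
  classical
  induction T using Finset.induction_on with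
  | empty =>
    rw [aT_empty]
    refine ⟨by intro h; have := congrArg Prod.fst h; simp at this, ?_⟩
    have e1 : pos Q (1, 0) = 0 := by
      have hc : (⟨((1 : ℤ) : ℝ), ((0 : ℤ) : ℝ)⟩ : ℂ) = 1 := by
        apply Complex.ext <;> simp
      unfold pos th cz
      simp only [hc, Complex.arg_one]
      simp
    have e2 : col P 0 1 (1, 0) = 1 := by
      unfold col sgn cnt nrm
      simp
    rw [e1, e2]
    simp [ch_zero]
  | insert p T hp ih =>
    have hbp := hb p (Finset.mem_insert_self _ _)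
    obtain ⟨hne, ih'⟩ := ih (fun q hq => hb q (Finset.mem_insert_of_mem hq))
    rw [aT_insert b hp]
    refine ⟨mulp_ne_zero not_sq hbp.1 hne, ?_⟩
    obtain ⟨e, n, he, hpos⟩ := pos_mulp Q hbp.1 hne
    have e1 : ((pos Q (mulp 0 1 (b p) (aT b T)) : ℤ) : ZMod Q) =
        ((pos Q (b p) : ℤ) : ZMod Q) + ((pos Q (aT b T) : ℤ) : ZMod Q) + ((e : ℤ) : ZMod Q) := by
      rw [hpos]; push_cast; simp
    have e2 : ch (k * ((pos Q (mulp 0 1 (b p) (aT b T)) : ℤ) : ZMod Q)) =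
        ch (k * ((pos Q (b p) : ℤ) : ZMod Q)) * ch (k * ((pos Q (aT b T) : ℤ) : ZMod Q)) *
          ch (k * ((e : ℤ) : ZMod Q)) := by
      rw [e1, mul_add, mul_add, ch_add, ch_add]
    have e3 : ((col P 0 1 (mulp 0 1 (b p) (aT b T)) : ℝ) : ℂ) =
        ((col P 0 1 (b p) : ℝ) : ℂ) * ((col P 0 1 (aT b T) : ℝ) : ℂ) := by
      rw [col_mulp P not_sq hbp.1 hne]; push_cast; rfl
    have h3 : ‖ch (k * ((e : ℤ) : ZMod Q)) - 1‖ ≤ δ := by
      rcases he with he | he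
      · rw [he]; simpa [ch_zero] using hδ
      · rw [he]; simpa using h1
    rw [e2, e3]
    refine (norm_mul3_sub_le (norm_ch _) (norm_ch _) (norm_col _ _)).trans ?_
    rw [Finset.card_insert_of_notMem hp]
    have hc : ((T.card + 1 : ℕ) : ℝ) = (T.card : ℝ) + 1 := by push_cast; ring
    rw [hc]
    have := hbp.2
    have h5 : 2 * ((T.card : ℝ) + 1) * δ = δ + 2 * (T.card : ℝ) * δ + δ := by ring
    rw [h5]
    exact add_le_add (add_le_add this ih') h3

/-- small positive multiples -/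
lemma ch_mul_le (k : ZMod Q) (δ : ℝ) (J : ℕ) (h : ∀ i ≤ J, ‖ch (k * ((2 ^ i : ℕ) : ZMod Q)) - 1‖ ≤ δ) :
    ∀ y : ℕ, y < 2 ^ J → ‖ch (k * (y : ZMod Q)) - 1‖ ≤ J * δ := by
  have hδ : 0 ≤ δ := (norm_nonneg _).trans (h 0 (Nat.zero_le _))
  have main : ∀ j ≤ J, ∀ y : ℕ, y < 2 ^ j → ‖ch (k * (y : ZMod Q)) - 1‖ ≤ j * δ := by
    intro j
    induction j with
    | zero =>
      intro _ y hy
      have : y = 0 := by simpa using hy
      rw [this]; simp [ch_zero]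
    | succ j ih =>
      intro hj y hy
      have hih := ih (by omega)
      by_cases hy2 : y < 2 ^ j
      · refine (hih y hy2).trans ?_
        push_cast
        linarith
      · push Not at hy2
        have hy3 : y - 2 ^ j < 2 ^ j := by
          rw [pow_succ] at hy; omega
        have h1 := hih (y - 2 ^ j) hy3
        have h2 := h j (by omega)
        have e : (y : ZMod Q) = ((y - 2 ^ j : ℕ) : ZMod Q) + ((2 ^ j : ℕ) : ZMod Q) := by
          rw [← Nat.cast_add, Nat.sub_add_cancel hy2]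
        rw [e, mul_add, ch_add]
        have e2 : ch (k * ((y - 2 ^ j : ℕ) : ZMod Q)) * ch (k * ((2 ^ j : ℕ) : ZMod Q)) - 1 =
            (ch (k * ((y - 2 ^ j : ℕ) : ZMod Q)) - 1) * ch (k * ((2 ^ j : ℕ) : ZMod Q)) +
            (ch (k * ((2 ^ j : ℕ) : ZMod Q)) - 1) := by ring
        rw [e2]
        refine (norm_add_le _ _).trans ?_
        rw [norm_mul, norm_ch, mul_one]
        have hc : (((j + 1 : ℕ) : ℝ)) * δ = (j : ℝ) * δ + δ := by push_cast; ring
        rw [hc]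
        exact add_le_add h1 h2
  exact main J le_rfl

/-- exceptional frequencies are small -/
lemma small_rep (hQ : Q = L * 2 ^ Y) (hL : 0 < L) (k : ZMod Q)
    (h : ∀ i ≤ Y, ‖ch (k * ((2 ^ i : ℕ) : ZMod Q)) - 1‖ < 1) :
    4 * |(k.valMinAbs : ℤ)| < L := by
  by_contra hcon
  push Not at hcon
  set m : ℤ := k.valMinAbs with hm
  have hQ0 : 0 < Q := Nat.pos_of_ne_zero (NeZero.ne Q)
  have hmQ : 2 * |m| ≤ Q := by
    have h1 := ZMod.valMinAbs_mem_Ioc k
    rw [← hm, Set.mem_Ioc] at h1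
    rw [← abs_two, ← abs_mul, mul_comm, abs_le]
    constructor <;> linarith [h1.1, h1.2]
  have hm0 : 0 < |m| := by
    have : (0 : ℤ) < L := by exact_mod_cast hL
    omega
  -- choose the largest `i ≤ Y` with `2^i |m| ≤ Q / 2`
  obtain ⟨i, hi, h1, h2⟩ : ∃ i ≤ Y, 2 * (2 ^ i * |m|) ≤ (Q : ℤ) ∧ (Q : ℤ) ≤ 4 * (2 ^ i * |m|) := by
    have hex : ∃ i, i ≤ Y ∧ (Q : ℤ) ≤ 4 * (2 ^ i * |m|) := by
      refine ⟨Y, le_rfl, ?_⟩
      have : (Q : ℤ) = L * 2 ^ Y := by exact_mod_cast hQ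
      rw [this]
      have : (L : ℤ) * 2 ^ Y ≤ (4 * |m|) * 2 ^ Y := by gcongr
      linarith
    classical
    have hmin := Nat.find_spec hex
    refine ⟨Nat.find hex, hmin.1, ?_, hmin.2⟩
    rcases Nat.eq_zero_or_pos (Nat.find hex) with h0 | h0
    · rw [h0]; simpa using hmQ
    · have hlt := Nat.find_min hex (m := Nat.find hex - 1) (by omega)
      push Not at hlt
      have h3 := hlt (by omega)
      have e : (2 : ℤ) ^ (Nat.find hex) = 2 * 2 ^ (Nat.find hex - 1) := by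
        rw [← pow_succ']; congr 1; omega
      rw [e]
      linarith
  have hk : k = ((m : ℤ) : ZMod Q) := by rw [hm]; exact (ZMod.coe_valMinAbs k).symm
  have h3 := h i hi
  have e1 : k * ((2 ^ i : ℕ) : ZMod Q) = ((m * 2 ^ i : ℤ) : ZMod Q) := by
    rw [hk]; push_cast; ring
  rw [e1, ch_intCast] at h3
  -- the angle
  set φ : ℝ := 2 * Real.pi * ((m * 2 ^ i : ℤ) : ℝ) / Q with hφ
  have e2 : Complex.exp (2 * Real.pi * Complex.I * ((m * 2 ^ i : ℤ) : ℂ) / Q) =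
      Complex.exp (φ * Complex.I) := by
    congr 1; rw [hφ]; push_cast; ring
  have hcos : Real.cos φ ≤ 0 := by
    have hpi := Real.pi_pos
    have hQr : (0 : ℝ) < Q := by exact_mod_cast hQ0
    rw [← Real.cos_abs]
    have habs : |φ| = 2 * Real.pi * (2 ^ i * |m| : ℤ) / Q := by
      rw [hφ, abs_div, abs_mul, abs_of_pos (by positivity : (0 : ℝ) < 2 * Real.pi),
        abs_of_pos hQr]
      congr 2
      push_cast
      rw [abs_mul, abs_of_pos (by positivity : (0 : ℝ) < 2 ^ i)]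
      ring
    have a1 : (2 : ℝ) * (2 ^ i * |m| : ℤ) ≤ Q := by exact_mod_cast h1
    have a2 : (Q : ℝ) ≤ 4 * (2 ^ i * |m| : ℤ) := by exact_mod_cast h2
    apply Real.cos_nonpos_of_pi_div_two_le_of_le
    · rw [habs, le_div_iff₀ hQr]; nlinarith
    · rw [habs, div_le_iff₀ hQr]; nlinarith
  have h4 : (1 : ℝ) ≤ ‖Complex.exp (φ * Complex.I) - 1‖ := by
    have h5 : |(Complex.exp (φ * Complex.I) - 1).re| ≤ ‖Complex.exp (φ * Complex.I) - 1‖ :=
      Complex.abs_re_le_norm _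
    have h6 : (Complex.exp (φ * Complex.I) - 1).re = Real.cos φ - 1 := by
      rw [Complex.sub_re, Complex.exp_ofReal_mul_I_re, Complex.one_re]
    rw [h6] at h5
    have h7 : 1 ≤ |Real.cos φ - 1| := by
      rw [abs_of_nonpos (by linarith)]; linarith
    linarith
  rw [e2] at h3
  linarith

end

section Count

variable {P : Set ℕ} {Q Y L : ℕ} [NeZero Q]

/-- closeness on the grid in terms of angles -/
lemma th_close_of_pos (hQ : Q = L * Y) (hY : 0 < Y) (hL : 0 < L) {u v : ℤ × ℤ} {d : ℤ}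
    (hd : |d| < Y) (h : ((pos Q u : ℤ) : ZMod Q) - ((pos Q v : ℤ) : ZMod Q) = (d : ZMod Q)) :
    ∃ n : ℤ, |th v + n - th u| ≤ 1 / L := by
  have hYr : (0 : ℝ) < Y := by exact_mod_cast hY
  have hLr : (0 : ℝ) < L := by exact_mod_cast hL
  have hQr : (Q : ℝ) = L * Y := by exact_mod_cast hQ
  have hQ0 : (0 : ℝ) < Q := by rw [hQr]; positivity
  have h1 : ((pos Q u - pos Q v - d : ℤ) : ZMod Q) = 0 := by
    push_cast; rw [h]; ring
  rw [ZMod.intCast_zmod_eq_zero_iff_dvd] at h1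
  obtain ⟨n, hn⟩ := h1
  refine ⟨n, ?_⟩
  have a1 := Int.floor_le ((Q : ℝ) * th u)
  have a2 := Int.lt_floor_add_one ((Q : ℝ) * th u)
  have b1 := Int.floor_le ((Q : ℝ) * th v)
  have b2 := Int.lt_floor_add_one ((Q : ℝ) * th v)
  have e1 : ((pos Q u : ℤ) : ℝ) = (⌊(Q : ℝ) * th u⌋ : ℝ) := rfl
  have e2 : ((pos Q v : ℤ) : ℝ) = (⌊(Q : ℝ) * th v⌋ : ℝ) := rfl
  have h2 : ((pos Q u : ℤ) : ℝ) - pos Q v - d = Q * n := by exact_mod_cast hn
  have hdr : |(d : ℝ)| ≤ Y - 1 := by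
    have : |d| ≤ (Y : ℤ) - 1 := by omega
    exact_mod_cast this
  rw [abs_le] at hdr
  rw [abs_le, neg_le_iff_add_nonneg, ← sub_nonneg (b := th v + n - th u)]
  have e3 : (1 : ℝ) / L = Y / Q := by rw [hQr]; field_simp
  rw [e3]
  constructor
  · have : 0 ≤ ((th v + n - th u) * Q + Y) / Q := by
      apply div_nonneg _ hQ0.le
      nlinarith
    calc 0 ≤ ((th v + n - th u) * Q + Y) / Q := this
      _ = _ := by field_simp
  · have : 0 ≤ (Y - (th v + n - th u) * Q) / Q := by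
      apply div_nonneg _ hQ0.le
      nlinarith
    calc 0 ≤ (Y - (th v + n - th u) * Q) / Q := this
      _ = _ := by field_simp

/-- few members of the family are close to a given one -/
lemma family_close {Pr : Finset ℕ} {b : ℕ → ℤ × ℤ} (hPr : ∀ p ∈ Pr, p.Prime)
    (hb : ∀ p ∈ Pr, nrm 0 1 (b p) = (p : ℤ)) {r : ℕ} {M' : ℝ} (hM0 : 0 < M')
    (hM' : ∀ T ∈ Pr.powersetCard r, (nrm 0 1 (aT b T) : ℝ) ≤ M')
    (hQ : Q = L * Y) (hY : 0 < Y) (hL : 20 ≤ L) {T0 : Finset ℕ} (hT0 : T0 ∈ Pr.powersetCard r)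
    (S : Finset (Finset ℕ)) (hS : S ⊆ Pr.powersetCard r)
    (hclose : ∀ T ∈ S, ∃ d : ℤ, |d| < Y ∧
      ((pos Q (aT b T0) : ℤ) : ZMod Q) - ((pos Q (aT b T) : ℤ) : ZMod Q) = (d : ZMod Q)) :
    (S.card : ℝ) ≤ 16 * M' / L + 2 := by
  classical
  have hLr : (20 : ℝ) ≤ L := by exact_mod_cast hL
  have hLpos : (0 : ℝ) < L := by linarith
  have hnr : ∀ T ∈ Pr.powersetCard r, nrm 0 1 (aT b T) = ∏ p ∈ T, (p : ℤ) := by
    intro T hT
    rw [nrm_aT]
    apply Finset.prod_congr rfl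
    intro p hp
    exact hb p ((Finset.mem_powersetCard.1 hT).1 hp)
  have hne : ∀ T ∈ Pr.powersetCard r, aT b T ≠ 0 := by
    intro T hT
    apply ne_zero_of_nrm
    rw [hnr T hT]
    apply Finset.prod_ne_zero_iff.2
    intro p hp
    have := (hPr p ((Finset.mem_powersetCard.1 hT).1 hp)).pos
    omega
  -- normalise `T0`
  set n0 : ℤ := -round (th (aT b T0)) with hn0
  have hr0 : |th (aT b T0) + n0| ≤ 1 / 2 := by
    have := abs_sub_round (th (aT b T0))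
    rw [hn0]; push_cast
    rwa [← sub_eq_add_neg]
  have hinv : (1 : ℝ) / L ≤ 1 / 20 := one_div_le_one_div_of_le (by norm_num) hLr
  have key : ∀ T ∈ S, ∃ u : ℤ × ℤ, nrm 0 1 u = nrm 0 1 (aT b T) ∧ 0 < u.1 ∧ |th u| ≤ 3 / 5 ∧
      th (aT b T0) + n0 - 1 / L ≤ th u ∧ th u ≤ th (aT b T0) + n0 - 1 / L + 2 / L := by
    intro T hT
    obtain ⟨d, hd, hdd⟩ := hclose T hT
    obtain ⟨n, hn⟩ := th_close_of_pos hQ hY (by omega) hd hdd
    rw [abs_le] at hn hr0
    obtain ⟨u, hu, hnu, hth, -⟩ := exists_lift (hne T (hS hT)) (n + n0) (by push_cast; linarith)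
      (by push_cast; linarith)
    push_cast at hth
    have e2 : (2 : ℝ) / L = 1 / L + 1 / L := by ring
    have habs : |th u| ≤ 3 / 5 := by
      rw [hth, abs_le]; constructor <;> linarith
    rw [abs_le] at habs
    refine ⟨u, hnu, fst_pos_of_th hu (by linarith) (by linarith), abs_le.2 habs, ?_, ?_⟩
    · rw [hth]; linarith
    · rw [hth, e2]; linarith
  choose! U hU1 hU2 hU3 hU4 hU5 using key
  have hp := packing S (fun T => th (U T)) (8 * M') (th (aT b T0) + n0 - 1 / L) (2 / L)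
    (by positivity) (by positivity) (by
      intro T hT T' hT' hTT
      have hc := Finset.mem_powersetCard.1 (hS hT)
      have hc' := Finset.mem_powersetCard.1 (hS hT')
      have hdet := det_ne_zero_of_prod hPr hc.1 hc'.1 (hc.2.trans hc'.2.symm) hTT
        ((hU1 T hT).trans (hnr T (hS hT))) ((hU1 T' hT').trans (hnr T' (hS hT')))
      exact th_sep (hU2 T hT) (hU2 T' hT') (hU3 T hT) (hU3 T' hT') hdet
        (by rw [hU1 T hT]; exact hM' T (hS hT)) (by rw [hU1 T' hT']; exact hM' T' (hS hT')))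
    (by intro T hT; exact ⟨hU4 T hT, hU5 T hT⟩)
  refine hp.trans (le_of_eq ?_)
  ring

/-- the number of exceptional frequencies -/
theorem exc_card {Pr : Finset ℕ} {b : ℕ → ℤ × ℤ} (hPr : ∀ p ∈ Pr, p.Prime)
    (hb : ∀ p ∈ Pr, nrm 0 1 (b p) = (p : ℤ)) {r J : ℕ} {M' : ℝ} (hM0 : 0 < M')
    (hM' : ∀ T ∈ Pr.powersetCard r, (nrm 0 1 (aT b T) : ℝ) ≤ M')
    (hQ : Q = L * 2 ^ J) (hL : 20 ≤ L) {δ : ℝ} (hδ : 0 ≤ δ) (hJ : J * δ ≤ 1 / 2)
    (hr : 2 * r * δ ≤ 1 / 2) (E : Finset (ZMod Q))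
    (hE1 : ∀ k ∈ E, ∀ i ≤ J, ‖ch (k * ((2 ^ i : ℕ) : ZMod Q)) - 1‖ ≤ δ)
    (hE2 : ∀ k ∈ E, ∀ p ∈ Pr,
      ‖ch (k * ((pos Q (b p) : ℤ) : ZMod Q)) - ((col P 0 1 (b p) : ℝ) : ℂ)‖ ≤ δ)
    (hF : 0 < (Pr.powersetCard r).card) :
    (E.card : ℝ) * (Pr.powersetCard r).card ≤ 16 * (16 * M' + 2 * L) := by
  classical
  set F := Pr.powersetCard r with hFdef
  have hY : 0 < 2 ^ J := by positivity
  have hLr : (20 : ℝ) ≤ L := by exact_mod_cast hL
  have hLpos : (0 : ℝ) < L := by linarith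
  set En : ℕ := F.card * ⌊16 * M' / L + 2⌋₊ with hEn
  have hwin := window_ls F (fun T => ((col P 0 1 (aT b T) : ℝ) : ℂ)) 1 zero_le_one
    (by intro T _; rw [norm_col]) (fun T => ((pos Q (aT b T) : ℤ) : ZMod Q)) (2 ^ J)
    (by rw [hQ]; exact Nat.le_mul_of_pos_left _ (by omega)) En (by
      intro S hS hclose
      rw [hEn, ← smul_eq_mul, ← Finset.sum_const]
      have : S.card = ∑ T0 ∈ F, (S.filter (fun p => p.1 = T0)).card := by
        apply Finset.card_eq_sum_card_fiberwise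
        intro p hp
        exact (Finset.mem_product.1 (hS hp)).1
      rw [this]
      apply Finset.sum_le_sum
      intro T0 hT0
      have hinj : (S.filter (fun p => p.1 = T0)).card =
          ((S.filter (fun p => p.1 = T0)).image Prod.snd).card := by
        rw [Finset.card_image_of_injOn]
        intro p hp q hq hpq
        have hp' := (Finset.mem_filter.1 hp).2
        have hq' := (Finset.mem_filter.1 hq).2
        exact Prod.ext (hp'.trans hq'.symm) hpq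
      rw [hinj]
      apply Nat.le_floor
      apply family_close hPr hb hM0 hM' hQ hY hL hT0
      · intro T hT
        rw [Finset.mem_image] at hT
        obtain ⟨p, hp, rfl⟩ := hT
        exact (Finset.mem_product.1 (hS (Finset.mem_filter.1 hp).1)).2
      · intro T hT
        rw [Finset.mem_image] at hT
        obtain ⟨p, hp, rfl⟩ := hT
        rw [Finset.mem_filter] at hp
        obtain ⟨d, hd, hdd⟩ := hclose p hp.1
        refine ⟨d, hd, ?_⟩
        rw [← hp.2]; exact hdd)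
  -- lower bound
  have hlow : ∀ k ∈ E, ((2 ^ J : ℕ) : ℝ) ^ 2 / 4 * ((F.card : ℝ) ^ 2 / 4) ≤
      ‖∑ y ∈ range (2 ^ J), ch (k * (y : ZMod Q))‖ ^ 2 *
      ‖∑ T ∈ F, ((col P 0 1 (aT b T) : ℝ) : ℂ) * ch (k * ((pos Q (aT b T) : ℤ) : ZMod Q))‖ ^ 2 := by
    intro k hk
    have h1 : ((2 ^ J : ℕ) : ℝ) / 2 ≤ ‖∑ y ∈ range (2 ^ J), ch (k * (y : ZMod Q))‖ := by
      have h2 : ‖∑ y ∈ range (2 ^ J), (ch (k * (y : ZMod Q)) - 1)‖ ≤ ((2 ^ J : ℕ) : ℝ) * (1 / 2) := by
        refine (norm_sum_le _ _).trans ?_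
        rw [← nsmul_eq_mul]
        have := Finset.sum_le_card_nsmul (range (2 ^ J)) (fun y => ‖ch (k * (y : ZMod Q)) - 1‖) (1 / 2)
          (by
            intro y hy
            exact (ch_mul_le k δ J (hE1 k hk) y (Finset.mem_range.1 hy)).trans hJ)
        rwa [Finset.card_range] at this
      rw [Finset.sum_sub_distrib] at h2
      have h3 : ∑ y ∈ range (2 ^ J), (1 : ℂ) = ((2 ^ J : ℕ) : ℂ) := by simp
      rw [h3] at h2
      have h4 : ‖(((2 ^ J : ℕ)) : ℂ)‖ = ((2 ^ J : ℕ) : ℝ) := Complex.norm_natCast _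
      have h5 := norm_sub_norm_le (((2 ^ J : ℕ)) : ℂ) (∑ y ∈ range (2 ^ J), ch (k * (y : ZMod Q)))
      rw [h4, norm_sub_rev] at h5
      linarith
    have h1' : (F.card : ℝ) / 2 ≤
        ‖∑ T ∈ F, ((col P 0 1 (aT b T) : ℝ) : ℂ) * ch (k * ((pos Q (aT b T) : ℤ) : ZMod Q))‖ := by
      have h2 : ‖∑ T ∈ F, (((col P 0 1 (aT b T) : ℝ) : ℂ) *
          ch (k * ((pos Q (aT b T) : ℤ) : ZMod Q)) - 1)‖ ≤ (F.card : ℝ) * (1 / 2) := by
        refine (norm_sum_le _ _).trans ?_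
        rw [← nsmul_eq_mul]
        apply Finset.sum_le_card_nsmul
        intro T hT
        have hT' := Finset.mem_powersetCard.1 hT
        have h3 := (ch_aT (P := P) b k δ hδ (by simpa using hE1 k hk 0 (Nat.zero_le _)) T (by
          intro p hp
          refine ⟨?_, hE2 k hk p (hT'.1 hp)⟩
          apply ne_zero_of_nrm
          rw [hb p (hT'.1 hp)]
          have := (hPr p (hT'.1 hp)).pos
          omega)).2
        have hcc : ((col P 0 1 (aT b T) : ℝ) : ℂ) * ((col P 0 1 (aT b T) : ℝ) : ℂ) = 1 := by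
          rcases col_eq_or P 0 1 (aT b T) with h | h <;> rw [h] <;> simp
        have e : ((col P 0 1 (aT b T) : ℝ) : ℂ) * ch (k * ((pos Q (aT b T) : ℤ) : ZMod Q)) - 1 =
            ((col P 0 1 (aT b T) : ℝ) : ℂ) * (ch (k * ((pos Q (aT b T) : ℤ) : ZMod Q)) -
              ((col P 0 1 (aT b T) : ℝ) : ℂ)) := by
          rw [mul_sub, hcc]
        rw [e, norm_mul, norm_col, one_mul]
        refine h3.trans ?_
        rw [hT'.2]
        exact hr
      rw [Finset.sum_sub_distrib] at h2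
      have h3 : ∑ T ∈ F, (1 : ℂ) = (F.card : ℂ) := by simp
      rw [h3] at h2
      have h4 : ‖(F.card : ℂ)‖ = (F.card : ℝ) := Complex.norm_natCast _
      have h5 := norm_sub_norm_le (F.card : ℂ)
        (∑ T ∈ F, ((col P 0 1 (aT b T) : ℝ) : ℂ) * ch (k * ((pos Q (aT b T) : ℤ) : ZMod Q)))
      rw [h4, norm_sub_rev] at h5
      linarith
    have h6 : (((2 ^ J : ℕ) : ℝ) / 2) ^ 2 ≤ ‖∑ y ∈ range (2 ^ J), ch (k * (y : ZMod Q))‖ ^ 2 :=
      pow_le_pow_left₀ (by positivity) h1 2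
    have h6' := pow_le_pow_left₀ (by positivity : (0 : ℝ) ≤ (F.card : ℝ) / 2) h1' 2
    calc ((2 ^ J : ℕ) : ℝ) ^ 2 / 4 * ((F.card : ℝ) ^ 2 / 4) =
        (((2 ^ J : ℕ) : ℝ) / 2) ^ 2 * ((F.card : ℝ) / 2) ^ 2 := by ring
      _ ≤ _ := by gcongr
  have hsum : (E.card : ℝ) * (((2 ^ J : ℕ) : ℝ) ^ 2 / 4 * ((F.card : ℝ) ^ 2 / 4)) ≤
      Q * 1 ^ 2 * (((2 ^ J : ℕ) : ℝ) * En) := by
    refine le_trans ?_ hwin
    rw [← nsmul_eq_mul, ← Finset.sum_const]
    refine (Finset.sum_le_sum hlow).trans ?_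
    exact Finset.sum_le_sum_of_subset_of_nonneg (Finset.subset_univ _)
      (by intro k _ _; positivity)
  have hEnr : (En : ℝ) ≤ F.card * (16 * M' / L + 2) := by
    rw [hEn]; push_cast
    gcongr
    exact Nat.floor_le (by positivity)
  have hQr : (Q : ℝ) = L * ((2 ^ J : ℕ) : ℝ) := by exact_mod_cast hQ
  have hFr : (0 : ℝ) < F.card := by exact_mod_cast hF
  have hYr : (0 : ℝ) < ((2 ^ J : ℕ) : ℝ) := by exact_mod_cast hY
  generalize (((2 ^ J : ℕ) : ℝ)) = y at *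
  rw [hQr] at hsum
  have h7 : (E.card : ℝ) * (y ^ 2 / 4 * ((F.card : ℝ) ^ 2 / 4)) ≤
      (L * y) * (y * (F.card * (16 * M' / L + 2))) := by
    refine hsum.trans ?_
    rw [one_pow, mul_one]
    gcongr
  have h8 : (L * y) * (y * (F.card * (16 * M' / L + 2))) =
      (y ^ 2 * F.card) * (16 * M' + 2 * L) := by
    field_simp
  rw [h8] at h7
  have h9 : (y ^ 2 * F.card) * ((E.card : ℝ) * F.card / 16) ≤
      (y ^ 2 * F.card) * (16 * M' + 2 * L) := by
    refine le_trans (le_of_eq ?_) h7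
    ring
  have h10 := le_of_mul_le_mul_left h9 (by positivity)
  linarith

end Count

end Pool.Agent.Lib.MP_a17b09_nt.LP
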