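import Mathlib

set_option autoImplicit false

open Finset

namespace Pool.Agent.Lib.MP_a17b09_nt.LP

lemma exists_root (f : ℕ → ℕ) (hf : ∀ n, n ≤ f n) (n : ℕ) (h0 : f 0 ≤ n) :
    ∃ Z, f Z ≤ n ∧ n < f (Z + 1) := by
  classical
  refine ⟨Nat.findGreatest (fun Z => f Z ≤ n) n, ?_, ?_⟩
  · exact Nat.findGreatest_spec (P := fun Z => f Z ≤ n) (Nat.zero_le n) h0
  · by_contra hcon
    push Not at hcon
    set Z := Nat.findGreatest (fun Z => f Z ≤ n) n with hZ
    have h1 : Z + 1 ≤ n := (hf _).trans hcon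
    have h2 := Nat.le_findGreatest (P := fun Z => f Z ≤ n) h1 hcon
    omega

lemma succ_pow_le (Z : ℕ) (hZ : 640 ≤ Z) : (Z + 1) ^ 640 ≤ 3 * Z ^ 640 := by
  have hZr : (640 : ℝ) ≤ Z := by exact_mod_cast hZ
  have hZpos : (0 : ℝ) < Z := by linarith
  have h1 : (1 + 1 / (Z : ℝ)) ^ 640 ≤ 3 := by
    have h2 : 1 + 1 / (Z : ℝ) ≤ Real.exp (1 / Z) := by
      have := Real.add_one_le_exp (1 / (Z : ℝ))
      linarith
    have h3 : (1 + 1 / (Z : ℝ)) ^ 640 ≤ Real.exp (1 / Z) ^ 640 :=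
      pow_le_pow_left₀ (by positivity) h2 640
    refine h3.trans ?_
    rw [← Real.exp_nat_mul]
    have h4 : ((640 : ℕ) : ℝ) * (1 / (Z : ℝ)) ≤ 1 := by
      rw [mul_one_div, div_le_one hZpos]
      exact_mod_cast hZ
    refine (Real.exp_le_exp.2 h4).trans ?_
    have := Real.exp_one_lt_d9
    linarith
  have h5 : ((Z : ℝ) + 1) ^ 640 ≤ 3 * (Z : ℝ) ^ 640 := by
    have e : ((Z : ℝ) + 1) = (1 + 1 / (Z : ℝ)) * Z := by field_simp
    rw [e, mul_pow]
    gcongr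
  exact_mod_cast h5

lemma choose_lower {r n : ℕ} (h : 2 * r ≤ n) : n ^ r ≤ (2 * r) ^ r * n.choose r := by
  have h1 := Nat.pow_le_choose (α := ℝ) r n
  rw [div_le_iff₀ (by positivity)] at h1
  have h2 : (r.factorial : ℝ) ≤ (r : ℝ) ^ r := by exact_mod_cast Nat.factorial_le_pow r
  have h3 : (n : ℝ) ^ r ≤ (2 * ((n + 1 - r : ℕ) : ℝ)) ^ r := by
    apply pow_le_pow_left₀ (by positivity)
    have : n ≤ 2 * (n + 1 - r) := by omega
    exact_mod_cast this
  have h4 : (n : ℝ) ^ r ≤ (2 * (r : ℝ)) ^ r * n.choose r := by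
    refine h3.trans ?_
    rw [mul_pow, mul_pow]
    have h5 : ((n + 1 - r : ℕ) : ℝ) ^ r ≤ n.choose r * (r : ℝ) ^ r := by
      refine h1.trans ?_
      gcongr
    calc (2 : ℝ) ^ r * ((n + 1 - r : ℕ) : ℝ) ^ r ≤ 2 ^ r * (n.choose r * (r : ℝ) ^ r) := by gcongr
      _ = _ := by ring
  exact_mod_cast h4

lemma log_two_mul_le {l : ℕ} (hl : 3 ≤ l) : ((l : ℝ) + 1) * Real.log 2 ≤ l := by
  have h := Real.log_two_lt_d9
  have hl' : (3 : ℝ) ≤ l := by exact_mod_cast hl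
  nlinarith

/-- the count of exceptional frequencies, numerically -/
lemma exc_num {N l x n r e : ℕ} (hl : 3 ≤ l) (hN2 : N < 2 ^ (l + 1)) (hx : 2 ≤ x)
    (hr1 : (2 * x) ^ r ≤ N) (hr2 : N < (2 * x) ^ (r + 1)) (hn : 2 * r ≤ n)
    (hn' : (x : ℝ) / (4 * Real.log x) ≤ n)
    (he : (e : ℝ) * (n.choose r) ≤ 288 * N) : (e : ℝ) ≤ 576 * x * (16 * l) ^ r := by
  have hxr : (2 : ℝ) ≤ x := by exact_mod_cast hx
  have hlogx : 0 < Real.log x := Real.log_pos (by linarith)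
  have hC : (0 : ℝ) < n.choose r := by
    have : 0 < n.choose r := Nat.choose_pos (by omega)
    exact_mod_cast this
  have h1 : (x : ℝ) ≤ 4 * Real.log x * n := by
    rw [div_le_iff₀ (by positivity)] at hn'
    linarith
  have h2 : (n : ℝ) ^ r ≤ (2 * (r : ℝ)) ^ r * n.choose r := by exact_mod_cast choose_lower hn
  -- r log x ≤ l
  have h3 : (r : ℝ) * Real.log x ≤ l := by
    have a1 : ((2 * x : ℕ) : ℝ) ^ r < 2 ^ (l + 1) := by
      have : (2 * x) ^ r < 2 ^ (l + 1) := lt_of_le_of_lt hr1 hN2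
      exact_mod_cast this
    have a2 : (x : ℝ) ^ r < 2 ^ (l + 1) := by
      refine lt_of_le_of_lt ?_ a1
      apply pow_le_pow_left₀ (by positivity)
      push_cast; linarith
    have a3 := Real.log_lt_log (by positivity) a2
    rw [Real.log_pow, Real.log_pow] at a3
    have a4 := log_two_mul_le hl
    push_cast at a3
    linarith
  have h4 : ((2 * x : ℕ) : ℝ) ^ r ≤ (16 * l) ^ r * n.choose r := by
    have b1 : ((2 * x : ℕ) : ℝ) ^ r ≤ (8 * Real.log x * n) ^ r := by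
      apply pow_le_pow_left₀ (by positivity)
      push_cast; linarith
    refine b1.trans ?_
    calc (8 * Real.log x * n : ℝ) ^ r = (8 * Real.log x) ^ r * (n : ℝ) ^ r := by rw [mul_pow]
      _ ≤ (8 * Real.log x) ^ r * ((2 * (r : ℝ)) ^ r * n.choose r) := by gcongr
      _ = (16 * (r * Real.log x)) ^ r * n.choose r := by
          rw [← mul_assoc, ← mul_pow]; ring
      _ ≤ (16 * l) ^ r * n.choose r := by gcongr
  have h5 : (N : ℝ) ≤ 2 * x * ((16 * l) ^ r * n.choose r) := by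
    have : (N : ℝ) ≤ ((2 * x : ℕ) : ℝ) ^ (r + 1) := by exact_mod_cast hr2.le
    refine this.trans ?_
    rw [pow_succ, mul_comm]
    push_cast at h4 ⊢
    gcongr
  have h6 : (e : ℝ) * (n.choose r) ≤ (576 * x * (16 * l) ^ r) * (n.choose r) := by
    refine he.trans ?_
    calc 288 * (N : ℝ) ≤ 288 * (2 * x * ((16 * l) ^ r * n.choose r)) := by gcongr
      _ = _ := by ring
  exact le_of_mul_le_mul_right h6 hC

lemma poly_le_two_pow (c k : ℕ) : ∃ l0 : ℕ, ∀ l : ℕ, l0 ≤ l → c * l ^ k ≤ 2 ^ l := by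
  have h := tendsto_pow_const_div_const_pow_of_one_lt k (by norm_num : (1 : ℝ) < 2)
  have h2 := h.eventually_lt_const (show (0 : ℝ) < 1 / (c + 1) by positivity)
  obtain ⟨l0, hl0⟩ := Filter.eventually_atTop.1 h2
  refine ⟨l0, fun l hl => ?_⟩
  have h3 := hl0 l hl
  rw [div_lt_div_iff₀ (by positivity) (by positivity)] at h3
  have h4 : (c : ℝ) * (l : ℝ) ^ k ≤ 2 ^ l := by
    have : (0 : ℝ) ≤ (l : ℝ) ^ k := by positivity
    linarith
  exact_mod_cast h4

end Pool.Agent.Lib.MP_a17b09_nt.LP
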