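import Pool.Agent.Lib.MP_a17b09_nt.LP.Core
import Pool.Agent.Lib.MP_a17b09_nt.LP.Num

set_option autoImplicit false

open Finset

namespace Pool.Agent.Lib.MP_a17b09_nt.LP

lemma one_add_log_le {N l : ℕ} (hl : 3 ≤ l) (hN0 : 0 < N) (hN2 : N < 2 ^ (l + 1)) :
    1 + Real.log N ≤ 2 * l := by
  have hlr : (3 : ℝ) ≤ l := by exact_mod_cast hl
  have hNr : (0 : ℝ) < N := by exact_mod_cast hN0
  have h1 : Real.log N ≤ Real.log ((2 : ℝ) ^ (l + 1)) := by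
    apply Real.log_le_log hNr
    exact_mod_cast hN2.le
  rw [Real.log_pow] at h1
  push_cast at h1
  have := log_two_mul_le hl
  linarith

lemma nonmono_num {P : Set ℕ} {N l C2 : ℕ} (hl : 3 ≤ l) (hN0 : 0 < N) (hN2 : N < 2 ^ (l + 1))
    (hOS : (OS P N).card * l ^ (2 * C2) < N) :
    ((∑ t ∈ OS P N, dv (t ^ 2 + 1) : ℕ) : ℝ) * (l : ℝ) ^ C2 ≤ 2 ^ 18 * (l : ℝ) ^ 16 * N := by
  have hlr : (3 : ℝ) ≤ l := by exact_mod_cast hl
  have hNr : (0 : ℝ) < N := by exact_mod_cast hN0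
  set D : ℕ := ∑ t ∈ OS P N, dv (t ^ 2 + 1) with hD
  have h1 : (D : ℝ) ^ 2 ≤ (OS P N).card * ∑ t ∈ OS P N, (dv (t ^ 2 + 1) : ℝ) ^ 2 := by
    rw [hD]; push_cast
    exact sq_sum_le_card_mul_sum_sq
  have h2 : ∑ t ∈ OS P N, (dv (t ^ 2 + 1) : ℝ) ^ 2 ≤ 8 * N * (1 + Real.log N) ^ 32 := by
    refine le_trans ?_ (second_moment N hN0)
    apply Finset.sum_le_sum_of_subset_of_nonneg
    · intro t ht
      rw [Finset.mem_Icc]
      exact (mem_OS.1 ht).1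
    · intro i _ _; positivity
  have h3 := one_add_log_le hl hN0 hN2
  have h3' : 0 ≤ 1 + Real.log N := by
    have : 0 ≤ Real.log N := Real.log_nonneg (by exact_mod_cast hN0)
    linarith
  have h4 : ((OS P N).card : ℝ) * (l : ℝ) ^ (2 * C2) ≤ N := by exact_mod_cast hOS.le
  have h5 : ((D : ℝ) * (l : ℝ) ^ C2) ^ 2 ≤ (2 ^ 18 * (l : ℝ) ^ 16 * N) ^ 2 := by
    calc ((D : ℝ) * (l : ℝ) ^ C2) ^ 2 = (D : ℝ) ^ 2 * (l : ℝ) ^ (2 * C2) := by
          rw [mul_pow, ← pow_mul, mul_comm C2 2]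
      _ ≤ ((OS P N).card * (8 * N * (1 + Real.log N) ^ 32)) * (l : ℝ) ^ (2 * C2) := by
          gcongr
          exact h1.trans (by gcongr)
      _ = ((OS P N).card * (l : ℝ) ^ (2 * C2)) * (8 * N * (1 + Real.log N) ^ 32) := by ring
      _ ≤ N * (8 * N * (2 * l) ^ 32) := by gcongr
      _ = 2 ^ 35 * ((l : ℝ) ^ 32 * N ^ 2) := by ring
      _ ≤ 2 ^ 36 * ((l : ℝ) ^ 32 * N ^ 2) := by gcongr <;> norm_num
      _ = (2 ^ 18 * (l : ℝ) ^ 16 * N) ^ 2 := by ring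
  exact le_of_sq_le_sq h5 (by positivity)

open Classical in
/-- the number of bad cells -/
lemma bad_num {P : Set ℕ} {N l C2 L Y Q K1 K2 X0 M M0 n : ℕ} (hl : 3 ≤ l) (hN2 : N < 2 ^ (l + 1))
    (hOS : (OS P N).card * l ^ (2 * C2) < N) (hQ : Q = L * Y) (hY : 0 < Y) (hL : 20 ≤ L)
    (hLN : L * K2 ≤ N) (hK2 : 0 < K2) (hK1 : 0 < K1)
    (hX0 : X0 * X0 ≤ N / 5) (hX0' : N / 5 < (X0 + 1) * (X0 + 1)) (hM : M + 1 = (X0 + 1) ^ 2)
    (hM0 : M0 = M / K1) (hn : n * n ≤ M0 / 5) (hn' : M0 / 5 < (n + 1) * (n + 1)) (hn0 : 0 < n) :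
    (((range L).filter (fun c : ℕ => ¬ NiceC P Q Y (M : ℤ) (M0 : ℤ) c)).card : ℝ) *
      ((l : ℝ) ^ C2 * K2 ^ 2) ≤
      N * (2 ^ 19 * (l : ℝ) ^ 16 * K2 ^ 2 + 2880 * K1 * (l : ℝ) ^ C2) := by
  have hN0 : 0 < N := by
    rcases Nat.eq_zero_or_pos N with h | h
    · rw [h] at hOS; omega
    · exact h
  have hlr : (3 : ℝ) ≤ l := by exact_mod_cast hl
  have hNr : (0 : ℝ) < N := by exact_mod_cast hN0
  have hK2r : (0 : ℝ) < K2 := by exact_mod_cast hK2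
  have hK1r : (0 : ℝ) < K1 := by exact_mod_cast hK1
  set D : ℕ := ∑ t ∈ OS P N, dv (t ^ 2 + 1) with hD
  have h1 := nonmono_num hl hN0 hN2 hOS
  rw [← hD] at h1
  have hmono := nonmono_count (P := P) hQ hY hL (M := (M : ℤ)) (X := (X0 : ℤ)) (N := N)
    (by
      have : M < (X0 + 1) ^ 2 := by omega
      exact_mod_cast this) (by positivity)
    (by
      have : 5 * X0 ^ 2 ≤ N := by
        have := Nat.div_mul_le_self N 5
        nlinarith
      exact_mod_cast this)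
  have hpop := unpop_full hQ hY hL (M0 := (M0 : ℤ)) (n := n) hn0 (by
      have : 5 * n ^ 2 ≤ M0 := by
        have := Nat.div_mul_le_self M0 5
        nlinarith
      exact_mod_cast this)
  have hsplit : ((range L).filter (fun c : ℕ => ¬ NiceC P Q Y (M : ℤ) (M0 : ℤ) c)).card ≤
      ((range L).filter (fun c : ℕ => ¬ MonoC P Q Y (M : ℤ) c)).card +
      ((range L).filter (fun c : ℕ => ¬ PopC Q Y (M0 : ℤ) c)).card := by
    refine le_trans (Finset.card_le_card ?_) (Finset.card_union_le _ _)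
    intro c hc
    rw [Finset.mem_filter] at hc
    rw [Finset.mem_union, Finset.mem_filter, Finset.mem_filter]
    unfold NiceC at hc
    by_cases h : MonoC P Q Y (M : ℤ) c
    · right; exact ⟨hc.1, fun h' => hc.2 ⟨h, h'⟩⟩
    · left; exact ⟨hc.1, h⟩
  set U : ℕ := ((range L).filter (fun c : ℕ => ¬ PopC Q Y (M0 : ℤ) c)).card with hU
  -- lower bound for (n+1)^2
  have hn1 : (N : ℝ) ≤ 36 * K1 * ((n : ℝ) + 1) ^ 2 := by
    have e1 : M < (M0 + 1) * K1 := by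
      rw [hM0]
      have := Nat.lt_div_mul_add (a := M) (b := K1) hK1
      nlinarith
    have e2 : M0 < 5 * ((n + 1) * (n + 1)) := by
      have := Nat.lt_div_mul_add (a := M0) (b := 5) (by norm_num)
      omega
    have e3 : N / 5 ≤ M := by
      have : N / 5 < M + 1 := by rw [hM, sq]; exact hX0'
      omega
    have e4 : N < 5 * (M + 1) := by
      have := Nat.lt_div_mul_add (a := N) (b := 5) (by norm_num)
      omega
    have e5 : M + 1 ≤ (5 * ((n + 1) * (n + 1))) * K1 := by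
      have : (M0 + 1) * K1 ≤ (5 * ((n + 1) * (n + 1))) * K1 := Nat.mul_le_mul_right _ e2
      omega
    have e6 : N ≤ 36 * K1 * (n + 1) ^ 2 := by nlinarith
    exact_mod_cast e6
  have hUb : (U : ℝ) * K2 ^ 2 ≤ 2880 * K1 * N := by
    have a1 : (U : ℝ) * N ≤ 36 * K1 * (80 * (L : ℝ) ^ 2) := by
      calc (U : ℝ) * N ≤ U * (36 * K1 * ((n : ℝ) + 1) ^ 2) := by gcongr
        _ = 36 * K1 * (U * ((n : ℝ) + 1) ^ 2) := by ring
        _ ≤ 36 * K1 * (80 * (L : ℝ) ^ 2) := by gcongr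
    have a2 : (L : ℝ) * K2 ≤ N := by exact_mod_cast hLN
    have a3 : ((U : ℝ) * K2 ^ 2) * N ≤ (2880 * K1 * N) * N := by
      calc ((U : ℝ) * K2 ^ 2) * N = (U * N) * K2 ^ 2 := by ring
        _ ≤ (36 * K1 * (80 * (L : ℝ) ^ 2)) * K2 ^ 2 := by gcongr
        _ = 2880 * K1 * ((L * K2) * (L * K2)) := by ring
        _ ≤ 2880 * K1 * (N * N) := by gcongr
        _ = _ := by ring
    exact le_of_mul_le_mul_right a3 hNr
  have hsplit' : (((range L).filter (fun c : ℕ => ¬ NiceC P Q Y (M : ℤ) (M0 : ℤ) c)).card : ℝ) ≤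
      2 * D + U := by
    have : ((range L).filter (fun c : ℕ => ¬ NiceC P Q Y (M : ℤ) (M0 : ℤ) c)).card ≤ 2 * D + U := by
      omega
    exact_mod_cast this
  calc (((range L).filter (fun c : ℕ => ¬ NiceC P Q Y (M : ℤ) (M0 : ℤ) c)).card : ℝ) *
      ((l : ℝ) ^ C2 * K2 ^ 2) ≤ (2 * D + U) * ((l : ℝ) ^ C2 * K2 ^ 2) := by gcongr
    _ = 2 * K2 ^ 2 * (D * (l : ℝ) ^ C2) + (U * K2 ^ 2) * (l : ℝ) ^ C2 := by ring
    _ ≤ 2 * K2 ^ 2 * (2 ^ 18 * (l : ℝ) ^ 16 * N) + (2880 * K1 * N) * (l : ℝ) ^ C2 := by gcongr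
    _ = _ := by ring

end Pool.Agent.Lib.MP_a17b09_nt.LP
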