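import Pool.Agent.Lib.MP_a17b09_nt.LP.WeightsA

/-!
The weighted sum of an angular character over the Gaussian integers of a cone: the bound.
-/

set_option autoImplicit false

open Finset

namespace Pool.Agent.Lib.MP_a17b09_nt.LP

lemma cz_eq_zc (u : ℤ × ℤ) : cz u = zc u := by
  apply Complex.ext
  · rw [zc_re]
    rfl
  · rw [zc_im]
    rfl

lemma ph_th_nat (m : ℕ) {u : ℤ × ℤ} (hu : 0 < u.1) :
    ph (2 * Real.pi * (m : ℝ) * th u) = (zc u / (‖zc u‖ : ℂ)) ^ (4 * m) := by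
  have hne : zc u ≠ 0 := by
    rw [← cz_eq_zc]
    apply cz_ne_zero
    intro h
    rw [h] at hu
    simp at hu
  rw [← Fch_phase (4 * m) (zc u) hne]
  congr 1
  simp only [Fch]
  rw [Complex.mul_im, Complex.natCast_re, Complex.natCast_im, Complex.log_im]
  unfold th
  rw [cz_eq_zc]
  have hpi := Real.pi_ne_zero
  push_cast
  field_simp
  ring

lemma box_ph (Z : ℕ) (hZ : 1000000 ≤ Z) (m : ℤ) (h1 : (Z : ℤ) ^ 150 ≤ 4 * |m|)
    (h2 : 4 * |m| ≤ (Z : ℤ) ^ 660) (a b : ℤ)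
    (ha1 : (Z : ℤ) ^ 160 ≤ 2 * a) (ha2 : a ≤ 2 * (Z : ℤ) ^ 160)
    (hb : |b| ≤ 2 * (Z : ℤ) ^ 160) :
    ‖∑ w ∈ rect a (a + (Z : ℤ) ^ 158) b (b + (Z : ℤ) ^ 158),
      ph (2 * Real.pi * (m : ℝ) * th w)‖ ^ 16 * Z ≤ Cw 4 * ((Z : ℝ) ^ 158) ^ 32 := by
  have hpos : ∀ w ∈ rect a (a + (Z : ℤ) ^ 158) b (b + (Z : ℤ) ^ 158), 0 < w.1 := by
    intro w hw
    rw [mem_rect] at hw
    have h3 : (0 : ℤ) < (Z : ℤ) ^ 160 := by positivity
    omega
  have hn1 : Z ^ 150 ≤ 4 * m.natAbs := by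
    have : ((Z ^ 150 : ℕ) : ℤ) ≤ ((4 * m.natAbs : ℕ) : ℤ) := by
      push_cast
      exact h1
    exact_mod_cast this
  have hn2 : 4 * m.natAbs ≤ Z ^ 660 := by
    have : ((4 * m.natAbs : ℕ) : ℤ) ≤ ((Z ^ 660 : ℕ) : ℤ) := by
      push_cast
      exact h2
    exact_mod_cast this
  have key := weyl_rect Z hZ (4 * m.natAbs) hn1 hn2 a b ha1 ha2 hb
  have e : ‖∑ w ∈ rect a (a + (Z : ℤ) ^ 158) b (b + (Z : ℤ) ^ 158),
      ph (2 * Real.pi * (m : ℝ) * th w)‖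
      = ‖∑ w ∈ rect a (a + (Z : ℤ) ^ 158) b (b + (Z : ℤ) ^ 158),
        (zc w / (‖zc w‖ : ℂ)) ^ (4 * m.natAbs)‖ := by
    rcases Int.natAbs_eq m with h | h
    · congr 1
      apply Finset.sum_congr rfl
      intro w hw
      rw [← ph_th_nat _ (hpos w hw)]
      congr 1
      have : (m : ℝ) = (m.natAbs : ℝ) := by
        have h5 : ((m.natAbs : ℤ) : ℝ) = (m : ℝ) := by rw [← h]
        rw [← h5, Int.cast_natCast]
      rw [this]
    · rw [← Complex.norm_conj, map_sum]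
      congr 1
      apply Finset.sum_congr rfl
      intro w hw
      rw [conj_ph, ← ph_th_nat _ (hpos w hw)]
      congr 1
      have : (m : ℝ) = -(m.natAbs : ℝ) := by
        have h5 : ((-(m.natAbs : ℤ) : ℤ) : ℝ) = (m : ℝ) := by rw [← h]
        rw [← h5, Int.cast_neg, Int.cast_natCast]
      rw [this]
      ring
  rw [e]
  exact key

/-- weighted sum over a box of the cone -/
lemma box_wt (Z : ℕ) (hZ : 1000000 ≤ Z) (m : ℤ) (h1 : (Z : ℤ) ^ 150 ≤ 4 * |m|)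
    (h2 : 4 * |m| ≤ (Z : ℤ) ^ 660) (a b : ℤ) (r : ℝ) (hr0 : 0 ≤ r) (hr : r ^ 16 = Cw 4 / Z)
    (hin : ∀ w ∈ rect a (a + (Z : ℤ) ^ 158) b (b + (Z : ℤ) ^ 158), w ∈ GX (Z ^ 160)) :
    ‖∑ w ∈ rect a (a + (Z : ℤ) ^ 158) b (b + (Z : ℤ) ^ 158),
      (wt w : ℂ) * ph (2 * Real.pi * (m : ℝ) * th w)‖
      ≤ ((Z : ℝ) ^ 158) ^ 2 * (20 * (Z : ℝ) ^ 158 / ((Z : ℝ) ^ 160) ^ 2)
        + 1 / (Z : ℝ) ^ 160 * (((Z : ℝ) ^ 158) ^ 2 * r) := by
  have hZ0 : (0 : ℝ) < Z := by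
    have : 0 < Z := by omega
    exact_mod_cast this
  have hsZ : (0 : ℤ) < (Z : ℤ) ^ 158 := by positivity
  have hXn : 0 < Z ^ 160 := by positivity
  have hcorner : (a, b) ∈ rect a (a + (Z : ℤ) ^ 158) b (b + (Z : ℤ) ^ 158) := by
    rw [mem_rect]
    simp only
    omega
  have hc := mem_GX.mp (hin _ hcorner)
  push_cast at hc
  have hbox := box_ph Z hZ m h1 h2 a b (by omega) (by omega) (by rw [abs_le]; omega)
  -- the plain sum
  have hplain : ‖∑ w ∈ rect a (a + (Z : ℤ) ^ 158) b (b + (Z : ℤ) ^ 158),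
      ph (2 * Real.pi * (m : ℝ) * th w)‖ ≤ ((Z : ℝ) ^ 158) ^ 2 * r := by
    apply le_of_pow_le_pow_left₀ (n := 16) (by norm_num) (by positivity)
    rw [mul_pow, hr, ← pow_mul]
    have e : ((Z : ℝ) ^ 158) ^ (2 * 16) * (Cw 4 / Z)
        = (Cw 4 * ((Z : ℝ) ^ 158) ^ 32) / Z := by ring
    rw [e, le_div_iff₀ hZ0]
    exact hbox
  have hcard : ((rect a (a + (Z : ℤ) ^ 158) b (b + (Z : ℤ) ^ 158)).card : ℝ)
      ≤ ((Z : ℝ) ^ 158) ^ 2 := by
    have h := card_rect_le (x0 := a) (x1 := a + (Z : ℤ) ^ 158) (y0 := b)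
      (y1 := b + (Z : ℤ) ^ 158) (l0 := Z ^ 158) (by push_cast; exact le_refl _)
      (by push_cast; exact le_refl _)
    exact_mod_cast h
  have hsplit : ∑ w ∈ rect a (a + (Z : ℤ) ^ 158) b (b + (Z : ℤ) ^ 158),
      (wt w : ℂ) * ph (2 * Real.pi * (m : ℝ) * th w)
      = ∑ w ∈ rect a (a + (Z : ℤ) ^ 158) b (b + (Z : ℤ) ^ 158),
          ((wt w - wt (a, b) : ℝ) : ℂ) * ph (2 * Real.pi * (m : ℝ) * th w)
        + (wt (a, b) : ℂ) * ∑ w ∈ rect a (a + (Z : ℤ) ^ 158) b (b + (Z : ℤ) ^ 158),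
          ph (2 * Real.pi * (m : ℝ) * th w) := by
    rw [Finset.mul_sum, ← Finset.sum_add_distrib]
    apply Finset.sum_congr rfl
    intro w _
    push_cast
    ring
  rw [hsplit]
  refine le_trans (norm_add_le _ _) (add_le_add ?_ ?_)
  · refine le_trans (norm_sum_le _ _) ?_
    have hterm : ∀ w ∈ rect a (a + (Z : ℤ) ^ 158) b (b + (Z : ℤ) ^ 158),
        ‖((wt w - wt (a, b) : ℝ) : ℂ) * ph (2 * Real.pi * (m : ℝ) * th w)‖
        ≤ 20 * (Z : ℝ) ^ 158 / ((Z : ℝ) ^ 160) ^ 2 := by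
      intro w hw
      rw [norm_mul, norm_ph, mul_one, Complex.norm_real, Real.norm_eq_abs]
      have hwG := mem_GX.mp (hin w hw)
      push_cast at hwG
      rw [mem_rect] at hw
      have h := wt_var (X := Z ^ 160) (s := Z ^ 158) hXn (u := w) (v := (a, b))
        (by push_cast; omega) (by push_cast; omega)
        (by push_cast; rw [abs_le]; constructor <;> omega)
        (by push_cast; omega)
        (by push_cast; omega)
        (by push_cast; rw [abs_le]; constructor <;> omega)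
        (by push_cast; rw [abs_le]; constructor <;> omega)
        (by push_cast; rw [abs_le]; constructor <;> omega)
      push_cast at h
      exact h
    refine le_trans (Finset.sum_le_sum hterm) ?_
    rw [Finset.sum_const, nsmul_eq_mul]
    exact mul_le_mul_of_nonneg_right hcard (by positivity)
  · rw [norm_mul, Complex.norm_real, Real.norm_eq_abs,
      abs_of_nonneg (wt_nonneg (u := (a, b)) (by show 0 < a; omega))]
    apply mul_le_mul _ hplain (norm_nonneg _) (by positivity)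
    have h := wt_le_GX (X := Z ^ 160) hXn (u := (a, b)) (by push_cast; omega)
    push_cast at h
    exact h

lemma ediv_eq (a k s : ℤ) (hs : 0 < s) : a / s = k ↔ k * s ≤ a ∧ a < k * s + s := by
  constructor
  · rintro rfl
    refine ⟨Int.ediv_mul_le a hs.ne', ?_⟩
    have := Int.lt_ediv_add_one_mul_self a hs
    linarith
  · rintro ⟨h1, h2⟩
    apply le_antisymm
    · have : a / s < k + 1 := Int.ediv_lt_of_lt_mul hs (by linarith)
      omega
    · exact Int.le_ediv_of_mul_le hs h1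

/-- the number of points near the two sides of the cone -/
lemma card_side (X s : ℕ) :
    ((GX X).filter (fun u : ℤ × ℤ => u.2 < -u.1 + 2 * (s : ℤ) ∨ u.1 - 2 * (s : ℤ) < u.2)).card
      ≤ 4 * s * X := by
  have hsub : (GX X).filter (fun u : ℤ × ℤ => u.2 < -u.1 + 2 * (s : ℤ)
        ∨ u.1 - 2 * (s : ℤ) < u.2)
      ⊆ (GX X).filter (fun u : ℤ × ℤ => u.2 < -u.1 + 2 * (s : ℤ))
        ∪ (GX X).filter (fun u : ℤ × ℤ => u.1 - 2 * (s : ℤ) < u.2) := by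
    intro u hu
    rw [Finset.mem_filter] at hu
    rw [Finset.mem_union, Finset.mem_filter, Finset.mem_filter]
    rcases hu.2 with h | h
    · exact Or.inl ⟨hu.1, h⟩
    · exact Or.inr ⟨hu.1, h⟩
  refine le_trans (Finset.card_le_card hsub) (le_trans (Finset.card_union_le _ _) ?_)
  have c1 : ((GX X).filter (fun u : ℤ × ℤ => u.2 < -u.1 + 2 * (s : ℤ))).card ≤ 2 * s * X := by
    have hinj : ((GX X).filter (fun u : ℤ × ℤ => u.2 < -u.1 + 2 * (s : ℤ))).card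
        ≤ ((Ioc (X : ℤ) (2 * X)) ×ˢ (Ico (0 : ℤ) (2 * s))).card := by
      apply Finset.card_le_card_of_injOn (fun u => (u.1, u.2 + u.1))
      · intro u hu
        rw [Finset.mem_coe, Finset.mem_filter, mem_GX] at hu
        rw [Finset.mem_coe, Finset.mem_product, Finset.mem_Ioc, Finset.mem_Ico]
        simp only
        omega
      · intro u _ v _ huv
        simp only [Prod.mk.injEq] at huv
        ext <;> omega
    refine le_trans hinj ?_
    rw [Finset.card_product, Int.card_Ioc, Int.card_Ico]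
    have e1 : (2 * (X : ℤ) - X).toNat = X := by omega
    have e2 : (2 * (s : ℤ) - 0).toNat = 2 * s := by omega
    rw [e1, e2, mul_comm]
  have c2 : ((GX X).filter (fun u : ℤ × ℤ => u.1 - 2 * (s : ℤ) < u.2)).card ≤ 2 * s * X := by
    have hinj : ((GX X).filter (fun u : ℤ × ℤ => u.1 - 2 * (s : ℤ) < u.2)).card
        ≤ ((Ioc (X : ℤ) (2 * X)) ×ˢ (Ico (0 : ℤ) (2 * s))).card := by
      apply Finset.card_le_card_of_injOn (fun u => (u.1, u.1 - u.2))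
      · intro u hu
        rw [Finset.mem_coe, Finset.mem_filter, mem_GX] at hu
        rw [Finset.mem_coe, Finset.mem_product, Finset.mem_Ioc, Finset.mem_Ico]
        simp only
        omega
      · intro u _ v _ huv
        simp only [Prod.mk.injEq] at huv
        ext <;> omega
    refine le_trans hinj ?_
    rw [Finset.card_product, Int.card_Ioc, Int.card_Ico]
    have e1 : (2 * (X : ℤ) - X).toNat = X := by omega
    have e2 : (2 * (s : ℤ) - 0).toNat = 2 * s := by omega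
    rw [e1, e2, mul_comm]
  calc _ ≤ 2 * s * X + 2 * s * X := Nat.add_le_add c1 c2
    _ = 4 * s * X := by ring

lemma WS_high (Z : ℕ) (hZ : 1000000 ≤ Z) (m : ℤ) (h1 : (Z : ℤ) ^ 150 ≤ 4 * |m|)
    (h2 : 4 * |m| ≤ (Z : ℤ) ^ 660) (r : ℝ) (hr0 : 0 ≤ r) (hr : r ^ 16 = Cw 4 / Z) :
    ‖WS (Z ^ 160) (2 * Real.pi * m)‖ ≤ 84 * (Z : ℝ) ^ 158 + 4 * ((Z : ℝ) ^ 160 * r) := by
  classical
  have hZn : 0 < Z := by omega
  have hZ0 : (0 : ℝ) < Z := by exact_mod_cast hZn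
  have hs0 : (0 : ℤ) < (Z : ℤ) ^ 158 := by positivity
  have hXs : (Z : ℤ) ^ 160 = (Z : ℤ) ^ 2 * (Z : ℤ) ^ 158 := by ring
  set idx : ℤ × ℤ → ℤ × ℤ :=
    fun u => ((u.1 - (Z : ℤ) ^ 160 - 1) / (Z : ℤ) ^ 158, u.2 / (Z : ℤ) ^ 158) with hidx
  set P := (Ico (0 : ℤ) ((Z : ℤ) ^ 2)) ×ˢ (Ico (-(2 * (Z : ℤ) ^ 2)) (2 * (Z : ℤ) ^ 2)) with hP
  set Bx : ℤ × ℤ → Finset (ℤ × ℤ) := fun p =>
    rect ((Z : ℤ) ^ 160 + 1 + p.1 * (Z : ℤ) ^ 158)
      ((Z : ℤ) ^ 160 + 1 + p.1 * (Z : ℤ) ^ 158 + (Z : ℤ) ^ 158)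
      (p.2 * (Z : ℤ) ^ 158) (p.2 * (Z : ℤ) ^ 158 + (Z : ℤ) ^ 158) with hBx
  have hmem : ∀ u p, idx u = p ↔ u ∈ Bx p := by
    intro u p
    simp only [hidx, hBx]
    rw [mem_rect, Prod.ext_iff]
    simp only
    rw [ediv_eq _ _ _ hs0, ediv_eq _ _ _ hs0]
    constructor
    · rintro ⟨h3, h4⟩
      exact ⟨⟨by linarith [h3.1], by linarith [h3.2]⟩, h4⟩
    · rintro ⟨h3, h4⟩
      exact ⟨⟨by linarith [h3.1], by linarith [h3.2]⟩, h4⟩
  have hmaps : ∀ u ∈ GX (Z ^ 160), idx u ∈ P := by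
    intro u hu
    rw [mem_GX] at hu
    push_cast at hu
    simp only [hidx, hP]
    rw [Finset.mem_product, Finset.mem_Ico, Finset.mem_Ico]
    simp only
    refine ⟨⟨?_, ?_⟩, ?_, ?_⟩
    · exact Int.ediv_nonneg (by omega) hs0.le
    · apply Int.ediv_lt_of_lt_mul hs0
      rw [← hXs]
      omega
    · apply Int.le_ediv_of_mul_le hs0
      have e : -(2 * (Z : ℤ) ^ 2) * (Z : ℤ) ^ 158 = -(2 * (Z : ℤ) ^ 160) := by
        rw [hXs]; ring
      rw [e]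
      omega
    · apply Int.ediv_lt_of_lt_mul hs0
      have e : 2 * (Z : ℤ) ^ 2 * (Z : ℤ) ^ 158 = 2 * (Z : ℤ) ^ 160 := by
        rw [hXs]; ring
      rw [e]
      omega
  set F : ℤ × ℤ → ℂ := fun u => (wt u : ℂ) * ph (2 * Real.pi * m * th u) with hF
  have hFn : ∀ u ∈ GX (Z ^ 160), ‖F u‖ ≤ wt u := by
    intro u hu
    simp only [hF]
    rw [norm_mul, norm_ph, mul_one, Complex.norm_real, Real.norm_eq_abs,
      abs_of_nonneg (wt_nonneg (GX_pos hu))]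
  set bigB : ℝ := ((Z : ℝ) ^ 158) ^ 2 * (20 * (Z : ℝ) ^ 158 / ((Z : ℝ) ^ 160) ^ 2)
        + 1 / (Z : ℝ) ^ 160 * (((Z : ℝ) ^ 158) ^ 2 * r) with hbigB
  have hbigB0 : 0 ≤ bigB := by rw [hbigB]; positivity
  set ins : ℤ × ℤ → Prop := fun p => ∀ u ∈ Bx p, u ∈ GX (Z ^ 160) with hins
  have hfib : ∀ p ∈ P, ‖∑ u ∈ (GX (Z ^ 160)).filter (fun u => idx u = p), F u‖
      ≤ bigB + (if ins p then 0 else
        ∑ u ∈ (GX (Z ^ 160)).filter (fun u => idx u = p), wt u) := by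
    intro p _
    split_ifs with hi
    · rw [add_zero]
      have e : (GX (Z ^ 160)).filter (fun u => idx u = p) = Bx p := by
        ext u
        rw [Finset.mem_filter, hmem]
        exact ⟨fun h => h.2, fun h => ⟨hi u h, h⟩⟩
      rw [e]
      exact box_wt Z hZ m h1 h2 _ _ r hr0 hr hi
    · have h3 : ‖∑ u ∈ (GX (Z ^ 160)).filter (fun u => idx u = p), F u‖
          ≤ ∑ u ∈ (GX (Z ^ 160)).filter (fun u => idx u = p), wt u := by
        refine le_trans (norm_sum_le _ _) (Finset.sum_le_sum ?_)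
        intro u hu
        exact hFn u (Finset.mem_filter.mp hu).1
      linarith
  have hside : ∑ p ∈ P, (if ins p then 0 else
        ∑ u ∈ (GX (Z ^ 160)).filter (fun u => idx u = p), wt u) ≤ 4 * (Z : ℝ) ^ 158 := by
    have e1 : ∑ p ∈ P, (if ins p then 0 else
        ∑ u ∈ (GX (Z ^ 160)).filter (fun u => idx u = p), wt u)
        = ∑ p ∈ P, ∑ u ∈ (GX (Z ^ 160)).filter (fun u => idx u = p),
          (if ins (idx u) then 0 else wt u) := by
      apply Finset.sum_congr rfl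
      intro p _
      split_ifs with hi
      · symm
        apply Finset.sum_eq_zero
        intro u hu
        rw [(Finset.mem_filter.mp hu).2, if_pos hi]
      · apply Finset.sum_congr rfl
        intro u hu
        rw [(Finset.mem_filter.mp hu).2, if_neg hi]
    rw [e1, Finset.sum_fiberwise_of_maps_to hmaps]
    have e2 : ∀ u ∈ GX (Z ^ 160), (if ins (idx u) then 0 else wt u)
        ≤ (if (u.2 < -u.1 + 2 * ((Z ^ 158 : ℕ) : ℤ) ∨ u.1 - 2 * ((Z ^ 158 : ℕ) : ℤ) < u.2)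
          then 1 / (Z : ℝ) ^ 160 else 0) := by
      intro u hu
      by_cases hi : ins (idx u)
      · rw [if_pos hi]
        split_ifs
        · positivity
        · exact le_refl _
      · rw [if_neg hi]
        have hne : u.2 < -u.1 + 2 * ((Z ^ 158 : ℕ) : ℤ) ∨ u.1 - 2 * ((Z ^ 158 : ℕ) : ℤ) < u.2 := by
          simp only [hins] at hi
          push Not at hi
          obtain ⟨v, hv, hvn⟩ := hi
          have hu2 : u ∈ Bx (idx u) := (hmem u _).mp rfl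
          have hpP := hmaps u hu
          simp only [hBx] at hv hu2
          rw [mem_rect] at hv hu2
          rw [hP, Finset.mem_product, Finset.mem_Ico, Finset.mem_Ico] at hpP
          have hp1 : (idx u).1 * (Z : ℤ) ^ 158 + (Z : ℤ) ^ 158 ≤ (Z : ℤ) ^ 160 := by
            have : (idx u).1 + 1 ≤ (Z : ℤ) ^ 2 := by omega
            have h3 := mul_le_mul_of_nonneg_right this hs0.le
            rw [hXs]
            linarith
          have hp0 : 0 ≤ (idx u).1 * (Z : ℤ) ^ 158 := mul_nonneg hpP.1.1 hs0.le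
          rw [mem_GX] at hvn
          push_cast at hvn ⊢
          omega
        rw [if_pos hne]
        have h := wt_le_GX (X := Z ^ 160) (by positivity) (u := u) (mem_GX.mp hu).1.1
        push_cast at h
        exact h
    refine le_trans (Finset.sum_le_sum e2) ?_
    rw [← Finset.sum_filter, Finset.sum_const, nsmul_eq_mul]
    have h3 := card_side (Z ^ 160) (Z ^ 158)
    have h4 : (((GX (Z ^ 160)).filter (fun u => u.2 < -u.1 + 2 * ((Z ^ 158 : ℕ) : ℤ)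
        ∨ u.1 - 2 * ((Z ^ 158 : ℕ) : ℤ) < u.2)).card : ℝ)
        ≤ 4 * (Z : ℝ) ^ 158 * (Z : ℝ) ^ 160 := by
      exact_mod_cast h3
    calc _ ≤ 4 * (Z : ℝ) ^ 158 * (Z : ℝ) ^ 160 * (1 / (Z : ℝ) ^ 160) :=
          mul_le_mul_of_nonneg_right h4 (by positivity)
      _ = 4 * (Z : ℝ) ^ 158 := by field_simp
  have htot : ‖WS (Z ^ 160) (2 * Real.pi * m)‖ ≤ ∑ p ∈ P, (bigB + (if ins p then 0 else
        ∑ u ∈ (GX (Z ^ 160)).filter (fun u => idx u = p), wt u)) := by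
    have e1 : WS (Z ^ 160) (2 * Real.pi * m)
        = ∑ p ∈ P, ∑ u ∈ (GX (Z ^ 160)).filter (fun u => idx u = p), F u := by
      rw [Finset.sum_fiberwise_of_maps_to hmaps]
      rfl
    rw [e1]
    exact le_trans (norm_sum_le _ _) (Finset.sum_le_sum hfib)
  rw [Finset.sum_add_distrib, Finset.sum_const, nsmul_eq_mul] at htot
  have hPc : (P.card : ℝ) = 4 * (Z : ℝ) ^ 4 := by
    rw [hP, Finset.card_product, Int.card_Ico, Int.card_Ico]
    have c1 : ((Z : ℤ) ^ 2 - 0).toNat = Z ^ 2 := by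
      have : ((Z : ℤ) ^ 2 - 0) = ((Z ^ 2 : ℕ) : ℤ) := by push_cast; ring
      rw [this, Int.toNat_natCast]
    have c2 : (2 * (Z : ℤ) ^ 2 - -(2 * (Z : ℤ) ^ 2)).toNat = 4 * Z ^ 2 := by
      have : (2 * (Z : ℤ) ^ 2 - -(2 * (Z : ℤ) ^ 2)) = ((4 * Z ^ 2 : ℕ) : ℤ) := by
        push_cast; ring
      rw [this, Int.toNat_natCast]
    rw [c1, c2]
    push_cast
    ring
  have hmain : 4 * (Z : ℝ) ^ 4 * bigB = 80 * (Z : ℝ) ^ 158 + 4 * ((Z : ℝ) ^ 160 * r) := by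
    rw [hbigB]
    have hZne : (Z : ℝ) ≠ 0 := hZ0.ne'
    have e160 : (Z : ℝ) ^ 160 = (Z : ℝ) ^ 2 * (Z : ℝ) ^ 158 := by ring
    have hs : (Z : ℝ) ^ 158 ≠ 0 := by positivity
    rw [e160]
    field_simp
    ring
  rw [hPc, hmain] at htot
  linarith

/-- (W3) Cancellation in the weighted sums of all angular characters of moderate frequency. -/
theorem weyl_weights : ∃ C Z0 : ℕ, ∀ Z : ℕ, Z0 ≤ Z → ∀ (Q : ℕ) [NeZero Q], Z ^ 1000 ≤ Q →
    ∀ m : ℤ, m ≠ 0 → 4 * |m| ≤ (Z : ℤ) ^ 660 →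
    ‖∑ u ∈ GX (Z ^ 160), (wt u : ℂ) * ch ((m : ZMod Q) * ((pos Q u : ℤ) : ZMod Q))‖ ^ 16 * Z
      ≤ C * ((Z : ℝ) ^ 160) ^ 16 := by
  refine ⟨⌈90 ^ 16 * Cw 4⌉₊, 1000000, ?_⟩
  intro Z hZ Q _ hQ m hm hm2
  have hZn : 0 < Z := by omega
  have hZr : (1000000 : ℝ) ≤ Z := by exact_mod_cast hZ
  have hZ0 : (0 : ℝ) < Z := by linarith
  have hZ1 : (1 : ℝ) ≤ Z := by linarith
  have hCw : 12 ≤ Cw 4 := by
    have h := Cw_mono (q := 0) (r := 4) (by norm_num)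
    exact h
  have hround := round_sum (Z ^ 160) Q m
  have hpi4 := Real.pi_le_four
  have hpi0 := Real.pi_pos
  have hQr : (Z : ℝ) ^ 1000 ≤ Q := by exact_mod_cast hQ
  have hm2r : 4 * |(m : ℝ)| ≤ (Z : ℝ) ^ 660 := by exact_mod_cast hm2
  have herr : 2 * Real.pi * |(m : ℝ)| / Q * ((Z ^ 160 : ℕ) : ℝ) ≤ 2 := by
    have hQ0 : (0 : ℝ) < Q := lt_of_lt_of_le (by positivity) hQr
    rw [div_mul_eq_mul_div, div_le_iff₀ hQ0]
    push_cast
    calc 2 * Real.pi * |(m : ℝ)| * (Z : ℝ) ^ 160 ≤ 2 * 4 * |(m : ℝ)| * (Z : ℝ) ^ 160 := by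
          apply mul_le_mul_of_nonneg_right _ (by positivity)
          apply mul_le_mul_of_nonneg_right _ (abs_nonneg _)
          linarith
      _ = 2 * (4 * |(m : ℝ)|) * (Z : ℝ) ^ 160 := by ring
      _ ≤ 2 * (Z : ℝ) ^ 660 * (Z : ℝ) ^ 160 := by
          apply mul_le_mul_of_nonneg_right _ (by positivity)
          linarith
      _ = 2 * (Z : ℝ) ^ 820 := by ring
      _ ≤ 2 * (Z : ℝ) ^ 1000 := by
          apply mul_le_mul_of_nonneg_left _ (by norm_num)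
          exact pow_le_pow_right₀ hZ1 (by norm_num)
      _ ≤ 2 * Q := by linarith
  set T := ‖∑ u ∈ GX (Z ^ 160), (wt u : ℂ) * ch ((m : ZMod Q) * ((pos Q u : ℤ) : ZMod Q))‖
    with hT
  have hT0 : 0 ≤ T := norm_nonneg _
  have hCceil : (90 : ℝ) ^ 16 * Cw 4 ≤ (⌈90 ^ 16 * Cw 4⌉₊ : ℝ) := Nat.le_ceil _
  rcases lt_or_ge (4 * |m|) ((Z : ℤ) ^ 150) with hlow | hhigh
  · -- low frequencies
    have hlowr : 4 * |(m : ℝ)| ≤ (Z : ℝ) ^ 150 := by exact_mod_cast hlow.le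
    have h1 := WS_low (Z ^ 160) (by positivity) m hm
    have hZ150 : (1 : ℝ) ≤ (Z : ℝ) ^ 150 := one_le_pow₀ hZ1
    have h2 : T ≤ 4 * (Z : ℝ) ^ 150 := by
      have h3 : 2 * Real.pi * |(m : ℝ)| ≤ 2 * (Z : ℝ) ^ 150 := by
        calc 2 * Real.pi * |(m : ℝ)| ≤ 2 * 4 * |(m : ℝ)| := by
              apply mul_le_mul_of_nonneg_right _ (abs_nonneg _)
              linarith
          _ = 2 * (4 * |(m : ℝ)|) := by ring
          _ ≤ 2 * (Z : ℝ) ^ 150 := by linarith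
      linarith
    calc T ^ 16 * Z ≤ (4 * (Z : ℝ) ^ 150) ^ 16 * Z := by
          apply mul_le_mul_of_nonneg_right _ hZ0.le
          exact pow_le_pow_left₀ hT0 h2 16
      _ = 4 ^ 16 * (Z : ℝ) ^ 2401 := by ring
      _ ≤ 4 ^ 16 * (Z : ℝ) ^ 2560 := by
          apply mul_le_mul_of_nonneg_left _ (by norm_num)
          exact pow_le_pow_right₀ hZ1 (by norm_num)
      _ ≤ (90 ^ 16 * Cw 4) * (Z : ℝ) ^ 2560 := by
          apply mul_le_mul_of_nonneg_right _ (by positivity)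
          nlinarith
      _ ≤ (⌈90 ^ 16 * Cw 4⌉₊ : ℝ) * (Z : ℝ) ^ 2560 :=
          mul_le_mul_of_nonneg_right hCceil (by positivity)
      _ = (⌈90 ^ 16 * Cw 4⌉₊ : ℝ) * ((Z : ℝ) ^ 160) ^ 16 := by ring
  · -- high frequencies
    set r : ℝ := (Cw 4 / Z) ^ (((16 : ℕ) : ℝ)⁻¹) with hr
    have hq0 : 0 ≤ Cw 4 / Z := by positivity
    have hr0 : 0 ≤ r := Real.rpow_nonneg hq0 _
    have hr16 : r ^ 16 = Cw 4 / Z := Real.rpow_inv_natCast_pow hq0 (by norm_num)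
    have h1 := WS_high Z hZ m hhigh hm2 r hr0 hr16
    have h2 : 1 ≤ (Z : ℝ) ^ 2 * r := by
      rw [← one_le_pow_iff_of_nonneg (by positivity) (by norm_num : (16 : ℕ) ≠ 0), mul_pow,
        hr16]
      have e : ((Z : ℝ) ^ 2) ^ 16 * (Cw 4 / Z) = Cw 4 * (Z : ℝ) ^ 31 := by
        field_simp
      rw [e]
      have h3 : (1 : ℝ) ≤ (Z : ℝ) ^ 31 := one_le_pow₀ hZ1
      nlinarith
    have h3 : (Z : ℝ) ^ 158 ≤ (Z : ℝ) ^ 160 * r := by
      calc (Z : ℝ) ^ 158 = (Z : ℝ) ^ 158 * 1 := by ring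
        _ ≤ (Z : ℝ) ^ 158 * ((Z : ℝ) ^ 2 * r) := mul_le_mul_of_nonneg_left h2 (by positivity)
        _ = (Z : ℝ) ^ 160 * r := by ring
    have h4 : (1 : ℝ) ≤ (Z : ℝ) ^ 158 := one_le_pow₀ hZ1
    have h5 : T ≤ 90 * ((Z : ℝ) ^ 160 * r) := by linarith
    calc T ^ 16 * Z ≤ (90 * ((Z : ℝ) ^ 160 * r)) ^ 16 * Z := by
          apply mul_le_mul_of_nonneg_right _ hZ0.le
          exact pow_le_pow_left₀ hT0 h5 16
      _ = 90 ^ 16 * ((Z : ℝ) ^ 160) ^ 16 * (r ^ 16 * Z) := by ring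
      _ = 90 ^ 16 * ((Z : ℝ) ^ 160) ^ 16 * Cw 4 := by
          rw [hr16, div_mul_cancel₀ _ hZ0.ne']
      _ = (90 ^ 16 * Cw 4) * ((Z : ℝ) ^ 160) ^ 16 := by ring
      _ ≤ (⌈90 ^ 16 * Cw 4⌉₊ : ℝ) * ((Z : ℝ) ^ 160) ^ 16 :=
          mul_le_mul_of_nonneg_right hCceil (by positivity)

end Pool.Agent.Lib.MP_a17b09_nt.LP
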