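import Pool.Agent.Lib.MP_a17b09_nt.LP.Fin1
import Pool.Agent.Lib.QuadThree.PrimesDyadic
import Pool.Agent.Lib.MP_a17b09_nt.LP.Weights

set_option autoImplicit false

open Finset

namespace Pool.Agent.Lib.MP_a17b09_nt.LP

/-- a Gaussian integer of norm `p` -/
lemma exists_b : ∃ b : ℕ → ℤ × ℤ, ∀ p : ℕ, p.Prime → p % 4 ≠ 3 → nrm 0 1 (b p) = (p : ℤ) := by
  have h : ∀ p : ℕ, ∃ u : ℤ × ℤ, p.Prime → p % 4 ≠ 3 → nrm 0 1 u = (p : ℤ) := by
    intro p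
    by_cases hp : p.Prime
    · by_cases h4 : p % 4 ≠ 3
      · have := Fact.mk hp
        obtain ⟨a, b, hab⟩ := Nat.Prime.sq_add_sq h4
        refine ⟨((a : ℤ), (b : ℤ)), fun _ _ => ?_⟩
        rw [nrm01]
        show (a : ℤ) ^ 2 + (b : ℤ) ^ 2 = (p : ℤ)
        exact_mod_cast hab
      · exact ⟨0, fun _ h => absurd h h4⟩
    · exact ⟨0, fun h => absurd h hp⟩
  choose b hb using h
  exact ⟨b, hb⟩

/-- numerics of the main inequality -/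
lemma num_main {l A1 κ CG A2 C2 : ℕ} (hA2 : A2 = 2 * A1 + κ + 3) (hC2 : C2 = 19 + A1 + A2 + κ)
    (hl : CG * 64 * (2 ^ 19 + 11520) ≤ l) :
    CG * 64 * l ^ 2 * l ^ A1 * l ^ κ * l ^ A2 *
      (2 ^ 19 * l ^ 16 * (l ^ A2) ^ 2 + 11520 * l ^ A1 * l ^ C2) ≤ l ^ C2 * (l ^ A2) ^ 2 := by
  have e1 : CG * 64 * l ^ 2 * l ^ A1 * l ^ κ * l ^ A2 *
      (2 ^ 19 * l ^ 16 * (l ^ A2) ^ 2 + 11520 * l ^ A1 * l ^ C2) =
      CG * 64 * 2 ^ 19 * (l ^ (18 + A1 + κ + A2) * (l ^ A2) ^ 2) +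
      CG * 64 * 11520 * (l ^ (2 + 2 * A1 + κ) * l ^ A2 * l ^ C2) := by ring
  have e2 : l ^ (18 + A1 + κ + A2) * (l ^ A2) ^ 2 * l = l ^ C2 * (l ^ A2) ^ 2 := by
    rw [hC2]; ring
  have e3 : l ^ (2 + 2 * A1 + κ) * l ^ A2 * l ^ C2 * l = l ^ C2 * (l ^ A2) ^ 2 := by
    have : l ^ (2 + 2 * A1 + κ) * l = l ^ A2 := by rw [hA2]; ring
    calc l ^ (2 + 2 * A1 + κ) * l ^ A2 * l ^ C2 * l = (l ^ (2 + 2 * A1 + κ) * l) * l ^ A2 * l ^ C2 := by
          ring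
      _ = l ^ A2 * l ^ A2 * l ^ C2 := by rw [this]
      _ = _ := by ring
  rcases Nat.eq_zero_or_pos l with h0 | hpos
  · subst h0
    have : CG = 0 := by
      by_contra h
      have : 0 < CG := Nat.pos_of_ne_zero h
      have : 0 < CG * 64 * (2 ^ 19 + 11520) := by positivity
      omega
    rw [this]; simp
  rw [e1]
  set S1 := l ^ (18 + A1 + κ + A2) * (l ^ A2) ^ 2 with hS1
  set S2 := l ^ (2 + 2 * A1 + κ) * l ^ A2 * l ^ C2 with hS2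
  set R := l ^ C2 * (l ^ A2) ^ 2 with hR
  have hS : S1 = S2 := Nat.eq_of_mul_eq_mul_right hpos (e2.trans e3.symm)
  rw [← hS]
  calc CG * 64 * 2 ^ 19 * S1 + CG * 64 * 11520 * S1 = S1 * (CG * 64 * (2 ^ 19 + 11520)) := by ring
    _ ≤ S1 * l := Nat.mul_le_mul_left _ hl
    _ = R := e2


lemma mem_GX4 {X : ℕ} {u : ℤ × ℤ} (h : u ∈ GX X) :
    (X : ℤ) < u.1 ∧ u.1 ≤ 2 * X ∧ -u.1 ≤ u.2 ∧ u.2 < u.1 := by
  rw [mem_GX] at h
  exact ⟨h.1.1, h.1.2, h.2.1, h.2.2⟩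

lemma nrm_GX {X : ℕ} {u : ℤ × ℤ} (h : u ∈ GX X) :
    (X : ℤ) ^ 2 < nrm 0 1 u ∧ nrm 0 1 u ≤ 8 * (X : ℤ) ^ 2 := by
  obtain ⟨h1, h2, h3, h4⟩ := mem_GX4 h
  rw [nrm01]
  have hX : (0 : ℤ) ≤ X := by positivity
  have h5 : |u.2| ≤ u.1 := abs_le.2 ⟨h3, h4.le⟩
  have h6 : u.2 ^ 2 ≤ u.1 ^ 2 := by
    rw [← sq_abs u.2]
    exact pow_le_pow_left₀ (abs_nonneg _) h5 2
  constructor
  · nlinarith [sq_nonneg u.2]
  · nlinarith

lemma GX_SB {X : ℕ} (hX : 1 ≤ X) {u : ℤ × ℤ} (h : u ∈ GX X) :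
    u ∈ SB (8 * X ^ 2) ∧ th u ≠ 2 ∧ u ≠ 0 := by
  obtain ⟨h1, h2, h3, h4⟩ := mem_GX4 h
  obtain ⟨h5, h6⟩ := nrm_GX h
  have hXz : (1 : ℤ) ≤ X := by exact_mod_cast hX
  have hpos : 0 < u.1 := by linarith
  refine ⟨?_, ?_, ?_⟩
  · unfold SB
    rw [Finset.mem_filter, Finset.mem_product, Finset.mem_Icc, Finset.mem_Icc]
    push_cast
    refine ⟨⟨⟨by nlinarith, by nlinarith⟩, by nlinarith, by nlinarith⟩, by linarith, h6⟩
  · have := abs_th_lt hpos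
    rw [abs_lt] at this
    intro h
    linarith [this.2]
  · intro h0
    rw [h0] at hpos
    simp at hpos

/-- the exceptional set is small -/
lemma exc_final {P : Set ℕ} {Q L J N l a x CW Z : ℕ} [NeZero Q] (hQ : Q = L * 2 ^ J) (hL : 20 ≤ L)
    (hLN : L ≤ N) (hl16 : 16 ≤ l) (hN2 : N < 2 ^ (l + 1)) (hN0 : 0 < N)
    (hx : x = l ^ (2 * a)) (ha : 20480 ≤ a) (hJ : J = 2 * l + 2)
    {b : ℕ → ℤ × ℤ} {Pr : Finset ℕ} (hPr : ∀ p ∈ Pr, p.Prime)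
    (hb : ∀ p ∈ Pr, nrm 0 1 (b p) = (p : ℤ)) (hPrx : ∀ p ∈ Pr, p ≤ 2 * x)
    (hPrc : (x : ℝ) / (4 * Real.log x) ≤ Pr.card) (hPr2 : 2 * l ≤ Pr.card)
    (hNZ : N ≤ 1000 * Z ^ 640) (hZ : 2 * (5760 * x) ^ 32 * CW ^ 2 ≤ Z)
    {δ : ℝ} (hδ : δ = 1 / (8 * l)) (E : Finset (ZMod Q))
    (hE1 : ∀ k ∈ E, ∀ i ≤ J, ‖ch (k * ((2 ^ i : ℕ) : ZMod Q)) - 1‖ ≤ δ)
    (hE2 : ∀ k ∈ E, ∀ p ∈ Pr,
      ‖ch (k * ((pos Q (b p) : ℤ) : ZMod Q)) - ((col P 0 1 (b p) : ℝ) : ℂ)‖ ≤ δ) :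
    (10 * E.card) ^ 16 * CW ≤ Z := by
  have hlr : (16 : ℝ) ≤ l := by exact_mod_cast hl16
  have hNr : (0 : ℝ) < N := by exact_mod_cast hN0
  have hx2 : 2 ≤ x := by
    rw [hx]
    calc 2 ≤ l := by omega
      _ = l ^ 1 := (pow_one l).symm
      _ ≤ l ^ (2 * a) := Nat.pow_le_pow_right (by omega) (by omega)
  set r := Nat.log (2 * x) N with hr
  have hr1 : (2 * x) ^ r ≤ N := Nat.pow_log_le_self _ (by omega)
  have hr2 : N < (2 * x) ^ (r + 1) := Nat.lt_pow_succ_log_self (by omega) _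
  have hrl : r ≤ l := by
    by_contra hcon
    push Not at hcon
    have h1 : 2 ^ (l + 1) ≤ (2 * x) ^ r :=
      (Nat.pow_le_pow_right (by norm_num) hcon).trans (Nat.pow_le_pow_left (by omega) r)
    omega
  have hcard : (Pr.powersetCard r).card = Pr.card.choose r := Finset.card_powersetCard _ _
  have h1 := exc_card (P := P) hPr hb (r := r) (J := J) (M' := (N : ℝ)) hNr (by
      intro T hT
      rw [Finset.mem_powersetCard] at hT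
      rw [nrm_aT]
      have h2 : ∏ p ∈ T, nrm 0 1 (b p) = ((∏ p ∈ T, p : ℕ) : ℤ) := by
        push_cast
        exact Finset.prod_congr rfl (fun p hp => hb p (hT.1 hp))
      rw [h2]
      have h3 : ∏ p ∈ T, p ≤ (2 * x) ^ r := by
        have := Finset.prod_le_pow_card T (fun p => p) (2 * x) (fun p hp => hPrx p (hT.1 hp))
        rwa [hT.2] at this
      have h4 : ∏ p ∈ T, p ≤ N := h3.trans hr1
      exact_mod_cast h4) hQ hL (δ := δ) (by rw [hδ]; positivity) (by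
      rw [hδ, hJ]
      push_cast
      rw [mul_one_div, div_le_div_iff₀ (by positivity) (by norm_num)]
      linarith) (by
      rw [hδ]
      have : (r : ℝ) ≤ l := by exact_mod_cast hrl
      rw [mul_one_div, div_le_div_iff₀ (by positivity) (by norm_num)]
      linarith) E hE1 hE2 (by
      rw [hcard]; exact Nat.choose_pos (by omega))
  rw [hcard] at h1
  have h2 : (E.card : ℝ) * (Pr.card.choose r) ≤ 288 * N := by
    refine h1.trans ?_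
    have : (L : ℝ) ≤ N := by exact_mod_cast hLN
    linarith
  have h3 := exc_num (by omega) hN2 hx2 hr1 hr2 (by omega) hPrc h2
  have h3' : E.card ≤ 576 * x * (16 * l) ^ r := by exact_mod_cast h3
  set y := (16 * l) ^ r with hy
  have hy1 : 1 ≤ y := Nat.one_le_pow _ _ (by omega)
  have hya : y ^ 20480 ≤ N := by
    calc y ^ 20480 ≤ y ^ a := Nat.pow_le_pow_right hy1 ha
      _ = ((16 * l) ^ a) ^ r := by rw [hy, ← pow_mul, ← pow_mul, mul_comm r a]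
      _ ≤ (2 * x) ^ r := by
          apply Nat.pow_le_pow_left
          rw [hx]
          calc (16 * l) ^ a ≤ (l * l) ^ a := Nat.pow_le_pow_left (Nat.mul_le_mul_right _ hl16) a
            _ = l ^ (2 * a) := by rw [← sq, ← pow_mul]
            _ ≤ 2 * l ^ (2 * a) := by omega
      _ ≤ N := hr1
  have hy32 : y ^ 32 ≤ 2 * Z := by
    have h4 : (y ^ 32) ^ 640 ≤ (2 * Z) ^ 640 := by
      calc (y ^ 32) ^ 640 = y ^ 20480 := by rw [← pow_mul]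
        _ ≤ N := hya
        _ ≤ 1000 * Z ^ 640 := hNZ
        _ ≤ 2 ^ 640 * Z ^ 640 := by
            apply Nat.mul_le_mul_right
            calc 1000 ≤ 2 ^ 10 := by norm_num
              _ ≤ 2 ^ 640 := Nat.pow_le_pow_right (by norm_num) (by norm_num)
        _ = (2 * Z) ^ 640 := by rw [mul_pow]
    exact (Nat.pow_le_pow_iff_left (by norm_num)).1 h4
  have h5 : (10 * E.card) ^ 16 * CW ≤ (5760 * x * y) ^ 16 * CW := by
    apply Nat.mul_le_mul_right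
    apply Nat.pow_le_pow_left
    calc 10 * E.card ≤ 10 * (576 * x * y) := Nat.mul_le_mul_left _ h3'
      _ = 5760 * x * y := by ring
  refine h5.trans ?_
  have h6 : ((5760 * x * y) ^ 16 * CW) ^ 2 ≤ Z ^ 2 := by
    calc ((5760 * x * y) ^ 16 * CW) ^ 2 = ((5760 * x) ^ 32 * CW ^ 2) * y ^ 32 := by ring
      _ ≤ ((5760 * x) ^ 32 * CW ^ 2) * (2 * Z) := Nat.mul_le_mul_left _ hy32
      _ = (2 * (5760 * x) ^ 32 * CW ^ 2) * Z := by ring
      _ ≤ Z * Z := Nat.mul_le_mul_right _ hZ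
      _ = Z ^ 2 := (sq Z).symm
  exact (Nat.pow_le_pow_iff_left (by norm_num)).1 h6

end Pool.Agent.Lib.MP_a17b09_nt.LP
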