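import Pool.Agent.Lib.MP_a17b09_nt.LP.Fin2

set_option autoImplicit false

open Finset

namespace Pool.Agent.Lib.MP_a17b09_nt.LP

/-- choice of the parameter `Z` -/
lemma exists_Z {N l K3 k : ℕ} (hl1 : 1 ≤ l) (hN1 : 2 ^ l ≤ N) (hK3 : 640 ≤ K3)
    (hK : 325 * (K3 ^ 640 * l ^ (640 * k)) ≤ 2 ^ l) :
    ∃ Z : ℕ, 64 * Z ^ 640 ≤ N / 5 ∧ N ≤ 1000 * Z ^ 640 ∧ K3 * l ^ k ≤ Z ∧ 640 ≤ Z := by
  obtain ⟨Z, hZ1, hZ2⟩ := exists_root (fun Z => 64 * Z ^ 640) (by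
    intro n
    rcases Nat.eq_zero_or_pos n with h | h
    · rw [h]; exact Nat.zero_le _
    · have : n ^ 1 ≤ n ^ 640 := Nat.pow_le_pow_right h (by norm_num)
      rw [pow_one] at this
      omega) (N / 5) (by
    have : (0 : ℕ) ^ 640 = 0 := zero_pow (by norm_num)
    simp only [this]; omega)
  replace hZ1 : 64 * Z ^ 640 ≤ N / 5 := hZ1
  replace hZ2 : N / 5 < 64 * (Z + 1) ^ 640 := hZ2
  have hN5 : N < 5 * (N / 5) + 5 := by
    have := Nat.lt_div_mul_add (a := N) (b := 5) (by norm_num)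
    omega
  have hbig : K3 * l ^ k ≤ Z := by
    by_contra hcon
    push Not at hcon
    have h1 : (Z + 1) ^ 640 ≤ (K3 * l ^ k) ^ 640 := Nat.pow_le_pow_left hcon 640
    have h2 : (K3 * l ^ k) ^ 640 = K3 ^ 640 * l ^ (640 * k) := by
      rw [mul_pow, ← pow_mul, mul_comm k 640]
    rw [h2] at h1
    have hT1 : 1 ≤ K3 ^ 640 * l ^ (640 * k) :=
      Nat.mul_pos (pow_pos (by omega) _) (pow_pos (by omega) _)
    have h3 := hK.trans hN1
    generalize K3 ^ 640 * l ^ (640 * k) = T at *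
    generalize (Z + 1) ^ 640 = U at *
    omega
  have hlk : 1 ≤ l ^ k := Nat.one_le_pow _ _ hl1
  have hZ640 : 640 ≤ Z := by
    calc 640 ≤ K3 := hK3
      _ = K3 * 1 := (mul_one _).symm
      _ ≤ K3 * l ^ k := Nat.mul_le_mul_left _ hlk
      _ ≤ Z := hbig
  refine ⟨Z, hZ1, ?_, hbig, hZ640⟩
  have h4 := succ_pow_le Z hZ640
  have h5 : 1 ≤ Z ^ 640 := Nat.one_le_pow _ _ (by omega)
  generalize Z ^ 640 = V at *
  generalize (Z + 1) ^ 640 = U at *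
  omega


lemma card_primes_ge {x l a : ℕ} {c : ℕ} (hx : x = l ^ (2 * a)) (ha : 2 ≤ a) (hl : 16 * a ≤ l)
    (hc : (x : ℝ) / (4 * Real.log x) ≤ c) : 2 * l ≤ c := by
  have hl0 : 0 < l := by omega
  have hlr : (0 : ℝ) < l := by exact_mod_cast hl0
  have har : (0 : ℝ) < a := by
    have : 0 < a := by omega
    exact_mod_cast this
  have h1 : Real.log x = 2 * a * Real.log l := by
    rw [hx]; push_cast; rw [Real.log_pow]; push_cast; ring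
  have h2 : Real.log l ≤ l := Real.log_le_self hlr.le
  have h3 : 0 < Real.log l := Real.log_pos (by
    have : 1 < l := by omega
    exact_mod_cast this)
  have h4 : (2 * l : ℝ) ≤ x / (4 * Real.log x) := by
    rw [h1, le_div_iff₀ (by positivity)]
    have h5 : l ^ 3 ≤ x := by
      rw [hx]; exact Nat.pow_le_pow_right hl0 (by omega)
    have h6 : (l : ℝ) ^ 3 ≤ x := by exact_mod_cast h5
    have h7 : (16 * a : ℝ) ≤ l := by exact_mod_cast hl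
    calc (2 * l : ℝ) * (4 * (2 * a * Real.log l)) ≤ 2 * l * (4 * (2 * a * l)) := by gcongr
      _ = (16 * a) * (l : ℝ) ^ 2 := by ring
      _ ≤ l * (l : ℝ) ^ 2 := by gcongr
      _ = (l : ℝ) ^ 3 := by ring
      _ ≤ x := h6
  exact_mod_cast h4.trans hc

/-- main inequality in real numbers -/
lemma num_real {l A1 κ CG CEn A2 C2 x K2 J Btc b En N : ℕ} {X : ℝ} (hX : 0 < X)
    (hA2 : A2 = 2 * A1 + κ + 3) (hC2 : C2 = 19 + A1 + A2 + κ)
    (hCG : CG = 4800 * 2000 * 512 * CEn * 2 ^ κ)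
    (hl : CG * 64 * (2 ^ 19 + 11520) ≤ l) (hl1 : 0 < l) (hx : x = l ^ A1) (hK2 : K2 = l ^ A2)
    (hJ : J + 1 + Btc ≤ 2 * x) (hN : (N : ℝ) ≤ 1000 * X ^ 4)
    (hb : (b : ℝ) * ((l : ℝ) ^ C2 * K2 ^ 2) ≤
      N * (2 ^ 19 * (l : ℝ) ^ 16 * K2 ^ 2 + 2880 * (4 * x : ℕ) * (l : ℝ) ^ C2))
    (hEn : (En : ℝ) ≤ 512 * CEn * 2 ^ κ * K2 * (l : ℝ) ^ κ * X ^ 4) :
    4800 * ((J : ℝ) + 1 + Btc) * b * En ≤ (1 / (8 * (l : ℝ))) ^ 2 * X ^ 8 := by
  have hlr : (0 : ℝ) < l := by exact_mod_cast hl1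
  have h1 := num_main (CG := CG) hA2 hC2 hl
  rw [← hx, ← hK2] at h1
  have h1' : (CG : ℝ) * 64 * (l : ℝ) ^ 2 * x * (l : ℝ) ^ κ * K2 *
      (2 ^ 19 * (l : ℝ) ^ 16 * (K2 : ℝ) ^ 2 + 11520 * x * (l : ℝ) ^ C2) ≤
      (l : ℝ) ^ C2 * (K2 : ℝ) ^ 2 := by exact_mod_cast h1
  have hJr : (J : ℝ) + 1 + Btc ≤ 2 * x := by exact_mod_cast hJ
  have hK2r : (0 : ℝ) < K2 := by
    rw [hK2]; push_cast; positivity
  have hT : (0 : ℝ) < (l : ℝ) ^ C2 * (K2 : ℝ) ^ 2 := by positivity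
  have hCGr : (CG : ℝ) = 4800 * 2000 * 512 * CEn * 2 ^ κ := by rw [hCG]; push_cast; ring
  have h2 : (4800 * ((J : ℝ) + 1 + Btc) * b * En) * ((l : ℝ) ^ C2 * (K2 : ℝ) ^ 2) ≤
      ((1 / (8 * (l : ℝ))) ^ 2 * X ^ 8) * ((l : ℝ) ^ C2 * (K2 : ℝ) ^ 2) := by
    calc (4800 * ((J : ℝ) + 1 + Btc) * b * En) * ((l : ℝ) ^ C2 * (K2 : ℝ) ^ 2)
        = 4800 * ((J : ℝ) + 1 + Btc) * (b * ((l : ℝ) ^ C2 * (K2 : ℝ) ^ 2)) * En := by ring
      _ ≤ 4800 * (2 * x) * ((1000 * X ^ 4) * (2 ^ 19 * (l : ℝ) ^ 16 * K2 ^ 2 +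
          2880 * (4 * x : ℕ) * (l : ℝ) ^ C2)) *
          (512 * CEn * 2 ^ κ * K2 * (l : ℝ) ^ κ * X ^ 4) := by
          have hb' := hb.trans (mul_le_mul_of_nonneg_right hN
            (by positivity : (0 : ℝ) ≤ 2 ^ 19 * (l : ℝ) ^ 16 * K2 ^ 2 +
              2880 * (4 * x : ℕ) * (l : ℝ) ^ C2))
          have hJ' : 4800 * ((J : ℝ) + 1 + Btc) ≤ 4800 * (2 * x) := by linarith
          exact mul_le_mul (mul_le_mul hJ' hb' (by positivity) (by positivity)) hEn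
            (by positivity) (by positivity)
      _ = (1 / (8 * (l : ℝ))) ^ 2 * X ^ 8 * ((CG : ℝ) * 64 * (l : ℝ) ^ 2 * x * (l : ℝ) ^ κ * K2 *
          (2 ^ 19 * (l : ℝ) ^ 16 * (K2 : ℝ) ^ 2 + 11520 * x * (l : ℝ) ^ C2)) := by
          rw [hCGr]; push_cast; field_simp; ring
      _ ≤ (1 / (8 * (l : ℝ))) ^ 2 * X ^ 8 * ((l : ℝ) ^ C2 * (K2 : ℝ) ^ 2) := by gcongr
  exact le_of_mul_le_mul_right h2 hT

lemma le_two_mul_of_div {N K2 L : ℕ} (hK : 0 < K2) (hL : L = N / K2) (hL20 : 20 ≤ L) :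
    N ≤ 2 * K2 * L := by
  have h1 : N < (L + 1) * K2 := by
    rw [hL]
    have := Nat.lt_div_mul_add (a := N) (b := K2) hK
    nlinarith
  nlinarith

lemma le_of_sqrt_div {N M X0 : ℕ} (hX1 : X0 * X0 ≤ N / 5) (hM : M + 1 = (X0 + 1) ^ 2)
    (hN : 100 ≤ N) : M ≤ N := by
  have h2 : X0 * X0 * 5 ≤ N := (Nat.le_div_iff_mul_le (by norm_num)).1 hX1
  rcases Nat.lt_or_ge X0 4 with h | h
  · have : (X0 + 1) ^ 2 ≤ 4 ^ 2 := Nat.pow_le_pow_left (by omega) 2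
    omega
  · nlinarith

theorem main_T (A0 : ℕ) :
    ∃ C l0 : ℕ, ∀ N l : ℕ, l0 ≤ l → 2 ^ l ≤ N → N < 2 ^ (l + 1) → ∀ P : Set ℕ,
      (∃ p ∈ P, p.Prime ∧ p % 4 ≠ 3 ∧ p ≤ l ^ A0) → N ≤ (OS P N).card * l ^ C := by
  classical
  obtain ⟨CW, Z0, hW⟩ := weyl_weights
  obtain ⟨CE, hCE0, κ, hen⟩ := energy
  obtain ⟨x0, hx02, hprimes⟩ := Pool.Agent.Lib.QuadThree.primes_dyadic 4 (by norm_num) 1 (by norm_num)
  obtain ⟨CEn, hCEn⟩ : ∃ CEn : ℕ, CE ≤ CEn := exists_nat_ge CE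
  obtain ⟨a, ha⟩ : ∃ a : ℕ, a = 20480 + A0 := ⟨_, rfl⟩
  obtain ⟨A2, hA2⟩ : ∃ A2 : ℕ, A2 = 2 * (2 * a) + κ + 3 := ⟨_, rfl⟩
  obtain ⟨C2, hC2⟩ : ∃ C2 : ℕ, C2 = 19 + 2 * a + A2 + κ := ⟨_, rfl⟩
  obtain ⟨CG, hCG⟩ : ∃ CG : ℕ, CG = 4800 * 2000 * 512 * CEn * 2 ^ κ := ⟨_, rfl⟩
  obtain ⟨K4, hK4⟩ : ∃ K4 : ℕ, K4 = 2 * 5760 ^ 32 := ⟨_, rfl⟩
  obtain ⟨K3, hK3⟩ : ∃ K3 : ℕ, K3 = K4 * CW ^ 2 + Z0 + 640 := ⟨_, rfl⟩
  obtain ⟨l1, hl1⟩ := poly_le_two_pow (325 * K3 ^ 640) (640 * (32 * (2 * a)))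
  obtain ⟨l2, hl2⟩ := poly_le_two_pow 100 A2
  refine ⟨2 * C2, l1 + l2 + x0 + 16 + 16 * a + CG * 64 * (2 ^ 19 + 11520), ?_⟩
  intro N l hl hN1 hN2 P hP
  obtain ⟨p0, hp0P, hp0, hp04, hp0l⟩ := hP
  by_contra hcon
  push Not at hcon
  have hl16 : 16 ≤ l := by omega
  have hl0 : 0 < l := by omega
  have hN0 : 0 < N := lt_of_lt_of_le (by positivity) hN1
  have hNr : (0 : ℝ) < N := by exact_mod_cast hN0
  have hlr : (16 : ℝ) ≤ l := by exact_mod_cast hl16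
  -- the parameters
  obtain ⟨x, hx⟩ : ∃ x : ℕ, x = l ^ (2 * a) := ⟨_, rfl⟩
  obtain ⟨K2, hK2⟩ : ∃ K2 : ℕ, K2 = l ^ A2 := ⟨_, rfl⟩
  have hxl : l * l ≤ x := by
    rw [hx, ← sq]; exact Nat.pow_le_pow_right hl0 (by omega)
  have hxl' : l ≤ x := le_trans (Nat.le_mul_self l) hxl
  have hxK2 : x ≤ K2 := by
    rw [hx, hK2]; exact Nat.pow_le_pow_right hl0 (by omega)
  have hK2N : 100 * K2 ≤ N := by rw [hK2]; exact (hl2 l (by omega)).trans hN1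
  obtain ⟨Z, hZ1, hZN, hZbig, hZ640⟩ := exists_Z (N := N) (l := l) (K3 := K3) (k := 32 * (2 * a))
    hl0 hN1 (by omega) (by
      have := hl1 l (by omega)
      rwa [mul_assoc] at this)
  have hZK : 2 * (5760 * x) ^ 32 * CW ^ 2 ≤ Z := by
    refine le_trans ?_ hZbig
    rw [mul_pow, hx, ← pow_mul, mul_comm (2 * a) 32]
    calc 2 * (5760 ^ 32 * l ^ (32 * (2 * a))) * CW ^ 2 =
        (2 * 5760 ^ 32) * CW ^ 2 * l ^ (32 * (2 * a)) := by ring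
      _ = K4 * CW ^ 2 * l ^ (32 * (2 * a)) := by rw [hK4]
      _ ≤ K3 * l ^ (32 * (2 * a)) := by
          apply Nat.mul_le_mul_right
          omega
  have hZ0 : Z0 ≤ Z := by
    refine le_trans ?_ hZbig
    calc Z0 ≤ K3 := by omega
      _ = K3 * 1 := (mul_one _).symm
      _ ≤ K3 * l ^ (32 * (2 * a)) := Nat.mul_le_mul_left _ (Nat.one_le_pow _ _ hl0)
  have hZpos : 0 < Z := by omega
  have hZr : (0 : ℝ) < Z := by exact_mod_cast hZpos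
  obtain ⟨X0, hX0⟩ : ∃ X0 : ℕ, X0 = Nat.sqrt (N / 5) := ⟨_, rfl⟩
  have hX1 : X0 * X0 ≤ N / 5 := by rw [hX0]; exact Nat.sqrt_le _
  have hX2 : N / 5 < (X0 + 1) * (X0 + 1) := by rw [hX0]; exact Nat.lt_succ_sqrt _
  obtain ⟨M, hM⟩ : ∃ M : ℕ, M + 1 = (X0 + 1) ^ 2 := by
    have : 1 ≤ (X0 + 1) ^ 2 := Nat.one_le_pow _ _ (by omega)
    exact ⟨(X0 + 1) ^ 2 - 1, by omega⟩
  have hNM : N / 5 ≤ M := by
    have : N / 5 < M + 1 := by rw [hM, sq]; exact hX2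
    omega
  obtain ⟨K1, hK1⟩ : ∃ K1 : ℕ, K1 = 4 * x := ⟨_, rfl⟩
  obtain ⟨M0, hM0⟩ : ∃ M0 : ℕ, M0 = M / K1 := ⟨_, rfl⟩
  obtain ⟨n, hn⟩ : ∃ n : ℕ, n = Nat.sqrt (M0 / 5) := ⟨_, rfl⟩
  have hn1 : n * n ≤ M0 / 5 := by rw [hn]; exact Nat.sqrt_le _
  have hn2 : M0 / 5 < (n + 1) * (n + 1) := by rw [hn]; exact Nat.lt_succ_sqrt _
  have hxpos : 0 < x := by omega
  have hK2pos : 0 < K2 := by omega
  have hK1pos : 0 < K1 := by omega
  have hM05 : 5 ≤ M0 := by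
    rw [hM0, Nat.le_div_iff_mul_le hK1pos, hK1]
    refine le_trans ?_ hNM
    rw [Nat.le_div_iff_mul_le (by norm_num)]
    calc 5 * (4 * x) * 5 = 100 * x := by ring
      _ ≤ 100 * K2 := Nat.mul_le_mul_left _ hxK2
      _ ≤ N := hK2N
  have hn0 : 0 < n := by
    by_contra h
    have : n = 0 := by omega
    rw [this] at hn2
    have : 1 ≤ M0 / 5 := by
      rw [Nat.le_div_iff_mul_le (by norm_num)]; omega
    omega
  obtain ⟨L, hLdef⟩ : ∃ L : ℕ, L = N / K2 := ⟨_, rfl⟩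
  have hLN : L * K2 ≤ N := by rw [hLdef]; exact Nat.div_mul_le_self _ _
  have hL20 : 20 ≤ L := by
    rw [hLdef, Nat.le_div_iff_mul_le hK2pos]; omega
  have hLleN : L ≤ N := by rw [hLdef]; exact Nat.div_le_self _ _
  have hNL : N ≤ 2 * K2 * L := le_two_mul_of_div hK2pos hLdef hL20
  obtain ⟨J, hJ⟩ : ∃ J : ℕ, J = 2 * l + 2 := ⟨_, rfl⟩
  obtain ⟨Q, hQ⟩ : ∃ Q : ℕ, Q = L * 2 ^ J := ⟨_, rfl⟩
  have hQpos : 0 < Q := by rw [hQ]; exact Nat.mul_pos (by omega) (by positivity)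
  have hQne : NeZero Q := ⟨hQpos.ne'⟩
  -- the geometry
  obtain ⟨B, hB⟩ : ∃ B : ℕ, B = 8 * (Z ^ 160) ^ 2 := ⟨_, rfl⟩
  have hXpos : 0 < Z ^ 160 := pow_pos hZpos _
  have hB2 : B ^ 2 = 64 * Z ^ 640 := by
    rw [hB]; ring
  have hBM : B ^ 2 ≤ M := by rw [hB2]; exact hZ1.trans hNM
  have hB1 : 1 ≤ B := by
    rw [hB]
    have : 1 ≤ (Z ^ 160) ^ 2 := Nat.one_le_pow _ _ hXpos
    omega
  have hBN : B ≤ N := by
    calc B ≤ B ^ 2 := Nat.le_self_pow (by norm_num) B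
      _ ≤ M := hBM
      _ ≤ N := le_of_sqrt_div hX1 hM (by omega)
  obtain ⟨X, hXdef⟩ : ∃ X : ℝ, X = ((Z ^ 160 : ℕ) : ℝ) := ⟨_, rfl⟩
  have hXr : (0 : ℝ) < X := by rw [hXdef]; exact_mod_cast hXpos
  have hX4 : X ^ 4 = ((Z ^ 640 : ℕ) : ℝ) := by rw [hXdef]; push_cast; ring
  have hNX : (N : ℝ) ≤ 1000 * X ^ 4 := by rw [hX4]; exact_mod_cast hZN
  -- the primes
  obtain ⟨bb, hbb⟩ := exists_b
  obtain ⟨Pr, hPrdef⟩ : ∃ Pr : Finset ℕ, Pr = (Finset.Ioc x (2 * x)).filter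
    (fun p => p.Prime ∧ p ≡ 1 [MOD 4]) := ⟨_, rfl⟩
  have hPr : ∀ p ∈ Pr, p.Prime := by
    intro p hp; rw [hPrdef, Finset.mem_filter] at hp; exact hp.2.1
  have hPr2 : ∀ p ∈ Pr, p ≤ 2 * x := by
    intro p hp; rw [hPrdef, Finset.mem_filter, Finset.mem_Ioc] at hp; exact hp.1.2
  have hPrb : ∀ p ∈ Pr, nrm 0 1 (bb p) = (p : ℤ) := by
    intro p hp
    rw [hPrdef, Finset.mem_filter] at hp
    apply hbb p hp.2.1
    have := hp.2.2
    unfold Nat.ModEq at this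
    omega
  have hPrc : (x : ℝ) / (4 * Real.log x) ≤ Pr.card := by
    have h1 := hprimes x (by omega)
    rw [← hPrdef] at h1
    have h2 : (Nat.totient 4 : ℝ) = 2 := by
      have : Nat.totient 4 = 2 := by decide
      exact_mod_cast this
    rw [h2] at h1
    refine le_trans (le_of_eq ?_) h1
    congr 1; ring
  have hPrc2 : 2 * l ≤ Pr.card := card_primes_ge hx (by omega) (by omega) hPrc
  have hPrcard : Pr.card ≤ x := by
    rw [hPrdef]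
    refine (Finset.card_filter_le _ _).trans ?_
    rw [Nat.card_Ioc]; omega
  obtain ⟨Bt, hBt⟩ : ∃ Bt : Finset (ℤ × ℤ), Bt = insert (bb p0) (Pr.image bb) := ⟨_, rfl⟩
  have hBtc : Bt.card ≤ x + 1 := by
    rw [hBt]
    refine (Finset.card_insert_le _ _).trans ?_
    have := Finset.card_image_le (s := Pr) (f := bb)
    omega
  have hBtn : ∀ β ∈ Bt, 0 < nrm 0 1 β ∧ nrm 0 1 β ≤ K1 := by
    intro β hβ
    rw [hBt, Finset.mem_insert, Finset.mem_image] at hβ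
    rcases hβ with rfl | ⟨p, hp, rfl⟩
    · rw [hbb p0 hp0 hp04]
      have h1 : p0 ≤ x := hp0l.trans (by rw [hx]; exact Nat.pow_le_pow_right hl0 (by omega))
      have h2 := hp0.pos
      constructor
      · exact_mod_cast h2
      · rw [hK1]; push_cast
        have : (p0 : ℤ) ≤ x := by exact_mod_cast h1
        have : (0 : ℤ) ≤ x := by positivity
        linarith
    · rw [hPrb p hp]
      have h1 := hPr2 p hp
      have h2 := (hPr p hp).pos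
      constructor
      · exact_mod_cast h2
      · rw [hK1]; push_cast
        have : (p : ℤ) ≤ 2 * x := by exact_mod_cast h1
        have : (0 : ℤ) ≤ x := by positivity
        linarith
  -- the weights and the energy
  have hG : ∀ u ∈ GX (Z ^ 160), u ∈ SB B ∧ th u ≠ 2 ∧ u ≠ 0 := by
    intro u hu
    rw [hB]; exact GX_SB hXpos hu
  obtain ⟨En0, hEn0⟩ : ∃ En0 : ℕ, En0 = (((SB B ×ˢ SB B) ×ˢ (SB B ×ˢ SB B)).filter (fun p =>
      |(mulp 0 1 (mulp 0 1 p.1.1 p.1.2) (mulp 0 1 p.2.1 p.2.2)).2| ≤ ((2 * K2 : ℕ) : ℤ))).card :=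
    ⟨_, rfl⟩
  have henergy := hen B (2 * K2) hB1 (by omega)
  rw [← hEn0] at henergy
  have htransfer := fun S hS hd => energy_transfer (Q := Q) (Y := 2 ^ J) (L := L) hQ (by positivity)
    hL20 hB1 (GX (Z ^ 160)) (fun u hu => ⟨(hG u hu).1, (hG u hu).2.1⟩) (2 * K2) (by
      calc 4 * B ^ 2 ≤ N := by
            rw [hB2]
            have := (Nat.le_div_iff_mul_le (by norm_num)).1 hZ1
            omega
        _ ≤ 2 * K2 * L := hNL) S hS hd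
  rw [← hEn0] at htransfer
  have hEnr : (((4 * En0 : ℕ) : ℝ)) ≤ 512 * CEn * 2 ^ κ * K2 * (l : ℝ) ^ κ * X ^ 4 := by
    have h1 : 1 + Real.log B ≤ 2 * l := by
      refine le_trans ?_ (one_add_log_le (by omega) hN0 hN2)
      have : Real.log B ≤ Real.log N :=
        Real.log_le_log (by exact_mod_cast hB1) (by exact_mod_cast hBN)
      linarith
    have h0 : 0 ≤ 1 + Real.log B := by
      have : 0 ≤ Real.log B := Real.log_nonneg (by exact_mod_cast hB1)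
      linarith
    have h2 : (B : ℝ) ^ 2 = 64 * X ^ 4 := by rw [hX4]; exact_mod_cast hB2
    push_cast
    calc 4 * (En0 : ℝ) ≤ 4 * (CE * ((2 * K2 : ℕ) : ℝ) * (B : ℝ) ^ 2 * (1 + Real.log B) ^ κ) := by
          gcongr
      _ ≤ 4 * (CEn * ((2 * K2 : ℕ) : ℝ) * (64 * X ^ 4) * (2 * l) ^ κ) := by
          rw [h2]; gcongr
      _ = 512 * CEn * 2 ^ κ * K2 * (l : ℝ) ^ κ * X ^ 4 := by
          push_cast; rw [mul_pow]; ring
  -- bad cells
  obtain ⟨b, hb⟩ : ∃ b : ℕ, b = ((range L).filter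
    (fun c : ℕ => ¬ NiceC P Q (2 ^ J) (M : ℤ) (M0 : ℤ) c)).card := ⟨_, rfl⟩
  have hbnum := bad_num (P := P) (N := N) (l := l) (C2 := C2) (K1 := K1) (K2 := K2) (n := n)
    (by omega) hN2 hcon hQ (by positivity) hL20 hLN hK2pos hK1pos hX1 hX2 hM hM0 hn1 hn2 hn0
  rw [← hb] at hbnum
  -- the Weyl sums
  have hQZ : Z ^ 1000 ≤ Q := by
    have h1 : Z ^ 640 ≤ N := by
      have := (Nat.le_div_iff_mul_le (by norm_num)).1 hZ1
      omega
    calc Z ^ 1000 ≤ Z ^ 1280 := Nat.pow_le_pow_right hZpos (by norm_num)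
      _ = Z ^ 640 * Z ^ 640 := by rw [← pow_add]
      _ ≤ N * N := Nat.mul_le_mul h1 h1
      _ ≤ 2 ^ (l + 1) * 2 ^ (l + 1) := Nat.mul_le_mul hN2.le hN2.le
      _ = 2 ^ J := by rw [← pow_add, hJ]; congr 1; omega
      _ ≤ Q := by rw [hQ]; exact Nat.le_mul_of_pos_left _ (by omega)
  obtain ⟨v, hv⟩ : ∃ v : ℝ, v = X * ((CW : ℝ) / Z) ^ ((1 : ℝ) / 16) := ⟨_, rfl⟩
  have hv0 : 0 ≤ v := by rw [hv]; positivity
  have hv16 : v ^ 16 = X ^ 16 * (CW / Z) := by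
    rw [hv, mul_pow, ← Real.rpow_natCast (((CW : ℝ) / Z) ^ ((1 : ℝ) / 16)) 16,
      ← Real.rpow_mul (by positivity)]
    norm_num
  refine core (P := P) (Q := Q) (L := L) (J := J) hQ hL20 (M := (M : ℤ)) (M0 := (M0 : ℤ))
    (by
      have : M0 ≤ M := by rw [hM0]; exact Nat.div_le_self _ _
      exact_mod_cast this) (B := B) (by exact_mod_cast hBM) (GX (Z ^ 160)) wt X hXr
    (fun u hu => ⟨(hG u hu).2.2, (mem_SB (hG u hu).1).2⟩)
    (fun u hu => (wt_bounds hXpos hu).1) (by rw [hXdef]; exact fun u hu => (wt_bounds hXpos hu).2)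
    (by rw [hXdef]; exact sum_wt _)
    Bt (by
      intro β hβ
      obtain ⟨h1, h2⟩ := hBtn β hβ
      refine ⟨ne_zero_of_nrm h1.ne', ?_⟩
      have h3 : (K1 : ℤ) * M0 ≤ M := by
        have : K1 * M0 ≤ M := by rw [hM0]; exact Nat.mul_div_le _ _
        exact_mod_cast this
      refine le_trans ?_ h3
      gcongr) (bb p0) (by rw [hBt]; exact Finset.mem_insert_self _ _)
    (by
      unfold col
      rw [hbb p0 hp0 hp04]
      exact sgn_prime hp0 hp0P) (1 / (8 * (l : ℝ))) (by positivity) (by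
      rw [div_le_one (by positivity)]; linarith) b (4 * En0) (by rw [hb]) ?_ ?_ v hv0 ?_ ?_ (by
      rw [div_lt_one (by positivity)]; linarith)
  · intro S hS hd
    exact htransfer S hS hd
  · refine num_real hXr hA2 hC2 hCG (by omega) hl0 hx hK2 ?_ hNX (by rw [← hK1]; exact hbnum) hEnr
    have h1 : 16 * l ≤ l * l := Nat.mul_le_mul_right _ hl16
    omega
  · intro m hm hmL
    have h4m : 4 * |m| ≤ (Z : ℤ) ^ 660 := by
      have h1 : 4 * |m| ≤ 2 * (N : ℤ) := by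
        have : (L : ℤ) ≤ N := by exact_mod_cast hLleN
        linarith
      have h2 : 2 * N ≤ Z ^ 660 := by
        calc 2 * N ≤ 2 * (1000 * Z ^ 640) := Nat.mul_le_mul_left _ hZN
          _ = 2000 * Z ^ 640 := by ring
          _ ≤ Z ^ 20 * Z ^ 640 := by
              apply Nat.mul_le_mul_right
              calc 2000 ≤ 640 ^ 2 := by norm_num
                _ ≤ Z ^ 2 := Nat.pow_le_pow_left hZ640 2
                _ ≤ Z ^ 20 := Nat.pow_le_pow_right hZpos (by norm_num)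
          _ = Z ^ 660 := by rw [← pow_add]
      have h3 : (2 : ℤ) * N ≤ (Z : ℤ) ^ 660 := by exact_mod_cast h2
      linarith
    have h5 := hW Z hZ0 Q hQZ m hm h4m
    have h6 : ‖∑ u ∈ GX (Z ^ 160), (wt u : ℂ) * ch ((m : ZMod Q) * ((pos Q u : ℤ) : ZMod Q))‖ ^ 16 ≤
        v ^ 16 := by
      rw [hv16, ← mul_div_assoc, le_div_iff₀ hZr]
      refine h5.trans (le_of_eq ?_)
      rw [hXdef]; push_cast; ring
    exact (pow_le_pow_iff_left₀ (norm_nonneg _) hv0 (by norm_num)).1 h6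
  · intro E hE1 hE2
    have h7 := exc_final (P := P) (a := a) hQ hL20 hLleN hl16 hN2 hN0 hx (by omega) hJ hPr hPrb hPr2
      hPrc hPrc2 hZN hZK (δ := 1 / (8 * (l : ℝ))) rfl E hE1 (by
        intro k hk p hp
        exact hE2 k hk (bb p) (by
          rw [hBt]
          exact Finset.mem_insert_of_mem (Finset.mem_image_of_mem _ hp)))
    have h8 : ((10 * (E.card : ℝ)) * v) ^ 16 ≤ X ^ 16 := by
      rw [mul_pow, hv16]
      have h9 : (10 * (E.card : ℝ)) ^ 16 * CW ≤ Z := by exact_mod_cast h7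
      calc (10 * (E.card : ℝ)) ^ 16 * (X ^ 16 * (CW / Z)) =
          X ^ 16 * (((10 * (E.card : ℝ)) ^ 16 * CW) / Z) := by ring
        _ ≤ X ^ 16 * 1 := by
            gcongr
            rw [div_le_one hZr]; exact h9
        _ = X ^ 16 := mul_one _
    have h10 := (pow_le_pow_iff_left₀ (by positivity) hXr.le (by norm_num)).1 h8
    linarith

end Pool.Agent.Lib.MP_a17b09_nt.LP
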