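import Mathlib

set_option autoImplicit false

open Finset

namespace Pool.Agent.Lib.MP_a17b09_nt.LP

open scoped ComplexConjugate

section Basic

variable {Q : ℕ} [NeZero Q]

/-- the additive character `x ↦ exp(2πi x / Q)` of `ZMod Q` -/
noncomputable def ch (x : ZMod Q) : ℂ := ZMod.stdAddChar x

lemma ch_add (x y : ZMod Q) : ch (x + y) = ch x * ch y := by
  unfold ch; exact AddChar.map_add_eq_mul _ _ _

lemma ch_zero : ch (0 : ZMod Q) = 1 := by
  unfold ch; exact AddChar.map_zero_eq_one _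

lemma norm_ch (x : ZMod Q) : ‖ch x‖ = 1 := by
  unfold ch
  rw [ZMod.stdAddChar_apply]
  exact Circle.norm_coe _

lemma ch_neg (x : ZMod Q) : ch (-x) = conj (ch x) := by
  have h : ch (-x) * ch x = 1 := by rw [← ch_add, neg_add_cancel, ch_zero]
  have h2 : conj (ch x) * ch x = 1 := by
    rw [mul_comm, Complex.mul_conj', norm_ch]; norm_num
  have h3 : ch x ≠ 0 := by
    intro h0; rw [h0, mul_zero] at h; exact zero_ne_one h
  exact mul_right_cancel₀ h3 (h.trans h2.symm)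

lemma ch_intCast (j : ℤ) : ch (j : ZMod Q) = Complex.exp (2 * Real.pi * Complex.I * j / Q) := by
  unfold ch; exact ZMod.stdAddChar_coe j

lemma sum_ch (x : ZMod Q) : ∑ k : ZMod Q, ch (k * x) = if x = 0 then (Q : ℂ) else 0 := by
  unfold ch
  have h := AddChar.sum_mulShift (R := ZMod Q) (R' := ℂ) x (ZMod.isPrimitive_stdAddChar Q)
  rw [h, ZMod.card]
  push_cast
  rfl

/-- unnormalised Fourier transform -/
noncomputable def FT (f : ZMod Q → ℂ) (k : ZMod Q) : ℂ := ∑ x, f x * ch (-(k * x))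

theorem parseval (f : ZMod Q → ℂ) : ∑ k, ‖FT f k‖ ^ 2 = Q * ∑ x, ‖f x‖ ^ 2 := by
  have key : ((∑ k, ‖FT f k‖ ^ 2 : ℝ) : ℂ) = ((Q * ∑ x, ‖f x‖ ^ 2 : ℝ) : ℂ) := by
    push_cast
    have h1 : ∀ k : ZMod Q, ((‖FT f k‖ : ℂ)) ^ 2 =
        ∑ x, ∑ y, f x * conj (f y) * ch (k * (y - x)) := by
      intro k
      rw [← Complex.mul_conj']
      unfold FT
      rw [map_sum, Finset.sum_mul_sum]
      apply Finset.sum_congr rfl
      intro x _
      apply Finset.sum_congr rfl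
      intro y _
      have e : ch (k * (y - x)) = ch (-(k * x)) * conj (ch (-(k * y))) := by
        rw [← ch_neg, ← ch_add]; congr 1; ring
      rw [e, map_mul]; ring
    rw [Finset.sum_congr rfl (fun k _ => h1 k), Finset.sum_comm]
    have h2 : ∀ x : ZMod Q, ∑ k : ZMod Q, ∑ y, f x * conj (f y) * ch (k * (y - x)) =
        Q * (‖f x‖ : ℂ) ^ 2 := by
      intro x
      rw [Finset.sum_comm]
      have h3 : ∀ y : ZMod Q, ∑ k : ZMod Q, f x * conj (f y) * ch (k * (y - x)) =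
          if y = x then (Q : ℂ) * (f x * conj (f x)) else 0 := by
        intro y
        rw [← Finset.mul_sum, sum_ch]
        by_cases h : y = x
        · rw [if_pos h, if_pos (by rw [h]; ring), h]; ring
        · rw [if_neg h, if_neg (sub_ne_zero.2 h), mul_zero]
      rw [Finset.sum_congr rfl (fun y _ => h3 y), Finset.sum_ite_eq' Finset.univ x,
        if_pos (Finset.mem_univ _), Complex.mul_conj']
    rw [Finset.sum_congr rfl (fun x _ => h2 x), Finset.mul_sum]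
  exact_mod_cast key

theorem inversion (f : ZMod Q → ℂ) (x : ZMod Q) : ∑ k, FT f k * ch (k * x) = Q * f x := by
  have h1 : ∀ k : ZMod Q, FT f k * ch (k * x) = ∑ y, f y * ch (k * (x - y)) := by
    intro k
    unfold FT
    rw [Finset.sum_mul]
    apply Finset.sum_congr rfl
    intro y _
    have e : ch (k * (x - y)) = ch (-(k * y)) * ch (k * x) := by
      rw [← ch_add]; congr 1; ring
    rw [e]; ring
  rw [Finset.sum_congr rfl (fun k _ => h1 k), Finset.sum_comm]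
  have h3 : ∀ y : ZMod Q, ∑ k : ZMod Q, f y * ch (k * (x - y)) =
      if y = x then (Q : ℂ) * f x else 0 := by
    intro y
    rw [← Finset.mul_sum, sum_ch]
    by_cases h : y = x
    · rw [if_pos h, if_pos (by rw [h]; ring), h]; ring
    · rw [if_neg h, if_neg (sub_ne_zero.2 (Ne.symm h)), mul_zero]
  rw [Finset.sum_congr rfl (fun y _ => h3 y), Finset.sum_ite_eq' Finset.univ x,
    if_pos (Finset.mem_univ _)]

lemma FT_shift (f : ZMod Q → ℂ) (s k : ZMod Q) :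
    FT (fun x => f (x + s)) k = ch (k * s) * FT f k := by
  unfold FT
  rw [Finset.mul_sum]
  rw [← Equiv.sum_comp (Equiv.addRight s) (fun x => ch (k * s) * (f x * ch (-(k * x))))]
  apply Finset.sum_congr rfl
  intro x _
  simp only [Equiv.coe_addRight]
  have e : ch (-(k * x)) = ch (k * s) * ch (-(k * (x + s))) := by
    rw [← ch_add]; congr 1; ring
  rw [e]; ring

lemma FT_sub (f g : ZMod Q → ℂ) (k : ZMod Q) :
    FT (fun x => f x - g x) k = FT f k - FT g k := by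
  unfold FT
  rw [← Finset.sum_sub_distrib]
  apply Finset.sum_congr rfl
  intro x _
  ring

lemma FT_smul (c : ℂ) (f : ZMod Q → ℂ) (k : ZMod Q) :
    FT (fun x => c * f x) k = c * FT f k := by
  unfold FT
  rw [Finset.mul_sum]
  apply Finset.sum_congr rfl
  intro x _
  ring

/-- conjugation symmetry for real functions -/
lemma FT_neg_of_real (f : ZMod Q → ℝ) (k : ZMod Q) :
    ‖FT (fun x => (f x : ℂ)) (-k)‖ = ‖FT (fun x => (f x : ℂ)) k‖ := by
  have h : FT (fun x => (f x : ℂ)) (-k) = conj (FT (fun x => (f x : ℂ)) k) := by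
    unfold FT
    rw [map_sum]
    apply Finset.sum_congr rfl
    intro x _
    rw [map_mul, Complex.conj_ofReal, ← ch_neg]
    congr 2
    ring
  rw [h, Complex.norm_conj]

/-- spectral form of an approximate invariance -/
theorem test_bound (f : ZMod Q → ℝ) (hf : ∀ x, f x = 1 ∨ f x = -1) (s : ZMod Q) (σ : ℝ)
    (hσ : σ = 1 ∨ σ = -1) (B : ℕ)
    (hB : (Finset.univ.filter (fun x : ZMod Q => f (x + s) ≠ σ * f x)).card ≤ B) :
    ∑ k, ‖FT (fun x => (f x : ℂ)) k‖ ^ 2 * ‖ch (k * s) - σ‖ ^ 2 ≤ Q * (4 * B) := by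
  classical
  have h1 : ∀ k : ZMod Q, ‖FT (fun x => (f x : ℂ)) k‖ ^ 2 * ‖ch (k * s) - σ‖ ^ 2 =
      ‖FT (fun x => ((f (x + s) : ℂ)) - (σ : ℂ) * f x) k‖ ^ 2 := by
    intro k
    rw [FT_sub (fun x => (f (x + s) : ℂ)) (fun x => (σ : ℂ) * f x) k,
      FT_shift (fun x => (f x : ℂ)) s k, FT_smul, ← sub_mul, norm_mul]
    ring
  rw [Finset.sum_congr rfl (fun k _ => h1 k), parseval]
  gcongr
  have h2 : ∀ x : ZMod Q, ‖((f (x + s) : ℂ)) - (σ : ℂ) * f x‖ ^ 2 ≤
      if f (x + s) ≠ σ * f x then 4 else 0 := by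
    intro x
    split_ifs with h
    · have h3 : ‖((f (x + s) : ℂ)) - (σ : ℂ) * f x‖ ≤ 2 := by
        refine (norm_sub_le _ _).trans ?_
        have a1 : ‖(f (x + s) : ℂ)‖ = 1 := by
          rcases hf (x + s) with h | h <;> rw [h] <;> simp
        have a2 : ‖(σ : ℂ) * f x‖ = 1 := by
          rw [norm_mul]
          rcases hf x with h | h <;> rcases hσ with h' | h' <;> rw [h, h'] <;> simp
        rw [a1, a2]; norm_num
      calc ‖((f (x + s) : ℂ)) - (σ : ℂ) * f x‖ ^ 2 ≤ 2 ^ 2 := by gcongr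
        _ = 4 := by norm_num
    · push Not at h
      rw [h]; push_cast; simp
  refine (Finset.sum_le_sum (fun x _ => h2 x)).trans ?_
  rw [← Finset.sum_filter, Finset.sum_const, nsmul_eq_mul, mul_comm]
  gcongr

/-- the exceptional spectrum: frequencies passing all tests -/
noncomputable def Exc (tests : Finset (ZMod Q × ℝ)) (δ : ℝ) : Finset (ZMod Q) := by
  classical
  exact Finset.univ.filter (fun k => ∀ t ∈ tests, ‖ch (k * t.1) - t.2‖ ≤ δ)

lemma mem_Exc {tests : Finset (ZMod Q × ℝ)} {δ : ℝ} {k : ZMod Q} :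
    k ∈ Exc tests δ ↔ ∀ t ∈ tests, ‖ch (k * t.1) - t.2‖ ≤ δ := by
  unfold Exc
  simp

theorem mass_outside (f : ZMod Q → ℝ) (hf : ∀ x, f x = 1 ∨ f x = -1)
    (tests : Finset (ZMod Q × ℝ)) (B : ℕ) (δ : ℝ) (hδ : 0 < δ)
    (hσ : ∀ t ∈ tests, t.2 = 1 ∨ t.2 = -1)
    (hB : ∀ t ∈ tests, (Finset.univ.filter (fun x : ZMod Q => f (x + t.1) ≠ t.2 * f x)).card ≤ B) :
    δ ^ 2 * ∑ k ∈ (Exc tests δ)ᶜ, ‖FT (fun x => (f x : ℂ)) k‖ ^ 2 ≤
      tests.card * (Q * (4 * B)) := by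
  classical
  rw [Finset.mul_sum]
  have h1 : ∀ k ∈ (Exc tests δ)ᶜ, δ ^ 2 * ‖FT (fun x => (f x : ℂ)) k‖ ^ 2 ≤
      ∑ t ∈ tests, ‖FT (fun x => (f x : ℂ)) k‖ ^ 2 * ‖ch (k * t.1) - t.2‖ ^ 2 := by
    intro k hk
    rw [Finset.mem_compl, mem_Exc] at hk
    push Not at hk
    obtain ⟨t, ht, htδ⟩ := hk
    have h2 := Finset.single_le_sum
      (f := fun t : ZMod Q × ℝ => ‖FT (fun x => (f x : ℂ)) k‖ ^ 2 * ‖ch (k * t.1) - t.2‖ ^ 2)
      (s := tests) (by intro i _; positivity) ht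
    refine le_trans ?_ h2
    rw [mul_comm]
    gcongr
  refine (Finset.sum_le_sum h1).trans ?_
  refine (Finset.sum_le_sum_of_subset_of_nonneg (Finset.subset_univ _)
    (by intro k _ _; exact Finset.sum_nonneg (by intro i _; positivity))).trans ?_
  rw [Finset.sum_comm]
  calc ∑ t ∈ tests, ∑ k, ‖FT (fun x => (f x : ℂ)) k‖ ^ 2 * ‖ch (k * t.1) - t.2‖ ^ 2
      ≤ ∑ t ∈ tests, ((Q : ℝ) * (4 * B)) := by
        apply Finset.sum_le_sum
        intro t ht
        exact test_bound f hf t.1 t.2 (hσ t ht) B (hB t ht)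
    _ = _ := by rw [Finset.sum_const, nsmul_eq_mul]

/-- Bessel-type inequality with almost orthogonal characters -/
theorem bessel {ι : Type*} (G : Finset ι) (w : ι → ℝ) (hw : ∀ i ∈ G, 0 ≤ w i) (c : ι → ℂ)
    (hc : ∀ i ∈ G, ‖c i‖ ≤ 1) (g : ι → ZMod Q) (E : Finset (ZMod Q)) (v : ℝ) (hv0 : 0 ≤ v)
    (hv : ∀ k ∈ E, ∀ k' ∈ E, k ≠ k' → ‖∑ i ∈ G, (w i : ℂ) * ch ((k - k') * g i)‖ ≤ v) :
    ∑ k ∈ E, ‖∑ i ∈ G, (w i : ℂ) * c i * ch (k * g i)‖ ^ 2 ≤
      (∑ i ∈ G, w i) * ((∑ i ∈ G, w i) + E.card * v) := by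
  classical
  set W : ℝ := ∑ i ∈ G, w i with hW
  have hW0 : 0 ≤ W := Finset.sum_nonneg hw
  set U : ZMod Q → ℂ := fun k => ∑ i ∈ G, (w i : ℂ) * c i * ch (k * g i) with hU
  set T : ℝ := ∑ k ∈ E, ‖U k‖ ^ 2 with hT
  have hT0 : 0 ≤ T := Finset.sum_nonneg (by intro i _; positivity)
  set Φ : ι → ℂ := fun i => ∑ k ∈ E, conj (U k) * ch (k * g i) with hΦ
  -- T ≤ ∑ w ‖Φ‖
  have h1 : (T : ℂ) = ∑ i ∈ G, (w i : ℂ) * c i * Φ i := by
    rw [hT]
    push_cast
    have e1 : ∀ k ∈ E, ((‖U k‖ : ℂ)) ^ 2 =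
        ∑ i ∈ G, (w i : ℂ) * c i * (conj (U k) * ch (k * g i)) := by
      intro k _
      rw [← Complex.mul_conj']
      conv_lhs => rw [hU]
      simp only
      rw [Finset.sum_mul]
      apply Finset.sum_congr rfl
      intro i _
      rw [hU]
      ring
    rw [Finset.sum_congr rfl e1, Finset.sum_comm]
    apply Finset.sum_congr rfl
    intro i _
    rw [hΦ, Finset.mul_sum]
  have h2 : T ≤ ∑ i ∈ G, w i * ‖Φ i‖ := by
    have e1 : T = ‖(T : ℂ)‖ := by rw [Complex.norm_real, Real.norm_of_nonneg hT0]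
    rw [e1, h1]
    refine (norm_sum_le _ _).trans (Finset.sum_le_sum ?_)
    intro i hi
    rw [norm_mul, norm_mul, Complex.norm_real, Real.norm_of_nonneg (hw i hi)]
    have := hc i hi
    have h0 := hw i hi
    calc w i * ‖c i‖ * ‖Φ i‖ ≤ w i * 1 * ‖Φ i‖ := by gcongr
      _ = w i * ‖Φ i‖ := by ring
  have h3 : T ^ 2 ≤ W * ∑ i ∈ G, w i * ‖Φ i‖ ^ 2 := by
    have h4 := Finset.sum_mul_sq_le_sq_mul_sq G (fun i => Real.sqrt (w i))
      (fun i => Real.sqrt (w i) * ‖Φ i‖)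
    have e1 : ∑ i ∈ G, Real.sqrt (w i) * (Real.sqrt (w i) * ‖Φ i‖) = ∑ i ∈ G, w i * ‖Φ i‖ := by
      apply Finset.sum_congr rfl
      intro i hi
      rw [← mul_assoc, Real.mul_self_sqrt (hw i hi)]
    have e2 : ∑ i ∈ G, Real.sqrt (w i) ^ 2 = W := by
      apply Finset.sum_congr rfl
      intro i hi
      rw [Real.sq_sqrt (hw i hi)]
    have e3 : ∑ i ∈ G, (Real.sqrt (w i) * ‖Φ i‖) ^ 2 = ∑ i ∈ G, w i * ‖Φ i‖ ^ 2 := by
      apply Finset.sum_congr rfl
      intro i hi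
      rw [mul_pow, Real.sq_sqrt (hw i hi)]
    rw [e1, e2, e3] at h4
    refine le_trans ?_ h4
    gcongr
  -- expand the square
  have h5 : ∑ i ∈ G, w i * ‖Φ i‖ ^ 2 ≤ T * (W + E.card * v) := by
    have e1 : ((∑ i ∈ G, w i * ‖Φ i‖ ^ 2 : ℝ) : ℂ) =
        ∑ k ∈ E, ∑ k' ∈ E, conj (U k) * U k' * ∑ i ∈ G, (w i : ℂ) * ch ((k - k') * g i) := by
      push_cast
      have e2 : ∀ i ∈ G, (w i : ℂ) * (‖Φ i‖ : ℂ) ^ 2 =
          ∑ k ∈ E, ∑ k' ∈ E, conj (U k) * U k' * ((w i : ℂ) * ch ((k - k') * g i)) := by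
        intro i _
        rw [← Complex.mul_conj']
        conv_lhs => rw [hΦ]
        simp only
        rw [map_sum, Finset.sum_mul_sum, Finset.mul_sum]
        apply Finset.sum_congr rfl
        intro k _
        rw [Finset.mul_sum]
        apply Finset.sum_congr rfl
        intro k' _
        have e : ch ((k - k') * g i) = ch (k * g i) * conj (ch (k' * g i)) := by
          rw [← ch_neg, ← ch_add]; congr 1; ring
        rw [e, map_mul, Complex.conj_conj]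
        ring
      rw [Finset.sum_congr rfl e2, Finset.sum_comm]
      apply Finset.sum_congr rfl
      intro k _
      rw [Finset.sum_comm]
      apply Finset.sum_congr rfl
      intro k' _
      exact (Finset.mul_sum _ _ _).symm
    have hL0 : 0 ≤ ∑ i ∈ G, w i * ‖Φ i‖ ^ 2 :=
      Finset.sum_nonneg (by intro i hi; exact mul_nonneg (hw i hi) (by positivity))
    have e3 : ∑ i ∈ G, w i * ‖Φ i‖ ^ 2 =
        ‖((∑ i ∈ G, w i * ‖Φ i‖ ^ 2 : ℝ) : ℂ)‖ := by
      rw [Complex.norm_real, Real.norm_of_nonneg hL0]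
    rw [e3, e1]
    have h6 : ∀ k ∈ E, ‖∑ k' ∈ E, conj (U k) * U k' * ∑ i ∈ G, (w i : ℂ) * ch ((k - k') * g i)‖ ≤
        ‖U k‖ ^ 2 * W + ∑ k' ∈ E, ‖U k‖ * ‖U k'‖ * v := by
      intro k hk
      refine (norm_sum_le _ _).trans ?_
      have h7 : ∀ k' ∈ E, ‖conj (U k) * U k' * ∑ i ∈ G, (w i : ℂ) * ch ((k - k') * g i)‖ ≤
          (if k' = k then ‖U k‖ ^ 2 * W else 0) + ‖U k‖ * ‖U k'‖ * v := by
        intro k' hk'
        rw [norm_mul, norm_mul, Complex.norm_conj]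
        by_cases h : k' = k
        · rw [if_pos h, h]
          have e4 : ‖∑ i ∈ G, (w i : ℂ) * ch ((k - k) * g i)‖ = W := by
            rw [sub_self]
            simp only [zero_mul, ch_zero, mul_one]
            rw [← Complex.ofReal_sum, Complex.norm_real, Real.norm_of_nonneg hW0]
          rw [e4]
          have : 0 ≤ ‖U k‖ * ‖U k‖ * v := by positivity
          nlinarith
        · rw [if_neg h, zero_add]
          have := hv k hk k' hk' (Ne.symm h)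
          gcongr
      refine (Finset.sum_le_sum h7).trans ?_
      rw [Finset.sum_add_distrib, Finset.sum_ite_eq' E k, if_pos hk]
    refine (norm_sum_le _ _).trans ((Finset.sum_le_sum h6).trans ?_)
    rw [Finset.sum_add_distrib, ← Finset.sum_mul]
    have h8 : ∑ k ∈ E, ∑ k' ∈ E, ‖U k‖ * ‖U k'‖ * v = (∑ k ∈ E, ‖U k‖) ^ 2 * v := by
      rw [sq, Finset.sum_mul_sum, Finset.sum_mul]
      apply Finset.sum_congr rfl
      intro k _
      rw [Finset.sum_mul]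
    have h9 : (∑ k ∈ E, ‖U k‖) ^ 2 ≤ E.card * T := sq_sum_le_card_mul_sum_sq
    rw [h8, ← hT]
    calc T * W + (∑ k ∈ E, ‖U k‖) ^ 2 * v ≤ T * W + E.card * T * v := by gcongr
      _ = T * (W + E.card * v) := by ring
  have h10 : T ^ 2 ≤ W * (T * (W + E.card * v)) := h3.trans (by gcongr)
  rcases hT0.eq_or_lt with h | h
  · rw [← h]; positivity
  · have h11 : T * T ≤ T * (W * (W + E.card * v)) := by nlinarith
    exact le_of_mul_le_mul_left h11 h

/-- The spectral core. -/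
theorem spectral_core {ι : Type*} (G : Finset ι) (w : ι → ℝ) (hw : ∀ i ∈ G, 0 ≤ w i)
    (hW : 0 < ∑ i ∈ G, w i) (χ : ι → ℝ) (hχ : ∀ i ∈ G, χ i = 1 ∨ χ i = -1)
    (g : ι → ZMod Q) (f : ZMod Q → ℝ) (hf : ∀ x, f x = 1 ∨ f x = -1) (Y : ℕ) (hY : 0 < Y)
    (E : Finset (ZMod Q)) (v : ℝ) (hv0 : 0 ≤ v)
    (hv : ∀ k ∈ E, ∀ k' ∈ E, k ≠ k' → ‖∑ i ∈ G, (w i : ℂ) * ch ((k - k') * g i)‖ ≤ v)
    (hEv : E.card * v ≤ (∑ i ∈ G, w i) / 10)
    (μ Λ : ℝ) (hμ : 0 ≤ μ) (hμΛ : 400 * (μ * Λ) ≤ 1)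
    (hmass : ∑ k ∈ Eᶜ, ‖FT (fun x => (f x : ℂ)) k‖ ^ 2 ≤ μ * (Q : ℝ) ^ 2)
    (hen : ∑ k : ZMod Q, ‖∑ y ∈ range Y, ch (k * (y : ZMod Q))‖ ^ 2 *
      ‖∑ i ∈ G, (w i : ℂ) * χ i * ch (k * g i)‖ ^ 4 ≤ Λ * (Y : ℝ) ^ 2 * (∑ i ∈ G, w i) ^ 4)
    (hbil : 9 / 10 * (∑ i ∈ G, w i) ^ 2 * Y ≤
      ∑ i ∈ G, ∑ j ∈ G, w i * χ i * (w j * χ j) * ∑ y ∈ range Y, f (g i + g j + (y : ZMod Q)))
    (hneg : ∀ k ∈ E, -k ≠ k) : False := by
  classical
  set W : ℝ := ∑ i ∈ G, w i with hWdef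
  set A : ZMod Q → ℂ := FT (fun x => (f x : ℂ)) with hA
  set U : ZMod Q → ℂ := fun k => ∑ i ∈ G, (w i : ℂ) * χ i * ch (k * g i) with hU
  set D : ZMod Q → ℂ := fun k => ∑ y ∈ range Y, ch (k * (y : ZMod Q)) with hD
  have hQ : (0 : ℝ) < Q := by exact_mod_cast Nat.pos_of_ne_zero (NeZero.ne Q)
  have hYr : (0 : ℝ) < Y := by exact_mod_cast hY
  -- the spectral identity
  have hid : ((Q * ∑ i ∈ G, ∑ j ∈ G, w i * χ i * (w j * χ j) *
      ∑ y ∈ range Y, f (g i + g j + (y : ZMod Q)) : ℝ) : ℂ) = ∑ k, A k * (D k * U k ^ 2) := by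
    have e1 : ∀ k : ZMod Q, A k * (D k * U k ^ 2) = ∑ i ∈ G, ∑ j ∈ G,
        ((w i : ℂ) * χ i * ((w j : ℂ) * χ j)) *
          ∑ y ∈ range Y, A k * ch (k * (g i + g j + (y : ZMod Q))) := by
      intro k
      have e2 : ∀ i j, ∑ y ∈ range Y, A k * ch (k * (g i + g j + (y : ZMod Q))) =
          A k * D k * (ch (k * g i) * ch (k * g j)) := by
        intro i j
        conv_rhs => rw [hD]
        simp only
        rw [Finset.mul_sum, Finset.sum_mul]
        apply Finset.sum_congr rfl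
        intro y _
        have e : ch (k * (g i + g j + (y : ZMod Q))) =
            ch (k * (y : ZMod Q)) * (ch (k * g i) * ch (k * g j)) := by
          rw [← ch_add, ← ch_add]; congr 1; ring
        rw [e]; ring
      calc A k * (D k * U k ^ 2) = A k * D k * (U k * U k) := by ring
        _ = A k * D k * ∑ i ∈ G, ∑ j ∈ G,
            ((w i : ℂ) * χ i * ch (k * g i)) * ((w j : ℂ) * χ j * ch (k * g j)) := by
            conv_lhs => rw [hU]
            simp only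
            rw [Finset.sum_mul_sum]
        _ = _ := by
            rw [Finset.mul_sum]
            apply Finset.sum_congr rfl
            intro i _
            rw [Finset.mul_sum]
            apply Finset.sum_congr rfl
            intro j _
            rw [e2]
            ring
    rw [Finset.sum_congr rfl (fun k _ => e1 k)]
    refine Eq.trans ?_ Finset.sum_comm
    push_cast
    rw [Finset.mul_sum]
    apply Finset.sum_congr rfl
    intro i _
    refine Eq.trans ?_ Finset.sum_comm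
    rw [Finset.mul_sum]
    apply Finset.sum_congr rfl
    intro j _
    rw [← Finset.mul_sum]
    have e4 : ∑ k : ZMod Q, ∑ y ∈ range Y, A k * ch (k * (g i + g j + (y : ZMod Q))) =
        ∑ y ∈ range Y, ∑ k : ZMod Q, A k * ch (k * (g i + g j + (y : ZMod Q))) :=
      Finset.sum_comm
    rw [e4]
    have e3 : ∀ y ∈ range Y, ∑ k : ZMod Q, A k * ch (k * (g i + g j + (y : ZMod Q))) =
        Q * (f (g i + g j + (y : ZMod Q)) : ℂ) := by
      intro y _
      exact inversion (fun x => (f x : ℂ)) _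
    rw [Finset.sum_congr rfl e3, ← Finset.mul_sum]
    ring
  -- norms
  have hA0 : ∀ k, 0 ≤ ‖A k‖ := fun k => norm_nonneg _
  have hDY : ∀ k, ‖D k‖ ≤ Y := by
    intro k
    rw [hD]
    simp only
    refine (norm_sum_le _ _).trans ?_
    simp [norm_ch]
  have hlow : 9 / 10 * W ^ 2 * Y * Q ≤ ∑ k, ‖A k‖ * (‖D k‖ * ‖U k‖ ^ 2) := by
    set S : ℝ := ∑ i ∈ G, ∑ j ∈ G, w i * χ i * (w j * χ j) *
      ∑ y ∈ range Y, f (g i + g j + (y : ZMod Q)) with hS
    have h1 : (Q : ℝ) * S ≤ ‖((Q * S : ℝ) : ℂ)‖ := by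
      rw [Complex.norm_real]; exact le_abs_self _
    have h2 : ‖((Q * S : ℝ) : ℂ)‖ ≤ ∑ k, ‖A k‖ * (‖D k‖ * ‖U k‖ ^ 2) := by
      rw [hid]
      refine (norm_sum_le _ _).trans (le_of_eq ?_)
      apply Finset.sum_congr rfl
      intro k _
      rw [norm_mul, norm_mul, norm_pow]
    calc 9 / 10 * W ^ 2 * Y * Q = Q * (9 / 10 * W ^ 2 * Y) := by ring
      _ ≤ Q * S := by gcongr
      _ ≤ _ := h1.trans h2
  rw [← Finset.sum_add_sum_compl E] at hlow
  -- the part outside `E`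
  have hout : ∑ k ∈ Eᶜ, ‖A k‖ * (‖D k‖ * ‖U k‖ ^ 2) ≤ 1 / 20 * W ^ 2 * Y * Q := by
    have h1 := Finset.sum_mul_sq_le_sq_mul_sq Eᶜ (fun k => ‖A k‖) (fun k => ‖D k‖ * ‖U k‖ ^ 2)
    have h2 : ∑ k ∈ Eᶜ, (‖D k‖ * ‖U k‖ ^ 2) ^ 2 ≤ Λ * (Y : ℝ) ^ 2 * W ^ 4 := by
      refine le_trans ?_ hen
      refine (Finset.sum_le_sum_of_subset_of_nonneg (Finset.subset_univ _)
        (by intro k _ _; positivity)).trans (le_of_eq ?_)
      apply Finset.sum_congr rfl
      intro k _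
      rw [hU, hD]
      ring
    have h3 : (∑ k ∈ Eᶜ, ‖A k‖ * (‖D k‖ * ‖U k‖ ^ 2)) ^ 2 ≤ (1 / 20 * W ^ 2 * Y * Q) ^ 2 := by
      refine h1.trans ?_
      calc (∑ k ∈ Eᶜ, ‖A k‖ ^ 2) * ∑ k ∈ Eᶜ, (‖D k‖ * ‖U k‖ ^ 2) ^ 2
          ≤ (μ * (Q : ℝ) ^ 2) * (Λ * (Y : ℝ) ^ 2 * W ^ 4) := by
            apply mul_le_mul hmass h2 (Finset.sum_nonneg (by intro i _; positivity))
            positivity
        _ = (400 * (μ * Λ)) * ((Q : ℝ) ^ 2 * (Y : ℝ) ^ 2 * W ^ 4 / 400) := by ring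
        _ ≤ 1 * ((Q : ℝ) ^ 2 * (Y : ℝ) ^ 2 * W ^ 4 / 400) := by gcongr
        _ = (1 / 20 * W ^ 2 * Y * Q) ^ 2 := by ring
    exact le_of_sq_le_sq h3 (by positivity)
  -- the part inside `E`
  have hex : ∃ k ∈ E, 3 / 4 * (Q : ℝ) ≤ ‖A k‖ := by
    by_contra hcon
    push Not at hcon
    have hb := bessel G w hw (fun i => (χ i : ℂ)) (by
      intro i hi
      rcases hχ i hi with h | h <;> rw [h] <;> simp) g E v hv0 hv
    have h1 : ∑ k ∈ E, ‖A k‖ * (‖D k‖ * ‖U k‖ ^ 2) ≤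
        3 / 4 * Q * (Y * ∑ k ∈ E, ‖U k‖ ^ 2) := by
      rw [Finset.mul_sum, Finset.mul_sum]
      apply Finset.sum_le_sum
      intro k hk
      have h2 := (hcon k hk).le
      have h3 := hDY k
      gcongr
    have h4 : ∑ k ∈ E, ‖U k‖ ^ 2 ≤ 11 / 10 * W ^ 2 := by
      refine le_trans (le_of_eq ?_) (hb.trans ?_)
      · rfl
      · calc W * (W + E.card * v) ≤ W * (W + W / 10) := by gcongr
          _ = 11 / 10 * W ^ 2 := by ring
    have h5 : 3 / 4 * Q * (Y * ∑ k ∈ E, ‖U k‖ ^ 2) ≤ 3 / 4 * Q * (Y * (11 / 10 * W ^ 2)) := by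
      gcongr
    have h6 : 0 < W ^ 2 * Y * Q := by positivity
    nlinarith
  obtain ⟨k, hk, hkA⟩ := hex
  have hk' : ‖A (-k)‖ = ‖A k‖ := FT_neg_of_real f k
  have hpar := parseval (fun x : ZMod Q => (f x : ℂ))
  have h1 : ∑ x : ZMod Q, ‖(f x : ℂ)‖ ^ 2 = Q := by
    have : ∀ x : ZMod Q, ‖(f x : ℂ)‖ ^ 2 = 1 := by
      intro x
      rcases hf x with h | h <;> rw [h] <;> simp
    rw [Finset.sum_congr rfl (fun x _ => this x)]
    simp [ZMod.card]
  rw [h1] at hpar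
  have h2 : ‖A k‖ ^ 2 + ‖A (-k)‖ ^ 2 ≤ ∑ k, ‖A k‖ ^ 2 := by
    rw [← Finset.sum_pair (f := fun k => ‖A k‖ ^ 2) (Ne.symm (hneg k hk))]
    exact Finset.sum_le_sum_of_subset_of_nonneg (Finset.subset_univ _) (by intro i _ _; positivity)
  have h3 : ∑ k, ‖A k‖ ^ 2 = (Q : ℝ) * Q := hpar
  rw [h3, hk'] at h2
  nlinarith

/-- the large sieve on `ZMod Q`: full orthogonality -/
theorem full_ls {ι : Type*} (T : Finset ι) (c : ι → ℂ) (m : ℝ) (hm : 0 ≤ m)
    (hc : ∀ i ∈ T, ‖c i‖ ≤ m) (g : ι → ZMod Q) :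
    ∑ k : ZMod Q, ‖∑ i ∈ T, c i * ch (k * g i)‖ ^ 2 ≤
      Q * m ^ 2 * ((T ×ˢ T).filter (fun p => g p.1 = g p.2)).card := by
  classical
  have key : ((∑ k : ZMod Q, ‖∑ i ∈ T, c i * ch (k * g i)‖ ^ 2 : ℝ) : ℂ) =
      ∑ p ∈ (T ×ˢ T).filter (fun p => g p.1 = g p.2), (Q : ℂ) * (c p.1 * conj (c p.2)) := by
    push_cast
    have h1 : ∀ k : ZMod Q, ((‖∑ i ∈ T, c i * ch (k * g i)‖ : ℂ)) ^ 2 =
        ∑ p ∈ T ×ˢ T, c p.1 * conj (c p.2) * ch (k * (g p.1 - g p.2)) := by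
      intro k
      rw [← Complex.mul_conj', map_sum, Finset.sum_mul_sum, Finset.sum_product]
      apply Finset.sum_congr rfl
      intro x _
      apply Finset.sum_congr rfl
      intro y _
      have e : ch (k * (g x - g y)) = ch (k * g x) * conj (ch (k * g y)) := by
        rw [← ch_neg, ← ch_add]; congr 1; ring
      rw [e, map_mul]; ring
    rw [Finset.sum_congr rfl (fun k _ => h1 k), Finset.sum_comm, Finset.sum_filter]
    apply Finset.sum_congr rfl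
    intro p _
    rw [← Finset.mul_sum, sum_ch]
    by_cases h : g p.1 = g p.2
    · rw [if_pos h, if_pos (by rw [h]; ring)]; ring
    · rw [if_neg h, if_neg (sub_ne_zero.2 h), mul_zero]
  have h0 : 0 ≤ ∑ k : ZMod Q, ‖∑ i ∈ T, c i * ch (k * g i)‖ ^ 2 :=
    Finset.sum_nonneg (by intro i _; positivity)
  have e1 : ∑ k : ZMod Q, ‖∑ i ∈ T, c i * ch (k * g i)‖ ^ 2 =
      ‖((∑ k : ZMod Q, ‖∑ i ∈ T, c i * ch (k * g i)‖ ^ 2 : ℝ) : ℂ)‖ := by
    rw [Complex.norm_real, Real.norm_of_nonneg h0]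
  rw [e1, key]
  refine (norm_sum_le _ _).trans ?_
  calc ∑ p ∈ (T ×ˢ T).filter (fun p => g p.1 = g p.2), ‖(Q : ℂ) * (c p.1 * conj (c p.2))‖
      ≤ ∑ p ∈ (T ×ˢ T).filter (fun p => g p.1 = g p.2), (Q : ℝ) * m ^ 2 := by
        apply Finset.sum_le_sum
        intro p hp
        rw [Finset.mem_filter, Finset.mem_product] at hp
        rw [norm_mul, norm_mul, Complex.norm_conj, Complex.norm_natCast]
        have h1 := hc _ hp.1.1
        have h2 := hc _ hp.1.2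
        rw [sq]
        gcongr
    _ = _ := by rw [Finset.sum_const, nsmul_eq_mul]; ring

/-- the large sieve with a window of length `Y` -/
theorem window_ls {ι : Type*} (T : Finset ι) (c : ι → ℂ) (m : ℝ) (hm : 0 ≤ m)
    (hc : ∀ i ∈ T, ‖c i‖ ≤ m) (g : ι → ZMod Q) (Y : ℕ) (hYQ : Y ≤ Q) (En : ℕ)
    (hEn : ∀ S : Finset (ι × ι), S ⊆ T ×ˢ T →
      (∀ p ∈ S, ∃ d : ℤ, |d| < Y ∧ g p.1 - g p.2 = (d : ZMod Q)) → S.card ≤ En) :
    ∑ k : ZMod Q, ‖∑ y ∈ range Y, ch (k * (y : ZMod Q))‖ ^ 2 *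
      ‖∑ i ∈ T, c i * ch (k * g i)‖ ^ 2 ≤ Q * m ^ 2 * (Y * En) := by
  classical
  have h1 := full_ls (T ×ˢ range Y) (fun p : ι × ℕ => c p.1) m hm
    (by intro p hp; rw [Finset.mem_product] at hp; exact hc _ hp.1)
    (fun p => g p.1 + (p.2 : ZMod Q))
  have h2 : ∀ k : ZMod Q, ∑ p ∈ T ×ˢ range Y, c p.1 * ch (k * (g p.1 + (p.2 : ZMod Q))) =
      (∑ y ∈ range Y, ch (k * (y : ZMod Q))) * ∑ i ∈ T, c i * ch (k * g i) := by
    intro k
    rw [mul_comm, Finset.sum_mul_sum, Finset.sum_product]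
    apply Finset.sum_congr rfl
    intro i _
    apply Finset.sum_congr rfl
    intro y _
    rw [mul_add, ch_add]; ring
  have h3 : ∑ k : ZMod Q, ‖∑ y ∈ range Y, ch (k * (y : ZMod Q))‖ ^ 2 *
      ‖∑ i ∈ T, c i * ch (k * g i)‖ ^ 2 =
      ∑ k : ZMod Q, ‖∑ p ∈ T ×ˢ range Y, c p.1 * ch (k * (g p.1 + (p.2 : ZMod Q)))‖ ^ 2 := by
    apply Finset.sum_congr rfl
    intro k _
    rw [h2, norm_mul, mul_pow]
  rw [h3]
  refine h1.trans ?_
  gcongr
  set R := ((T ×ˢ range Y) ×ˢ (T ×ˢ range Y)).filter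
    (fun p => g p.1.1 + (p.1.2 : ZMod Q) = g p.2.1 + (p.2.2 : ZMod Q)) with hR
  set S : Finset (ι × ι) := R.image (fun p => (p.1.1, p.2.1)) with hS
  have hScard : S.card ≤ En := by
    apply hEn
    · intro p hp
      rw [hS, Finset.mem_image] at hp
      obtain ⟨r, hr, rfl⟩ := hp
      rw [hR, Finset.mem_filter, Finset.mem_product, Finset.mem_product, Finset.mem_product] at hr
      rw [Finset.mem_product]
      exact ⟨hr.1.1.1, hr.1.2.1⟩
    · intro p hp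
      rw [hS, Finset.mem_image] at hp
      obtain ⟨r, hr, rfl⟩ := hp
      rw [hR, Finset.mem_filter, Finset.mem_product, Finset.mem_product, Finset.mem_product,
        Finset.mem_range, Finset.mem_range] at hr
      refine ⟨(r.2.2 : ℤ) - r.1.2, ?_, ?_⟩
      · rw [abs_lt]
        have h1 := hr.1.1.2
        have h2 := hr.1.2.2
        constructor <;> omega
      · push_cast
        have := hr.2
        linear_combination this
  have hRcard : R.card ≤ (range Y ×ˢ S).card := by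
    apply Finset.card_le_card_of_injOn (fun p => (p.1.2, (p.1.1, p.2.1)))
    · intro p hp
      have hp' : p ∈ R := hp
      rw [hR, Finset.mem_filter, Finset.mem_product, Finset.mem_product] at hp'
      rw [Finset.mem_coe, Finset.mem_product]
      exact ⟨hp'.1.1.2, Finset.mem_image.2 ⟨p, hp, rfl⟩⟩
    · intro p hp p' hp' h
      simp only [Prod.mk.injEq] at h
      have hp1 : p ∈ R := hp
      have hp2 : p' ∈ R := hp'
      rw [hR, Finset.mem_filter, Finset.mem_product, Finset.mem_product, Finset.mem_product,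
        Finset.mem_range, Finset.mem_range] at hp1 hp2
      have e := hp1.2
      rw [h.1, h.2.1, h.2.2, hp2.2] at e
      have e2 : ((p'.2.2 : ℕ) : ZMod Q) = (p.2.2 : ZMod Q) := add_left_cancel e
      have e3 : p'.2.2 = p.2.2 := by
        have h4 := (ZMod.natCast_eq_natCast_iff' _ _ _).1 e2
        rwa [Nat.mod_eq_of_lt (hp2.1.2.2.trans_le hYQ),
          Nat.mod_eq_of_lt (hp1.1.2.2.trans_le hYQ)] at h4
      exact Prod.ext (Prod.ext h.2.1 h.1) (Prod.ext h.2.2 e3.symm)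
  rw [Finset.card_product, Finset.card_range] at hRcard
  have : R.card ≤ Y * En := hRcard.trans (Nat.mul_le_mul_left _ hScard)
  exact_mod_cast this

end Basic

end Pool.Agent.Lib.MP_a17b09_nt.LP
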