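import Pool.Agent.Lib.MP_a17b09_nt.LP.Fin3

set_option autoImplicit false

namespace Pool.Agent.Results.MP_a17b09_nt.LogPowerOdd

open Pool.Agent.Lib.MP_a17b09_nt Pool.Agent.Lib.MP_a17b09_nt.LP

/-- The number of prime factors of `n` that lie in the set `P`, counted with multiplicity. -/
noncomputable def omegaIn (P : Set ℕ) (n : ℕ) : ℕ :=
  ∑ p ∈ n.primeFactors, P.indicator (fun q => n.factorization q) p

lemma cnt_eq (P : Set ℕ) (n : ℕ) : cnt P n = omegaIn P n := by
  classical
  unfold cnt omegaIn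
  rw [List.countP_eq_length_filter, ← Multiset.coe_card, ← Multiset.filter_coe,
    ← Multiset.toFinset_sum_count_eq]
  have h1 : (Multiset.filter (fun p => p ∈ P) (n.primeFactorsList : Multiset ℕ)).toFinset ⊆
      n.primeFactors := by
    intro p hp
    rw [Multiset.mem_toFinset, Multiset.mem_filter] at hp
    exact Nat.mem_primeFactors_iff_mem_primeFactorsList.2 (by simpa using hp.1)
  have h2 : ∀ p ∈ n.primeFactors,
      p ∉ (Multiset.filter (fun p => p ∈ P) (n.primeFactorsList : Multiset ℕ)).toFinset →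
      Multiset.count p (Multiset.filter (fun p => p ∈ P) (n.primeFactorsList : Multiset ℕ)) = 0 := by
    intro p _ hp
    rw [Multiset.mem_toFinset] at hp
    exact Multiset.count_eq_zero.2 hp
  refine (Finset.sum_subset h1 h2).trans ?_
  apply Finset.sum_congr rfl
  intro p _
  by_cases hp : p ∈ P
  · rw [Multiset.count_filter_of_pos hp, Set.indicator_of_mem hp, Multiset.coe_count,
      Nat.primeFactorsList_count_eq]
  · rw [Multiset.count_filter_of_neg hp, Set.indicator_of_notMem hp]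

/-- For every `A` there is a `C` such that for all large `N` and every set `P` of natural numbers
that contains a prime `p ≢ 3 (mod 4)` with `p ≤ (log N)^A`, at least `N / (log N)^C` integers
`1 ≤ t ≤ N` are such that `t² + 1` has an odd number of prime factors in `P`, counted with
multiplicity. -/
theorem result (A : ℕ) :
    ∃ C N₀ : ℕ, ∀ N : ℕ, N₀ ≤ N → ∀ P : Set ℕ,
      (∃ p ∈ P, p.Prime ∧ p % 4 ≠ 3 ∧ (p : ℝ) ≤ Real.log N ^ A) →
      (N : ℝ) / Real.log N ^ C ≤
        (Set.ncard {t : ℕ | 1 ≤ t ∧ t ≤ N ∧ Odd (omegaIn P (t ^ 2 + 1))} : ℝ) := by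
  obtain ⟨C, l0, h⟩ := main_T A
  refine ⟨2 * C, 2 ^ (l0 + 10), ?_⟩
  intro N hN P ⟨p, hpP, hp, hp4, hpA⟩
  have hN0 : N ≠ 0 := by
    have : 0 < 2 ^ (l0 + 10) := by positivity
    omega
  set l := Nat.log 2 N with hl
  have hN1 : 2 ^ l ≤ N := Nat.pow_log_le_self 2 hN0
  have hN2 : N < 2 ^ (l + 1) := Nat.lt_pow_succ_log_self (by norm_num) N
  have hl10 : l0 + 10 ≤ l := by
    rw [hl]
    exact (Nat.le_log_iff_pow_le (by norm_num) hN0).2 hN
  have hNr : (0 : ℝ) < N := by
    have : 0 < N := Nat.pos_of_ne_zero hN0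
    exact_mod_cast this
  have hlr : (10 : ℝ) ≤ l := by
    have : 10 ≤ l := by omega
    exact_mod_cast this
  have hlog2 := Real.log_two_gt_d9
  have hlog1 : (l : ℝ) * Real.log 2 ≤ Real.log N := by
    have : ((2 : ℝ) ^ l) ≤ N := by exact_mod_cast hN1
    have h2 := Real.log_le_log (by positivity) this
    rwa [Real.log_pow] at h2
  have hlog3 : Real.log N ≤ l := by
    have := one_add_log_le (N := N) (l := l) (by omega) (by omega) hN2
    have h1 : Real.log N ≤ Real.log ((2 : ℝ) ^ (l + 1)) := by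
      apply Real.log_le_log hNr
      exact_mod_cast hN2.le
    rw [Real.log_pow] at h1
    push_cast at h1
    have := log_two_mul_le (l := l) (by omega)
    linarith
  have hlog4 : (l : ℝ) ≤ 2 * Real.log N := by nlinarith
  have hlog5 : 2 ≤ Real.log N := by linarith
  have hpl : p ≤ l ^ A := by
    have : (p : ℝ) ≤ (l : ℝ) ^ A := hpA.trans (pow_le_pow_left₀ (by linarith) hlog3 A)
    exact_mod_cast this
  have hmain := h N l (by omega) hN1 hN2 P ⟨p, hpP, hp, hp4, hpl⟩
  have hset : (OS P N).card =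
      Set.ncard {t : ℕ | 1 ≤ t ∧ t ≤ N ∧ Odd (omegaIn P (t ^ 2 + 1))} := by
    rw [← Set.ncard_coe_finset]
    congr 1
    ext t
    rw [Finset.mem_coe, mem_OS, sgn_eq_neg_one_iff, cnt_eq]
    have e : ((t : ℤ) ^ 2 + 1).natAbs = t ^ 2 + 1 := by
      have : ((t : ℤ) ^ 2 + 1) = ((t ^ 2 + 1 : ℕ) : ℤ) := by push_cast; ring
      rw [this, Int.natAbs_natCast]
    rw [e]
    constructor
    · rintro ⟨⟨h1, h2⟩, h3⟩
      exact ⟨h1, h2, h3⟩
    · rintro ⟨h1, h2, h3⟩
      exact ⟨⟨h1, h2⟩, h3⟩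
  rw [← hset]
  have hmr : (N : ℝ) ≤ (OS P N).card * (l : ℝ) ^ C := by exact_mod_cast hmain
  have hlC : (l : ℝ) ^ C ≤ Real.log N ^ (2 * C) := by
    calc (l : ℝ) ^ C ≤ (2 * Real.log N) ^ C := pow_le_pow_left₀ (by linarith) hlog4 C
      _ ≤ (Real.log N * Real.log N) ^ C := by
          apply pow_le_pow_left₀ (by linarith)
          gcongr
      _ = Real.log N ^ (2 * C) := by rw [← sq, ← pow_mul]
  rw [div_le_iff₀ (by positivity)]
  refine hmr.trans ?_
  gcongr

end Pool.Agent.Results.MP_a17b09_nt.LogPowerOdd
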