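import Pool.Agent.Lib.MP_a17b09_nt.LP.UnpopC
import Pool.Agent.Lib.MP_a17b09_nt.LP.Fourier

set_option autoImplicit false

open Finset

namespace Pool.Agent.Lib.MP_a17b09_nt.LP

open Classical in
/-- colour of a window -/
noncomputable def ccl (P : Set ℕ) (Q Y : ℕ) (M : ℤ) (c : ℤ) : ℝ :=
  if ∃ u : ℤ × ℤ, u ≠ 0 ∧ nrm 0 1 u ≤ M ∧ InW Q Y c u ∧ col P 0 1 u = 1 then 1 else -1

/-- monochromatic and populated -/
def NiceC (P : Set ℕ) (Q Y : ℕ) (M M0 : ℤ) (c : ℤ) : Prop := MonoC P Q Y M c ∧ PopC Q Y M0 c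

lemma ccl_or (P : Set ℕ) (Q Y : ℕ) (M : ℤ) (c : ℤ) : ccl P Q Y M c = 1 ∨ ccl P Q Y M c = -1 := by
  unfold ccl; split_ifs <;> simp

lemma ccl_eq {P : Set ℕ} {Q Y : ℕ} {M : ℤ} {c : ℤ} (hM : MonoC P Q Y M c) {u : ℤ × ℤ} (hu : u ≠ 0)
    (huM : nrm 0 1 u ≤ M) (hw : InW Q Y c u) : ccl P Q Y M c = (col P 0 1 u : ℝ) := by
  unfold ccl
  split_ifs with h
  · obtain ⟨v, hv, hvM, hvw, hv1⟩ := h
    have := hM u v hu hv huM hvM hw hvw
    rw [this, hv1]; simp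
  · rcases col_eq_or P 0 1 u with h1 | h1
    · exact absurd ⟨u, hu, huM, hw, h1⟩ h
    · rw [h1]; simp

section

variable {P : Set ℕ} {Q Y L : ℕ} {M M0 : ℤ}

lemma ccl_add_period (hQ : Q = L * Y) (c k : ℤ) :
    ccl P Q Y M (c + k * L) = ccl P Q Y M c := by
  have h : (∃ u : ℤ × ℤ, u ≠ 0 ∧ nrm 0 1 u ≤ M ∧ InW Q Y (c + k * L) u ∧ col P 0 1 u = 1) ↔
      (∃ u : ℤ × ℤ, u ≠ 0 ∧ nrm 0 1 u ≤ M ∧ InW Q Y c u ∧ col P 0 1 u = 1) := by
    constructor
    · rintro ⟨u, h1, h2, h3, h4⟩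
      exact ⟨u, h1, h2, (InW_add_period hQ c u k).1 h3, h4⟩
    · rintro ⟨u, h1, h2, h3, h4⟩
      exact ⟨u, h1, h2, (InW_add_period hQ c u k).2 h3, h4⟩
  unfold ccl
  by_cases h' : ∃ u : ℤ × ℤ, u ≠ 0 ∧ nrm 0 1 u ≤ M ∧ InW Q Y c u ∧ col P 0 1 u = 1
  · rw [if_pos h', if_pos (h.2 h')]
  · rw [if_neg h', if_neg (fun h'' => h' (h.1 h''))]

lemma NiceC_add_period (hQ : Q = L * Y) (c k : ℤ) :
    NiceC P Q Y M M0 (c + k * L) ↔ NiceC P Q Y M M0 c := by
  unfold NiceC PopC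
  rw [MonoC_add_period hQ]
  simp only [InH_add_period hQ]

lemma div_add_mul (hQ : Q = L * Y) (hY : 0 < Y) (j k : ℤ) : (j + k * Q) / Y = j / Y + k * L := by
  have hYz : (0 : ℤ) < Y := by exact_mod_cast hY
  have hQ' : (Q : ℤ) = L * Y := by exact_mod_cast hQ
  rw [hQ', ← mul_assoc]
  exact Int.add_mul_ediv_right _ _ hYz.ne'

lemma ccl_succ (hMM : M0 ≤ M) {c : ℤ} (h0 : NiceC P Q Y M M0 c)
    (h1 : NiceC P Q Y M M0 (c + 1)) : ccl P Q Y M (c + 1) = ccl P Q Y M c := by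
  obtain ⟨u, hu, huM, n, hn1, hn2⟩ := h1.2
  have hY0 : (0 : ℤ) ≤ Y := by positivity
  have w1 : InW Q Y (c + 1) u := ⟨n, hn1, by nlinarith⟩
  have w0 : InW Q Y c u := ⟨n, by nlinarith, by nlinarith⟩
  rw [ccl_eq h1.1 hu (huM.trans hMM) w1, ccl_eq h0.1 hu (huM.trans hMM) w0]

/-- the multiplier relation on windows -/
lemma ccl_mul (hY : 0 < Y) (hMM : M0 ≤ M) {β : ℤ × ℤ} (hβ : β ≠ 0)
    (hβM : nrm 0 1 β * M0 ≤ M) (j : ℤ) (h0 : NiceC P Q Y M M0 (j / Y))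
    (h1 : NiceC P Q Y M M0 ((j + pos Q β) / Y)) (h2 : NiceC P Q Y M M0 ((j + pos Q β) / Y - 1)) :
    ccl P Q Y M ((j + pos Q β) / Y) = (col P 0 1 β : ℝ) * ccl P Q Y M (j / Y) := by
  obtain ⟨u, hu, huM, n, hn1, hn2⟩ := h0.2
  have hYz : (0 : ℤ) < Y := by exact_mod_cast hY
  obtain ⟨e, k, he, hpos⟩ := pos_mulp Q hβ hu
  set c : ℤ := j / Y with hc
  set c' : ℤ := (j + pos Q β) / Y with hc'
  have w0 : InW Q Y c u := ⟨n, hn1, by nlinarith⟩
  have hj1 : c * Y ≤ j := Int.ediv_mul_le _ hYz.ne'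
  have hj2 : j < (c + 1) * Y := by
    have := Int.lt_ediv_add_one_mul_self j hYz
    exact this
  have hj1' : c' * Y ≤ j + pos Q β := Int.ediv_mul_le _ hYz.ne'
  have hj2' : j + pos Q β < (c' + 1) * Y := Int.lt_ediv_add_one_mul_self _ hYz
  have hne : mulp 0 1 β u ≠ 0 := mulp_ne_zero not_sq hβ hu
  have hnM : nrm 0 1 (mulp 0 1 β u) ≤ M := by
    rw [nrm_mulp]
    refine le_trans ?_ hβM
    have : 0 ≤ nrm 0 1 β := by rw [nrm01]; positivity
    gcongr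
  have hcol : col P 0 1 (mulp 0 1 β u) = col P 0 1 β * col P 0 1 u := col_mulp P not_sq hβ hu
  have hcu : ccl P Q Y M c = (col P 0 1 u : ℝ) := ccl_eq h0.1 hu (huM.trans hMM) w0
  have hJ : pos Q (mulp 0 1 β u) + (n - k) * Q = pos Q β + (pos Q u + n * Q) + e := by
    rw [hpos]; ring
  have fin : ccl P Q Y M c' = (col P 0 1 (mulp 0 1 β u) : ℝ) → ccl P Q Y M c' =
      (col P 0 1 β : ℝ) * ccl P Q Y M c := by
    intro h
    rw [h, hcol, hcu]; push_cast; ring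
  apply fin
  by_cases hcase : c' * Y ≤ pos Q β + (pos Q u + n * Q) + e
  · have w1 : InW Q Y c' (mulp 0 1 β u) := by
      refine ⟨n - k, by rw [hJ]; exact hcase, ?_⟩
      rw [hJ]
      rcases he with he | he <;> rw [he] <;> nlinarith
    exact ccl_eq h1.1 hne hnM w1
  · push Not at hcase
    have w1 : InW Q Y (c' - 1) (mulp 0 1 β u) := by
      refine ⟨n - k, ?_, ?_⟩
      · rw [hJ]
        rcases he with he | he <;> rw [he] <;> nlinarith
      · rw [hJ]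
        nlinarith
    have h3 := ccl_succ hMM h2 (by rw [sub_add_cancel]; exact h1)
    rw [sub_add_cancel] at h3
    rw [h3]
    exact ccl_eq h2.1 hne hnM w1

/-- the product relation -/
lemma ccl_prod (hY : 0 < Y) {β γ : ℤ × ℤ} (hβ : β ≠ 0) (hγ : γ ≠ 0)
    (hM : nrm 0 1 β * nrm 0 1 γ ≤ M) (h0 : MonoC P Q Y M ((pos Q β + pos Q γ) / Y)) :
    ccl P Q Y M ((pos Q β + pos Q γ) / Y) = (col P 0 1 β : ℝ) * (col P 0 1 γ : ℝ) := by
  have hYz : (0 : ℤ) < Y := by exact_mod_cast hY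
  obtain ⟨e, k, he, hpos⟩ := pos_mulp Q hβ hγ
  set c : ℤ := (pos Q β + pos Q γ) / Y with hc
  have hj1 : c * Y ≤ pos Q β + pos Q γ := Int.ediv_mul_le _ hYz.ne'
  have hj2 : pos Q β + pos Q γ < (c + 1) * Y := Int.lt_ediv_add_one_mul_self _ hYz
  have hne : mulp 0 1 β γ ≠ 0 := mulp_ne_zero not_sq hβ hγ
  have hnM : nrm 0 1 (mulp 0 1 β γ) ≤ M := by rw [nrm_mulp]; exact hM
  have w1 : InW Q Y c (mulp 0 1 β γ) := by
    refine ⟨-k, ?_, ?_⟩
    · rw [hpos]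
      rcases he with he | he <;> rw [he] <;> nlinarith
    · rw [hpos]
      rcases he with he | he <;> rw [he] <;> nlinarith
  rw [ccl_eq h0 hne hnM w1, col_mulp P not_sq hβ hγ]
  push_cast
  ring

variable [NeZero Q]

/-- the colour function on the grid -/
noncomputable def fcol (P : Set ℕ) (Q Y : ℕ) (M : ℤ) (x : ZMod Q) : ℝ :=
  ccl P Q Y M ((x.val : ℤ) / Y)

omit [NeZero Q] in
lemma fcol_or (x : ZMod Q) : fcol P Q Y M x = 1 ∨ fcol P Q Y M x = -1 := ccl_or _ _ _ _ _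

lemma fcol_int (hQ : Q = L * Y) (hY : 0 < Y) (j : ℤ) :
    fcol P Q Y M (j : ZMod Q) = ccl P Q Y M (j / Y) := by
  unfold fcol
  rw [ZMod.val_intCast]
  have e : j = j % Q + (j / Q) * Q := by
    have := Int.emod_add_mul_ediv j Q
    linarith
  have h : j / Y = (j % Q) / Y + (j / Q) * L := by
    conv_lhs => rw [e]
    exact div_add_mul hQ hY _ _
  rw [h, ccl_add_period hQ]

open Classical in
/-- grid points in bad cells -/
noncomputable def BadX (P : Set ℕ) (Q Y : ℕ) [NeZero Q] (M M0 : ℤ) : Finset (ZMod Q) :=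
  Finset.univ.filter (fun x => ¬ NiceC P Q Y M M0 ((x.val : ℤ) / Y))

lemma mem_BadX_int (hQ : Q = L * Y) (hY : 0 < Y) (j : ℤ) :
    (j : ZMod Q) ∈ BadX P Q Y M M0 ↔ ¬ NiceC P Q Y M M0 (j / Y) := by
  classical
  unfold BadX
  rw [Finset.mem_filter, ZMod.val_intCast]
  have e : j = j % Q + (j / Q) * Q := by
    have := Int.emod_add_mul_ediv j Q
    linarith
  have h : j / Y = (j % Q) / Y + (j / Q) * L := by
    conv_lhs => rw [e]
    exact div_add_mul hQ hY _ _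
  rw [h, NiceC_add_period hQ]
  simp

open Classical in
lemma card_BadX (hQ : Q = L * Y) (hY : 0 < Y) :
    (BadX P Q Y M M0).card ≤ Y * ((range L).filter (fun c : ℕ => ¬ NiceC P Q Y M M0 c)).card := by
  have h : (BadX P Q Y M M0).card ≤
      (range Y ×ˢ (range L).filter (fun c : ℕ => ¬ NiceC P Q Y M M0 c)).card := by
    apply Finset.card_le_card_of_injOn (fun x => (x.val % Y, x.val / Y))
    · intro x hx
      have hx' : x ∈ BadX P Q Y M M0 := hx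
      unfold BadX at hx'
      rw [Finset.mem_filter] at hx'
      rw [Finset.mem_coe, Finset.mem_product, Finset.mem_range, Finset.mem_filter, Finset.mem_range]
      refine ⟨Nat.mod_lt _ hY, ?_, ?_⟩
      · rw [Nat.div_lt_iff_lt_mul hY, ← hQ]
        exact ZMod.val_lt x
      · push_cast
        exact hx'.2
    · intro x _ y _ hxy
      simp only [Prod.mk.injEq] at hxy
      apply ZMod.val_injective Q
      rw [← Nat.mod_add_div x.val Y, ← Nat.mod_add_div y.val Y, hxy.1, hxy.2]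
  rw [Finset.card_product, Finset.card_range] at h
  exact h

lemma card_shift_BadX (s : ZMod Q) :
    (Finset.univ.filter (fun x : ZMod Q => x + s ∈ BadX P Q Y M M0)).card =
      (BadX P Q Y M M0).card := by
  classical
  apply Finset.card_bij (fun x _ => x + s)
  · intro x hx; exact (Finset.mem_filter.1 hx).2
  · intro x _ y _ h; exact add_right_cancel h
  · intro y hy
    exact ⟨y - s, by rw [Finset.mem_filter]; exact ⟨Finset.mem_univ _, by simpa using hy⟩, by ring⟩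

/-- shift test -/
lemma test_shift (hQ : Q = L * Y) (hY : 0 < Y) (hMM : M0 ≤ M) (y : ℕ) (hy : y ≤ Y) :
    (Finset.univ.filter (fun x : ZMod Q => fcol P Q Y M (x + (y : ZMod Q)) ≠
      1 * fcol P Q Y M x)).card ≤ 3 * (BadX P Q Y M M0).card := by
  classical
  have hYz : (0 : ℤ) < Y := by exact_mod_cast hY
  have hsub : Finset.univ.filter (fun x : ZMod Q => fcol P Q Y M (x + (y : ZMod Q)) ≠
      1 * fcol P Q Y M x) ⊆ BadX P Q Y M M0 ∪
      Finset.univ.filter (fun x : ZMod Q => x + (Y : ZMod Q) ∈ BadX P Q Y M M0) := by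
    intro x hx
    rw [Finset.mem_filter] at hx
    rw [Finset.mem_union, Finset.mem_filter]
    by_contra hcon
    push Not at hcon
    obtain ⟨j, rfl⟩ : ∃ j : ℤ, (j : ZMod Q) = x := ⟨x.val, by simp⟩
    have h1 := hcon.1
    have h2 := hcon.2 (Finset.mem_univ _)
    have e1 : (j : ZMod Q) + (Y : ZMod Q) = ((j + Y : ℤ) : ZMod Q) := by push_cast; rfl
    have e2 : (j : ZMod Q) + (y : ZMod Q) = ((j + y : ℤ) : ZMod Q) := by push_cast; rfl
    rw [mem_BadX_int hQ hY, not_not] at h1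
    rw [e1, mem_BadX_int hQ hY, not_not] at h2
    have e3 : (j + Y) / Y = j / Y + 1 := by
      have := Int.add_mul_ediv_right j 1 hYz.ne'
      rw [one_mul] at this
      exact this
    rw [e3] at h2
    apply hx.2
    rw [e2, fcol_int hQ hY, fcol_int hQ hY, one_mul]
    have a1 : j / Y ≤ (j + y) / Y := Int.ediv_le_ediv hYz (by omega)
    have a2 : (j + y) / Y ≤ j / Y + 1 := by
      rw [← e3]; exact Int.ediv_le_ediv hYz (by omega)
    have a3 : (j + y) / Y = j / Y ∨ (j + y) / Y = j / Y + 1 := by omega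
    rcases a3 with a | a
    · rw [a]
    · rw [a]; exact ccl_succ hMM h1 h2
  refine (Finset.card_le_card hsub).trans ((Finset.card_union_le _ _).trans ?_)
  rw [card_shift_BadX]
  omega

/-- multiplier test -/
lemma test_mul (hQ : Q = L * Y) (hY : 0 < Y) (hMM : M0 ≤ M) {β : ℤ × ℤ} (hβ : β ≠ 0)
    (hβM : nrm 0 1 β * M0 ≤ M) :
    (Finset.univ.filter (fun x : ZMod Q => fcol P Q Y M (x + ((pos Q β : ℤ) : ZMod Q)) ≠
      (col P 0 1 β : ℝ) * fcol P Q Y M x)).card ≤ 3 * (BadX P Q Y M M0).card := by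
  classical
  have hYz : (0 : ℤ) < Y := by exact_mod_cast hY
  have hsub : Finset.univ.filter (fun x : ZMod Q => fcol P Q Y M (x + ((pos Q β : ℤ) : ZMod Q)) ≠
      (col P 0 1 β : ℝ) * fcol P Q Y M x) ⊆ (BadX P Q Y M M0 ∪
      Finset.univ.filter (fun x : ZMod Q => x + ((pos Q β : ℤ) : ZMod Q) ∈ BadX P Q Y M M0)) ∪
      Finset.univ.filter (fun x : ZMod Q =>
        x + (((pos Q β : ℤ) : ZMod Q) - (Y : ZMod Q)) ∈ BadX P Q Y M M0) := by
    intro x hx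
    rw [Finset.mem_filter] at hx
    rw [Finset.mem_union, Finset.mem_union, Finset.mem_filter, Finset.mem_filter]
    by_contra hcon
    push Not at hcon
    obtain ⟨j, rfl⟩ : ∃ j : ℤ, (j : ZMod Q) = x := ⟨x.val, by simp⟩
    have h1 := hcon.1.1
    have h2 := hcon.1.2 (Finset.mem_univ _)
    have h3 := hcon.2 (Finset.mem_univ _)
    have e2 : (j : ZMod Q) + ((pos Q β : ℤ) : ZMod Q) = ((j + pos Q β : ℤ) : ZMod Q) := by
      push_cast; rfl
    have e3 : (j : ZMod Q) + (((pos Q β : ℤ) : ZMod Q) - (Y : ZMod Q)) =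
        ((j + pos Q β + (-1) * Y : ℤ) : ZMod Q) := by
      push_cast; ring
    rw [mem_BadX_int hQ hY, not_not] at h1
    rw [e2, mem_BadX_int hQ hY, not_not] at h2
    rw [e3, mem_BadX_int hQ hY, not_not, Int.add_mul_ediv_right _ _ hYz.ne'] at h3
    apply hx.2
    rw [e2, fcol_int hQ hY, fcol_int hQ hY]
    exact ccl_mul hY hMM hβ hβM j h1 h2 h3
  refine (Finset.card_le_card hsub).trans ((Finset.card_union_le _ _).trans ?_)
  have h1 := Finset.card_union_le (BadX P Q Y M M0)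
    (Finset.univ.filter (fun x : ZMod Q => x + ((pos Q β : ℤ) : ZMod Q) ∈ BadX P Q Y M M0))
  rw [card_shift_BadX] at h1 ⊢
  omega

/-- product relation on the grid -/
lemma prod_rel (hQ : Q = L * Y) (hY : 0 < Y) (hMM : M0 ≤ M) {β γ : ℤ × ℤ} (hβ : β ≠ 0) (hγ : γ ≠ 0)
    (hM : nrm 0 1 β * nrm 0 1 γ ≤ M)
    (h0 : ((pos Q β : ℤ) : ZMod Q) + ((pos Q γ : ℤ) : ZMod Q) ∉ BadX P Q Y M M0)
    (h1 : ((pos Q β : ℤ) : ZMod Q) + ((pos Q γ : ℤ) : ZMod Q) + (Y : ZMod Q) ∉ BadX P Q Y M M0)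
    (y : ℕ) (hy : y < Y) :
    fcol P Q Y M (((pos Q β : ℤ) : ZMod Q) + ((pos Q γ : ℤ) : ZMod Q) + (y : ZMod Q)) =
      (col P 0 1 β : ℝ) * (col P 0 1 γ : ℝ) := by
  have hYz : (0 : ℤ) < Y := by exact_mod_cast hY
  set j : ℤ := pos Q β + pos Q γ with hj
  have e0 : ((pos Q β : ℤ) : ZMod Q) + ((pos Q γ : ℤ) : ZMod Q) = ((j : ℤ) : ZMod Q) := by
    rw [hj]; push_cast; rfl
  have e1 : ((j : ℤ) : ZMod Q) + (Y : ZMod Q) = ((j + Y : ℤ) : ZMod Q) := by push_cast; rfl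
  have e2 : ((j : ℤ) : ZMod Q) + (y : ZMod Q) = ((j + y : ℤ) : ZMod Q) := by push_cast; rfl
  have e3 : (j + Y) / Y = j / Y + 1 := by
    have := Int.add_mul_ediv_right j 1 hYz.ne'
    rw [one_mul] at this
    exact this
  rw [e0, mem_BadX_int hQ hY, not_not] at h0
  rw [e0, e1, mem_BadX_int hQ hY, not_not, e3] at h1
  rw [e0, e2, fcol_int hQ hY]
  have a1 : j / Y ≤ (j + y) / Y := Int.ediv_le_ediv hYz (by omega)
  have a2 : (j + y) / Y ≤ j / Y + 1 := by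
    rw [← e3]; exact Int.ediv_le_ediv hYz (by omega)
  have a3 : (j + y) / Y = j / Y ∨ (j + y) / Y = j / Y + 1 := by omega
  have hp := ccl_prod (P := P) hY hβ hγ hM h0.1
  rcases a3 with a | a
  · rw [a]; exact hp
  · rw [a, ccl_succ hMM h0 h1]; exact hp

end

end Pool.Agent.Lib.MP_a17b09_nt.LP
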