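import Pool.Agent.Lib.MP_a17b09_nt.LP.Cells
import Pool.Agent.Lib.MP_a17b09_nt.Unpop

set_option autoImplicit false

open Finset

namespace Pool.Agent.Lib.MP_a17b09_nt.LP

lemma tan_le_two : Real.tan (3 * Real.pi / 10) ≤ 2 := by
  have hpi := Real.pi_pos
  have h5 : Real.cos (Real.pi / 5) = (1 + Real.sqrt 5) / 4 := Real.cos_pi_div_five
  have h6 : Real.sin (3 * Real.pi / 10) = (1 + Real.sqrt 5) / 4 := by
    rw [← h5, ← Real.sin_pi_div_two_sub]
    congr 1; ring
  have h7 : (2 : ℝ) ≤ Real.sqrt 5 ∧ Real.sqrt 5 ≤ 9 / 4 := by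
    constructor
    · apply Real.le_sqrt_of_sq_le; norm_num
    · rw [Real.sqrt_le_left (by norm_num)]; norm_num
  have h8 : 0 < Real.cos (3 * Real.pi / 10) := by
    apply Real.cos_pos_of_mem_Ioo
    constructor <;> linarith
  have h9 : Real.sin (3 * Real.pi / 10) ≤ 2 * Real.cos (3 * Real.pi / 10) := by
    have h10 := Real.sin_sq_add_cos_sq (3 * Real.pi / 10)
    rw [h6] at h10 ⊢
    have hs := Real.sq_sqrt (show (0 : ℝ) ≤ 5 by norm_num)
    by_contra hcon
    push Not at hcon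
    have h11 : (2 * Real.cos (3 * Real.pi / 10)) ^ 2 < ((1 + Real.sqrt 5) / 4) ^ 2 := by
      gcongr
    nlinarith
  rw [Real.tan_eq_sin_div_cos, div_le_iff₀ h8]; exact h9

lemma abs_arctan_sub_le (x y : ℝ) : |Real.arctan x - Real.arctan y| ≤ |x - y| := by
  have h := Convex.norm_image_sub_le_of_norm_deriv_le (f := Real.arctan) (C := 1)
    (s := Set.univ) (x := y) (y := x) (fun z _ => Real.differentiable_arctan z) (by
      intro z _
      rw [Real.deriv_arctan, Real.norm_eq_abs, abs_of_pos (by positivity), div_le_one (by positivity)]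
      nlinarith [sq_nonneg z]) convex_univ (Set.mem_univ _) (Set.mem_univ _)
  simpa using h

/-- approximation of an unpopulated cell by a small direction -/
lemma unpop_approx {Q Y L : ℕ} (hQ : Q = L * Y) (hY : 0 < Y) (hL : 20 ≤ L) {M0 : ℤ} {n : ℕ}
    (hn : 0 < n) (hM0 : 5 * (n : ℤ) ^ 2 ≤ M0) {c : ℤ} (hc1 : -(L : ℤ) ≤ 2 * c) (hc2 : 2 * c < L)
    (hc : ¬ PopC Q Y M0 c) :
    ∃ k j : ℤ, 0 < k ∧ (k : ℝ) * (n + 1) ≤ 2 * L ∧ |j| ≤ 2 * k ∧
      |(c : ℝ) + 1 / 2 - L * th (k, j)| ≤ L / (k * (n + 1)) := by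
  have hpi := Real.pi_pos
  have hLr : (20 : ℝ) ≤ L := by exact_mod_cast hL
  have hLpos : (0 : ℝ) < L := by linarith
  have hc1r : (-(L : ℝ)) ≤ 2 * c := by exact_mod_cast hc1
  have hc2r : (2 : ℝ) * c < L := by exact_mod_cast hc2
  set φ : ℝ := ((c : ℝ) + 1 / 2) / L with hφ
  have hφ1 : -(3 / 5) ≤ φ := by
    rw [hφ, le_div_iff₀ hLpos]; linarith
  have hφ2 : φ ≤ 3 / 5 := by
    rw [hφ, div_le_iff₀ hLpos]; linarith
  set ξ : ℝ := Real.tan (Real.pi / 2 * φ) with hξ
  have harc : Real.arctan ξ = Real.pi / 2 * φ := by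
    rw [hξ]; apply Real.arctan_tan <;> nlinarith
  have hξ2 : |ξ| ≤ 2 := by
    have h1 : |Real.arctan ξ| ≤ Real.arctan 2 := by
      have h2 : Real.arctan (Real.tan (3 * Real.pi / 10)) = 3 * Real.pi / 10 :=
        Real.arctan_tan (by linarith) (by linarith)
      have h3 : 3 * Real.pi / 10 ≤ Real.arctan 2 := by
        rw [← h2]; exact Real.arctan_strictMono.monotone tan_le_two
      refine le_trans ?_ h3
      rw [harc, abs_le]
      constructor <;> nlinarith
    rw [abs_le] at h1 ⊢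
    have h4 : Real.arctan (-2) ≤ Real.arctan ξ := by
      rw [Real.arctan_neg]; exact h1.1
    exact ⟨Real.arctan_strictMono.le_iff_le.1 h4, Real.arctan_strictMono.le_iff_le.1 h1.2⟩
  obtain ⟨j, k, hk0, hkn, hjk⟩ := Real.exists_int_int_abs_mul_sub_le ξ hn
  have hkr : (1 : ℝ) ≤ k := by exact_mod_cast hk0
  have hkpos : (0 : ℝ) < k := by linarith
  have hn1 : (0 : ℝ) < (n : ℝ) + 1 := by positivity
  have hn2 : (2 : ℝ) ≤ (n : ℝ) + 1 := by
    have : (1 : ℝ) ≤ n := by exact_mod_cast hn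
    linarith
  have hinv : 1 / ((n : ℝ) + 1) ≤ 1 / 2 := one_div_le_one_div_of_le (by norm_num) hn2
  have hj : |j| ≤ 2 * k := by
    have h1 : |(j : ℝ)| ≤ 2 * k + 1 / 2 := by
      have h2 : (j : ℝ) = k * ξ - (k * ξ - j) := by ring
      rw [h2]
      refine (abs_sub _ _).trans ?_
      rw [abs_mul, abs_of_pos hkpos]
      have : (k : ℝ) * |ξ| ≤ k * 2 := by gcongr
      linarith
    have h3 : ((|j| : ℤ) : ℝ) < ((2 * k + 1 : ℤ) : ℝ) := by push_cast; linarith
    have h4 : |j| < 2 * k + 1 := by exact_mod_cast h3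
    omega
  set u : ℤ × ℤ := (k, j) with hu
  have hu1 : 0 < u.1 := hk0
  have hune : u ≠ 0 := by intro h; rw [h] at hu1; simp at hu1
  have hnrm : nrm 0 1 u ≤ M0 := by
    refine le_trans ?_ hM0
    rw [nrm01, hu]
    simp only
    have h1 : j ^ 2 ≤ (2 * k) ^ 2 := by
      rw [← sq_abs j]; gcongr
    have h2 : k ^ 2 ≤ (n : ℤ) ^ 2 := by gcongr
    nlinarith
  -- the angle of `u`
  have hslope : |slope u - ξ| ≤ 1 / (k * (n + 1)) := by
    have e : slope u - ξ = -((k * ξ - j) / k) := by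
      unfold slope; rw [hu]; simp only; field_simp; ring
    rw [e, abs_neg, abs_div, abs_of_pos hkpos, div_le_div_iff₀ hkpos (by positivity), one_mul]
    rw [le_div_iff₀ hn1] at hjk
    calc |(k : ℝ) * ξ - j| * (k * (n + 1)) = (|(k : ℝ) * ξ - j| * (n + 1)) * k := by ring
      _ ≤ 1 * k := by gcongr
      _ = k := one_mul _
  have hth : |th u - φ| ≤ 1 / (k * (n + 1)) := by
    rw [th_eq_arctan hu1]
    have e : φ = 2 / Real.pi * Real.arctan ξ := by rw [harc]; field_simp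
    rw [e, ← mul_sub, abs_mul, abs_of_pos (by positivity)]
    have h1 : |Real.arctan (slope u) - Real.arctan ξ| ≤ |slope u - ξ| := abs_arctan_sub_le _ _
    have h3 : 2 / Real.pi ≤ 1 := by
      rw [div_le_one hpi]; linarith [Real.pi_gt_three]
    calc 2 / Real.pi * |Real.arctan (slope u) - Real.arctan ξ| ≤ 1 * |slope u - ξ| := by gcongr
      _ ≤ _ := by rw [one_mul]; exact hslope
  have hnot : ¬ InH Q Y c u := fun h => hc ⟨u, hune, hnrm, h⟩
  have hfar : 1 / (2 * L) ≤ |th u - φ| := by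
    by_contra hcon
    push Not at hcon
    apply hnot
    refine ⟨0, ?_, ?_⟩
    · rw [(pos_bounds hQ hY (by omega) c (c + 1) u 0).1]
      have h1 := (abs_lt.1 hcon).1
      have e : φ - 1 / (2 * L) = (c : ℝ) / L := by rw [hφ]; field_simp; ring
      push_cast
      linarith
    · rw [(pos_bounds hQ hY (by omega) c (c + 1) u 0).2]
      have h1 := (abs_lt.1 hcon).2
      have e : φ + 1 / (2 * L) = ((c + 1 : ℤ) : ℝ) / L := by rw [hφ]; push_cast; field_simp; ring
      rw [← e]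
      push_cast
      linarith
  refine ⟨k, j, hk0, ?_, hj, ?_⟩
  · have h1 := hfar.trans hth
    rw [div_le_div_iff₀ (by positivity) (by positivity)] at h1
    linarith
  · have e : (c : ℝ) + 1 / 2 - L * th (k, j) = -(L * (th u - φ)) := by
      rw [hφ, hu]; field_simp; ring
    rw [e, abs_neg, abs_mul, abs_of_pos hLpos]
    calc (L : ℝ) * |th u - φ| ≤ L * (1 / (k * (n + 1))) := by gcongr
      _ = _ := by ring

open Classical in
/-- the number of unpopulated cells -/
theorem unpop_full {Q Y L : ℕ} (hQ : Q = L * Y) (hY : 0 < Y) (hL : 20 ≤ L) {M0 : ℤ} {n : ℕ}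
    (hn : 0 < n) (hM0 : 5 * (n : ℤ) ^ 2 ≤ M0) :
    (((range L).filter (fun c : ℕ => ¬ PopC Q Y M0 c)).card : ℝ) * (n + 1) ^ 2 ≤
      80 * (L : ℝ) ^ 2 := by
  set U := (range L).filter (fun c : ℕ => ¬ PopC Q Y M0 c) with hU
  have hLr : (20 : ℝ) ≤ L := by exact_mod_cast hL
  have hLpos : (0 : ℝ) < L := by linarith
  have hn1 : (0 : ℝ) < (n : ℝ) + 1 := by positivity
  set K : ℕ := ⌊2 * (L : ℝ) / (n + 1)⌋₊ with hK
  have hKle : (K : ℝ) ≤ 2 * (L : ℝ) / (n + 1) := Nat.floor_le (by positivity)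
  set T : Finset ((_ : ℤ) × ℤ) := (Finset.Icc (1 : ℤ) K).sigma (fun k => Finset.Icc (-(2 * k)) (2 * k))
    with hT
  set F : ((_ : ℤ) × ℤ) → Finset ℕ := fun p => U.filter (fun c : ℕ =>
    |(c : ℝ) + 1 / 2 - L * th (p.1, p.2)| ≤ L / (p.1 * (n + 1)) ∨
    |(c : ℝ) + 1 / 2 - (L * th (p.1, p.2) + L)| ≤ L / (p.1 * (n + 1))) with hF
  have hcov : U ⊆ T.biUnion F := by
    intro c hc
    have hc' := hc
    rw [hU, Finset.mem_filter, Finset.mem_range] at hc
    obtain ⟨c', k0, e, h1, h2⟩ := exists_central hc.1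
    have hnp : ¬ PopC Q Y M0 c' := by
      intro hp
      apply hc.2
      obtain ⟨u, a1, a2, a3⟩ := hp
      refine ⟨u, a1, a2, ?_⟩
      rw [e, InH_add_period hQ]; exact a3
    obtain ⟨k, j, g1, g2, g3, g4⟩ := unpop_approx hQ hY hL hn hM0 h1 h2 hnp
    have hk01 : k0 = 0 ∨ k0 = 1 := by
      have hLz : (0 : ℤ) < L := by
        have : 0 < L := by omega
        exact_mod_cast this
      have h3 : 0 ≤ c' + k0 * L := by rw [← e]; positivity
      have h4 : c' + k0 * L < L := by rw [← e]; exact_mod_cast hc.1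
      have h5 : -1 < k0 := by
        by_contra hcon
        push Not at hcon
        nlinarith
      have h6 : k0 < 2 := by
        by_contra hcon
        push Not at hcon
        nlinarith
      omega
    rw [Finset.mem_biUnion]
    refine ⟨⟨k, j⟩, ?_, ?_⟩
    · rw [hT, Finset.mem_sigma, Finset.mem_Icc, Finset.mem_Icc]
      have h5 : k ≤ (K : ℤ) := by
        have h6 : (k : ℝ) ≤ 2 * (L : ℝ) / (n + 1) := by
          rw [le_div_iff₀ hn1]; exact g2
        have h7 : ((k.toNat : ℕ) : ℝ) ≤ 2 * (L : ℝ) / (n + 1) := by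
          have : ((k.toNat : ℕ) : ℤ) = k := Int.toNat_of_nonneg g1.le
          have h8 : ((k.toNat : ℕ) : ℝ) = (k : ℝ) := by exact_mod_cast this
          rw [h8]; exact h6
        have h9 := Nat.le_floor h7
        rw [← hK] at h9
        omega
      exact ⟨⟨g1, h5⟩, (abs_le.1 g3)⟩
    · rw [hF]
      simp only
      rw [Finset.mem_filter]
      refine ⟨hc', ?_⟩
      rcases hk01 with h | h
      · left
        have : (c : ℝ) = c' := by
          have : (c : ℤ) = c' := by rw [e, h]; ring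
          exact_mod_cast this
        rw [this]; exact g4
      · right
        have : (c : ℝ) = c' + L := by
          have : (c : ℤ) = c' + L := by rw [e, h]; ring
          exact_mod_cast this
        rw [this]
        have e2 : (c' : ℝ) + L + 1 / 2 - (L * th (k, j) + L) = c' + 1 / 2 - L * th (k, j) := by ring
        rw [e2]; exact g4
  have hFcard : ∀ p ∈ T, ((F p).card : ℝ) ≤ 8 * L / (p.1 * (n + 1)) := by
    intro p hp
    rw [hT, Finset.mem_sigma, Finset.mem_Icc, Finset.mem_Icc] at hp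
    have hp1 : (1 : ℝ) ≤ p.1 := by exact_mod_cast hp.1.1
    have hp1' : (0 : ℝ) < p.1 := by linarith
    have hpK : (p.1 : ℝ) ≤ 2 * (L : ℝ) / (n + 1) := by
      refine le_trans ?_ hKle
      exact_mod_cast hp.1.2
    have hr : 1 / 2 ≤ (L : ℝ) / (p.1 * (n + 1)) := by
      rw [div_le_div_iff₀ (by norm_num) (by positivity)]
      rw [le_div_iff₀ hn1] at hpK
      linarith
    have hr0 : 0 ≤ (L : ℝ) / (p.1 * (n + 1)) := by positivity
    have h1 := card_near (U.filter (fun c : ℕ =>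
      |(c : ℝ) + 1 / 2 - L * th (p.1, p.2)| ≤ L / (p.1 * (n + 1)))) (L * th (p.1, p.2)) _ hr0
      (by intro j hj; exact (Finset.mem_filter.1 hj).2)
    have h2 := card_near (U.filter (fun c : ℕ =>
      |(c : ℝ) + 1 / 2 - (L * th (p.1, p.2) + L)| ≤ L / (p.1 * (n + 1)))) (L * th (p.1, p.2) + L) _
      hr0 (by intro j hj; exact (Finset.mem_filter.1 hj).2)
    have h3 : ((F p).card : ℝ) ≤ ((U.filter (fun c : ℕ =>
      |(c : ℝ) + 1 / 2 - L * th (p.1, p.2)| ≤ L / (p.1 * (n + 1)))).card : ℝ) +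
      ((U.filter (fun c : ℕ =>
      |(c : ℝ) + 1 / 2 - (L * th (p.1, p.2) + L)| ≤ L / (p.1 * (n + 1)))).card : ℝ) := by
      rw [hF]
      simp only
      rw [Finset.filter_or]
      exact_mod_cast Finset.card_union_le _ _
    have e : 8 * (L : ℝ) / (p.1 * (n + 1)) = 8 * (L / (p.1 * (n + 1))) := by ring
    rw [e]
    linarith
  have h1 : (U.card : ℝ) ≤ ∑ p ∈ T, 8 * (L : ℝ) / (p.1 * (n + 1)) := by
    calc (U.card : ℝ) ≤ ((T.biUnion F).card : ℝ) := by exact_mod_cast Finset.card_le_card hcov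
      _ ≤ ((∑ p ∈ T, (F p).card : ℕ) : ℝ) := by exact_mod_cast Finset.card_biUnion_le
      _ = ∑ p ∈ T, ((F p).card : ℝ) := by push_cast; rfl
      _ ≤ _ := Finset.sum_le_sum hFcard
  have h2 : ∑ p ∈ T, 8 * (L : ℝ) / (p.1 * (n + 1)) ≤ K * (40 * L / (n + 1)) := by
    rw [hT, Finset.sum_sigma]
    calc ∑ k ∈ Finset.Icc (1 : ℤ) K, ∑ j ∈ Finset.Icc (-(2 * k)) (2 * k),
          8 * (L : ℝ) / (k * (n + 1))
        ≤ ∑ k ∈ Finset.Icc (1 : ℤ) K, 40 * (L : ℝ) / (n + 1) := by
          apply Finset.sum_le_sum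
          intro k hk
          rw [Finset.mem_Icc] at hk
          rw [Finset.sum_const, nsmul_eq_mul, Int.card_Icc]
          have hk1 : (1 : ℝ) ≤ k := by exact_mod_cast hk.1
          have e : (((2 * k + 1 - -(2 * k)).toNat : ℕ) : ℝ) = 4 * k + 1 := by
            have : (((2 * k + 1 - -(2 * k)).toNat : ℕ) : ℤ) = 4 * k + 1 := by
              rw [Int.toNat_of_nonneg (by linarith)]; ring
            exact_mod_cast this
          rw [e, mul_div_assoc', div_le_div_iff₀ (by positivity) hn1]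
          have h3 : (4 * (k : ℝ) + 1) * (8 * L) ≤ (5 * k) * (8 * L) := by gcongr; linarith
          calc (4 * (k : ℝ) + 1) * (8 * L) * (n + 1) ≤ ((5 * k) * (8 * L)) * (n + 1) := by gcongr
            _ = 40 * L * (k * (n + 1)) := by ring
      _ = _ := by
          rw [Finset.sum_const, nsmul_eq_mul, Int.card_Icc]
          congr 1
          have : (((K : ℤ) + 1 - 1).toNat : ℕ) = K := by omega
          rw [this]
  have h3 : (U.card : ℝ) ≤ (2 * (L : ℝ) / (n + 1)) * (40 * L / (n + 1)) :=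
    (h1.trans h2).trans (by gcongr)
  calc (U.card : ℝ) * (n + 1) ^ 2 ≤ ((2 * (L : ℝ) / (n + 1)) * (40 * L / (n + 1))) * (n + 1) ^ 2 := by
        gcongr
    _ = 80 * (L : ℝ) ^ 2 := by field_simp; ring

end Pool.Agent.Lib.MP_a17b09_nt.LP
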