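import Pool.Agent.Lib.MP_a17b09_nt.LP.Ang
import Pool.Agent.Lib.MP_a17b09_nt.LP.Fourier
import Pool.Agent.Lib.MP_a17b09_nt.LP.WeylBox

/-!
The weighted sum of an angular character over the Gaussian integers of a cone.
-/

set_option autoImplicit false

open Finset

namespace Pool.Agent.Lib.MP_a17b09_nt.LP

/-- The lattice points `(x, y)` with `X < x <= 2X` and `-x <= y < x`. -/
noncomputable def GX (X : ℕ) : Finset (ℤ × ℤ) :=
  ((Finset.Ioc (X : ℤ) (2 * X)) ×ˢ (Finset.Ico (-(2 * X : ℤ)) (2 * X))).filter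
    (fun u => -u.1 ≤ u.2 ∧ u.2 < u.1)

/-- The weight of a point: the angle to the next point of the row. -/
noncomputable def wt (u : ℤ × ℤ) : ℝ := th (u.1, u.2 + 1) - th u

lemma mem_GX {X : ℕ} {u : ℤ × ℤ} :
    u ∈ GX X ↔ ((X : ℤ) < u.1 ∧ u.1 ≤ 2 * X) ∧ (-u.1 ≤ u.2 ∧ u.2 < u.1) := by
  unfold GX
  rw [Finset.mem_filter, Finset.mem_product, Finset.mem_Ioc, Finset.mem_Ico]
  omega

lemma arctan_lip (a b : ℝ) : |Real.arctan a - Real.arctan b| ≤ |a - b| := by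
  have h := (convex_univ (𝕜 := ℝ) (E := ℝ)).norm_image_sub_le_of_norm_hasDerivWithin_le
    (f := Real.arctan) (f' := fun x => 1 / (1 + x ^ 2)) (C := 1) (x := b) (y := a)
    (fun x _ => (Real.hasDerivAt_arctan x).hasDerivWithinAt) ?_ (Set.mem_univ _)
    (Set.mem_univ _)
  · rw [one_mul] at h
    simpa [Real.norm_eq_abs] using h
  · intro x _
    rw [Real.norm_eq_abs, abs_of_nonneg (by positivity), div_le_one (by positivity)]
    nlinarith [sq_nonneg x]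

/-- The argument of the arctangent in the weight. -/
noncomputable def wa (u : ℤ × ℤ) : ℝ :=
  (u.1 : ℝ) / ((u.1 : ℝ) ^ 2 + ((u.2 : ℝ) ^ 2 + (u.2 : ℝ)))

lemma int_sq_add_nonneg (y : ℤ) : (0 : ℝ) ≤ (y : ℝ) ^ 2 + (y : ℝ) := by
  have h : (0 : ℤ) ≤ y ^ 2 + y := by
    rcases le_or_gt 0 y with h | h
    · positivity
    · have : y ≤ -1 := by omega
      nlinarith
  exact_mod_cast h

lemma wt_eq {u : ℤ × ℤ} (hu : 0 < u.1) : wt u = 2 / Real.pi * Real.arctan (wa u) := by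
  have hur : (0 : ℝ) < u.1 := by exact_mod_cast hu
  unfold wt
  rw [th_eq_arctan (u := (u.1, u.2 + 1)) hu, th_eq_arctan hu, ← mul_sub]
  congr 1
  have hs : slope u = (u.2 : ℝ) / u.1 := rfl
  have hs' : slope (u.1, u.2 + 1) = ((u.2 : ℝ) + 1) / u.1 := by
    unfold slope
    push_cast
    rfl
  rw [hs, hs', sub_eq_add_neg, ← Real.arctan_neg]
  have hn := int_sq_add_nonneg u.2
  rw [Real.arctan_add]
  · congr 1
    unfold wa
    have h1 : (0 : ℝ) < (u.1 : ℝ) ^ 2 + ((u.2 : ℝ) ^ 2 + (u.2 : ℝ)) := by positivity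
    have h2 : 1 - ((u.2 : ℝ) + 1) / u.1 * -((u.2 : ℝ) / u.1)
        = ((u.1 : ℝ) ^ 2 + ((u.2 : ℝ) ^ 2 + (u.2 : ℝ))) / (u.1 : ℝ) ^ 2 := by
      field_simp
      ring
    rw [h2]
    field_simp
    ring
  · have h3 : ((u.2 : ℝ) + 1) / u.1 * -((u.2 : ℝ) / u.1)
        = -(((u.2 : ℝ) ^ 2 + (u.2 : ℝ)) / (u.1 : ℝ) ^ 2) := by
      field_simp
    rw [h3]
    have : (0 : ℝ) ≤ ((u.2 : ℝ) ^ 2 + (u.2 : ℝ)) / (u.1 : ℝ) ^ 2 := by positivity
    linarith

lemma wa_nonneg {u : ℤ × ℤ} (hu : 0 < u.1) : 0 ≤ wa u := by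
  have hur : (0 : ℝ) < u.1 := by exact_mod_cast hu
  have hn := int_sq_add_nonneg u.2
  unfold wa
  positivity

lemma wa_le {u : ℤ × ℤ} (hu : 0 < u.1) : wa u ≤ 1 / u.1 := by
  have hur : (0 : ℝ) < u.1 := by exact_mod_cast hu
  have hn := int_sq_add_nonneg u.2
  unfold wa
  rw [div_le_div_iff₀ (by positivity) hur]
  nlinarith

lemma two_div_pi_le : 2 / Real.pi ≤ 1 := by
  rw [div_le_one Real.pi_pos]
  linarith [Real.pi_gt_three]

lemma wt_nonneg {u : ℤ × ℤ} (hu : 0 < u.1) : 0 ≤ wt u := by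
  rw [wt_eq hu]
  have h := wa_nonneg hu
  have h2 : 0 ≤ Real.arctan (wa u) := Real.arctan_nonneg.mpr h
  have := Real.pi_pos
  positivity

lemma wt_le {u : ℤ × ℤ} (hu : 0 < u.1) : wt u ≤ 1 / u.1 := by
  rw [wt_eq hu]
  have h := wa_nonneg hu
  have h1 := arctan_lip (wa u) 0
  rw [Real.arctan_zero, sub_zero, sub_zero, abs_of_nonneg h] at h1
  have h2 : Real.arctan (wa u) ≤ wa u := le_trans (le_abs_self _) h1
  have h3 : 0 ≤ Real.arctan (wa u) := Real.arctan_nonneg.mpr h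
  calc 2 / Real.pi * Real.arctan (wa u) ≤ 1 * Real.arctan (wa u) :=
        mul_le_mul_of_nonneg_right two_div_pi_le h3
    _ ≤ wa u := by linarith
    _ ≤ 1 / u.1 := wa_le hu

lemma GX_pos {X : ℕ} {u : ℤ × ℤ} (hu : u ∈ GX X) : 0 < u.1 := by
  rw [mem_GX] at hu
  omega

lemma wt_le_GX {X : ℕ} (hX : 0 < X) {u : ℤ × ℤ} (hu : (X : ℤ) < u.1) : wt u ≤ 1 / X := by
  have hXr : (0 : ℝ) < X := by exact_mod_cast hX
  have hu0 : 0 < u.1 := by omega
  refine le_trans (wt_le hu0) ?_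
  apply one_div_le_one_div_of_le hXr
  have h1 : (X : ℤ) ≤ u.1 := by omega
  exact_mod_cast h1

/-- (W1) -/
theorem wt_bounds {X : ℕ} (hX : 0 < X) {u : ℤ × ℤ} (hu : u ∈ GX X) :
    0 ≤ wt u ∧ wt u * X ≤ 1 := by
  have hXr : (0 : ℝ) < X := by exact_mod_cast hX
  refine ⟨wt_nonneg (GX_pos hu), ?_⟩
  have h := wt_le_GX hX (mem_GX.mp hu).1.1
  rw [le_div_iff₀ hXr] at h
  exact h

lemma sum_GX {A : Type*} [AddCommMonoid A] (X : ℕ) (F : ℤ × ℤ → A) :
    ∑ u ∈ GX X, F u = ∑ x ∈ Ioc (X : ℤ) (2 * X), ∑ y ∈ Ico (-x) x, F (x, y) := by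
  unfold GX
  rw [Finset.sum_filter, Finset.sum_product]
  apply Finset.sum_congr rfl
  intro x hx
  rw [Finset.mem_Ioc] at hx
  rw [← Finset.sum_filter]
  apply Finset.sum_congr _ (fun _ _ => rfl)
  ext y
  rw [Finset.mem_filter, Finset.mem_Ico, Finset.mem_Ico]
  simp only
  omega

lemma tele {A : Type*} [AddCommGroup A] (f : ℤ → A) (a : ℤ) (n : ℕ) :
    ∑ y ∈ Ico a (a + n), (f (y + 1) - f y) = f (a + n) - f a := by
  induction n with
  | zero => simp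
  | succ n ih =>
    have e : Ico a (a + ((n + 1 : ℕ) : ℤ)) = insert (a + (n : ℤ)) (Ico a (a + n)) := by
      ext y
      rw [Finset.mem_insert, Finset.mem_Ico, Finset.mem_Ico]
      push_cast
      omega
    rw [e, Finset.sum_insert (by rw [Finset.mem_Ico]; omega), ih]
    have e2 : a + ((n + 1 : ℕ) : ℤ) = a + (n : ℤ) + 1 := by push_cast; ring
    rw [e2]
    abel

lemma tele_row {A : Type*} [AddCommGroup A] (f : ℤ → A) (x : ℤ) (hx : 0 ≤ x) :
    ∑ y ∈ Ico (-x) x, (f (y + 1) - f y) = f x - f (-x) := by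
  have h := tele f (-x) (2 * x).toNat
  have e : -x + (((2 * x).toNat : ℕ) : ℤ) = x := by
    rw [Int.toNat_of_nonneg (by omega)]
    ring
  rw [e] at h
  exact h

lemma th_diag {x : ℤ} (hx : 0 < x) : th (x, x) = 1 / 2 := by
  have hxr : (0 : ℝ) < x := by exact_mod_cast hx
  rw [th_eq_arctan (u := (x, x)) hx]
  have : slope (x, x) = 1 := by
    unfold slope
    field_simp
  rw [this, Real.arctan_one]
  have := Real.pi_pos
  field_simp
  norm_num

lemma th_diag_neg {x : ℤ} (hx : 0 < x) : th (x, -x) = -(1 / 2) := by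
  have hxr : (0 : ℝ) < x := by exact_mod_cast hx
  rw [th_eq_arctan (u := (x, -x)) hx]
  have : slope (x, -x) = -1 := by
    unfold slope
    push_cast
    field_simp
  rw [this, Real.arctan_neg, Real.arctan_one]
  have := Real.pi_pos
  field_simp
  norm_num

lemma sum_row_wt {x : ℤ} (hx : 0 < x) : ∑ y ∈ Ico (-x) x, wt (x, y) = 1 := by
  have h := tele_row (fun y => th (x, y)) x hx.le
  have e : ∀ y ∈ Ico (-x) x, wt (x, y) = th (x, y + 1) - th (x, y) := fun y _ => rfl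
  rw [Finset.sum_congr rfl e, h, th_diag hx, th_diag_neg hx]
  norm_num

/-- (W2) -/
theorem sum_wt (X : ℕ) : ∑ u ∈ GX X, wt u = X := by
  rw [sum_GX]
  have h : ∀ x ∈ Ioc (X : ℤ) (2 * X), ∑ y ∈ Ico (-x) x, wt (x, y) = 1 := by
    intro x hx
    rw [Finset.mem_Ioc] at hx
    exact sum_row_wt (by omega)
  rw [Finset.sum_congr rfl h, Finset.sum_const, Int.card_Ioc, nsmul_eq_mul, mul_one]
  have e : (2 * (X : ℤ) - X).toNat = X := by omega
  rw [e]

/-- second order expansion of the unit vector -/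
lemma ph_taylor (d : ℝ) : ‖ph d - 1 - (d : ℂ) * Complex.I‖ ≤ d ^ 2 := by
  have key : ∀ t : ℝ, HasDerivAt (fun t : ℝ => ph t) (ph t * Complex.I) t := by
    intro t
    have h1 : HasDerivAt (fun t : ℝ => ((t : ℂ) * Complex.I)) (1 * Complex.I) t :=
      (Complex.ofRealCLM.hasDerivAt (x := t)).mul_const Complex.I |>.congr_deriv (by simp)
    have h2 := h1.cexp
    rw [one_mul] at h2
    exact h2
  have hb : ∀ t : ℝ, ‖ph t - 1‖ ≤ |t| := by
    intro t
    have := norm_ph_sub_le t 0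
    rwa [ph_zero, sub_zero] at this
  have hd : ∀ t ∈ Set.uIcc 0 d, HasDerivWithinAt (fun t : ℝ => ph t - (t : ℂ) * Complex.I)
      (ph t * Complex.I - 1 * Complex.I) (Set.uIcc 0 d) t := by
    intro t _
    have h1 : HasDerivAt (fun t : ℝ => ((t : ℂ) * Complex.I)) (1 * Complex.I) t :=
      (Complex.ofRealCLM.hasDerivAt (x := t)).mul_const Complex.I |>.congr_deriv (by simp)
    exact ((key t).sub h1).hasDerivWithinAt
  have hbd : ∀ t ∈ Set.uIcc 0 d, ‖ph t * Complex.I - 1 * Complex.I‖ ≤ |d| := by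
    intro t ht
    rw [← sub_mul, norm_mul, Complex.norm_I, mul_one]
    refine le_trans (hb t) ?_
    have := Set.abs_sub_left_of_mem_uIcc ht
    simpa using this
  have := (convex_uIcc (0 : ℝ) d).norm_image_sub_le_of_norm_hasDerivWithin_le
    (f := fun t : ℝ => ph t - (t : ℂ) * Complex.I) (C := |d|) hd hbd
    (Set.left_mem_uIcc) (Set.right_mem_uIcc)
  have e : (fun t : ℝ => ph t - (t : ℂ) * Complex.I) d
      - (fun t : ℝ => ph t - (t : ℂ) * Complex.I) 0 = ph d - 1 - (d : ℂ) * Complex.I := by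
    simp only [ph_zero]
    push_cast
    ring
  rw [e, sub_zero, Real.norm_eq_abs] at this
  calc _ ≤ |d| * |d| := this
    _ = d ^ 2 := by rw [← sq, sq_abs]

/-- The weighted sum with the exact angle. -/
noncomputable def WS (X : ℕ) (c : ℝ) : ℂ := ∑ u ∈ GX X, (wt u : ℂ) * ph (c * th u)

lemma ch_eq_ph (Q : ℕ) [NeZero Q] (m : ℤ) (u : ℤ × ℤ) :
    ch ((m : ZMod Q) * ((pos Q u : ℤ) : ZMod Q))
      = ph (2 * Real.pi * m * ((pos Q u : ℤ) : ℝ) / Q) := by
  have e : (m : ZMod Q) * ((pos Q u : ℤ) : ZMod Q) = ((m * pos Q u : ℤ) : ZMod Q) := by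
    push_cast
    ring
  rw [e, ch_intCast, ph]
  congr 1
  push_cast
  ring

lemma round_le (Q : ℕ) [NeZero Q] (m : ℤ) (u : ℤ × ℤ) :
    ‖ch ((m : ZMod Q) * ((pos Q u : ℤ) : ZMod Q)) - ph (2 * Real.pi * m * th u)‖
      ≤ 2 * Real.pi * |(m : ℝ)| / Q := by
  have hQ : (0 : ℝ) < Q := by
    have := NeZero.pos Q
    exact_mod_cast this
  rw [ch_eq_ph]
  refine le_trans (norm_ph_sub_le _ _) ?_
  have e : 2 * Real.pi * m * ((pos Q u : ℤ) : ℝ) / Q - 2 * Real.pi * m * th u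
      = 2 * Real.pi * m * ((((pos Q u : ℤ) : ℝ) - Q * th u) / Q) := by
    field_simp
  rw [e, abs_mul, abs_mul, abs_of_pos (by positivity : 0 < 2 * Real.pi), abs_div,
    abs_of_pos hQ]
  have h1 : |((pos Q u : ℤ) : ℝ) - Q * th u| ≤ 1 := by
    unfold pos
    rw [abs_le]
    constructor
    · have := Int.sub_one_lt_floor ((Q : ℝ) * th u)
      linarith
    · have := Int.floor_le ((Q : ℝ) * th u)
      linarith
  have h2 : |((pos Q u : ℤ) : ℝ) - Q * th u| / Q ≤ 1 / Q :=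
    div_le_div_of_nonneg_right h1 hQ.le
  calc 2 * Real.pi * |(m : ℝ)| * (|((pos Q u : ℤ) : ℝ) - Q * th u| / Q)
      ≤ 2 * Real.pi * |(m : ℝ)| * (1 / Q) := mul_le_mul_of_nonneg_left h2 (by positivity)
    _ = 2 * Real.pi * |(m : ℝ)| / Q := by ring

lemma round_sum (X : ℕ) (Q : ℕ) [NeZero Q] (m : ℤ) :
    ‖∑ u ∈ GX X, (wt u : ℂ) * ch ((m : ZMod Q) * ((pos Q u : ℤ) : ZMod Q))‖
      ≤ ‖WS X (2 * Real.pi * m)‖ + 2 * Real.pi * |(m : ℝ)| / Q * X := by
  have h : ‖∑ u ∈ GX X, (wt u : ℂ) * ch ((m : ZMod Q) * ((pos Q u : ℤ) : ZMod Q))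
      - WS X (2 * Real.pi * m)‖ ≤ 2 * Real.pi * |(m : ℝ)| / Q * X := by
    unfold WS
    rw [← Finset.sum_sub_distrib]
    refine le_trans (norm_sum_le _ _) ?_
    have h1 : ∀ u ∈ GX X, ‖(wt u : ℂ) * ch ((m : ZMod Q) * ((pos Q u : ℤ) : ZMod Q))
        - (wt u : ℂ) * ph (2 * Real.pi * m * th u)‖
        ≤ 2 * Real.pi * |(m : ℝ)| / Q * wt u := by
      intro u hu
      have hw := wt_nonneg (GX_pos hu)
      rw [← mul_sub, norm_mul, Complex.norm_real, Real.norm_eq_abs, abs_of_nonneg hw, mul_comm]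
      exact mul_le_mul_of_nonneg_right (round_le Q m u) hw
    refine le_trans (Finset.sum_le_sum h1) ?_
    rw [← Finset.mul_sum, sum_wt]
  have h2 := norm_add_le (∑ u ∈ GX X, (wt u : ℂ) * ch ((m : ZMod Q) * ((pos Q u : ℤ) : ZMod Q))
      - WS X (2 * Real.pi * m)) (WS X (2 * Real.pi * m))
  rw [sub_add_cancel] at h2
  linarith

lemma ph_pi_mul_int (m : ℤ) : ph (Real.pi * m) = ph (-(Real.pi * m)) := by
  have h : ph (Real.pi * m) = ph (-(Real.pi * m)) * ph (2 * Real.pi * m) := by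
    rw [← ph_add]
    congr 1
    ring
  have h2 : ph (2 * Real.pi * m) = 1 := by
    rw [ph]
    have e : ((2 * Real.pi * m : ℝ) : ℂ) * Complex.I = (m : ℤ) * (2 * Real.pi * Complex.I) := by
      push_cast
      ring
    rw [e]
    exact Complex.exp_int_mul_two_pi_mul_I m
  rw [h, h2, mul_one]

/-- one row, low frequencies -/
lemma row_low {x : ℤ} (hx : 0 < x) (m : ℤ) (hm : m ≠ 0) :
    ‖∑ y ∈ Ico (-x) x, (wt (x, y) : ℂ) * ph (2 * Real.pi * m * th (x, y))‖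
      ≤ 2 * Real.pi * |(m : ℝ)| / x := by
  have hxr : (0 : ℝ) < x := by exact_mod_cast hx
  have hpi := Real.pi_pos
  set c : ℝ := 2 * Real.pi * m with hc
  have hmr : (m : ℝ) ≠ 0 := by exact_mod_cast hm
  have habs : |c| = 2 * Real.pi * |(m : ℝ)| := by
    rw [hc, abs_mul, abs_of_pos (by positivity : 0 < 2 * Real.pi)]
  have hcpos : 0 < |c| := by
    rw [habs]
    have := abs_pos.mpr hmr
    positivity
  set S := ∑ y ∈ Ico (-x) x, (wt (x, y) : ℂ) * ph (c * th (x, y)) with hS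
  have h1 : ∀ y ∈ Ico (-x) x,
      ‖(ph (c * th (x, y + 1)) - ph (c * th (x, y)))
        - ((c : ℂ) * Complex.I) * ((wt (x, y) : ℂ) * ph (c * th (x, y)))‖
      ≤ c ^ 2 * (1 / x * wt (x, y)) := by
    intro y _
    have hw0 := wt_nonneg (u := (x, y)) hx
    have hw1 := wt_le (u := (x, y)) hx
    have e : (ph (c * th (x, y + 1)) - ph (c * th (x, y)))
        - ((c : ℂ) * Complex.I) * ((wt (x, y) : ℂ) * ph (c * th (x, y)))
        = ph (c * th (x, y)) * (ph (c * wt (x, y)) - 1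
          - ((c * wt (x, y) : ℝ) : ℂ) * Complex.I) := by
      have e1 : ph (c * th (x, y + 1)) = ph (c * th (x, y)) * ph (c * wt (x, y)) := by
        rw [← ph_add]
        congr 1
        unfold wt
        ring
      rw [e1]
      push_cast
      ring
    rw [e, norm_mul, norm_ph, one_mul]
    refine le_trans (ph_taylor _) ?_
    rw [mul_pow]
    apply mul_le_mul_of_nonneg_left _ (sq_nonneg _)
    rw [sq]
    exact mul_le_mul_of_nonneg_right hw1 hw0
  have h2 : ‖∑ y ∈ Ico (-x) x, ((ph (c * th (x, y + 1)) - ph (c * th (x, y)))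
        - ((c : ℂ) * Complex.I) * ((wt (x, y) : ℂ) * ph (c * th (x, y))))‖
      ≤ c ^ 2 * (1 / x) := by
    refine le_trans (norm_sum_le _ _) (le_trans (Finset.sum_le_sum h1) ?_)
    rw [← Finset.mul_sum, ← Finset.mul_sum, sum_row_wt hx, mul_one]
  have h3 : ∑ y ∈ Ico (-x) x, (ph (c * th (x, y + 1)) - ph (c * th (x, y))) = 0 := by
    have h4 := tele_row (fun y => ph (c * th (x, y))) x hx.le
    rw [h4]
    rw [th_diag hx, th_diag_neg hx]
    have e1 : c * (1 / 2) = Real.pi * m := by rw [hc]; ring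
    have e2 : c * -(1 / 2) = -(Real.pi * m) := by rw [hc]; ring
    rw [e1, e2, ph_pi_mul_int, sub_self]
  rw [Finset.sum_sub_distrib, h3, zero_sub, norm_neg, ← Finset.mul_sum, ← hS, norm_mul,
    norm_mul, Complex.norm_I, mul_one, Complex.norm_real, Real.norm_eq_abs] at h2
  have h5 : |c| * ‖S‖ ≤ |c| * (|c| * (1 / x)) := by
    calc |c| * ‖S‖ ≤ c ^ 2 * (1 / x) := h2
      _ = |c| * (|c| * (1 / x)) := by rw [← sq_abs]; ring
  have h6 := le_of_mul_le_mul_left h5 hcpos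
  rw [habs] at h6
  calc ‖S‖ ≤ 2 * Real.pi * |(m : ℝ)| * (1 / x) := h6
    _ = 2 * Real.pi * |(m : ℝ)| / x := by ring

lemma WS_low (X : ℕ) (hX : 0 < X) (m : ℤ) (hm : m ≠ 0) :
    ‖WS X (2 * Real.pi * m)‖ ≤ 2 * Real.pi * |(m : ℝ)| := by
  have hXr : (0 : ℝ) < X := by exact_mod_cast hX
  have hpi := Real.pi_pos
  unfold WS
  rw [sum_GX]
  refine le_trans (norm_sum_le _ _) ?_
  have h : ∀ x ∈ Ioc (X : ℤ) (2 * X),
      ‖∑ y ∈ Ico (-x) x, (wt (x, y) : ℂ) * ph (2 * Real.pi * m * th (x, y))‖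
      ≤ 2 * Real.pi * |(m : ℝ)| / X := by
    intro x hx
    rw [Finset.mem_Ioc] at hx
    refine le_trans (row_low (by omega) m hm) ?_
    apply div_le_div_of_nonneg_left (by positivity) hXr
    have h1 : (X : ℤ) ≤ x := by omega
    exact_mod_cast h1
  refine le_trans (Finset.sum_le_sum h) ?_
  rw [Finset.sum_const, Int.card_Ioc, nsmul_eq_mul]
  have e : (2 * (X : ℤ) - X).toNat = X := by omega
  rw [e]
  apply le_of_eq
  field_simp

lemma frac_var (X s x y x' y' : ℝ) (hX : 1 ≤ X) (hs : 0 ≤ s) (u1 : X ≤ x)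
    (u3 : |y| ≤ 2 * X) (hn : 0 ≤ y ^ 2 + y) (v1 : X ≤ x') (v2 : x' ≤ 2 * X)
    (u2 : x ≤ 2 * X) (v3 : |y'| ≤ 2 * X) (hn' : 0 ≤ y' ^ 2 + y')
    (d1 : |x - x'| ≤ s) (d2 : |y - y'| ≤ s) :
    |x / (x ^ 2 + (y ^ 2 + y)) - x' / (x' ^ 2 + (y' ^ 2 + y'))| ≤ 20 * s / X ^ 2 := by
  have hx0 : 0 < x := by linarith
  have hx'0 : 0 < x' := by linarith
  have hXX : X ^ 2 ≤ x ^ 2 := pow_le_pow_left₀ (by linarith) u1 2
  have hXX' : X ^ 2 ≤ x' ^ 2 := pow_le_pow_left₀ (by linarith) v1 2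
  have hD : X ^ 2 ≤ x ^ 2 + (y ^ 2 + y) := by linarith
  have hD' : X ^ 2 ≤ x' ^ 2 + (y' ^ 2 + y') := by linarith
  have hX2 : (0 : ℝ) < X ^ 2 := by positivity
  have hDp : 0 < x ^ 2 + (y ^ 2 + y) := by linarith
  have hDp' : 0 < x' ^ 2 + (y' ^ 2 + y') := by linarith
  have hXle : X ≤ X ^ 2 := by
    rw [sq]
    exact le_mul_of_one_le_left (by linarith) hX
  have hnum : |x * (x' ^ 2 + (y' ^ 2 + y')) - (x ^ 2 + (y ^ 2 + y)) * x'|
      ≤ 20 * X ^ 2 * s := by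
    have e : x * (x' ^ 2 + (y' ^ 2 + y')) - (x ^ 2 + (y ^ 2 + y)) * x'
        = (x - x') * (y' ^ 2 + y' - x * x') + x' * ((y' - y) * (y' + y + 1)) := by ring
    rw [e]
    have a1 : |y' ^ 2 + y' - x * x'| ≤ 6 * X ^ 2 := by
      have b1 : x * x' ≤ 2 * X * (2 * X) := mul_le_mul u2 v2 hx'0.le (by linarith)
      have b2 : 0 ≤ x * x' := by positivity
      have b3 : y' ^ 2 ≤ (2 * X) ^ 2 := sq_le_sq' (by linarith [(abs_le.mp v3).1])
        (abs_le.mp v3).2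
      have b4 : y' ≤ 2 * X := (abs_le.mp v3).2
      rw [abs_le]
      constructor
      · nlinarith
      · nlinarith
    have a2 : |y' + y + 1| ≤ 5 * X := by
      have c1 := abs_add_le (y' + y) 1
      have c2 := abs_add_le y' y
      rw [abs_one] at c1
      linarith
    have a3 : |y' - y| ≤ s := by rw [abs_sub_comm]; exact d2
    calc |(x - x') * (y' ^ 2 + y' - x * x') + x' * ((y' - y) * (y' + y + 1))|
        ≤ |(x - x') * (y' ^ 2 + y' - x * x')| + |x' * ((y' - y) * (y' + y + 1))| :=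
          abs_add_le _ _
      _ = |x - x'| * |y' ^ 2 + y' - x * x'| + x' * (|y' - y| * |y' + y + 1|) := by
          rw [abs_mul, abs_mul, abs_mul, abs_of_pos hx'0]
      _ ≤ s * (6 * X ^ 2) + (2 * X) * (s * (5 * X)) := by
          apply add_le_add
          · exact mul_le_mul d1 a1 (abs_nonneg _) hs
          · apply mul_le_mul v2 _ (by positivity) (by linarith)
            exact mul_le_mul a3 a2 (abs_nonneg _) hs
      _ = 16 * X ^ 2 * s := by ring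
      _ ≤ 20 * X ^ 2 * s := by
          apply mul_le_mul_of_nonneg_right _ hs
          linarith
  rw [div_sub_div _ _ hDp.ne' hDp'.ne', abs_div, abs_of_pos (mul_pos hDp hDp')]
  calc |x * (x' ^ 2 + (y' ^ 2 + y')) - (x ^ 2 + (y ^ 2 + y)) * x'|
        / ((x ^ 2 + (y ^ 2 + y)) * (x' ^ 2 + (y' ^ 2 + y')))
      ≤ (20 * X ^ 2 * s) / (X ^ 2 * X ^ 2) := by
        apply div_le_div₀ (by positivity) hnum (by positivity)
        exact mul_le_mul hD hD' (by positivity) (by positivity)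
    _ = 20 * s / X ^ 2 := by
        field_simp

/-- the weight varies slowly -/
lemma wt_var {X s : ℕ} (hX : 0 < X) {u v : ℤ × ℤ} (hu1 : (X : ℤ) < u.1)
    (hu2 : u.1 ≤ 2 * X) (hu3 : |u.2| ≤ 2 * X) (hv1 : (X : ℤ) < v.1)
    (hv2 : v.1 ≤ 2 * X) (hv3 : |v.2| ≤ 2 * X) (h1 : |u.1 - v.1| ≤ s) (h2 : |u.2 - v.2| ≤ s) :
    |wt u - wt v| ≤ 20 * s / (X : ℝ) ^ 2 := by
  have hXr : (1 : ℝ) ≤ X := by exact_mod_cast hX
  have hu0 : 0 < u.1 := by omega
  have hv0 : 0 < v.1 := by omega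
  have hpi := Real.pi_pos
  rw [wt_eq hu0, wt_eq hv0, ← mul_sub, abs_mul, abs_of_pos (by positivity)]
  have h3 : |Real.arctan (wa u) - Real.arctan (wa v)| ≤ |wa u - wa v| := arctan_lip _ _
  have h4 : 2 / Real.pi * |Real.arctan (wa u) - Real.arctan (wa v)| ≤ 1 * |wa u - wa v| :=
    mul_le_mul two_div_pi_le h3 (abs_nonneg _) (by norm_num)
  refine le_trans h4 ?_
  rw [one_mul]
  have u1 : (X : ℝ) ≤ u.1 := by
    have : (X : ℤ) ≤ u.1 := by omega
    exact_mod_cast this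
  have u2 : (u.1 : ℝ) ≤ 2 * X := by exact_mod_cast hu2
  have u3 : |(u.2 : ℝ)| ≤ 2 * X := by exact_mod_cast hu3
  have v1 : (X : ℝ) ≤ v.1 := by
    have : (X : ℤ) ≤ v.1 := by omega
    exact_mod_cast this
  have v2 : (v.1 : ℝ) ≤ 2 * X := by exact_mod_cast hv2
  have v3 : |(v.2 : ℝ)| ≤ 2 * X := by exact_mod_cast hv3
  have d1 : |(u.1 : ℝ) - v.1| ≤ s := by exact_mod_cast h1
  have d2 : |(u.2 : ℝ) - v.2| ≤ s := by exact_mod_cast h2
  exact frac_var X s u.1 u.2 v.1 v.2 hXr (Nat.cast_nonneg s) u1 u3 (int_sq_add_nonneg u.2)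
    v1 v2 u2 v3 (int_sq_add_nonneg v.2) d1 d2

end Pool.Agent.Lib.MP_a17b09_nt.LP
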