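import Pool.Agent.Lib.MP_a17b09_nt.LP.WeylInd

/-!
Abstract form of the differencing induction, for every real phase on a box of pairs of
integers.
-/

namespace Pool.Agent.Lib.MP_a17b09_nt.LP

open Finset

/-- Linearisation of a phase over a square block. -/
lemma block_gen (g : ℕ × ℕ → ℝ) (c al be lam E : ℝ) (hlam : 0 < lam) (l : ℕ)
    (hlin : ∀ s ∈ range l ×ˢ range l, |g s - (c + ((s.1 : ℝ) * al + (s.2 : ℝ) * be))| ≤ E)
    (hlow : lam ≤ |al| ∨ lam ≤ |be|) (hal : |al| ≤ 1) (hbe : |be| ≤ 1) :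
    ‖∑ s ∈ range l ×ˢ range l, ph (g s)‖ ≤ 4 * l / lam + E * (l : ℝ) ^ 2 := by
  have hlnn : (0 : ℝ) ≤ l := Nat.cast_nonneg l
  have hmain : ‖∑ s ∈ range l ×ˢ range l, ph (c + ((s.1 : ℝ) * al + (s.2 : ℝ) * be))‖
      ≤ 4 * l / lam := by
    have e : ∑ s ∈ range l ×ˢ range l, ph (c + ((s.1 : ℝ) * al + (s.2 : ℝ) * be))
        = ph c * ((∑ s ∈ range l, ph (s * al)) * (∑ s ∈ range l, ph (s * be))) := by
      rw [Finset.sum_mul_sum, ← Finset.sum_product', Finset.mul_sum]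
      apply Finset.sum_congr rfl
      intro s _
      rw [ph_add, ph_add]
    rw [e, norm_mul, norm_ph, one_mul, norm_mul]
    have hA : ‖∑ s ∈ range l, ph (s * al)‖ ≤ l := by
      have := norm_sum_ph_le (range l) (fun s => (s : ℝ) * al)
      simpa using this
    have hB : ‖∑ s ∈ range l, ph (s * be)‖ ≤ l := by
      have := norm_sum_ph_le (range l) (fun s => (s : ℝ) * be)
      simpa using this
    rcases hlow with h | h
    · have hb0 : al ≠ 0 := by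
        intro h3
        rw [h3, abs_zero] at h
        linarith
      have hA' := geom_ph_le l al hb0 hal
      have h4 : 4 / |al| ≤ 4 / lam := div_le_div_of_nonneg_left (by norm_num) hlam h
      calc _ ≤ (4 / lam) * (l : ℝ) :=
            mul_le_mul (le_trans hA' h4) hB (norm_nonneg _) (by positivity)
        _ = 4 * l / lam := by ring
    · have hb0 : be ≠ 0 := by
        intro h3
        rw [h3, abs_zero] at h
        linarith
      have hB' := geom_ph_le l be hb0 hbe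
      have h4 : 4 / |be| ≤ 4 / lam := div_le_div_of_nonneg_left (by norm_num) hlam h
      calc _ ≤ (l : ℝ) * (4 / lam) :=
            mul_le_mul hA (le_trans hB' h4) (norm_nonneg _) hlnn
        _ = 4 * l / lam := by ring
  have hdiff : ‖∑ s ∈ range l ×ˢ range l, ph (g s)
      - ∑ s ∈ range l ×ˢ range l, ph (c + ((s.1 : ℝ) * al + (s.2 : ℝ) * be))‖
      ≤ E * (l : ℝ) ^ 2 := by
    rw [← Finset.sum_sub_distrib]
    refine le_trans (norm_sum_le _ _) ?_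
    have hterm : ∀ s ∈ range l ×ˢ range l,
        ‖ph (g s) - ph (c + ((s.1 : ℝ) * al + (s.2 : ℝ) * be))‖ ≤ E :=
      fun s hs => le_trans (norm_ph_sub_le _ _) (hlin s hs)
    refine le_trans (Finset.sum_le_sum hterm) ?_
    rw [Finset.sum_const, Finset.card_product, Finset.card_range, nsmul_eq_mul]
    push_cast
    apply le_of_eq
    ring
  have := norm_add_le (∑ s ∈ range l ×ˢ range l, ph (g s)
      - ∑ s ∈ range l ×ˢ range l, ph (c + ((s.1 : ℝ) * al + (s.2 : ℝ) * be)))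
      (∑ s ∈ range l ×ˢ range l, ph (c + ((s.1 : ℝ) * al + (s.2 : ℝ) * be)))
  rw [sub_add_cancel] at this
  linarith

lemma base_gen (f : ℤ × ℤ → ℝ) (al be : ℤ × ℤ → ℝ) (lam E : ℝ) (hlam : 0 < lam)
    (hE : 0 ≤ E) (x0 x1 y0 y1 : ℤ) (l0 l : ℕ) (hl : 1 ≤ l)
    (hx : x1 ≤ x0 + l0) (hy : y1 ≤ y0 + l0)
    (hlin : ∀ w ∈ rect x0 x1 y0 y1, ∀ s ∈ range l ×ˢ range l,
      w + ((s.1 : ℤ), (s.2 : ℤ)) ∈ rect x0 x1 y0 y1 →
      |f (w + ((s.1 : ℤ), (s.2 : ℤ))) - (f w + ((s.1 : ℝ) * al w + (s.2 : ℝ) * be w))| ≤ E)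
    (hlow : ∀ w ∈ rect x0 x1 y0 y1, lam ≤ |al w| ∨ lam ≤ |be w|)
    (hal : ∀ w ∈ rect x0 x1 y0 y1, |al w| ≤ 1) (hbe : ∀ w ∈ rect x0 x1 y0 y1, |be w| ≤ 1) :
    (l : ℝ) ^ 2 * ‖∑ w ∈ rect x0 x1 y0 y1, ph (f w)‖
      ≤ (l0 : ℝ) ^ 2 * (4 * l / lam + E * (l : ℝ) ^ 2) + 2 * (l : ℝ) ^ 3 * l0 := by
  classical
  set F : ℤ × ℤ → ℂ := fun w => ph (f w) with hF
  set R := rect x0 x1 y0 y1 with hRdef
  set R' := rect x0 (x1 - l + 1) y0 (y1 - l + 1) with hR'def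
  set T : Finset (ℕ × ℕ) := range l ×ˢ range l with hT
  have hTcard : T.card = l ^ 2 := by
    rw [hT, Finset.card_product, Finset.card_range, sq]
  have hinj : ∀ t : ℕ × ℕ, Function.Injective
      (fun w : ℤ × ℤ => w + ((t.1 : ℤ), (t.2 : ℤ))) := fun t => add_left_injective _
  have hsub : ∀ t ∈ T, R'.image (fun w => w + ((t.1 : ℤ), (t.2 : ℤ))) ⊆ R := by
    intro t ht v hv
    obtain ⟨w, hw, rfl⟩ := Finset.mem_image.mp hv
    have ht' := Finset.mem_product.mp ht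
    have ht1 := Finset.mem_range.mp ht'.1
    have ht2 := Finset.mem_range.mp ht'.2
    rw [hR'def, mem_rect] at hw
    rw [hRdef, mem_rect]
    simp only [Prod.fst_add, Prod.snd_add]
    omega
  have hcard : (R.card : ℝ) ≤ R'.card + 2 * l * l0 := by
    have h3 : R.card ≤ R'.card + 2 * l * l0 := by
      rw [hRdef, hR'def, rect, rect, Finset.card_product, Finset.card_product, Int.card_Ico,
        Int.card_Ico, Int.card_Ico, Int.card_Ico]
      have ha1 : (x1 - x0).toNat ≤ l0 := by omega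
      have hb1 : (y1 - y0).toNat ≤ l0 := by omega
      have ha2 : (x1 - x0).toNat ≤ (x1 - l + 1 - x0).toNat + l := by omega
      have hb2 : (y1 - y0).toNat ≤ (y1 - l + 1 - y0).toNat + l := by omega
      have ha3 : (x1 - l + 1 - x0).toNat ≤ (x1 - x0).toNat := by omega
      generalize (x1 - x0).toNat = a at *
      generalize (y1 - y0).toNat = b at *
      generalize (x1 - l + 1 - x0).toNat = a' at *
      generalize (y1 - l + 1 - y0).toNat = b' at *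
      calc a * b ≤ (a' + l) * b := Nat.mul_le_mul_right _ ha2
        _ = a' * b + l * b := by ring
        _ ≤ a' * (b' + l) + l * l0 :=
            Nat.add_le_add (Nat.mul_le_mul_left _ hb2) (Nat.mul_le_mul_left _ hb1)
        _ = a' * b' + (l * a' + l * l0) := by ring
        _ ≤ a' * b' + (l * l0 + l * l0) := by
            apply Nat.add_le_add_left
            apply Nat.add_le_add_right
            exact Nat.mul_le_mul_left _ (le_trans ha3 ha1)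
        _ = a' * b' + 2 * l * l0 := by ring
    exact_mod_cast h3
  have hone : ∀ t ∈ T, ‖∑ w ∈ R, F w - ∑ w ∈ R', F (w + ((t.1 : ℤ), (t.2 : ℤ)))‖
      ≤ 2 * l * l0 := by
    intro t ht
    have e1 : ∑ w ∈ R', F (w + ((t.1 : ℤ), (t.2 : ℤ)))
        = ∑ v ∈ R'.image (fun w => w + ((t.1 : ℤ), (t.2 : ℤ))), F v := by
      rw [Finset.sum_image (fun x _ y _ h => hinj t h)]
    rw [e1, ← Finset.sum_sdiff (hsub t ht), add_sub_cancel_right]
    refine le_trans (norm_sum_ph_le _ _) ?_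
    have h4 := Finset.card_sdiff_add_card_eq_card (hsub t ht)
    rw [Finset.card_image_of_injective _ (hinj t)] at h4
    have h5 : ((R \ R'.image (fun w => w + ((t.1 : ℤ), (t.2 : ℤ)))).card : ℝ) + R'.card
        = R.card := by exact_mod_cast h4
    linarith
  have hswap : ∑ t ∈ T, (∑ w ∈ R, F w - ∑ w ∈ R', F (w + ((t.1 : ℤ), (t.2 : ℤ))))
      = (l : ℂ) ^ 2 * ∑ w ∈ R, F w
        - ∑ w ∈ R', ∑ t ∈ T, F (w + ((t.1 : ℤ), (t.2 : ℤ))) := by
    rw [Finset.sum_sub_distrib, Finset.sum_const, hTcard, nsmul_eq_mul,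
      Finset.sum_comm (s := T) (t := R')]
    push_cast
    rfl
  have hA : ‖(l : ℂ) ^ 2 * ∑ w ∈ R, F w
      - ∑ w ∈ R', ∑ t ∈ T, F (w + ((t.1 : ℤ), (t.2 : ℤ)))‖ ≤ (l : ℝ) ^ 2 * (2 * l * l0) := by
    rw [← hswap]
    refine le_trans (norm_sum_le _ _) ?_
    refine le_trans (Finset.sum_le_sum hone) ?_
    rw [Finset.sum_const, hTcard, nsmul_eq_mul]
    push_cast
    exact le_refl _
  have hB : ‖∑ w ∈ R', ∑ t ∈ T, F (w + ((t.1 : ℤ), (t.2 : ℤ)))‖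
      ≤ (l0 : ℝ) ^ 2 * (4 * l / lam + E * (l : ℝ) ^ 2) := by
    refine le_trans (norm_sum_le _ _) ?_
    have hblock : ∀ w ∈ R', ‖∑ t ∈ T, F (w + ((t.1 : ℤ), (t.2 : ℤ)))‖
        ≤ 4 * l / lam + E * (l : ℝ) ^ 2 := by
      intro w hw
      have hwR : w ∈ R := by
        have h3 : ((0 : ℕ), (0 : ℕ)) ∈ T := by
          rw [hT, Finset.mem_product]
          simp only [Finset.mem_range]
          omega
        have h4 := hsub _ h3 (Finset.mem_image_of_mem _ hw)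
        have h6 : w + ((((0 : ℕ), (0 : ℕ)).1 : ℤ), (((0 : ℕ), (0 : ℕ)).2 : ℤ)) = w := by
          ext <;> simp
        simp only [h6] at h4
        exact h4
      exact block_gen (fun s => f (w + ((s.1 : ℤ), (s.2 : ℤ)))) (f w) (al w) (be w) lam E
        hlam l (fun s hs => hlin w hwR s hs (hsub s hs (Finset.mem_image_of_mem _ hw)))
        (hlow w hwR) (hal w hwR) (hbe w hwR)
    refine le_trans (Finset.sum_le_sum hblock) ?_
    rw [Finset.sum_const, nsmul_eq_mul]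
    apply mul_le_mul_of_nonneg_right _ (by positivity)
    have h7 : R'.card ≤ l0 ^ 2 := card_rect_le (by omega) (by omega)
    exact_mod_cast h7
  have hfin := norm_add_le ((l : ℂ) ^ 2 * ∑ w ∈ R, F w
      - ∑ w ∈ R', ∑ t ∈ T, F (w + ((t.1 : ℤ), (t.2 : ℤ))))
      (∑ w ∈ R', ∑ t ∈ T, F (w + ((t.1 : ℤ), (t.2 : ℤ))))
  rw [sub_add_cancel, norm_mul, norm_pow, Complex.norm_natCast] at hfin
  have e9 : (l : ℝ) ^ 2 * (2 * l * l0) = 2 * (l : ℝ) ^ 3 * l0 := by ring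
  rw [e9] at hA
  linarith

/-- The base case with the parameters used below. -/
lemma base_seven (f : ℤ × ℤ → ℝ) (al be : ℤ × ℤ → ℝ) (lam E Z : ℝ) (hlam : 0 < lam)
    (hE : 0 ≤ E) (hZ : 1 ≤ Z) (x0 x1 y0 y1 : ℤ) (l0 l : ℕ) (hl : 1 ≤ l)
    (hx : x1 ≤ x0 + l0) (hy : y1 ≤ y0 + l0)
    (hlin : ∀ w ∈ rect x0 x1 y0 y1, ∀ s ∈ range l ×ˢ range l,
      w + ((s.1 : ℤ), (s.2 : ℤ)) ∈ rect x0 x1 y0 y1 →
      |f (w + ((s.1 : ℤ), (s.2 : ℤ))) - (f w + ((s.1 : ℝ) * al w + (s.2 : ℝ) * be w))| ≤ E)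
    (hlow : ∀ w ∈ rect x0 x1 y0 y1, lam ≤ |al w| ∨ lam ≤ |be w|)
    (hal : ∀ w ∈ rect x0 x1 y0 y1, |al w| ≤ 1) (hbe : ∀ w ∈ rect x0 x1 y0 y1, |be w| ≤ 1)
    (hb : Z ≤ l * lam) (hc : E * Z ≤ 1) (hd : (l : ℝ) * Z ≤ l0) :
    ‖∑ w ∈ rect x0 x1 y0 y1, ph (f w)‖ ≤ 7 * (l0 : ℝ) ^ 2 / Z := by
  have h := base_gen f al be lam E hlam hE x0 x1 y0 y1 l0 l hl hx hy hlin hlow hal hbe
  set S := ‖∑ w ∈ rect x0 x1 y0 y1, ph (f w)‖ with hS
  have hlr : (1 : ℝ) ≤ l := by exact_mod_cast hl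
  have hl2 : (0 : ℝ) < (l : ℝ) ^ 2 := by positivity
  have hl0r : (0 : ℝ) ≤ l0 := Nat.cast_nonneg _
  have h3 : S ≤ (l0 : ℝ) ^ 2 * (4 / (l * lam) + E) + 2 * l * l0 := by
    have e : (l0 : ℝ) ^ 2 * (4 * l / lam + E * (l : ℝ) ^ 2) + 2 * (l : ℝ) ^ 3 * l0
        = (l : ℝ) ^ 2 * ((l0 : ℝ) ^ 2 * (4 / (l * lam) + E) + 2 * l * l0) := by
      field_simp
    rw [e] at h
    exact le_of_mul_le_mul_left h hl2
  have h4 : 4 / (l * lam) ≤ 4 / Z :=
    div_le_div_of_nonneg_left (by norm_num) (by linarith) hb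
  have h5 : E ≤ 1 / Z := by
    rw [le_div_iff₀ (by linarith)]
    exact hc
  have h6 : (l : ℝ) ≤ l0 / Z := by
    rw [le_div_iff₀ (by linarith)]
    exact hd
  calc S ≤ (l0 : ℝ) ^ 2 * (4 / (l * lam) + E) + 2 * l * l0 := h3
    _ ≤ (l0 : ℝ) ^ 2 * (4 / Z + 1 / Z) + 2 * (l0 / Z) * l0 := by
        apply add_le_add
        · apply mul_le_mul_of_nonneg_left _ (by positivity)
          linarith
        · apply mul_le_mul_of_nonneg_right _ hl0r
          linarith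
    _ = 7 * (l0 : ℝ) ^ 2 / Z := by ring

/-- Iterated differencing: after `q` admissible shifts the sum has the bound `B`. -/
def Good (Bad : ℤ × ℤ → Prop) (H : ℕ) (B : ℝ) :
    ℕ → (ℤ × ℤ → ℝ) → ℤ → ℤ → ℤ → ℤ → Prop
  | 0, f, x0, x1, y0, y1 => ‖∑ w ∈ rect x0 x1 y0 y1, ph (f w)‖ ≤ B
  | q + 1, f, x0, x1, y0, y1 => ∀ h : ℤ × ℤ, |h.1| < (H : ℤ) → |h.2| < (H : ℤ) → ¬ Bad h →
      Good Bad H B q (fun w => f (w + h) - f w) (max x0 (x0 - h.1)) (min x1 (x1 - h.1))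
        (max y0 (y0 - h.2)) (min y1 (y1 - h.2))

/-- The constants of the induction. -/
noncomputable def Dw (Cb A0 : ℝ) : ℕ → ℝ
  | 0 => A0
  | q + 1 => 4 ^ (2 ^ q) * (Cb + Dw Cb A0 q)

lemma Dw_nonneg {Cb A0 : ℝ} (h1 : 0 ≤ Cb) (h2 : 0 ≤ A0) (q : ℕ) : 0 ≤ Dw Cb A0 q := by
  induction q with
  | zero => simpa [Dw] using h2
  | succ q ih => simp only [Dw]; positivity

lemma Dw_mono_succ {Cb A0 : ℝ} (h1 : 0 ≤ Cb) (h2 : 0 ≤ A0) (q : ℕ) :
    Dw Cb A0 q ≤ Dw Cb A0 (q + 1) := by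
  have h := Dw_nonneg h1 h2 q
  simp only [Dw]
  have h1 : (1 : ℝ) ≤ 4 ^ (2 ^ q) := one_le_pow₀ (by norm_num)
  nlinarith

lemma Dw_mono {Cb A0 : ℝ} (h1 : 0 ≤ Cb) (h2 : 0 ≤ A0) {q r : ℕ} (h : q ≤ r) :
    Dw Cb A0 q ≤ Dw Cb A0 r :=
  monotone_nat_of_le_succ (Dw_mono_succ h1 h2) h

open Classical in
theorem abs_ind (Z : ℝ) (hZ : 1 ≤ Z) (H l0 : ℕ) (hH1 : 1 ≤ H) (hHl : H ≤ l0)
    (Bad : ℤ × ℤ → Prop) (Cb A0 : ℝ) (hCb : 0 ≤ Cb) (hA0 : 0 ≤ A0)
    (hBad : ∀ k' : ℤ × ℤ, (((Ico (0 : ℤ) H ×ˢ Ico (0 : ℤ) H).filter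
      (fun k => Bad (k - k'))).card : ℝ) ≤ Cb * (H : ℝ) ^ 2 / Z) (q : ℕ) :
    ∀ (f : ℤ × ℤ → ℝ) (x0 x1 y0 y1 : ℤ), x1 ≤ x0 + l0 → y1 ≤ y0 + l0 →
    Good Bad H (A0 * (l0 : ℝ) ^ 2 / Z) q f x0 x1 y0 y1 →
    (‖∑ w ∈ rect x0 x1 y0 y1, ph (f w)‖ / (l0 : ℝ) ^ 2) ^ (2 ^ q) ≤ Dw Cb A0 q / Z := by
  have hHr : (1 : ℝ) ≤ H := by exact_mod_cast hH1
  have hl0r : (1 : ℝ) ≤ l0 := by exact_mod_cast (le_trans hH1 hHl)
  induction q with
  | zero =>
    intro f x0 x1 y0 y1 hx hy hg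
    simp only [Good] at hg
    simp only [pow_zero, pow_one, Dw]
    rw [div_le_iff₀ (by positivity)]
    calc _ ≤ A0 * (l0 : ℝ) ^ 2 / Z := hg
      _ = A0 / Z * (l0 : ℝ) ^ 2 := by ring
  | succ q ih =>
    intro f x0 x1 y0 y1 hx hy hg
    simp only [Good] at hg
    set K := Ico (0 : ℤ) H ×ˢ Ico (0 : ℤ) H with hK
    have hKc : K.card = H ^ 2 := by
      rw [hK, Finset.card_product, Int.card_Ico, sq]
      congr 1
    set F : ℤ × ℤ → ℂ := fun w => ph (f w) with hF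
    set Sh : ℤ × ℤ → ℝ := fun h => ‖∑ u ∈ rect (max x0 (x0 - h.1)) (min x1 (x1 - h.1))
            (max y0 (y0 - h.2)) (min y1 (y1 - h.2)),
          F (u + h) * (starRingEnd ℂ) (F u)‖ with hSh
    have hvdc := vdc_rect x0 x1 y0 y1 l0 H hx hy hHl F
    -- the trivial bound
    have htriv : ∀ h, Sh h / (l0 : ℝ) ^ 2 ≤ 1 := by
      intro h
      rw [div_le_one (by positivity)]
      simp only [hSh]
      refine le_trans (norm_sum_le _ _) ?_
      have e1 : ∀ u ∈ rect (max x0 (x0 - h.1)) (min x1 (x1 - h.1))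
            (max y0 (y0 - h.2)) (min y1 (y1 - h.2)),
          ‖F (u + h) * (starRingEnd ℂ) (F u)‖ = 1 := by
        intro u _
        simp only [hF]
        rw [ph_mul_conj, norm_ph]
      rw [Finset.sum_congr rfl e1, Finset.sum_const, nsmul_eq_mul, mul_one]
      have h3 : (rect (max x0 (x0 - h.1)) (min x1 (x1 - h.1))
            (max y0 (y0 - h.2)) (min y1 (y1 - h.2))).card ≤ l0 ^ 2 :=
        card_rect_le (by omega) (by omega)
      exact_mod_cast h3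
    have hmain : ∀ h : ℤ × ℤ, |h.1| < (H : ℤ) → |h.2| < (H : ℤ) → ¬ Bad h →
        (Sh h / (l0 : ℝ) ^ 2) ^ (2 ^ q) ≤ Dw Cb A0 q / Z := by
      intro h hh1 hh2 hfar
      have hfsum : ∑ u ∈ rect (max x0 (x0 - h.1)) (min x1 (x1 - h.1))
            (max y0 (y0 - h.2)) (min y1 (y1 - h.2)),
          F (u + h) * (starRingEnd ℂ) (F u)
          = ∑ w ∈ rect (max x0 (x0 - h.1)) (min x1 (x1 - h.1))
            (max y0 (y0 - h.2)) (min y1 (y1 - h.2)), ph (f (w + h) - f w) := by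
        apply Finset.sum_congr rfl
        intro u _
        simp only [hF]
        rw [ph_mul_conj]
      have hih := ih (fun w => f (w + h) - f w) (max x0 (x0 - h.1)) (min x1 (x1 - h.1))
          (max y0 (y0 - h.2)) (min y1 (y1 - h.2)) (by omega) (by omega) (hg h hh1 hh2 hfar)
      simp only [hSh]
      rw [hfsum]
      exact hih
    -- assembling
    have hDnn := Dw_nonneg hCb hA0 q
    have hShnn : ∀ h, 0 ≤ Sh h / (l0 : ℝ) ^ 2 := fun h => by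
      simp only [hSh]
      positivity
    have hsum : ∑ k ∈ K, ∑ k' ∈ K, (Sh (k - k') / (l0 : ℝ) ^ 2) ^ (2 ^ q)
        ≤ ((H : ℝ) ^ 2) ^ 2 * (Dw Cb A0 q / Z) + (H : ℝ) ^ 2 * (Cb * (H : ℝ) ^ 2 / Z) := by
      rw [Finset.sum_comm]
      have h3 : ∀ k' ∈ K, ∑ k ∈ K, (Sh (k - k') / (l0 : ℝ) ^ 2) ^ (2 ^ q)
          ≤ (H : ℝ) ^ 2 * (Dw Cb A0 q / Z) + Cb * (H : ℝ) ^ 2 / Z := by
        intro k' hk'
        have h4 : ∀ k ∈ K, (Sh (k - k') / (l0 : ℝ) ^ 2) ^ (2 ^ q)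
            ≤ Dw Cb A0 q / Z + (if Bad (k - k') then 1 else 0) := by
          intro k hk
          split_ifs with hcl
          · have h5 : (Sh (k - k') / (l0 : ℝ) ^ 2) ^ (2 ^ q) ≤ 1 :=
              pow_le_one₀ (hShnn _) (htriv _)
            have h6 : 0 ≤ Dw Cb A0 q / Z := by positivity
            linarith
          · rw [add_zero]
            rw [hK, Finset.mem_product, Finset.mem_Ico, Finset.mem_Ico] at hk hk'
            apply hmain _ _ _ hcl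
            · rw [abs_lt, Prod.fst_sub]
              omega
            · rw [abs_lt, Prod.snd_sub]
              omega
        refine le_trans (Finset.sum_le_sum h4) ?_
        rw [Finset.sum_add_distrib, Finset.sum_const, hKc, nsmul_eq_mul, Finset.sum_boole]
        push_cast
        have h7 := hBad k'
        linarith
      refine le_trans (Finset.sum_le_sum h3) ?_
      rw [Finset.sum_const, hKc, nsmul_eq_mul]
      push_cast
      apply le_of_eq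
      ring
    have hpm : (∑ p ∈ K ×ˢ K, (1 / ((H : ℝ) ^ 2) ^ 2) * (Sh (p.1 - p.2) / (l0 : ℝ) ^ 2))
          ^ (2 ^ q)
        ≤ ∑ p ∈ K ×ˢ K, (1 / ((H : ℝ) ^ 2) ^ 2)
          * (Sh (p.1 - p.2) / (l0 : ℝ) ^ 2) ^ (2 ^ q) := by
      apply Real.pow_arith_mean_le_arith_mean_pow (K ×ˢ K)
        (fun _ => 1 / ((H : ℝ) ^ 2) ^ 2) (fun p => Sh (p.1 - p.2) / (l0 : ℝ) ^ 2)
      · intro p _
        positivity
      · rw [Finset.sum_const, Finset.card_product, hKc, nsmul_eq_mul]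
        push_cast
        field_simp
      · intro p _
        exact hShnn _
    set T : ℝ := ‖∑ w ∈ rect x0 x1 y0 y1, F w‖ / (l0 : ℝ) ^ 2 with hT
    have hT2 : T ^ 2 ≤ 4 * ∑ p ∈ K ×ˢ K, (1 / ((H : ℝ) ^ 2) ^ 2)
        * (Sh (p.1 - p.2) / (l0 : ℝ) ^ 2) := by
      rw [← Finset.mul_sum, Finset.sum_product, hT]
      have e1 : ∑ k ∈ K, ∑ k' ∈ K, Sh (k - k') / (l0 : ℝ) ^ 2
          = (∑ k ∈ K, ∑ k' ∈ K, Sh (k - k')) / (l0 : ℝ) ^ 2 := by
        rw [Finset.sum_div]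
        apply Finset.sum_congr rfl
        intro k _
        rw [Finset.sum_div]
      rw [e1]
      have e2 : 4 * (1 / ((H : ℝ) ^ 2) ^ 2 * ((∑ k ∈ K, ∑ k' ∈ K, Sh (k - k'))
          / (l0 : ℝ) ^ 2)) = (4 * (l0 : ℝ) ^ 2 * ∑ k ∈ K, ∑ k' ∈ K, Sh (k - k'))
            / (((H : ℝ) ^ 2) ^ 2 * ((l0 : ℝ) ^ 2) ^ 2) := by
        field_simp
      rw [e2, le_div_iff₀ (by positivity), div_pow]
      have e3 : ‖∑ w ∈ rect x0 x1 y0 y1, F w‖ ^ 2 / ((l0 : ℝ) ^ 2) ^ 2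
          * (((H : ℝ) ^ 2) ^ 2 * ((l0 : ℝ) ^ 2) ^ 2)
          = ((H : ℝ) ^ 2) ^ 2 * ‖∑ w ∈ rect x0 x1 y0 y1, F w‖ ^ 2 := by
        field_simp
      rw [e3]
      exact hvdc
    have hfin : T ^ (2 ^ (q + 1)) ≤ 4 ^ (2 ^ q) * (Dw Cb A0 q / Z + Cb / Z) := by
      have e1 : T ^ (2 ^ (q + 1)) = (T ^ 2) ^ (2 ^ q) := by
        rw [← pow_mul]
        congr 1
        ring
      rw [e1]
      have h3 : (T ^ 2) ^ (2 ^ q) ≤ (4 * ∑ p ∈ K ×ˢ K, (1 / ((H : ℝ) ^ 2) ^ 2)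
        * (Sh (p.1 - p.2) / (l0 : ℝ) ^ 2)) ^ (2 ^ q) :=
        pow_le_pow_left₀ (sq_nonneg _) hT2 _
      refine le_trans h3 ?_
      rw [mul_pow]
      apply mul_le_mul_of_nonneg_left _ (by positivity)
      refine le_trans hpm ?_
      rw [← Finset.mul_sum, Finset.sum_product]
      have h4 : 1 / ((H : ℝ) ^ 2) ^ 2 * ∑ k ∈ K, ∑ k' ∈ K,
          (Sh (k - k') / (l0 : ℝ) ^ 2) ^ (2 ^ q)
          ≤ 1 / ((H : ℝ) ^ 2) ^ 2 * (((H : ℝ) ^ 2) ^ 2 * (Dw Cb A0 q / Z)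
            + (H : ℝ) ^ 2 * (Cb * (H : ℝ) ^ 2 / Z)) :=
        mul_le_mul_of_nonneg_left hsum (by positivity)
      refine le_trans h4 ?_
      apply le_of_eq
      field_simp
    have e6 : Dw Cb A0 (q + 1) / Z = 4 ^ (2 ^ q) * (Dw Cb A0 q / Z + Cb / Z) := by
      simp only [Dw]
      ring
    rw [e6]
    exact hfin

/-- Taylor expansion of order two on a convex set, real or complex. -/
lemma taylor_gen {k : Type*} [RCLike k] (Om : Set k) (hOm : Convex ℝ Om)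
    (G0 G1 G2 : k → k) (mu : ℝ)
    (h0 : ∀ z ∈ Om, HasDerivAt G0 (G1 z) z) (h1 : ∀ z ∈ Om, HasDerivAt G1 (G2 z) z)
    (h2 : ∀ z ∈ Om, ‖G2 z‖ ≤ mu) (z t : k) (hz : z ∈ Om) (hzt : z + t ∈ Om) :
    ‖G0 (z + t) - G0 z - G1 z * t‖ ≤ mu * ‖t‖ ^ 2 := by
  have hmu : 0 ≤ mu := le_trans (norm_nonneg _) (h2 z hz)
  have hseg : segment ℝ z (z + t) ⊆ Om := hOm.segment_subset hz hzt
  have hdist : ∀ y ∈ segment ℝ z (z + t), ‖y - z‖ ≤ ‖t‖ := by
    intro y hy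
    rw [segment_eq_image'] at hy
    obtain ⟨c, hc, rfl⟩ := hy
    simp only [add_sub_cancel_left]
    rw [norm_smul, Real.norm_eq_abs, abs_of_nonneg hc.1]
    exact mul_le_of_le_one_left (norm_nonneg _) hc.2
  have hG1 : ∀ y ∈ segment ℝ z (z + t), ‖G1 y - G1 z‖ ≤ mu * ‖t‖ := by
    intro y hy
    have := hOm.norm_image_sub_le_of_norm_hasDerivWithin_le (f := G1) (f' := G2) (C := mu)
      (fun x hx => (h1 x hx).hasDerivWithinAt) h2 hz (hseg hy)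
    exact le_trans this (mul_le_mul_of_nonneg_left (hdist y hy) hmu)
  have hd : ∀ y ∈ segment ℝ z (z + t),
      HasDerivWithinAt (fun y => G0 y - G1 z * y) (G1 y - G1 z) (segment ℝ z (z + t)) y := by
    intro y hy
    have h3 := (h0 y (hseg hy)).hasDerivWithinAt (s := segment ℝ z (z + t))
    have h4 : HasDerivWithinAt (fun y : k => G1 z * y) (G1 z * 1) (segment ℝ z (z + t)) y :=
      (hasDerivWithinAt_id y _).const_mul (G1 z)
    rw [mul_one] at h4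
    exact h3.sub h4
  have key := (convex_segment z (z + t)).norm_image_sub_le_of_norm_hasDerivWithin_le
    (f := fun y => G0 y - G1 z * y) (f' := fun y => G1 y - G1 z) (C := mu * ‖t‖)
    hd hG1 (left_mem_segment ℝ z (z + t)) (right_mem_segment ℝ z (z + t))
  have e1 : (fun y => G0 y - G1 z * y) (z + t) - (fun y => G0 y - G1 z * y) z
      = G0 (z + t) - G0 z - G1 z * t := by
    simp only []
    ring
  rw [e1] at key
  have e2 : z + t - z = t := by ring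
  rw [e2] at key
  calc ‖G0 (z + t) - G0 z - G1 z * t‖ ≤ mu * ‖t‖ * ‖t‖ := key
    _ = mu * ‖t‖ ^ 2 := by ring

end Pool.Agent.Lib.MP_a17b09_nt.LP
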