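import Pool.Agent.Lib.MP_a17b09_nt.LP.WeylAbs

/-!
Two families of phases on pairs of integers to which the differencing induction applies:
the imaginary part of a holomorphic function of `x + y om` with `om` not real, and sums of a
function of `x + y o1` and a function of `x + y o2` with `o1`, `o2` real.
-/

namespace Pool.Agent.Lib.MP_a17b09_nt.LP

open Finset

/-- The complex number `x + y om`. -/
noncomputable def zw (om : ℂ) (w : ℤ × ℤ) : ℂ := (w.1 : ℂ) + (w.2 : ℂ) * om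

lemma zw_add (om : ℂ) (v w : ℤ × ℤ) : zw om (v + w) = zw om v + zw om w := by
  simp only [zw, Prod.fst_add, Prod.snd_add]
  push_cast
  ring

lemma norm_zw_le (om : ℂ) (w : ℤ × ℤ) (A B : ℝ) (hA : 1 + ‖om‖ ≤ A) (hB : 0 ≤ B)
    (h1 : |(w.1 : ℝ)| ≤ B) (h2 : |(w.2 : ℝ)| ≤ B) : ‖zw om w‖ ≤ A * B := by
  have e1 : ‖((w.1 : ℤ) : ℂ)‖ = |(w.1 : ℝ)| := by
    rw [← Complex.ofReal_intCast, Complex.norm_real, Real.norm_eq_abs]
  have e2 : ‖((w.2 : ℤ) : ℂ)‖ = |(w.2 : ℝ)| := by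
    rw [← Complex.ofReal_intCast, Complex.norm_real, Real.norm_eq_abs]
  calc ‖zw om w‖ ≤ ‖((w.1 : ℤ) : ℂ)‖ + ‖((w.2 : ℤ) : ℂ) * om‖ := norm_add_le _ _
    _ = |(w.1 : ℝ)| + |(w.2 : ℝ)| * ‖om‖ := by rw [norm_mul, e1, e2]
    _ ≤ B + B * ‖om‖ := add_le_add h1 (mul_le_mul_of_nonneg_right h2 (norm_nonneg _))
    _ = (1 + ‖om‖) * B := by ring
    _ ≤ A * B := mul_le_mul_of_nonneg_right hA hB

theorem chainC (om : ℂ) (A : ℝ) (hA : 1 ≤ A) (hA2 : 1 + ‖om‖ ≤ A)
    (hA3 : ∀ G : ℂ, ‖G‖ ≤ A * |G.im| ∨ ‖G‖ ≤ A * |(G * om).im|)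
    (Z H1 : ℝ) (hZ : 1 ≤ Z) (hH1 : 0 < H1) (H l l0 : ℕ) (hl : 1 ≤ l)
    (hlZ : (l : ℝ) * Z ≤ l0) (q : ℕ) :
    ∀ (F : ℕ → ℂ → ℂ) (Om : Set ℂ) (lam Lam mu : ℝ) (x0 x1 y0 y1 : ℤ),
    Convex ℝ Om → 0 < lam → 0 ≤ Lam → 0 ≤ mu →
    (∀ k, ∀ z ∈ Om, HasDerivAt (F k) (F (k + 1) z) z) →
    (∀ z ∈ Om, lam ≤ ‖F (q + 1) z‖) → (∀ z ∈ Om, ‖F (q + 1) z‖ ≤ Lam) →
    (∀ z ∈ Om, ‖F (q + 2) z‖ ≤ mu) →
    x1 ≤ x0 + l0 → y1 ≤ y0 + l0 → (∀ w ∈ rect x0 x1 y0 y1, zw om w ∈ Om) →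
    2 * Lam * (A * H) ^ q * A ≤ 1 → Z ≤ l * (lam * (H1 / 2) ^ q / A) →
    2 * mu * (A * H) ^ q * (A * l) ^ 2 * Z ≤ 1 →
    (∀ j < q, 2 * (A * H) ^ (j + 1) * mu ≤ (H1 / 2) ^ j * lam) →
    Good (fun h => ‖zw om h‖ < H1) H (7 * (l0 : ℝ) ^ 2 / Z) q
      (fun w => (F 0 (zw om w)).im) x0 x1 y0 y1 := by
  have hApos : 0 < A := by linarith
  have hHnn : (0 : ℝ) ≤ H := Nat.cast_nonneg _
  have hlr : (1 : ℝ) ≤ l := by exact_mod_cast hl
  induction q with
  | zero =>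
    intro F Om lam Lam mu x0 x1 y0 y1 hOm hlam hLam hmu hF hlow hup h2 hx hy hR ha hb hc _
    simp only [zero_add, pow_zero, mul_one] at *
    simp only [Good]
    have hLam1 : Lam * A ≤ 1 := by nlinarith
    have hLam2 : Lam ≤ 1 := by nlinarith
    apply base_seven (fun w => (F 0 (zw om w)).im) (fun w => (F 1 (zw om w)).im)
      (fun w => (F 1 (zw om w) * om).im) (lam / A) (mu * (A * l) ^ 2) Z (by positivity)
      (by positivity) hZ x0 x1 y0 y1 l0 l hl hx hy ?_ ?_ ?_ ?_ hb ?_ hlZ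
    · intro w hw s hs hws
      have ht := taylor_gen Om hOm (F 0) (F 1) (F 2) mu (hF 0) (hF 1) h2 (zw om w)
        (zw om ((s.1 : ℤ), (s.2 : ℤ))) (hR w hw) (by rw [← zw_add]; exact hR _ hws)
      have e : (F 0 (zw om (w + ((s.1 : ℤ), (s.2 : ℤ))))).im - ((F 0 (zw om w)).im
          + ((s.1 : ℝ) * (F 1 (zw om w)).im + (s.2 : ℝ) * (F 1 (zw om w) * om).im))
          = (F 0 (zw om w + zw om ((s.1 : ℤ), (s.2 : ℤ))) - F 0 (zw om w)
            - F 1 (zw om w) * zw om ((s.1 : ℤ), (s.2 : ℤ))).im := by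
        rw [zw_add, Complex.sub_im, Complex.sub_im]
        have e3 : F 1 (zw om w) * zw om ((s.1 : ℤ), (s.2 : ℤ))
            = ((s.1 : ℝ) : ℂ) * F 1 (zw om w) + ((s.2 : ℝ) : ℂ) * (F 1 (zw om w) * om) := by
          simp only [zw]
          push_cast
          ring
        rw [e3, Complex.add_im, Complex.im_ofReal_mul, Complex.im_ofReal_mul]
        ring
      rw [e]
      refine le_trans (Complex.abs_im_le_norm _) (le_trans ht ?_)
      apply mul_le_mul_of_nonneg_left _ hmu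
      apply pow_le_pow_left₀ (norm_nonneg _)
      have hs' := Finset.mem_product.mp hs
      apply norm_zw_le om _ A l hA2 (by linarith)
      · have h3 : (s.1 : ℝ) ≤ l := by exact_mod_cast (Finset.mem_range.mp hs'.1).le
        simpa using h3
      · have h3 : (s.2 : ℝ) ≤ l := by exact_mod_cast (Finset.mem_range.mp hs'.2).le
        simpa using h3
    · intro w hw
      have h3 := hlow _ (hR w hw)
      rcases hA3 (F 1 (zw om w)) with h4 | h4
      · left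
        rw [div_le_iff₀ hApos]
        linarith
      · right
        rw [div_le_iff₀ hApos]
        linarith
    · intro w hw
      exact le_trans (Complex.abs_im_le_norm _) (le_trans (hup _ (hR w hw)) hLam2)
    · intro w hw
      refine le_trans (Complex.abs_im_le_norm _) ?_
      rw [norm_mul]
      have h3 := hup _ (hR w hw)
      calc ‖F 1 (zw om w)‖ * ‖om‖ ≤ Lam * A :=
            mul_le_mul h3 (by linarith) (norm_nonneg _) hLam
        _ ≤ 1 := hLam1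
    · nlinarith [mul_nonneg (mul_nonneg hmu (sq_nonneg (A * (l : ℝ)))) (by linarith : 0 ≤ Z)]
  | succ q ih =>
    intro F Om lam Lam mu x0 x1 y0 y1 hOm hlam hLam hmu hF hlow hup h2 hx hy hR ha hb hc he
    simp only [Good]
    intro h hh1 hh2 hfar
    have hnge : H1 ≤ ‖zw om h‖ := not_lt.mp hfar
    have hnle : ‖zw om h‖ ≤ A * H := by
      apply norm_zw_le om h A H hA2 hHnn
      · exact_mod_cast hh1.le
      · exact_mod_cast hh2.le
    set Om' : Set ℂ := Om ∩ (fun z => z + zw om h) ⁻¹' Om with hOm'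
    have hOmc : Convex ℝ Om' := hOm.inter (hOm.translate_preimage_left (zw om h))
    have hmem : ∀ z ∈ Om', z ∈ Om ∧ z + zw om h ∈ Om := fun z hz => ⟨hz.1, hz.2⟩
    have hF' : ∀ k, ∀ z ∈ Om', HasDerivAt (fun z => F k (z + zw om h) - F k z)
        (F (k + 1) (z + zw om h) - F (k + 1) z) z := by
      intro k z hz
      exact (HasDerivAt.comp_add_const z (zw om h) (hF k _ (hmem z hz).2)).sub
        (hF k z (hmem z hz).1)
    have hlow' : ∀ z ∈ Om', H1 / 2 * lam ≤ ‖F (q + 1) (z + zw om h) - F (q + 1) z‖ := by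
      intro z hz
      have ht := taylor_gen Om hOm (F (q + 1)) (F (q + 1 + 1)) (F (q + 1 + 2)) mu
        (hF (q + 1)) (hF (q + 1 + 1)) h2 z (zw om h) (hmem z hz).1 (hmem z hz).2
      have h3 := hlow z (hmem z hz).1
      have h4 : ‖F (q + 1 + 1) z * zw om h‖ ≤ ‖F (q + 1) (z + zw om h) - F (q + 1) z‖
          + mu * ‖zw om h‖ ^ 2 := by
        have e : F (q + 1 + 1) z * zw om h = (F (q + 1) (z + zw om h) - F (q + 1) z)
            - (F (q + 1) (z + zw om h) - F (q + 1) z - F (q + 1 + 1) z * zw om h) := by ring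
        rw [e]
        refine le_trans (norm_sub_le _ _) ?_
        linarith
      rw [norm_mul] at h4
      have h5 : lam * ‖zw om h‖ ≤ ‖F (q + 1 + 1) z‖ * ‖zw om h‖ :=
        mul_le_mul_of_nonneg_right h3 (norm_nonneg _)
      have h6 : mu * ‖zw om h‖ ≤ lam / 2 := by
        have h7 := he 0 (by omega)
        simp only [zero_add, pow_one, pow_zero, one_mul] at h7
        have h9 : mu * ‖zw om h‖ ≤ mu * (A * H) := mul_le_mul_of_nonneg_left hnle hmu
        linarith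
      have h10 : mu * ‖zw om h‖ ^ 2 ≤ lam / 2 * ‖zw om h‖ := by
        calc mu * ‖zw om h‖ ^ 2 = mu * ‖zw om h‖ * ‖zw om h‖ := by ring
          _ ≤ lam / 2 * ‖zw om h‖ := mul_le_mul_of_nonneg_right h6 (norm_nonneg _)
      have h11 : H1 * lam ≤ ‖zw om h‖ * lam := mul_le_mul_of_nonneg_right hnge hlam.le
      linarith
    have hup' : ∀ z ∈ Om', ‖F (q + 1) (z + zw om h) - F (q + 1) z‖ ≤ A * H * Lam := by
      intro z hz
      have := hOm.norm_image_sub_le_of_norm_hasDerivWithin_le (f := F (q + 1))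
        (f' := F (q + 1 + 1)) (C := Lam)
        (fun x hx => (hF (q + 1) x hx).hasDerivWithinAt) hup (hmem z hz).1 (hmem z hz).2
      rw [add_sub_cancel_left] at this
      have h3 : Lam * ‖zw om h‖ ≤ Lam * (A * H) := mul_le_mul_of_nonneg_left hnle hLam
      linarith
    have h2' : ∀ z ∈ Om', ‖F (q + 2) (z + zw om h) - F (q + 2) z‖ ≤ A * H * mu := by
      intro z hz
      have := hOm.norm_image_sub_le_of_norm_hasDerivWithin_le (f := F (q + 2))
        (f' := F (q + 2 + 1)) (C := mu)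
        (fun x hx => (hF (q + 2) x hx).hasDerivWithinAt) h2 (hmem z hz).1 (hmem z hz).2
      rw [add_sub_cancel_left] at this
      have h3 : mu * ‖zw om h‖ ≤ mu * (A * H) := mul_le_mul_of_nonneg_left hnle hmu
      linarith
    have hR' : ∀ w ∈ rect (max x0 (x0 - h.1)) (min x1 (x1 - h.1))
          (max y0 (y0 - h.2)) (min y1 (y1 - h.2)), zw om w ∈ Om' := by
      intro w hw
      rw [← rect_filter, Finset.mem_filter] at hw
      refine ⟨hR w hw.1, ?_⟩
      show zw om w + zw om h ∈ Om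
      rw [← zw_add]
      exact hR _ hw.2
    have hih := ih (fun k z => F k (z + zw om h) - F k z) Om' (H1 / 2 * lam)
      (A * H * Lam) (A * H * mu) (max x0 (x0 - h.1)) (min x1 (x1 - h.1))
      (max y0 (y0 - h.2)) (min y1 (y1 - h.2)) hOmc (by positivity) (by positivity)
      (by positivity) hF' hlow' hup' h2' (by omega) (by omega) hR' ?_ ?_ ?_ ?_
    · have efun : (fun w => ((fun k z => F k (z + zw om h) - F k z) 0 (zw om w)).im)
          = (fun w => (F 0 (zw om (w + h))).im - (F 0 (zw om w)).im) := by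
        funext w
        simp only []
        rw [zw_add, Complex.sub_im]
      rw [efun] at hih
      exact hih
    · calc 2 * (A * H * Lam) * (A * H) ^ q * A = 2 * Lam * (A * H) ^ (q + 1) * A := by ring
        _ ≤ 1 := ha
    · calc Z ≤ l * (lam * (H1 / 2) ^ (q + 1) / A) := hb
        _ = l * (H1 / 2 * lam * (H1 / 2) ^ q / A) := by ring
    · calc 2 * (A * H * mu) * (A * H) ^ q * (A * l) ^ 2 * Z
          = 2 * mu * (A * H) ^ (q + 1) * (A * l) ^ 2 * Z := by ring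
        _ ≤ 1 := hc
    · intro j hj
      have h3 := he (j + 1) (by omega)
      calc 2 * (A * H) ^ (j + 1) * (A * H * mu) = 2 * (A * H) ^ (j + 1 + 1) * mu := by ring
        _ ≤ (H1 / 2) ^ (j + 1) * lam := h3
        _ = (H1 / 2) ^ j * (H1 / 2 * lam) := by ring

/-- The real number `x + y o`. -/
noncomputable def gr (o : ℝ) (w : ℤ × ℤ) : ℝ := (w.1 : ℝ) + (w.2 : ℝ) * o

lemma gr_add (o : ℝ) (v w : ℤ × ℤ) : gr o (v + w) = gr o v + gr o w := by
  simp only [gr, Prod.fst_add, Prod.snd_add]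
  push_cast
  ring

lemma abs_gr_le (o : ℝ) (w : ℤ × ℤ) (A B : ℝ) (hA : 1 + |o| ≤ A) (hB : 0 ≤ B)
    (h1 : |(w.1 : ℝ)| ≤ B) (h2 : |(w.2 : ℝ)| ≤ B) : |gr o w| ≤ A * B := by
  calc |gr o w| ≤ |(w.1 : ℝ)| + |(w.2 : ℝ) * o| := abs_add_le _ _
    _ = |(w.1 : ℝ)| + |(w.2 : ℝ)| * |o| := by rw [abs_mul]
    _ ≤ B + B * |o| := add_le_add h1 (mul_le_mul_of_nonneg_right h2 (abs_nonneg _))
    _ = (1 + |o|) * B := by ring
    _ ≤ A * B := mul_le_mul_of_nonneg_right hA hB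

theorem chainR (o1 o2 A : ℝ) (hA : 1 ≤ A) (hA1 : 1 + |o1| ≤ A) (hA2 : 1 + |o2| ≤ A)
    (hA3 : ∀ u v : ℝ, |u| ≤ A * |u + v| ∨ |u| ≤ A * |u * o1 + v * o2|)
    (Z H1 : ℝ) (hZ : 1 ≤ Z) (hH1 : 0 < H1) (H l l0 : ℕ) (hl : 1 ≤ l)
    (hlZ : (l : ℝ) * Z ≤ l0) (q : ℕ) :
    ∀ (U V : ℕ → ℝ → ℝ) (I J : Set ℝ) (lam Lam mu : ℝ) (x0 x1 y0 y1 : ℤ),
    Convex ℝ I → Convex ℝ J → 0 < lam → 0 ≤ Lam → 0 ≤ mu →
    (∀ k, ∀ z ∈ I, HasDerivAt (U k) (U (k + 1) z) z) →
    (∀ k, ∀ z ∈ J, HasDerivAt (V k) (V (k + 1) z) z) →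
    (∀ z ∈ I, lam ≤ ‖U (q + 1) z‖) → (∀ z ∈ I, ‖U (q + 1) z‖ ≤ Lam) →
    (∀ z ∈ I, ‖U (q + 2) z‖ ≤ mu) → (∀ z ∈ J, ‖V (q + 1) z‖ ≤ Lam) →
    (∀ z ∈ J, ‖V (q + 2) z‖ ≤ mu) →
    x1 ≤ x0 + l0 → y1 ≤ y0 + l0 →
    (∀ w ∈ rect x0 x1 y0 y1, gr o1 w ∈ I) → (∀ w ∈ rect x0 x1 y0 y1, gr o2 w ∈ J) →
    2 * Lam * (A * H) ^ q * A ≤ 1 → Z ≤ l * (lam * (H1 / 2) ^ q / A) →
    2 * mu * (A * H) ^ q * (A * l) ^ 2 * Z ≤ 1 →
    (∀ j < q, 2 * (A * H) ^ (j + 1) * mu ≤ (H1 / 2) ^ j * lam) →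
    Good (fun h => |gr o1 h| < H1) H (7 * (l0 : ℝ) ^ 2 / Z) q
      (fun w => U 0 (gr o1 w) + V 0 (gr o2 w)) x0 x1 y0 y1 := by
  have hApos : 0 < A := by linarith
  have hHnn : (0 : ℝ) ≤ H := Nat.cast_nonneg _
  have hlr : (1 : ℝ) ≤ l := by exact_mod_cast hl
  induction q with
  | zero =>
    intro U V I J lam Lam mu x0 x1 y0 y1 hI hJ hlam hLam hmu hU hV hlow hup h2 hupV h2V hx hy
      hR1 hR2 ha hb hc _
    simp only [zero_add, pow_zero, mul_one] at *
    simp only [Good]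
    have hLam1 : 2 * Lam * A ≤ 1 := ha
    apply base_seven (fun w => U 0 (gr o1 w) + V 0 (gr o2 w))
      (fun w => U 1 (gr o1 w) + V 1 (gr o2 w))
      (fun w => U 1 (gr o1 w) * o1 + V 1 (gr o2 w) * o2) (lam / A) (2 * mu * (A * l) ^ 2) Z
      (by positivity)
      (by positivity) hZ x0 x1 y0 y1 l0 l hl hx hy ?_ ?_ ?_ ?_ hb hc hlZ
    · intro w hw s hs hws
      have ht1 := taylor_gen I hI (U 0) (U 1) (U 2) mu (hU 0) (hU 1) h2 (gr o1 w)
        (gr o1 ((s.1 : ℤ), (s.2 : ℤ))) (hR1 w hw) (by rw [← gr_add]; exact hR1 _ hws)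
      have ht2 := taylor_gen J hJ (V 0) (V 1) (V 2) mu (hV 0) (hV 1) h2V (gr o2 w)
        (gr o2 ((s.1 : ℤ), (s.2 : ℤ))) (hR2 w hw) (by rw [← gr_add]; exact hR2 _ hws)
      rw [Real.norm_eq_abs, Real.norm_eq_abs] at ht1 ht2
      have hs' := Finset.mem_product.mp hs
      have h3 : |(((s.1 : ℤ), (s.2 : ℤ)).1 : ℝ)| ≤ l := by
        have h3 : (s.1 : ℝ) ≤ l := by exact_mod_cast (Finset.mem_range.mp hs'.1).le
        simpa using h3
      have h4 : |(((s.1 : ℤ), (s.2 : ℤ)).2 : ℝ)| ≤ l := by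
        have h3 : (s.2 : ℝ) ≤ l := by exact_mod_cast (Finset.mem_range.mp hs'.2).le
        simpa using h3
      have h5 := abs_gr_le o1 _ A l hA1 (by linarith) h3 h4
      have h6 := abs_gr_le o2 _ A l hA2 (by linarith) h3 h4
      have h7 : mu * |gr o1 ((s.1 : ℤ), (s.2 : ℤ))| ^ 2 ≤ mu * (A * l) ^ 2 :=
        mul_le_mul_of_nonneg_left (pow_le_pow_left₀ (abs_nonneg _) h5 2) hmu
      have h8 : mu * |gr o2 ((s.1 : ℤ), (s.2 : ℤ))| ^ 2 ≤ mu * (A * l) ^ 2 :=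
        mul_le_mul_of_nonneg_left (pow_le_pow_left₀ (abs_nonneg _) h6 2) hmu
      have e : U 0 (gr o1 (w + ((s.1 : ℤ), (s.2 : ℤ)))) + V 0 (gr o2 (w + ((s.1 : ℤ), (s.2 : ℤ))))
          - ((U 0 (gr o1 w) + V 0 (gr o2 w)) + ((s.1 : ℝ) * (U 1 (gr o1 w) + V 1 (gr o2 w))
            + (s.2 : ℝ) * (U 1 (gr o1 w) * o1 + V 1 (gr o2 w) * o2)))
          = (U 0 (gr o1 w + gr o1 ((s.1 : ℤ), (s.2 : ℤ))) - U 0 (gr o1 w)
              - U 1 (gr o1 w) * gr o1 ((s.1 : ℤ), (s.2 : ℤ)))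
            + (V 0 (gr o2 w + gr o2 ((s.1 : ℤ), (s.2 : ℤ))) - V 0 (gr o2 w)
              - V 1 (gr o2 w) * gr o2 ((s.1 : ℤ), (s.2 : ℤ))) := by
        rw [gr_add, gr_add]
        have e3 : gr o1 ((s.1 : ℤ), (s.2 : ℤ)) = (s.1 : ℝ) + (s.2 : ℝ) * o1 := by
          simp [gr]
        have e4 : gr o2 ((s.1 : ℤ), (s.2 : ℤ)) = (s.1 : ℝ) + (s.2 : ℝ) * o2 := by
          simp [gr]
        rw [e3, e4]
        ring
      rw [e]
      refine le_trans (abs_add_le _ _) ?_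
      linarith
    · intro w hw
      have h3 := hlow _ (hR1 w hw)
      rw [Real.norm_eq_abs] at h3
      rcases hA3 (U 1 (gr o1 w)) (V 1 (gr o2 w)) with h4 | h4
      · left
        rw [div_le_iff₀ hApos]
        linarith
      · right
        rw [div_le_iff₀ hApos]
        linarith
    · intro w hw
      have h3 := hup _ (hR1 w hw)
      have h4 := hupV _ (hR2 w hw)
      rw [Real.norm_eq_abs] at h3 h4
      refine le_trans (abs_add_le _ _) ?_
      have h5 : 2 * Lam * 1 ≤ 2 * Lam * A := mul_le_mul_of_nonneg_left hA (by linarith)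
      linarith
    · intro w hw
      have h3 := hup _ (hR1 w hw)
      have h4 := hupV _ (hR2 w hw)
      rw [Real.norm_eq_abs] at h3 h4
      refine le_trans (abs_add_le _ _) ?_
      rw [abs_mul, abs_mul]
      have h5 : |U 1 (gr o1 w)| * |o1| ≤ Lam * A :=
        mul_le_mul h3 (by linarith) (abs_nonneg _) hLam
      have h6 : |V 1 (gr o2 w)| * |o2| ≤ Lam * A :=
        mul_le_mul h4 (by linarith) (abs_nonneg _) hLam
      linarith
  | succ q ih =>
    intro U V I J lam Lam mu x0 x1 y0 y1 hI hJ hlam hLam hmu hU hV hlow hup h2 hupV h2V hx hy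
      hR1 hR2 ha hb hc he
    simp only [Good]
    intro h hh1 hh2 hfar
    have hnge : H1 ≤ |gr o1 h| := not_lt.mp hfar
    have hnle : ‖gr o1 h‖ ≤ A * H := by
      rw [Real.norm_eq_abs]
      apply abs_gr_le o1 h A H hA1 hHnn
      · exact_mod_cast hh1.le
      · exact_mod_cast hh2.le
    have hnle2 : ‖gr o2 h‖ ≤ A * H := by
      rw [Real.norm_eq_abs]
      apply abs_gr_le o2 h A H hA2 hHnn
      · exact_mod_cast hh1.le
      · exact_mod_cast hh2.le
    rw [← Real.norm_eq_abs] at hnge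
    set I' : Set ℝ := I ∩ (fun z => z + gr o1 h) ⁻¹' I with hI'
    set J' : Set ℝ := J ∩ (fun z => z + gr o2 h) ⁻¹' J with hJ'
    have hIc : Convex ℝ I' := hI.inter (hI.translate_preimage_left (gr o1 h))
    have hJc : Convex ℝ J' := hJ.inter (hJ.translate_preimage_left (gr o2 h))
    have hmemI : ∀ z ∈ I', z ∈ I ∧ z + gr o1 h ∈ I := fun z hz => ⟨hz.1, hz.2⟩
    have hmemJ : ∀ z ∈ J', z ∈ J ∧ z + gr o2 h ∈ J := fun z hz => ⟨hz.1, hz.2⟩
    have hU' : ∀ k, ∀ z ∈ I', HasDerivAt (fun z => U k (z + gr o1 h) - U k z)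
        (U (k + 1) (z + gr o1 h) - U (k + 1) z) z := by
      intro k z hz
      exact (HasDerivAt.comp_add_const z (gr o1 h) (hU k _ (hmemI z hz).2)).sub
        (hU k z (hmemI z hz).1)
    have hV' : ∀ k, ∀ z ∈ J', HasDerivAt (fun z => V k (z + gr o2 h) - V k z)
        (V (k + 1) (z + gr o2 h) - V (k + 1) z) z := by
      intro k z hz
      exact (HasDerivAt.comp_add_const z (gr o2 h) (hV k _ (hmemJ z hz).2)).sub
        (hV k z (hmemJ z hz).1)
    have hlow' : ∀ z ∈ I', H1 / 2 * lam ≤ ‖U (q + 1) (z + gr o1 h) - U (q + 1) z‖ := by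
      intro z hz
      have ht := taylor_gen I hI (U (q + 1)) (U (q + 1 + 1)) (U (q + 1 + 2)) mu
        (hU (q + 1)) (hU (q + 1 + 1)) h2 z (gr o1 h) (hmemI z hz).1 (hmemI z hz).2
      have h3 := hlow z (hmemI z hz).1
      have h4 : ‖U (q + 1 + 1) z * gr o1 h‖ ≤ ‖U (q + 1) (z + gr o1 h) - U (q + 1) z‖
          + mu * ‖gr o1 h‖ ^ 2 := by
        have e : U (q + 1 + 1) z * gr o1 h = (U (q + 1) (z + gr o1 h) - U (q + 1) z)
            - (U (q + 1) (z + gr o1 h) - U (q + 1) z - U (q + 1 + 1) z * gr o1 h) := by ring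
        rw [e]
        refine le_trans (norm_sub_le _ _) ?_
        linarith
      rw [norm_mul] at h4
      have h5 : lam * ‖gr o1 h‖ ≤ ‖U (q + 1 + 1) z‖ * ‖gr o1 h‖ :=
        mul_le_mul_of_nonneg_right h3 (norm_nonneg _)
      have h6 : mu * ‖gr o1 h‖ ≤ lam / 2 := by
        have h7 := he 0 (by omega)
        simp only [zero_add, pow_one, pow_zero, one_mul] at h7
        have h9 : mu * ‖gr o1 h‖ ≤ mu * (A * H) := mul_le_mul_of_nonneg_left hnle hmu
        linarith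
      have h10 : mu * ‖gr o1 h‖ ^ 2 ≤ lam / 2 * ‖gr o1 h‖ := by
        calc mu * ‖gr o1 h‖ ^ 2 = mu * ‖gr o1 h‖ * ‖gr o1 h‖ := by ring
          _ ≤ lam / 2 * ‖gr o1 h‖ := mul_le_mul_of_nonneg_right h6 (norm_nonneg _)
      have h11 : H1 * lam ≤ ‖gr o1 h‖ * lam := mul_le_mul_of_nonneg_right hnge hlam.le
      linarith
    have hup' : ∀ z ∈ I', ‖U (q + 1) (z + gr o1 h) - U (q + 1) z‖ ≤ A * H * Lam := by
      intro z hz
      have := hI.norm_image_sub_le_of_norm_hasDerivWithin_le (f := U (q + 1))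
        (f' := U (q + 1 + 1)) (C := Lam)
        (fun x hx => (hU (q + 1) x hx).hasDerivWithinAt) hup (hmemI z hz).1 (hmemI z hz).2
      rw [add_sub_cancel_left] at this
      have h3 : Lam * ‖gr o1 h‖ ≤ Lam * (A * H) := mul_le_mul_of_nonneg_left hnle hLam
      linarith
    have h2' : ∀ z ∈ I', ‖U (q + 2) (z + gr o1 h) - U (q + 2) z‖ ≤ A * H * mu := by
      intro z hz
      have := hI.norm_image_sub_le_of_norm_hasDerivWithin_le (f := U (q + 2))
        (f' := U (q + 2 + 1)) (C := mu)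
        (fun x hx => (hU (q + 2) x hx).hasDerivWithinAt) h2 (hmemI z hz).1 (hmemI z hz).2
      rw [add_sub_cancel_left] at this
      have h3 : mu * ‖gr o1 h‖ ≤ mu * (A * H) := mul_le_mul_of_nonneg_left hnle hmu
      linarith
    have hupV' : ∀ z ∈ J', ‖V (q + 1) (z + gr o2 h) - V (q + 1) z‖ ≤ A * H * Lam := by
      intro z hz
      have := hJ.norm_image_sub_le_of_norm_hasDerivWithin_le (f := V (q + 1))
        (f' := V (q + 1 + 1)) (C := Lam)
        (fun x hx => (hV (q + 1) x hx).hasDerivWithinAt) hupV (hmemJ z hz).1 (hmemJ z hz).2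
      rw [add_sub_cancel_left] at this
      have h3 : Lam * ‖gr o2 h‖ ≤ Lam * (A * H) := mul_le_mul_of_nonneg_left hnle2 hLam
      linarith
    have h2V' : ∀ z ∈ J', ‖V (q + 2) (z + gr o2 h) - V (q + 2) z‖ ≤ A * H * mu := by
      intro z hz
      have := hJ.norm_image_sub_le_of_norm_hasDerivWithin_le (f := V (q + 2))
        (f' := V (q + 2 + 1)) (C := mu)
        (fun x hx => (hV (q + 2) x hx).hasDerivWithinAt) h2V (hmemJ z hz).1 (hmemJ z hz).2
      rw [add_sub_cancel_left] at this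
      have h3 : mu * ‖gr o2 h‖ ≤ mu * (A * H) := mul_le_mul_of_nonneg_left hnle2 hmu
      linarith
    have hR1' : ∀ w ∈ rect (max x0 (x0 - h.1)) (min x1 (x1 - h.1))
          (max y0 (y0 - h.2)) (min y1 (y1 - h.2)), gr o1 w ∈ I' := by
      intro w hw
      rw [← rect_filter, Finset.mem_filter] at hw
      refine ⟨hR1 w hw.1, ?_⟩
      show gr o1 w + gr o1 h ∈ I
      rw [← gr_add]
      exact hR1 _ hw.2
    have hR2' : ∀ w ∈ rect (max x0 (x0 - h.1)) (min x1 (x1 - h.1))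
          (max y0 (y0 - h.2)) (min y1 (y1 - h.2)), gr o2 w ∈ J' := by
      intro w hw
      rw [← rect_filter, Finset.mem_filter] at hw
      refine ⟨hR2 w hw.1, ?_⟩
      show gr o2 w + gr o2 h ∈ J
      rw [← gr_add]
      exact hR2 _ hw.2
    have hih := ih (fun k z => U k (z + gr o1 h) - U k z) (fun k z => V k (z + gr o2 h) - V k z)
      I' J' (H1 / 2 * lam)
      (A * H * Lam) (A * H * mu) (max x0 (x0 - h.1)) (min x1 (x1 - h.1))
      (max y0 (y0 - h.2)) (min y1 (y1 - h.2)) hIc hJc (by positivity) (by positivity)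
      (by positivity) hU' hV' hlow' hup' h2' hupV' h2V' (by omega) (by omega) hR1' hR2'
      ?_ ?_ ?_ ?_
    · have efun : (fun w => (fun k z => U k (z + gr o1 h) - U k z) 0 (gr o1 w)
            + (fun k z => V k (z + gr o2 h) - V k z) 0 (gr o2 w))
          = (fun w => (U 0 (gr o1 (w + h)) + V 0 (gr o2 (w + h)))
            - (U 0 (gr o1 w) + V 0 (gr o2 w))) := by
        funext w
        simp only []
        rw [gr_add, gr_add]
        ring
      rw [efun] at hih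
      exact hih
    · calc 2 * (A * H * Lam) * (A * H) ^ q * A = 2 * Lam * (A * H) ^ (q + 1) * A := by ring
        _ ≤ 1 := ha
    · calc Z ≤ l * (lam * (H1 / 2) ^ (q + 1) / A) := hb
        _ = l * (H1 / 2 * lam * (H1 / 2) ^ q / A) := by ring
    · calc 2 * (A * H * mu) * (A * H) ^ q * (A * l) ^ 2 * Z
          = 2 * mu * (A * H) ^ (q + 1) * (A * l) ^ 2 * Z := by ring
        _ ≤ 1 := hc
    · intro j hj
      have h3 := he (j + 1) (by omega)
      calc 2 * (A * H) ^ (j + 1) * (A * H * mu) = 2 * (A * H) ^ (j + 1 + 1) * mu := by ring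
        _ ≤ (H1 / 2) ^ (j + 1) * lam := h3
        _ = (H1 / 2) ^ j * (H1 / 2 * lam) := by ring

end Pool.Agent.Lib.MP_a17b09_nt.LP
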