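import Pool.Agent.Lib.MP_a17b09_nt.LP.WeylChain

/-!
Cancellation of high angular characters over boxes of pairs of integers, for the norm forms of
all quadratic orders, imaginary and real.
-/

set_option autoImplicit false

namespace Pool.Agent.Lib.MP_a17b09_nt.LP

open Finset

lemma params_a (q : ℕ) (hq : q ≤ 4) (A Z M : ℝ) (hA : 120 ≤ A) (hZ : A ^ 25 ≤ Z)
    (hM0 : 0 < M) (hM2 : M ≤ Z ^ (128 * q + 154)) :
    2 * (M * A ^ (q + 2) / (Z ^ 160) ^ (q + 1)) * (A * Z ^ 32) ^ q * A ≤ 1 := by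
  have hA1 : (1 : ℝ) ≤ A := by linarith
  have hA0 : (0 : ℝ) < A := by linarith
  have hZ1 : (1 : ℝ) ≤ Z := le_trans (one_le_pow₀ hA1) hZ
  have hZ0 : (0 : ℝ) < Z := by linarith
  have e : 2 * (M * A ^ (q + 2) / (Z ^ 160) ^ (q + 1)) * (A * Z ^ 32) ^ q * A
      = (2 * A ^ (2 * q + 3)) * M * Z ^ (32 * q) / (Z ^ 160) ^ (q + 1) := by
    field_simp
    ring
  rw [e, div_le_one (by positivity)]
  have h1 : 2 * A ^ (2 * q + 3) ≤ Z := by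
    calc 2 * A ^ (2 * q + 3) ≤ A * A ^ (2 * q + 3) :=
          mul_le_mul_of_nonneg_right (by linarith) (by positivity)
      _ = A ^ (2 * q + 4) := by ring
      _ ≤ A ^ 25 := pow_le_pow_right₀ hA1 (by omega)
      _ ≤ Z := hZ
  calc (2 * A ^ (2 * q + 3)) * M * Z ^ (32 * q)
      ≤ Z * Z ^ (128 * q + 154) * Z ^ (32 * q) := by
        apply mul_le_mul_of_nonneg_right _ (by positivity)
        exact mul_le_mul h1 hM2 hM0.le (by positivity)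
    _ = Z ^ (160 * q + 155) := by ring
    _ ≤ Z ^ (160 * q + 160) := pow_le_pow_right₀ hZ1 (by omega)
    _ = (Z ^ 160) ^ (q + 1) := by ring

lemma params_b (q : ℕ) (hq : q ≤ 4) (A Z M l : ℝ) (hA : 120 ≤ A) (hZ : A ^ 25 ≤ Z)
    (hM0 : 0 < M) (hl1 : Z ^ (129 * q + 162) ≤ l * M) :
    Z ≤ l * (M / (A * Z ^ 160) ^ (q + 1) * (Z ^ 31 / A / 2) ^ q / A) := by
  have hA1 : (1 : ℝ) ≤ A := by linarith
  have hA0 : (0 : ℝ) < A := by linarith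
  have hZ1 : (1 : ℝ) ≤ Z := le_trans (one_le_pow₀ hA1) hZ
  have hZ0 : (0 : ℝ) < Z := by linarith
  have e : l * (M / (A * Z ^ 160) ^ (q + 1) * (Z ^ 31 / A / 2) ^ q / A)
      = (l * M) * Z ^ (31 * q) / (A ^ (2 * q + 2) * 2 ^ q * (Z ^ 160) ^ (q + 1)) := by
    rw [div_pow, div_pow]
    field_simp
    ring
  rw [e, le_div_iff₀ (by positivity)]
  have h1 : A ^ (2 * q + 2) * 2 ^ q ≤ Z := by
    calc A ^ (2 * q + 2) * 2 ^ q ≤ A ^ (2 * q + 2) * A ^ q := by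
          apply mul_le_mul_of_nonneg_left _ (by positivity)
          exact pow_le_pow_left₀ (by norm_num) (by linarith) q
      _ = A ^ (3 * q + 2) := by ring
      _ ≤ A ^ 25 := pow_le_pow_right₀ hA1 (by omega)
      _ ≤ Z := hZ
  calc Z * (A ^ (2 * q + 2) * 2 ^ q * (Z ^ 160) ^ (q + 1))
      ≤ Z * (Z * (Z ^ 160) ^ (q + 1)) := by
        apply mul_le_mul_of_nonneg_left _ hZ0.le
        exact mul_le_mul_of_nonneg_right h1 (by positivity)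
    _ = Z ^ (129 * q + 162) * Z ^ (31 * q) := by ring
    _ ≤ (l * M) * Z ^ (31 * q) := mul_le_mul_of_nonneg_right hl1 (by positivity)

lemma params_c (q : ℕ) (hq : q ≤ 4) (A Z M l : ℝ) (hA : 120 ≤ A) (hZ : A ^ 25 ≤ Z)
    (hM0 : 0 < M) (hl0 : 0 < l) (hl2 : l * M ≤ 2 * Z ^ (129 * q + 162))
    (hl3 : l ≤ 2 * Z ^ (q + 144)) :
    2 * (M * A ^ (q + 3) / (Z ^ 160) ^ (q + 2)) * (A * Z ^ 32) ^ q * (A * l) ^ 2 * Z ≤ 1 := by
  have hA1 : (1 : ℝ) ≤ A := by linarith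
  have hA0 : (0 : ℝ) < A := by linarith
  have hZ1 : (1 : ℝ) ≤ Z := le_trans (one_le_pow₀ hA1) hZ
  have hZ0 : (0 : ℝ) < Z := by linarith
  have e : 2 * (M * A ^ (q + 3) / (Z ^ 160) ^ (q + 2)) * (A * Z ^ 32) ^ q * (A * l) ^ 2 * Z
      = (2 * A ^ (2 * q + 5)) * ((l * M) * l) * Z ^ (32 * q + 1) / (Z ^ 160) ^ (q + 2) := by
    field_simp
    ring
  rw [e, div_le_one (by positivity)]
  have h1 : 8 * A ^ (2 * q + 5) ≤ Z := by
    calc 8 * A ^ (2 * q + 5) ≤ A * A ^ (2 * q + 5) :=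
          mul_le_mul_of_nonneg_right (by linarith) (by positivity)
      _ = A ^ (2 * q + 6) := by ring
      _ ≤ A ^ 25 := pow_le_pow_right₀ hA1 (by omega)
      _ ≤ Z := hZ
  calc (2 * A ^ (2 * q + 5)) * ((l * M) * l) * Z ^ (32 * q + 1)
      ≤ (2 * A ^ (2 * q + 5)) * ((2 * Z ^ (129 * q + 162)) * (2 * Z ^ (q + 144)))
        * Z ^ (32 * q + 1) := by
        apply mul_le_mul_of_nonneg_right _ (by positivity)
        apply mul_le_mul_of_nonneg_left _ (by positivity)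
        exact mul_le_mul hl2 hl3 hl0.le (by positivity)
    _ = (8 * A ^ (2 * q + 5)) * Z ^ (162 * q + 307) := by ring
    _ ≤ Z * Z ^ (162 * q + 307) := mul_le_mul_of_nonneg_right h1 (by positivity)
    _ = Z ^ (162 * q + 308) := by ring
    _ ≤ Z ^ (160 * q + 320) := pow_le_pow_right₀ hZ1 (by omega)
    _ = (Z ^ 160) ^ (q + 2) := by ring

lemma params_e (q : ℕ) (hq : q ≤ 4) (A Z M : ℝ) (hA : 120 ≤ A) (hZ : A ^ 25 ≤ Z)
    (hM0 : 0 < M) (j : ℕ) (hj : j < q) :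
    2 * (A * Z ^ 32) ^ (j + 1) * (M * A ^ (q + 3) / (Z ^ 160) ^ (q + 2))
      ≤ (Z ^ 31 / A / 2) ^ j * (M / (A * Z ^ 160) ^ (q + 1)) := by
  have hA1 : (1 : ℝ) ≤ A := by linarith
  have hA0 : (0 : ℝ) < A := by linarith
  have hZ1 : (1 : ℝ) ≤ Z := le_trans (one_le_pow₀ hA1) hZ
  have hZ0 : (0 : ℝ) < Z := by linarith
  have e1 : 2 * (A * Z ^ 32) ^ (j + 1) * (M * A ^ (q + 3) / (Z ^ 160) ^ (q + 2))
      = M * (2 * A ^ (j + q + 4) * Z ^ (32 * j + 32)) / (Z ^ 160) ^ (q + 2) := by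
    field_simp
    ring
  have e2 : (Z ^ 31 / A / 2) ^ j * (M / (A * Z ^ 160) ^ (q + 1))
      = M * (Z ^ (31 * j) / (A ^ (j + q + 1) * 2 ^ j)) / (Z ^ 160) ^ (q + 1) := by
    rw [div_pow, div_pow]
    field_simp
    ring
  rw [e1, e2]
  have h2j : (2 : ℝ) ^ j ≤ A ^ j := pow_le_pow_left₀ (by norm_num) (by linarith) j
  have h1 : 2 * A ^ (j + q + 4) * (A ^ (j + q + 1) * 2 ^ j) ≤ Z := by
    calc 2 * A ^ (j + q + 4) * (A ^ (j + q + 1) * 2 ^ j)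
        ≤ A * A ^ (j + q + 4) * (A ^ (j + q + 1) * A ^ j) := by
          apply mul_le_mul _ _ (by positivity) (by positivity)
          · exact mul_le_mul_of_nonneg_right (by linarith) (by positivity)
          · exact mul_le_mul_of_nonneg_left h2j (by positivity)
      _ = A ^ (3 * j + 2 * q + 6) := by ring
      _ ≤ A ^ 25 := pow_le_pow_right₀ hA1 (by omega)
      _ ≤ Z := hZ
  rw [div_le_div_iff₀ (by positivity) (by positivity)]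
  have h2 : 2 * A ^ (j + q + 4) * Z ^ (32 * j + 32) ≤ Z ^ (31 * j) / (A ^ (j + q + 1) * 2 ^ j)
      * Z ^ 160 := by
    rw [div_mul_eq_mul_div, le_div_iff₀ (by positivity)]
    calc 2 * A ^ (j + q + 4) * Z ^ (32 * j + 32) * (A ^ (j + q + 1) * 2 ^ j)
        = (2 * A ^ (j + q + 4) * (A ^ (j + q + 1) * 2 ^ j)) * Z ^ (32 * j + 32) := by ring
      _ ≤ Z * Z ^ (32 * j + 32) := mul_le_mul_of_nonneg_right h1 (by positivity)
      _ = Z ^ (32 * j + 33) := by ring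
      _ ≤ Z ^ (31 * j + 160) := pow_le_pow_right₀ hZ1 (by omega)
      _ = Z ^ (31 * j) * Z ^ 160 := by ring
  calc M * (2 * A ^ (j + q + 4) * Z ^ (32 * j + 32)) * (Z ^ 160) ^ (q + 1)
      ≤ M * (Z ^ (31 * j) / (A ^ (j + q + 1) * 2 ^ j) * Z ^ 160) * (Z ^ 160) ^ (q + 1) := by
        apply mul_le_mul_of_nonneg_right _ (by positivity)
        exact mul_le_mul_of_nonneg_left h2 hM0.le
    _ = M * (Z ^ (31 * j) / (A ^ (j + q + 1) * 2 ^ j)) * (Z ^ 160) ^ (q + 2) := by ring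

/-- The block length. -/
lemma exists_l (q : ℕ) (hq : q ≤ 4) (Z : ℕ) (hZ : 2 ≤ Z) (M : ℝ)
    (hM1 : (Z : ℝ) ^ (128 * q + 18) ≤ M) (hM2 : M ≤ (Z : ℝ) ^ (128 * q + 154)) :
    ∃ l : ℕ, 1 ≤ l ∧ (Z : ℝ) ^ (129 * q + 162) ≤ l * M
      ∧ (l : ℝ) * M ≤ 2 * (Z : ℝ) ^ (129 * q + 162) ∧ (l : ℝ) ≤ 2 * (Z : ℝ) ^ (q + 144)
      ∧ (l : ℝ) * Z ≤ (Z : ℝ) ^ 158 := by
  have hZr : (2 : ℝ) ≤ Z := by exact_mod_cast hZ
  have hZ1 : (1 : ℝ) ≤ Z := by linarith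
  have hZ0 : (0 : ℝ) < Z := by linarith
  have hM0 : 0 < M := lt_of_lt_of_le (by positivity) hM1
  have hx0 : 0 ≤ (Z : ℝ) ^ (129 * q + 162) / M := by positivity
  refine ⟨⌊(Z : ℝ) ^ (129 * q + 162) / M⌋₊ + 1, by omega, ?_, ?_, ?_, ?_⟩
  · have h := Nat.lt_floor_add_one ((Z : ℝ) ^ (129 * q + 162) / M)
    push_cast
    rw [div_lt_iff₀ hM0] at h
    exact h.le
  · have h := Nat.floor_le hx0
    push_cast
    rw [le_div_iff₀ hM0] at h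
    have h2 : M ≤ (Z : ℝ) ^ (129 * q + 162) :=
      le_trans hM2 (pow_le_pow_right₀ hZ1 (by omega))
    linarith
  · have h := Nat.floor_le hx0
    push_cast
    have h2 : (Z : ℝ) ^ (129 * q + 162) / M ≤ (Z : ℝ) ^ (q + 144) := by
      rw [div_le_iff₀ hM0]
      calc (Z : ℝ) ^ (129 * q + 162) = (Z : ℝ) ^ (q + 144) * (Z : ℝ) ^ (128 * q + 18) := by
            ring
        _ ≤ (Z : ℝ) ^ (q + 144) * M := mul_le_mul_of_nonneg_left hM1 (by positivity)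
    have h3 : (1 : ℝ) ≤ (Z : ℝ) ^ (q + 144) := one_le_pow₀ hZ1
    linarith
  · have h := Nat.floor_le hx0
    push_cast
    have h2 : (Z : ℝ) ^ (129 * q + 162) / M ≤ (Z : ℝ) ^ (q + 144) := by
      rw [div_le_iff₀ hM0]
      calc (Z : ℝ) ^ (129 * q + 162) = (Z : ℝ) ^ (q + 144) * (Z : ℝ) ^ (128 * q + 18) := by
            ring
        _ ≤ (Z : ℝ) ^ (q + 144) * M := mul_le_mul_of_nonneg_left hM1 (by positivity)
    have h3 : (1 : ℝ) ≤ (Z : ℝ) ^ (q + 144) := one_le_pow₀ hZ1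
    have h4 : (⌊(Z : ℝ) ^ (129 * q + 162) / M⌋₊ : ℝ) + 1 ≤ Z * (Z : ℝ) ^ (q + 144) := by
      have : 2 * (Z : ℝ) ^ (q + 144) ≤ Z * (Z : ℝ) ^ (q + 144) :=
        mul_le_mul_of_nonneg_right hZr (by positivity)
      linarith
    calc ((⌊(Z : ℝ) ^ (129 * q + 162) / M⌋₊ : ℝ) + 1) * Z ≤ Z * (Z : ℝ) ^ (q + 144) * Z :=
          mul_le_mul_of_nonneg_right h4 hZ0.le
      _ = (Z : ℝ) ^ (q + 146) := by ring
      _ ≤ (Z : ℝ) ^ 158 := pow_le_pow_right₀ hZ1 (by omega)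

/-- The order of differencing. -/
lemma exists_q (Z : ℕ) (hZ : 2 ≤ Z) (M : ℝ)
    (hM1 : (Z : ℝ) ^ 150 ≤ M) (hM2 : M ≤ (Z : ℝ) ^ 660) :
    ∃ q : ℕ, q ≤ 4 ∧ (Z : ℝ) ^ (128 * q + 18) ≤ M ∧ M ≤ (Z : ℝ) ^ (128 * q + 154) := by
  have hZr : (2 : ℝ) ≤ Z := by exact_mod_cast hZ
  have hZ1 : (1 : ℝ) ≤ Z := by linarith
  have hmono : ∀ e1 e2 : ℕ, e1 ≤ e2 → (Z : ℝ) ^ e1 ≤ (Z : ℝ) ^ e2 :=
    fun e1 e2 h => pow_le_pow_right₀ hZ1 h
  rcases le_or_gt M ((Z : ℝ) ^ 282) with h1 | h1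
  · exact ⟨1, by norm_num, le_trans (hmono _ _ (by norm_num)) hM1,
      le_trans h1 (hmono _ _ (by norm_num))⟩
  rcases le_or_gt M ((Z : ℝ) ^ 410) with h2 | h2
  · exact ⟨2, by norm_num, le_trans (hmono _ _ (by norm_num)) h1.le,
      le_trans h2 (hmono _ _ (by norm_num))⟩
  rcases le_or_gt M ((Z : ℝ) ^ 538) with h3 | h3
  · exact ⟨3, by norm_num, le_trans (hmono _ _ (by norm_num)) h2.le,
      le_trans h3 (hmono _ _ (by norm_num))⟩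
  · exact ⟨4, by norm_num, le_trans (hmono _ _ (by norm_num)) h3.le,
      le_trans hM2 (hmono _ _ (by norm_num))⟩

open Classical in
/-- Conclusion from the abstract induction. -/
lemma finish (Z : ℕ) (hZ : 2 ≤ Z) (q : ℕ) (hq : q ≤ 4) (Bad : ℤ × ℤ → Prop)
    (hBad : ∀ k' : ℤ × ℤ, (((Ico (0 : ℤ) ((Z ^ 32 : ℕ) : ℤ) ×ˢ Ico (0 : ℤ) ((Z ^ 32 : ℕ) : ℤ)).filter
      (fun k => Bad (k - k'))).card : ℝ) ≤ 4 * ((Z ^ 32 : ℕ) : ℝ) ^ 2 / Z)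
    (f : ℤ × ℤ → ℝ) (a b : ℤ)
    (hG : Good Bad (Z ^ 32) (7 * ((Z ^ 158 : ℕ) : ℝ) ^ 2 / Z) q f a (a + (Z : ℤ) ^ 158) b
      (b + (Z : ℤ) ^ 158)) :
    ‖∑ w ∈ rect a (a + (Z : ℤ) ^ 158) b (b + (Z : ℤ) ^ 158), ph (f w)‖ ^ 16 * Z
      ≤ Dw 4 7 4 * ((Z : ℝ) ^ 158) ^ 32 := by
  have hZr : (2 : ℝ) ≤ Z := by exact_mod_cast hZ
  have hZ1 : (1 : ℝ) ≤ Z := by linarith
  have hZ0 : (0 : ℝ) < Z := by linarith
  have hZn1 : 1 ≤ Z := by omega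
  have key := abs_ind Z hZ1 (Z ^ 32) (Z ^ 158) (Nat.one_le_pow _ _ hZn1)
    (Nat.pow_le_pow_right hZn1 (by norm_num)) Bad 4 7 (by norm_num) (by norm_num) hBad q f
    a (a + (Z : ℤ) ^ 158) b (b + (Z : ℤ) ^ 158) (by push_cast; exact le_refl _)
    (by push_cast; exact le_refl _) hG
  push_cast at key
  set T : ℝ := ‖∑ w ∈ rect a (a + (Z : ℤ) ^ 158) b (b + (Z : ℤ) ^ 158), ph (f w)‖
    / ((Z : ℝ) ^ 158) ^ 2 with hT
  have hT0 : 0 ≤ T := by rw [hT]; positivity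
  have hT1 : T ≤ 1 := by
    rw [hT, div_le_one (by positivity)]
    refine le_trans (norm_sum_ph_le _ _) ?_
    have h := card_rect_le (x0 := a) (x1 := a + (Z : ℤ) ^ 158) (y0 := b)
      (y1 := b + (Z : ℤ) ^ 158) (l0 := Z ^ 158) (by push_cast; exact le_refl _)
      (by push_cast; exact le_refl _)
    exact_mod_cast h
  have h16 : T ^ 16 ≤ Dw 4 7 4 / Z := by
    have e1 : T ^ 16 ≤ T ^ (2 ^ q) := by
      apply pow_le_pow_of_le_one hT0 hT1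
      calc 2 ^ q ≤ 2 ^ 4 := Nat.pow_le_pow_right (by norm_num) hq
        _ = 16 := by norm_num
    have e2 : Dw 4 7 q / Z ≤ Dw 4 7 4 / Z :=
      div_le_div_of_nonneg_right (Dw_mono (by norm_num) (by norm_num) hq) hZ0.le
    linarith
  rw [le_div_iff₀ hZ0, hT, div_pow, div_mul_eq_mul_div, div_le_iff₀ (by positivity)] at h16
  calc _ ≤ Dw 4 7 4 * (((Z : ℝ) ^ 158) ^ 2) ^ 16 := h16
    _ = Dw 4 7 4 * ((Z : ℝ) ^ 158) ^ 32 := by ring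

lemma fact_le (q : ℕ) (hq : q ≤ 5) (A : ℝ) (hA : 120 ≤ A) : (q.factorial : ℝ) ≤ A := by
  refine le_trans ?_ hA
  interval_cases q <;> norm_num [Nat.factorial]

end Pool.Agent.Lib.MP_a17b09_nt.LP
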