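import Pool.Agent.Lib.MP_a17b09_nt.LP.Weyl

/-!
The differencing inequality and the induction.
-/

namespace Pool.Agent.Lib.MP_a17b09_nt.LP

open Finset

lemma shift_sum (R K R' : Finset (ℤ × ℤ)) (hR' : ∀ v, (∃ k ∈ K, v + k ∈ R) → v ∈ R')
    (k : ℤ × ℤ) (hk : k ∈ K) (F : ℤ × ℤ → ℂ) :
    ∑ v ∈ R', (if v + k ∈ R then F (v + k) else 0) = ∑ u ∈ R, F u := by
  rw [← Finset.sum_filter]
  apply Finset.sum_nbij' (fun v => v + k) (fun u => u - k)
  · intro v hv
    exact (Finset.mem_filter.mp hv).2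
  · intro u hu
    rw [Finset.mem_filter]
    rw [sub_add_cancel]
    exact ⟨hR' _ ⟨k, hk, by rwa [sub_add_cancel]⟩, hu⟩
  · intro v _
    exact add_sub_cancel_right v k
  · intro u _
    exact sub_add_cancel u k
  · intro v _
    rfl

lemma vdc (R K R' : Finset (ℤ × ℤ)) (hR' : ∀ v, (∃ k ∈ K, v + k ∈ R) → v ∈ R')
    (f : ℤ × ℤ → ℂ) :
    (K.card : ℝ) ^ 2 * ‖∑ w ∈ R, f w‖ ^ 2
      ≤ R'.card * ∑ k ∈ K, ∑ k' ∈ K,
        ‖∑ u ∈ R.filter (fun u => u + (k - k') ∈ R),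
          f (u + (k - k')) * (starRingEnd ℂ) (f u)‖ := by
  classical
  set g : ℤ × ℤ → ℂ := fun v => if v ∈ R then f v else 0 with hg
  set G : ℤ × ℤ → ℂ := fun v => ∑ k ∈ K, g (v + k) with hG
  have h1 : (K.card : ℂ) * ∑ w ∈ R, f w = ∑ v ∈ R', G v := by
    simp only [hG]
    rw [Finset.sum_comm]
    have : ∀ k ∈ K, ∑ v ∈ R', g (v + k) = ∑ w ∈ R, f w := by
      intro k hk
      exact shift_sum R K R' hR' k hk f
    rw [Finset.sum_congr rfl this, Finset.sum_const, nsmul_eq_mul]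
  have h2 : ‖∑ v ∈ R', G v‖ ^ 2 ≤ R'.card * ∑ v ∈ R', ‖G v‖ ^ 2 := by
    have h3 : ‖∑ v ∈ R', G v‖ ^ 2 ≤ (∑ v ∈ R', ‖G v‖) ^ 2 :=
      pow_le_pow_left₀ (norm_nonneg _) (norm_sum_le _ _) 2
    exact le_trans h3 sq_sum_le_card_mul_sum_sq
  have h5 : ∀ k ∈ K, ∀ k' ∈ K, ∑ v ∈ R', g (v + k) * (starRingEnd ℂ) (g (v + k'))
      = ∑ u ∈ R.filter (fun u => u + (k - k') ∈ R),
          f (u + (k - k')) * (starRingEnd ℂ) (f u) := by
    intro k _ k' hk'
    rw [Finset.sum_filter]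
    rw [← shift_sum R K R' hR' k' hk'
      (fun u => if u + (k - k') ∈ R then f (u + (k - k')) * (starRingEnd ℂ) (f u) else 0)]
    apply Finset.sum_congr rfl
    intro v _
    have e : v + k' + (k - k') = v + k := by abel
    simp only [hg, e]
    by_cases hA : v + k' ∈ R
    · by_cases hB : v + k ∈ R
      · simp [hA, hB]
      · simp [hA, hB]
    · simp [hA]
  have h6 : ∑ v ∈ R', ‖G v‖ ^ 2 ≤ ∑ k ∈ K, ∑ k' ∈ K,
        ‖∑ u ∈ R.filter (fun u => u + (k - k') ∈ R),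
          f (u + (k - k')) * (starRingEnd ℂ) (f u)‖ := by
    have e1 : ((∑ v ∈ R', ‖G v‖ ^ 2 : ℝ) : ℂ)
        = ∑ k ∈ K, ∑ k' ∈ K, ∑ v ∈ R', g (v + k) * (starRingEnd ℂ) (g (v + k')) := by
      push_cast
      have e2 : ∀ v ∈ R', ((‖G v‖ : ℂ)) ^ 2
          = ∑ k ∈ K, ∑ k' ∈ K, g (v + k) * (starRingEnd ℂ) (g (v + k')) := by
        intro v _
        have e3 : ((‖G v‖ : ℂ)) ^ 2 = G v * (starRingEnd ℂ) (G v) := by
          rw [Complex.mul_conj, Complex.normSq_eq_norm_sq]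
          push_cast
          rfl
        rw [e3]
        simp only [hG]
        rw [map_sum, Finset.sum_mul_sum]
      rw [Finset.sum_congr rfl e2, Finset.sum_comm]
      apply Finset.sum_congr rfl
      intro k _
      rw [Finset.sum_comm]
    have e4 : ∑ v ∈ R', ‖G v‖ ^ 2 = ‖((∑ v ∈ R', ‖G v‖ ^ 2 : ℝ) : ℂ)‖ := by
      rw [Complex.norm_real, Real.norm_eq_abs, abs_of_nonneg]
      exact Finset.sum_nonneg (fun v _ => sq_nonneg _)
    rw [e4, e1]
    refine le_trans (norm_sum_le _ _) ?_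
    apply Finset.sum_le_sum
    intro k hk
    refine le_trans (norm_sum_le _ _) ?_
    apply Finset.sum_le_sum
    intro k' hk'
    rw [h5 k hk k' hk']
  have h7 : (K.card : ℝ) ^ 2 * ‖∑ w ∈ R, f w‖ ^ 2 = ‖∑ v ∈ R', G v‖ ^ 2 := by
    rw [← h1, norm_mul, Complex.norm_natCast, mul_pow]
  rw [h7]
  exact le_trans h2 (mul_le_mul_of_nonneg_left h6 (Nat.cast_nonneg _))

/-- The part of a box which stays in the box after a shift. -/
lemma rect_filter (x0 x1 y0 y1 : ℤ) (h : ℤ × ℤ) :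
    (rect x0 x1 y0 y1).filter (fun u => u + h ∈ rect x0 x1 y0 y1)
      = rect (max x0 (x0 - h.1)) (min x1 (x1 - h.1)) (max y0 (y0 - h.2))
          (min y1 (y1 - h.2)) := by
  ext u
  rw [Finset.mem_filter, mem_rect, mem_rect, mem_rect]
  simp only [Prod.fst_add, Prod.snd_add]
  omega

/-- The differencing inequality for a box. -/
lemma vdc_rect (x0 x1 y0 y1 : ℤ) (l0 H : ℕ) (hx : x1 ≤ x0 + l0) (hy : y1 ≤ y0 + l0)
    (hH : H ≤ l0) (f : ℤ × ℤ → ℂ) :
    ((H : ℝ) ^ 2) ^ 2 * ‖∑ w ∈ rect x0 x1 y0 y1, f w‖ ^ 2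
      ≤ 4 * (l0 : ℝ) ^ 2 * ∑ k ∈ Ico (0 : ℤ) H ×ˢ Ico (0 : ℤ) H,
        ∑ k' ∈ Ico (0 : ℤ) H ×ˢ Ico (0 : ℤ) H,
        ‖∑ u ∈ rect (max x0 (x0 - (k - k').1)) (min x1 (x1 - (k - k').1))
            (max y0 (y0 - (k - k').2)) (min y1 (y1 - (k - k').2)),
          f (u + (k - k')) * (starRingEnd ℂ) (f u)‖ := by
  have h1 := vdc (rect x0 x1 y0 y1) (Ico (0 : ℤ) H ×ˢ Ico (0 : ℤ) H)
    (rect (x0 - H) x1 (y0 - H) y1) (by
      rintro v ⟨k, hk, hv⟩
      rw [Finset.mem_product, Finset.mem_Ico, Finset.mem_Ico] at hk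
      rw [mem_rect] at hv ⊢
      simp only [Prod.fst_add, Prod.snd_add] at hv
      omega) f
  have hKc : (Ico (0 : ℤ) H ×ˢ Ico (0 : ℤ) H).card = H ^ 2 := by
    rw [Finset.card_product, Int.card_Ico, sq]
    congr 1
  have hR'c : ((rect (x0 - H) x1 (y0 - H) y1).card : ℝ) ≤ 4 * (l0 : ℝ) ^ 2 := by
    have h2 : (rect (x0 - H) x1 (y0 - H) y1).card ≤ (2 * l0) ^ 2 :=
      card_rect_le (by push_cast; omega) (by push_cast; omega)
    have h3 : ((rect (x0 - H) x1 (y0 - H) y1).card : ℝ) ≤ ((2 * l0 : ℕ) : ℝ) ^ 2 := by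
      exact_mod_cast h2
    push_cast at h3
    linarith
  rw [hKc] at h1
  push_cast at h1
  simp only [rect_filter] at h1
  refine le_trans h1 ?_
  apply mul_le_mul_of_nonneg_right hR'c
  exact Finset.sum_nonneg (fun k _ => Finset.sum_nonneg (fun k' _ => norm_nonneg _))

/-- The constants of the induction. -/
noncomputable def Cw : ℕ → ℝ
  | 0 => 12
  | q + 1 => 4 ^ (2 ^ q) * (4 + Cw q)

lemma Cw_pos (q : ℕ) : 0 < Cw q := by
  induction q with
  | zero => simp [Cw]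
  | succ q ih => simp only [Cw]; positivity

lemma Cw_mono_succ (q : ℕ) : Cw q ≤ Cw (q + 1) := by
  have h := Cw_pos q
  simp only [Cw]
  have h1 : (1 : ℝ) ≤ 4 ^ (2 ^ q) := one_le_pow₀ (by norm_num)
  nlinarith

lemma Cw_mono {q r : ℕ} (h : q ≤ r) : Cw q ≤ Cw r :=
  monotone_nat_of_le_succ Cw_mono_succ h

/-- Counting the pairs of close shifts. -/
lemma card_close (H h0 : ℕ) (k' : ℤ × ℤ) :
    ((Ico (0 : ℤ) H ×ˢ Ico (0 : ℤ) H).filter
      (fun k => |(k - k').1| < (h0 : ℤ) ∧ |(k - k').2| < (h0 : ℤ))).card ≤ (2 * h0) ^ 2 := by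
  have hsub : (Ico (0 : ℤ) H ×ˢ Ico (0 : ℤ) H).filter
      (fun k => |(k - k').1| < (h0 : ℤ) ∧ |(k - k').2| < (h0 : ℤ))
      ⊆ rect (k'.1 - h0 + 1) (k'.1 + h0) (k'.2 - h0 + 1) (k'.2 + h0) := by
    intro k hk
    have h := (Finset.mem_filter.mp hk).2
    rw [abs_lt, abs_lt] at h
    simp only [Prod.fst_sub, Prod.snd_sub] at h
    rw [mem_rect]
    omega
  refine le_trans (Finset.card_le_card hsub) ?_
  exact card_rect_le (by push_cast; omega) (by push_cast; omega)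

private lemma half_aux52 {mu n H lam A : ℝ} (h9 : mu * n ≤ mu * (2 * H))
    (h8 : 4 * H * mu ≤ A) (he : A ≤ lam) : mu * n ≤ lam / 2 := by
  linarith

theorem weyl_ind (Z h0 l l0 : ℕ) (hZ : 1 ≤ Z) (hh0 : 1 ≤ h0) (hl : 1 ≤ l) (hl0 : 1 ≤ l0)
    (hlZ : l * Z ≤ l0) (hHl : Z * h0 ≤ l0) (q : ℕ) :
    ∀ (F : ℕ → ℂ → ℂ) (Om : Set ℂ) (lam Lam mu : ℝ) (x0 x1 y0 y1 : ℤ),
    Convex ℝ Om → 0 < lam → 0 ≤ mu →
    (∀ k, ∀ z ∈ Om, HasDerivAt (F k) (F (k + 1) z) z) →
    (∀ z ∈ Om, lam ≤ ‖F (q + 1) z‖) → (∀ z ∈ Om, ‖F (q + 1) z‖ ≤ Lam) →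
    (∀ z ∈ Om, ‖F (q + 2) z‖ ≤ mu) →
    x1 ≤ x0 + l0 → y1 ≤ y0 + l0 → (∀ w ∈ rect x0 x1 y0 y1, zc w ∈ Om) →
    Lam * (2 * ((Z : ℝ) * h0)) ^ q ≤ 1 → (Z : ℝ) ≤ l * lam * ((h0 : ℝ) / 2) ^ q →
    mu * (2 * ((Z : ℝ) * h0)) ^ q * (l : ℝ) ^ 2 * Z ≤ 1 →
    2 ^ (q + 2) * ((Z : ℝ) * h0) * mu ≤ lam →
    (‖∑ w ∈ rect x0 x1 y0 y1, ph (F 0 (zc w)).im‖ / (l0 : ℝ) ^ 2) ^ (2 ^ q) ≤ Cw q / Z := by
  have hZr : (1 : ℝ) ≤ Z := by exact_mod_cast hZ
  have hh0r : (1 : ℝ) ≤ h0 := by exact_mod_cast hh0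
  have hlr : (1 : ℝ) ≤ l := by exact_mod_cast hl
  have hl0r : (1 : ℝ) ≤ l0 := by exact_mod_cast hl0
  have hlZr : (l : ℝ) * Z ≤ l0 := by exact_mod_cast hlZ
  have hZpos : (0 : ℝ) < Z := lt_of_lt_of_le one_pos hZr
  have hl0pos : (0 : ℝ) < l0 := lt_of_lt_of_le one_pos hl0r
  have hlpos : (0 : ℝ) < l := lt_of_lt_of_le one_pos hlr
  induction q with
  | zero =>
    intro F Om lam Lam mu x0 x1 y0 y1 hOm hlam hmu hF hlow hup h2 hx hy hR ha hb hc he
    simp only [zero_add, pow_zero, mul_one, pow_one] at *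
    have h := base_bound Om hOm (F 0) (F 1) (F 2) lam mu hlam hmu (hF 0) (hF 1) h2 hlow
      (fun z hz => le_trans (hup z hz) ha) x0 x1 y0 y1 l0 l hl hx hy hR
    have hCw : Cw 0 = 12 := rfl
    rw [hCw]
    set S := ‖∑ w ∈ rect x0 x1 y0 y1, ph (F 0 (zc w)).im‖ with hS
    have hl2 : (0 : ℝ) < (l : ℝ) ^ 2 := by positivity
    have h3 : S ≤ (l0 : ℝ) ^ 2 * (8 / (l * lam) + 2 * mu * (l : ℝ) ^ 2) + 2 * l * l0 := by
      have e : (l0 : ℝ) ^ 2 * (8 * l / lam + 2 * mu * (l : ℝ) ^ 4) + 2 * (l : ℝ) ^ 3 * l0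
          = (l : ℝ) ^ 2 * ((l0 : ℝ) ^ 2 * (8 / (l * lam) + 2 * mu * (l : ℝ) ^ 2)
            + 2 * l * l0) := by
        field_simp
      rw [e] at h
      exact le_of_mul_le_mul_left h hl2
    have h4 : 8 / (l * lam) ≤ 8 / (Z : ℝ) :=
      div_le_div_of_nonneg_left (by norm_num) hZpos hb
    have h5 : mu * (l : ℝ) ^ 2 ≤ 1 / Z := by
      rw [le_div_iff₀ hZpos]
      exact hc
    have h6 : (l : ℝ) ≤ l0 / Z := by
      rw [le_div_iff₀ hZpos]
      exact hlZr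
    rw [div_le_div_iff₀ (pow_pos hl0pos 2) hZpos]
    have h7 : S ≤ (l0 : ℝ) ^ 2 * (12 / Z) := by
      calc S ≤ (l0 : ℝ) ^ 2 * (8 / (l * lam) + 2 * mu * (l : ℝ) ^ 2) + 2 * l * l0 := h3
        _ ≤ (l0 : ℝ) ^ 2 * (8 / Z + 2 * (1 / Z)) + 2 * (l0 / Z) * l0 := by
            apply add_le_add
            · apply mul_le_mul_of_nonneg_left _ (sq_nonneg _)
              rw [mul_assoc (2 : ℝ) mu]
              exact add_le_add h4 (mul_le_mul_of_nonneg_left h5 two_pos.le)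
            · apply mul_le_mul_of_nonneg_right _ hl0pos.le
              exact mul_le_mul_of_nonneg_left h6 two_pos.le
        _ = (l0 : ℝ) ^ 2 * (12 / Z) := by ring
    have h8 : (l0 : ℝ) ^ 2 * (12 / Z) * Z = 12 * (l0 : ℝ) ^ 2 := by
      field_simp
    calc S * Z ≤ (l0 : ℝ) ^ 2 * (12 / Z) * Z :=
          mul_le_mul_of_nonneg_right h7 hZpos.le
      _ = 12 * (l0 : ℝ) ^ 2 := h8
  | succ q ih =>
    intro F Om lam Lam mu x0 x1 y0 y1 hOm hlam hmu hF hlow hup h2 hx hy hR ha hb hc he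
    set H : ℕ := Z * h0 with hH
    have hHr : ((H : ℕ) : ℝ) = (Z : ℝ) * h0 := by rw [hH]; push_cast; ring
    have hHpos : (1 : ℝ) ≤ (H : ℝ) := by
      rw [hHr]
      exact one_le_mul_of_one_le_of_one_le hZr hh0r
    set K := Ico (0 : ℤ) H ×ˢ Ico (0 : ℤ) H with hK
    have hKc : K.card = H ^ 2 := by
      rw [hK, Finset.card_product, Int.card_Ico, sq]
      congr 1
    set f : ℤ × ℤ → ℂ := fun w => ph (F 0 (zc w)).im with hf
    set Sh : ℤ × ℤ → ℝ := fun h => ‖∑ u ∈ rect (max x0 (x0 - h.1)) (min x1 (x1 - h.1))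
            (max y0 (y0 - h.2)) (min y1 (y1 - h.2)),
          f (u + h) * (starRingEnd ℂ) (f u)‖ with hSh
    have hvdc := vdc_rect x0 x1 y0 y1 l0 H hx hy hHl f
    -- the trivial bound
    have htriv : ∀ h, Sh h / (l0 : ℝ) ^ 2 ≤ 1 := by
      intro h
      rw [div_le_one (by positivity)]
      simp only [hSh]
      refine le_trans (norm_sum_le _ _) ?_
      have e1 : ∀ u ∈ rect (max x0 (x0 - h.1)) (min x1 (x1 - h.1))
            (max y0 (y0 - h.2)) (min y1 (y1 - h.2)),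
          ‖f (u + h) * (starRingEnd ℂ) (f u)‖ = 1 := by
        intro u _
        simp only [hf]
        rw [ph_mul_conj, norm_ph]
      rw [Finset.sum_congr rfl e1, Finset.sum_const, nsmul_eq_mul, mul_one]
      have h3 : (rect (max x0 (x0 - h.1)) (min x1 (x1 - h.1))
            (max y0 (y0 - h.2)) (min y1 (y1 - h.2))).card ≤ l0 ^ 2 :=
        card_rect_le (by omega) (by omega)
      exact_mod_cast h3
    -- the main bound
    have hmain : ∀ h : ℤ × ℤ, |h.1| < (H : ℤ) → |h.2| < (H : ℤ) →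
        ¬ (|h.1| < (h0 : ℤ) ∧ |h.2| < (h0 : ℤ)) →
        (Sh h / (l0 : ℝ) ^ 2) ^ (2 ^ q) ≤ Cw q / Z := by
      intro h hh1 hh2 hfar
      have hnle : ‖zc h‖ ≤ 2 * (H : ℝ) := by
        refine le_trans (Complex.norm_le_abs_re_add_abs_im _) ?_
        rw [zc_re, zc_im]
        have e1 : |(h.1 : ℝ)| ≤ H := by exact_mod_cast hh1.le
        have e2 : |(h.2 : ℝ)| ≤ H := by exact_mod_cast hh2.le
        linarith
      have hnge : (h0 : ℝ) ≤ ‖zc h‖ := by
        by_cases h3 : |h.1| < (h0 : ℤ)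
        · have h4 : (h0 : ℤ) ≤ |h.2| := by
            by_contra h5
            exact hfar ⟨h3, by omega⟩
          have e2 : (h0 : ℝ) ≤ |(h.2 : ℝ)| := by exact_mod_cast h4
          refine le_trans e2 ?_
          have := Complex.abs_im_le_norm (zc h)
          rwa [zc_im] at this
        · have e2 : (h0 : ℝ) ≤ |(h.1 : ℝ)| := by exact_mod_cast (not_lt.mp h3)
          refine le_trans e2 ?_
          have := Complex.abs_re_le_norm (zc h)
          rwa [zc_re] at this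
      have hn1 : (1 : ℝ) ≤ ‖zc h‖ := le_trans hh0r hnge
      set Om' : Set ℂ := Om ∩ (fun z => z + zc h) ⁻¹' Om with hOm'
      have hOmc : Convex ℝ Om' := hOm.inter (hOm.translate_preimage_left (zc h))
      have hmem : ∀ z ∈ Om', z ∈ Om ∧ z + zc h ∈ Om := fun z hz => ⟨hz.1, hz.2⟩
      have hF' : ∀ k, ∀ z ∈ Om', HasDerivAt (fun z => F k (z + zc h) - F k z)
          (F (k + 1) (z + zc h) - F (k + 1) z) z := by
        intro k z hz
        exact (HasDerivAt.comp_add_const z (zc h) (hF k _ (hmem z hz).2)).sub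
          (hF k z (hmem z hz).1)
      have hlow' : ∀ z ∈ Om', ‖zc h‖ * lam / 2 ≤ ‖F (q + 1) (z + zc h) - F (q + 1) z‖ := by
        intro z hz
        have ht := taylor_two Om hOm (F (q + 1)) (F (q + 1 + 1)) (F (q + 1 + 2)) mu
          (hF (q + 1)) (hF (q + 1 + 1)) h2 z (zc h) (hmem z hz).1 (hmem z hz).2
        have h3 := hlow z (hmem z hz).1
        have h4 : ‖F (q + 1 + 1) z * zc h‖ ≤ ‖F (q + 1) (z + zc h) - F (q + 1) z‖
            + mu * ‖zc h‖ ^ 2 := by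
          have e : F (q + 1 + 1) z * zc h = (F (q + 1) (z + zc h) - F (q + 1) z)
              - (F (q + 1) (z + zc h) - F (q + 1) z - F (q + 1 + 1) z * zc h) := by ring
          rw [e]
          refine le_trans (norm_sub_le _ _) ?_
          linarith
        rw [norm_mul] at h4
        have h5 : lam * ‖zc h‖ ≤ ‖F (q + 1 + 1) z‖ * ‖zc h‖ :=
          mul_le_mul_of_nonneg_right h3 (norm_nonneg _)
        have h6 : mu * ‖zc h‖ ≤ lam / 2 := by
          have h7 : (4 : ℝ) ≤ 2 ^ (q + 1 + 2) := by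
            calc (4 : ℝ) = 2 ^ 2 := by norm_num
              _ ≤ 2 ^ (q + 1 + 2) := pow_le_pow_right₀ (by norm_num) (by omega)
          have h8 : 4 * (H : ℝ) * mu ≤ 2 ^ (q + 1 + 2) * ((Z : ℝ) * h0) * mu := by
            rw [← hHr]
            apply mul_le_mul_of_nonneg_right _ hmu
            apply mul_le_mul_of_nonneg_right h7 (by linarith)
          have h9 : mu * ‖zc h‖ ≤ mu * (2 * H) := mul_le_mul_of_nonneg_left hnle hmu
          exact half_aux52 h9 h8 he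
        have h10 : mu * ‖zc h‖ ^ 2 ≤ lam / 2 * ‖zc h‖ := by
          calc mu * ‖zc h‖ ^ 2 = mu * ‖zc h‖ * ‖zc h‖ := by ring
            _ ≤ lam / 2 * ‖zc h‖ := mul_le_mul_of_nonneg_right h6 (norm_nonneg _)
        linarith
      have hup' : ∀ z ∈ Om', ‖F (q + 1) (z + zc h) - F (q + 1) z‖ ≤ ‖zc h‖ * Lam := by
        intro z hz
        have := hOm.norm_image_sub_le_of_norm_hasDerivWithin_le (f := F (q + 1))
          (f' := F (q + 1 + 1)) (C := Lam)
          (fun x hx => (hF (q + 1) x hx).hasDerivWithinAt) hup (hmem z hz).1 (hmem z hz).2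
        rw [add_sub_cancel_left] at this
        linarith
      have h2' : ∀ z ∈ Om', ‖F (q + 2) (z + zc h) - F (q + 2) z‖ ≤ ‖zc h‖ * mu := by
        intro z hz
        have := hOm.norm_image_sub_le_of_norm_hasDerivWithin_le (f := F (q + 2))
          (f' := F (q + 2 + 1)) (C := mu)
          (fun x hx => (hF (q + 2) x hx).hasDerivWithinAt) h2 (hmem z hz).1 (hmem z hz).2
        rw [add_sub_cancel_left] at this
        linarith
      have hR' : ∀ w ∈ rect (max x0 (x0 - h.1)) (min x1 (x1 - h.1))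
            (max y0 (y0 - h.2)) (min y1 (y1 - h.2)), zc w ∈ Om' := by
        intro w hw
        rw [← rect_filter, Finset.mem_filter] at hw
        refine ⟨hR w hw.1, ?_⟩
        show zc w + zc h ∈ Om
        rw [← zc_add]
        exact hR _ hw.2
      have hLam : 0 ≤ Lam ∨ Om' = ∅ := by
        by_cases hne : Om' = ∅
        · exact Or.inr hne
        · left
          obtain ⟨z, hz⟩ := Set.nonempty_iff_ne_empty.mpr hne
          exact le_trans (norm_nonneg _) (hup z (hmem z hz).1)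
      have hfsum : ∑ u ∈ rect (max x0 (x0 - h.1)) (min x1 (x1 - h.1))
            (max y0 (y0 - h.2)) (min y1 (y1 - h.2)),
          f (u + h) * (starRingEnd ℂ) (f u)
          = ∑ w ∈ rect (max x0 (x0 - h.1)) (min x1 (x1 - h.1))
            (max y0 (y0 - h.2)) (min y1 (y1 - h.2)),
              ph (F 0 (zc w + zc h) - F 0 (zc w)).im := by
        apply Finset.sum_congr rfl
        intro u _
        simp only [hf]
        rw [ph_mul_conj, zc_add, Complex.sub_im]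
      rcases hLam with hLam | hemp
      · have hih := ih (fun k z => F k (z + zc h) - F k z) Om' (‖zc h‖ * lam / 2)
          (‖zc h‖ * Lam) (‖zc h‖ * mu) (max x0 (x0 - h.1)) (min x1 (x1 - h.1))
          (max y0 (y0 - h.2)) (min y1 (y1 - h.2)) hOmc (by positivity) (by positivity)
          hF' hlow' hup' h2' (by omega) (by omega) hR' ?_ ?_ ?_ ?_
        · simp only [hSh]
          rw [hfsum]
          exact hih
        · -- (a)
          rw [← hHr] at ha ⊢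
          calc ‖zc h‖ * Lam * (2 * (H : ℝ)) ^ q ≤ (2 * (H : ℝ)) * Lam * (2 * (H : ℝ)) ^ q := by
                apply mul_le_mul_of_nonneg_right _ (by positivity)
                exact mul_le_mul_of_nonneg_right hnle hLam
            _ = Lam * (2 * (H : ℝ)) ^ (q + 1) := by ring
            _ ≤ 1 := ha
        · -- (b)
          calc (Z : ℝ) ≤ l * lam * ((h0 : ℝ) / 2) ^ (q + 1) := hb
            _ = l * (h0 * lam / 2) * ((h0 : ℝ) / 2) ^ q := by ring
            _ ≤ l * (‖zc h‖ * lam / 2) * ((h0 : ℝ) / 2) ^ q := by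
                apply mul_le_mul_of_nonneg_right _ (by positivity)
                apply mul_le_mul_of_nonneg_left _ (by linarith)
                have := mul_le_mul_of_nonneg_right hnge hlam.le
                linarith
        · -- (c)
          rw [← hHr] at hc ⊢
          calc ‖zc h‖ * mu * (2 * (H : ℝ)) ^ q * (l : ℝ) ^ 2 * Z
              ≤ (2 * (H : ℝ)) * mu * (2 * (H : ℝ)) ^ q * (l : ℝ) ^ 2 * Z := by
                apply mul_le_mul_of_nonneg_right _ (by linarith)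
                apply mul_le_mul_of_nonneg_right _ (by positivity)
                apply mul_le_mul_of_nonneg_right _ (by positivity)
                exact mul_le_mul_of_nonneg_right hnle hmu
            _ = mu * (2 * (H : ℝ)) ^ (q + 1) * (l : ℝ) ^ 2 * Z := by ring
            _ ≤ 1 := hc
        · -- (e)
          have h11 : 2 ^ (q + 2) * ((Z : ℝ) * h0) * mu ≤ lam / 2 := by
            have e : (2 : ℝ) ^ (q + 1 + 2) * ((Z : ℝ) * h0) * mu
                = 2 * (2 ^ (q + 2) * ((Z : ℝ) * h0) * mu) := by ring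
            rw [e] at he
            linarith
          calc 2 ^ (q + 2) * ((Z : ℝ) * h0) * (‖zc h‖ * mu)
              = ‖zc h‖ * (2 ^ (q + 2) * ((Z : ℝ) * h0) * mu) := by ring
            _ ≤ ‖zc h‖ * (lam / 2) := mul_le_mul_of_nonneg_left h11 (norm_nonneg _)
            _ = ‖zc h‖ * lam / 2 := by ring
      · -- no points at all
        have hempty : rect (max x0 (x0 - h.1)) (min x1 (x1 - h.1))
            (max y0 (y0 - h.2)) (min y1 (y1 - h.2)) = ∅ := by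
          rw [Finset.eq_empty_iff_forall_notMem]
          intro w hw
          have := hR' w hw
          rw [hemp] at this
          exact this
        simp only [hSh]
        rw [hempty, Finset.sum_empty, norm_zero, zero_div, zero_pow (by positivity)]
        have := Cw_pos q
        positivity
    -- assembling
    have hShnn : ∀ h, 0 ≤ Sh h / (l0 : ℝ) ^ 2 := fun h => by
      simp only [hSh]
      positivity
    have hsum : ∑ k ∈ K, ∑ k' ∈ K, (Sh (k - k') / (l0 : ℝ) ^ 2) ^ (2 ^ q)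
        ≤ ((H : ℝ) ^ 2) ^ 2 * (Cw q / Z) + (H : ℝ) ^ 2 * (2 * (h0 : ℝ)) ^ 2 := by
      rw [Finset.sum_comm]
      have h3 : ∀ k' ∈ K, ∑ k ∈ K, (Sh (k - k') / (l0 : ℝ) ^ 2) ^ (2 ^ q)
          ≤ (H : ℝ) ^ 2 * (Cw q / Z) + (2 * (h0 : ℝ)) ^ 2 := by
        intro k' hk'
        have h4 : ∀ k ∈ K, (Sh (k - k') / (l0 : ℝ) ^ 2) ^ (2 ^ q)
            ≤ Cw q / Z + (if |(k - k').1| < (h0 : ℤ) ∧ |(k - k').2| < (h0 : ℤ)
              then 1 else 0) := by
          intro k hk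
          split_ifs with hcl
          · have h5 : (Sh (k - k') / (l0 : ℝ) ^ 2) ^ (2 ^ q) ≤ 1 :=
              pow_le_one₀ (hShnn _) (htriv _)
            have h6 : 0 ≤ Cw q / Z := by
              have := Cw_pos q
              positivity
            linarith
          · rw [add_zero]
            rw [hK, Finset.mem_product, Finset.mem_Ico, Finset.mem_Ico] at hk hk'
            apply hmain _ _ _ hcl
            · rw [abs_lt, Prod.fst_sub]
              omega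
            · rw [abs_lt, Prod.snd_sub]
              omega
        refine le_trans (Finset.sum_le_sum h4) ?_
        rw [Finset.sum_add_distrib, Finset.sum_const, hKc, nsmul_eq_mul, Finset.sum_boole]
        push_cast
        have h7 := card_close H h0 k'
        have h8 : ((K.filter (fun k => |(k - k').1| < (h0 : ℤ)
            ∧ |(k - k').2| < (h0 : ℤ))).card : ℝ) ≤ (2 * (h0 : ℝ)) ^ 2 := by
          exact_mod_cast h7
        linarith
      refine le_trans (Finset.sum_le_sum h3) ?_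
      rw [Finset.sum_const, hKc, nsmul_eq_mul]
      push_cast
      apply le_of_eq
      ring
    have hpm : (∑ p ∈ K ×ˢ K, (1 / ((H : ℝ) ^ 2) ^ 2) * (Sh (p.1 - p.2) / (l0 : ℝ) ^ 2))
          ^ (2 ^ q)
        ≤ ∑ p ∈ K ×ˢ K, (1 / ((H : ℝ) ^ 2) ^ 2)
          * (Sh (p.1 - p.2) / (l0 : ℝ) ^ 2) ^ (2 ^ q) := by
      apply Real.pow_arith_mean_le_arith_mean_pow (K ×ˢ K)
        (fun _ => 1 / ((H : ℝ) ^ 2) ^ 2) (fun p => Sh (p.1 - p.2) / (l0 : ℝ) ^ 2)
      · intro p _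
        positivity
      · rw [Finset.sum_const, Finset.card_product, hKc, nsmul_eq_mul]
        push_cast
        field_simp
      · intro p _
        exact hShnn _
    set T : ℝ := ‖∑ w ∈ rect x0 x1 y0 y1, f w‖ / (l0 : ℝ) ^ 2 with hT
    have hT2 : T ^ 2 ≤ 4 * ∑ p ∈ K ×ˢ K, (1 / ((H : ℝ) ^ 2) ^ 2)
        * (Sh (p.1 - p.2) / (l0 : ℝ) ^ 2) := by
      rw [← Finset.mul_sum, Finset.sum_product, hT]
      have e1 : ∑ k ∈ K, ∑ k' ∈ K, Sh (k - k') / (l0 : ℝ) ^ 2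
          = (∑ k ∈ K, ∑ k' ∈ K, Sh (k - k')) / (l0 : ℝ) ^ 2 := by
        rw [Finset.sum_div]
        apply Finset.sum_congr rfl
        intro k _
        rw [Finset.sum_div]
      rw [e1]
      have e2 : 4 * (1 / ((H : ℝ) ^ 2) ^ 2 * ((∑ k ∈ K, ∑ k' ∈ K, Sh (k - k'))
          / (l0 : ℝ) ^ 2)) = (4 * (l0 : ℝ) ^ 2 * ∑ k ∈ K, ∑ k' ∈ K, Sh (k - k'))
            / (((H : ℝ) ^ 2) ^ 2 * ((l0 : ℝ) ^ 2) ^ 2) := by
        field_simp
      rw [e2, le_div_iff₀ (by positivity), div_pow]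
      have e3 : ‖∑ w ∈ rect x0 x1 y0 y1, f w‖ ^ 2 / ((l0 : ℝ) ^ 2) ^ 2
          * (((H : ℝ) ^ 2) ^ 2 * ((l0 : ℝ) ^ 2) ^ 2)
          = ((H : ℝ) ^ 2) ^ 2 * ‖∑ w ∈ rect x0 x1 y0 y1, f w‖ ^ 2 := by
        field_simp
      rw [e3]
      exact hvdc
    have hfin : T ^ (2 ^ (q + 1)) ≤ 4 ^ (2 ^ q) * (Cw q / Z + 4 / Z) := by
      have e1 : T ^ (2 ^ (q + 1)) = (T ^ 2) ^ (2 ^ q) := by
        rw [← pow_mul]
        congr 1
        ring
      rw [e1]
      have h3 : (T ^ 2) ^ (2 ^ q) ≤ (4 * ∑ p ∈ K ×ˢ K, (1 / ((H : ℝ) ^ 2) ^ 2)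
        * (Sh (p.1 - p.2) / (l0 : ℝ) ^ 2)) ^ (2 ^ q) :=
        pow_le_pow_left₀ (sq_nonneg _) hT2 _
      refine le_trans h3 ?_
      rw [mul_pow]
      apply mul_le_mul_of_nonneg_left _ (by positivity)
      refine le_trans hpm ?_
      rw [← Finset.mul_sum, Finset.sum_product]
      have h4 : 1 / ((H : ℝ) ^ 2) ^ 2 * ∑ k ∈ K, ∑ k' ∈ K,
          (Sh (k - k') / (l0 : ℝ) ^ 2) ^ (2 ^ q)
          ≤ 1 / ((H : ℝ) ^ 2) ^ 2 * (((H : ℝ) ^ 2) ^ 2 * (Cw q / Z)
            + (H : ℝ) ^ 2 * (2 * (h0 : ℝ)) ^ 2) :=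
        mul_le_mul_of_nonneg_left hsum (by positivity)
      refine le_trans h4 ?_
      have e5 : 1 / ((H : ℝ) ^ 2) ^ 2 * (((H : ℝ) ^ 2) ^ 2 * (Cw q / Z)
            + (H : ℝ) ^ 2 * (2 * (h0 : ℝ)) ^ 2) = Cw q / Z + 4 / (Z : ℝ) ^ 2 := by
        rw [hHr]
        have hZ0 : (Z : ℝ) ≠ 0 := by positivity
        have hh00 : (h0 : ℝ) ≠ 0 := by positivity
        field_simp
        ring
      rw [e5]
      have h6 : 4 / (Z : ℝ) ^ 2 ≤ 4 / Z :=
        div_le_div_of_nonneg_left (by norm_num) hZpos (le_self_pow₀ hZr two_ne_zero)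
      exact add_le_add le_rfl h6
    have e6 : Cw (q + 1) / Z = 4 ^ (2 ^ q) * (Cw q / Z + 4 / Z) := by
      simp only [Cw]
      ring
    rw [e6]
    exact hfin

end Pool.Agent.Lib.MP_a17b09_nt.LP
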